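import Mathlib
import Pool.Agent.H593.U.SB5

/-!
# Parseval on the centred square, bounds for the kernel
-/

open MeasureTheory Set Filter Topology
open Pool.Agent.H383.Gauss

namespace Pool.Agent.H593.U

/-- the centred unit square -/
def Dq : Set (ℝ × ℝ) := Ico (-(1/2):ℝ) (1/2) ×ˢ Ico (-(1/2):ℝ) (1/2)

lemma measurableSet_Dq : MeasurableSet Dq := measurableSet_Ico.prod measurableSet_Ico

lemma volume_Dq : volume Dq = 1 := by
  unfold Dq
  rw [Measure.volume_eq_prod, Measure.prod_prod, Real.volume_Ico]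
  norm_num

lemma int_ex_unitD (n : ℤ) : ∫ x in Ico (-(1/2):ℝ) (1/2), ex (n * x) = if n = 0 then 1 else 0 := by
  rw [integral_Ico_eq_integral_Ioc, ← intervalIntegral.integral_of_le (by norm_num)]
  split_ifs with h
  · simp [h, ex_zero]
    norm_num
  · have hc : (2 * Real.pi * Complex.I * n : ℂ) ≠ 0 := by
      have : (n:ℂ) ≠ 0 := by exact_mod_cast h
      have hpi : (Real.pi:ℂ) ≠ 0 := by exact_mod_cast Real.pi_pos.ne'
      simp [this]
    have e : ∀ x : ℝ, ex (n * x) = Complex.exp ((2 * Real.pi * Complex.I * n) * x) := by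
      intro x; unfold ex; congr 1; push_cast; ring
    simp_rw [e]
    rw [integral_exp_mul_complex hc]
    have e1 : Complex.exp ((2 * Real.pi * Complex.I * n : ℂ) * (((1/2 : ℝ)) : ℂ)) =
        Complex.exp ((2 * Real.pi * Complex.I * n : ℂ) * (((-(1/2) : ℝ)) : ℂ)) := by
      have h2 : (2 * Real.pi * Complex.I * n : ℂ) * (((1/2 : ℝ)) : ℂ) =
          (2 * Real.pi * Complex.I * n : ℂ) * (((-(1/2) : ℝ)) : ℂ) + n * (2 * Real.pi * Complex.I) := by
        push_cast; ring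
      rw [h2, Complex.exp_add, Complex.exp_int_mul_two_pi_mul_I, mul_one]
    rw [e1, sub_self, zero_div]

lemma int_ex_D (s : ℤ × ℤ) : ∫ a in Dq, ex (dp s a) = if s = 0 then 1 else 0 := by
  unfold Dq
  have e : ∀ a : ℝ × ℝ, ex (dp s a) = ex (s.1 * a.1) * ex (s.2 * a.2) := by
    intro a; unfold dp; rw [ex_add]
  simp_rw [e]
  rw [Measure.volume_eq_prod, setIntegral_prod_mul (fun x => ex (s.1 * x)) (fun y => ex (s.2 * y)),
    int_ex_unitD, int_ex_unitD]
  by_cases h1 : s.1 = 0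
  · by_cases h2 : s.2 = 0
    · have : s = 0 := Prod.ext h1 h2
      simp [this]
    · have : s ≠ 0 := fun h => h2 (by simp [h])
      simp [h2, this]
  · have : s ≠ 0 := fun h => h1 (by simp [h])
    simp [h1, this]

instance finite_Dq : IsFiniteMeasure (volume.restrict Dq) := ⟨by simp [volume_Dq]⟩

lemma integrable_ex_D (s : ℤ × ℤ) : Integrable (fun a => ex (dp s a)) (volume.restrict Dq) := by
  refine Integrable.mono' (g := fun _ => (1:ℝ)) (integrable_const _) ?_ ?_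
  · exact (continuous_ex.comp (continuous_dp s)).aestronglyMeasurable
  · exact Eventually.of_forall fun a => (norm_ex _).le

/-- sesquilinear Parseval identity -/
theorem parsevalD (A : Finset (ℤ × ℤ)) (g h : ℤ × ℤ → ℂ) :
    ∫ a in Dq, (∑ s ∈ A, g s * ex (dp s a)) * (starRingEnd ℂ) (∑ s ∈ A, h s * ex (dp s a)) =
      ∑ s ∈ A, g s * (starRingEnd ℂ) (h s) := by
  have e : ∀ a : ℝ × ℝ, (∑ s ∈ A, g s * ex (dp s a)) * (starRingEnd ℂ) (∑ s ∈ A, h s * ex (dp s a)) =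
      ∑ s ∈ A, ∑ s' ∈ A, (g s * (starRingEnd ℂ) (h s')) * ex (dp (s - s') a) := by
    intro a
    rw [map_sum, Finset.sum_mul_sum]
    apply Finset.sum_congr rfl
    intro s _
    apply Finset.sum_congr rfl
    intro s' _
    have : dp (s - s') a = dp s a + (-dp s' a) := by
      simp only [dp, Prod.fst_sub, Prod.snd_sub]; push_cast; ring
    rw [this, ex_add, ex_neg, map_mul]
    ring
  simp_rw [e]
  rw [integral_finsetSum]
  swap
  · intro s _
    apply integrable_finsetSum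
    intro s' _
    exact (integrable_ex_D _).const_mul _
  apply Finset.sum_congr rfl
  intro s hs
  rw [integral_finsetSum]
  swap
  · intro s' _
    exact (integrable_ex_D _).const_mul _
  rw [Finset.sum_eq_single s]
  · rw [integral_const_mul, int_ex_D]
    simp only [sub_self, if_true, mul_one]
  · intro s' _ hne
    rw [integral_const_mul, int_ex_D, if_neg (by rw [sub_eq_zero]; exact fun h => hne h.symm), mul_zero]
  · intro h; exact absurd hs h

theorem parsevalD_norm (A : Finset (ℤ × ℤ)) (g : ℤ × ℤ → ℂ) :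
    ∫ a in Dq, ‖∑ s ∈ A, g s * ex (dp s a)‖ ^ 2 = ∑ s ∈ A, ‖g s‖ ^ 2 := by
  have h := parsevalD A g g
  have h2 : ((∫ a in Dq, ‖∑ s ∈ A, g s * ex (dp s a)‖ ^ 2 : ℝ) : ℂ) = ((∑ s ∈ A, ‖g s‖ ^ 2 : ℝ) : ℂ) := by
    rw [← integral_complex_ofReal]
    have e : ∀ z : ℂ, z * (starRingEnd ℂ) z = ((‖z‖ ^ 2 : ℝ) : ℂ) := by
      intro z; rw [Complex.mul_conj, Complex.normSq_eq_norm_sq]
    simp_rw [e] at h
    rw [h]
    push_cast; rfl
  exact_mod_cast h2

/-- tails, with arbitrary accuracy -/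
lemma tail_set' {y : ℝ} (hy : 0 < y) {η : ℝ} (hη : 0 < η) (B1 : Finset (ℤ × ℤ)) : ∃ B : Finset (ℤ × ℤ), B1 ⊆ B ∧
    ∀ B2 : Finset (ℤ × ℤ), B ⊆ B2 → ∀ (a : ℝ × ℝ) (t : ℝ), ‖Fs y a t - S B2 (bb y) a t‖ ≤ η := by
  have hs : Summable (bb y) := summ_exp hy
  have hlim := hs.hasSum
  rw [HasSum, SummationFilter.unconditional_filter, Metric.tendsto_atTop] at hlim
  obtain ⟨B0, hB0⟩ := hlim η hη
  refine ⟨B0 ∪ B1, Finset.subset_union_right, ?_⟩
  intro B hBB a t
  have h1 := hB0 B (Finset.subset_union_left.trans hBB)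
  rw [Real.dist_eq] at h1
  set f : ℤ × ℤ → ℂ := fun k => (bb y k : ℂ) * ex (dp k a + t * nz k) with hf
  have hbb : ∀ k, 0 ≤ bb y k := fun k => (Real.exp_pos _).le
  have hfn : ∀ k, ‖f k‖ = bb y k := by
    intro k
    simp only [hf]
    rw [norm_mul, norm_ex, mul_one, Complex.norm_real, Real.norm_of_nonneg (hbb k)]
  have hfs : Summable f := by
    apply Summable.of_norm
    refine hs.congr fun k => (hfn k).symm
  have e1 : Fs y a t = ∑' k, f k := by
    unfold Fs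
    congr 1
    ext k
    exact Fs_term y t a k
  have e2 : Fs y a t - S B (bb y) a t = ∑' k : {k // k ∉ B}, f k := by
    rw [e1, ← hfs.sum_add_tsum_subtype_compl B]
    unfold S
    simp only [hf]
    ring
  rw [e2]
  have h2 : ∑' k : {k // k ∉ B}, bb y k = (∑' k, bb y k) - ∑ k ∈ B, bb y k := by
    rw [← hs.sum_add_tsum_subtype_compl B]; ring
  have h3 : Summable (fun k : {k // k ∉ B} => ‖f k‖) := by
    have : Summable (fun k : {k // k ∉ B} => bb y k) := hs.subtype _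
    exact this.congr fun k => (hfn k).symm
  refine (norm_tsum_le_tsum_norm h3).trans ?_
  simp_rw [hfn]
  rw [h2]
  have := (abs_lt.mp h1).1
  linarith

lemma ex_dp_zc (k q : ℤ × ℤ) (a : ℝ × ℝ) : ex (dp k (a + zc q)) = ex (dp k a) := by
  have : dp k (a + zc q) = dp k a + ((k.1 * q.1 + k.2 * q.2 : ℤ) : ℝ) := by
    unfold dp zc; simp only [Prod.fst_add, Prod.snd_add]; push_cast; ring
  rw [this, ex_add, ex_int, mul_one]

lemma Fs_periodic (y : ℝ) (a : ℝ × ℝ) (q : ℤ × ℤ) (t : ℝ) : Fs y (a + zc q) t = Fs y a t := by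
  unfold Fs
  simp_rw [ex_dp_zc]

lemma exists_mem_Q (a : ℝ × ℝ) : ∃ q : ℤ × ℤ, a + zc q ∈ Q := ⟨(-⌊a.1⌋, -⌊a.2⌋), (mem_Q_iff a _).mpr rfl⟩

/-- uniform bound for the kernel -/
theorem Fs_sup : ∃ C : ℝ, 0 < C ∧ ∀ (y t : ℝ) (a : ℝ × ℝ), 0 < y → y ≤ 1 → 0 ≤ t → t ≤ 1 →
    ‖Fs y a t‖ ≤ C * (y ^ (-(3/2):ℝ) * (y + t) ^ (-(1/2):ℝ)) := by
  have hs := summ_inv (c := 1/12) (by norm_num)
  obtain ⟨C, hC⟩ : ∃ C, C = ∑' z : ℤ × ℤ, ((1/12:ℝ) * (1 + nz z ^ 2)) ^ (-(3/2):ℝ) := ⟨_, rfl⟩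
  have hC0 : 0 ≤ C := by rw [hC]; exact tsum_nonneg (fun z => by have := nz_nonneg z; positivity)
  refine ⟨36 * C + 1, by positivity, ?_⟩
  intro y t a0 hy hy1 ht ht1
  obtain ⟨q, hq⟩ := exists_mem_Q a0
  rw [← Fs_periodic y a0 q]
  generalize a0 + zc q = a at hq
  obtain ⟨h1, h2⟩ := kernel (ζ := zt y t) (by rw [zt_re]; exact hy) a
  have hW : 1/2 ≤ y ^ (-(3/2):ℝ) * (y + t) ^ (-(1/2):ℝ) := by
    have a1 : 1 ≤ y ^ (-(3/2):ℝ) := Real.one_le_rpow_of_pos_of_le_one_of_nonpos hy hy1 (by norm_num)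
    have a2 : (4:ℝ) ^ (-(1/2):ℝ) ≤ (y + t) ^ (-(1/2):ℝ) :=
      Real.rpow_le_rpow_of_nonpos (by linarith) (by linarith) (by norm_num)
    have a3 : (4:ℝ) ^ (-(1/2):ℝ) = 1/2 := by
      rw [Real.rpow_neg (by norm_num), ← Real.sqrt_eq_rpow, show (4:ℝ) = 2 ^ 2 by norm_num, Real.sqrt_sq (by norm_num)]
      norm_num
    rw [a3] at a2
    nlinarith
  set W := y ^ (-(3/2):ℝ) * (y + t) ^ (-(1/2):ℝ) with hWd
  have hterm : ∀ z : ℤ × ℤ, ‖zt y t‖ * kz (zt y t) z a ≤ 36 * W * ((1/12:ℝ) * (1 + nz z ^ 2)) ^ (-(3/2):ℝ) := by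
    intro z
    have hn := nz_nonneg z
    have hw0 : 0 ≤ ((1/12:ℝ) * (1 + nz z ^ 2)) ^ (-(3/2):ℝ) := by positivity
    rcases le_or_gt (2 * t + 1) (da z a) with h | h
    · refine (kz_far hy hy1 ht hq h).trans ?_
      have : 3 * (1 + t) ≤ 36 * W := by linarith
      gcongr
    · refine (kz_near hy ht z a).trans ?_
      have h3 : (max y |da z a - t|) ^ (-(3/2):ℝ) ≤ y ^ (-(3/2):ℝ) :=
        Real.rpow_le_rpow_of_nonpos hy (le_max_left _ _) (by norm_num)
      have h4 : 1 / 12 ≤ ((1/12:ℝ) * (1 + nz z ^ 2)) ^ (-(3/2):ℝ) := by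
        have hsq : sqn a ≤ 2 := by
          unfold Q at hq
          rw [Set.mem_prod, Set.mem_Ico, Set.mem_Ico] at hq
          unfold sqn
          nlinarith [hq.1.1, hq.1.2, hq.2.1, hq.2.2]
        have h5 := one_add_nz_le z a
        have h6 : d2 z a ≤ 9 := by
          rw [← da_sq]
          have := da_nonneg z a
          nlinarith
        have h7 : (1/12:ℝ) * (1 + nz z ^ 2) ≤ 5 := by
          have h8 := sqn_nonneg a
          have h9 := d2_nonneg z a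
          nlinarith
        have h8 : (5:ℝ) ^ (-(3/2):ℝ) ≤ ((1/12:ℝ) * (1 + nz z ^ 2)) ^ (-(3/2):ℝ) :=
          Real.rpow_le_rpow_of_nonpos (by positivity) h7 (by norm_num)
        refine le_trans ?_ h8
        rw [Real.rpow_neg (by norm_num)]
        rw [one_div]
        apply inv_anti₀ (by positivity)
        have h9 : ((5:ℝ) ^ (3/2:ℝ)) ^ 2 ≤ 12 ^ 2 := by
          rw [← Real.rpow_natCast, ← Real.rpow_mul (by norm_num)]; norm_num
        exact (pow_le_pow_iff_left₀ (by positivity) (by norm_num) two_ne_zero).mp h9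
      calc 3 * (y + t) ^ (-(1/2):ℝ) * (max y |da z a - t|) ^ (-(3/2):ℝ)
          ≤ 3 * (y + t) ^ (-(1/2):ℝ) * y ^ (-(3/2):ℝ) := by gcongr
        _ = 36 * W * (1/12) := by rw [hWd]; ring
        _ ≤ _ := by gcongr
  have h3 : ‖zt y t‖ * ∑' z : ℤ × ℤ, kz (zt y t) z a ≤ 36 * W * C := by
    rw [← tsum_mul_left, hC, ← tsum_mul_left]
    exact (h1.mul_left _).tsum_le_tsum hterm (hs.mul_left _)
  calc ‖Fs y a t‖ ≤ ‖zt y t‖ * ∑' z : ℤ × ℤ, kz (zt y t) z a := h2
    _ ≤ 36 * W * C := h3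
    _ ≤ (36 * C + 1) * W := by nlinarith

end Pool.Agent.H593.U
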