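import Mathlib
import Pool.Agent.H593.U7.H1

/-!
# Decay of the kernel, and separated sums
-/

open MeasureTheory Set Filter Topology
open Pool.Agent.H383.Gauss

namespace Pool.Agent.H593.U

lemma kz_le_of {ζ : ℂ} {z : ℤ × ℤ} {a : ℝ × ℝ} {w : ℝ} (hw : 0 < w) (h : w ≤ d2 z a - ‖ζ‖ ^ 2) :
    kz ζ z a ≤ w ^ (-(3/2):ℝ) := by
  unfold kz
  apply Real.rpow_le_rpow_of_nonpos hw _ (by norm_num)
  have h1 : ‖(d2 z a : ℂ)‖ - ‖ζ ^ 2‖ ≤ ‖ζ ^ 2 + (d2 z a : ℂ)‖ := by
    have := norm_sub_le (ζ ^ 2 + (d2 z a : ℂ)) (ζ ^ 2)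
    rw [add_sub_cancel_left] at this
    linarith
  rw [norm_pow, Complex.norm_real, Real.norm_of_nonneg (d2_nonneg z a)] at h1
  linarith

lemma three_quarters : (3/4:ℝ) ^ (-(3/2):ℝ) ≤ 2 := by
  have h : ((3/4:ℝ) ^ (-(3/2):ℝ)) ^ 2 ≤ 2 ^ 2 := by
    rw [← Real.rpow_natCast, ← Real.rpow_mul (by norm_num)]
    have : (-(3/2):ℝ) * ((2:ℕ):ℝ) = -((3:ℕ):ℝ) := by push_cast; norm_num
    rw [this, Real.rpow_neg (by norm_num), Real.rpow_natCast]
    norm_num
  exact (pow_le_pow_iff_left₀ (by positivity) (by norm_num) two_ne_zero).mp h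

/-- decay of the kernel -/
theorem Fs_far : ∃ C : ℝ, 0 < C ∧ ∀ (y t r : ℝ) (v : ℝ × ℝ), 0 < y → 0 ≤ t → y + t ≤ 3/16 → |v.1| ≤ 5/8 → |v.2| ≤ 5/8 →
    0 < r → r ≤ max |v.1| |v.2| → 2 * (y + t) ≤ r →
    ‖Fs y v t‖ ≤ C * (y + t) * ((|v.1| + r) ^ (-(3/2):ℝ) * (|v.2| + r) ^ (-(3/2):ℝ)) := by
  have hs := summ_inv (c := 27/512) (by norm_num)
  obtain ⟨C, hC⟩ : ∃ C, C = ∑' z : ℤ × ℤ, ((27/512:ℝ) * (1 + nz z ^ 2)) ^ (-(3/2):ℝ) := ⟨_, rfl⟩
  have hC0 : 0 ≤ C := by rw [hC]; exact tsum_nonneg (fun z => by have := nz_nonneg z; positivity)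
  refine ⟨16 + 2 * C, by positivity, ?_⟩
  intro y t r v hy ht hyt hv1 hv2 hr hrm h2r
  obtain ⟨h1, h2⟩ := kernel (ζ := zt y t) (by rw [zt_re]; exact hy) v
  have hζ := norm_zt_le hy.le ht
  have hζ0 : 0 ≤ ‖zt y t‖ := norm_nonneg _
  set m := max |v.1| |v.2| with hm
  have hm0 : 0 < m := hr.trans_le hrm
  have hm58 : m ≤ 5/8 := max_le hv1 hv2
  have hmsq : m ^ 2 ≤ d2 0 v := by
    rw [d2_zero]; unfold sqn
    rcases max_choice |v.1| |v.2| with h | h
    · rw [hm, h, sq_abs]; nlinarith [sq_nonneg v.2]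
    · rw [hm, h, sq_abs]; nlinarith [sq_nonneg v.1]
  -- terms
  set f : ℤ × ℤ → ℝ := fun z => (if z = 0 then ((3/4) * m ^ 2) ^ (-(3/2):ℝ) else 0) +
    ((27/512:ℝ) * (1 + nz z ^ 2)) ^ (-(3/2):ℝ) with hf
  have hterm : ∀ z, kz (zt y t) z v ≤ f z := by
    intro z
    have hn := nz_nonneg z
    simp only [hf]
    by_cases hz : z = 0
    · rw [if_pos hz, hz]
      have h3 : kz (zt y t) 0 v ≤ ((3/4) * m ^ 2) ^ (-(3/2):ℝ) := by
        apply kz_le_of (by positivity)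
        have : ‖zt y t‖ ^ 2 ≤ (m / 2) ^ 2 := by
          apply pow_le_pow_left₀ hζ0
          linarith
        nlinarith
      have : 0 ≤ ((27/512:ℝ) * (1 + nz 0 ^ 2)) ^ (-(3/2):ℝ) := by positivity
      linarith
    · rw [if_neg hz, zero_add]
      apply kz_le_of (by positivity)
      have hnz : 1 ≤ nz z := nz_ge_one hz
      have hnz2 : nz z ^ 2 = (z.1:ℝ) ^ 2 + (z.2:ℝ) ^ 2 := Real.sq_sqrt (by positivity)
      have hco : ∀ (n : ℤ) (u : ℝ), |u| ≤ 5/8 → 9/64 * (n:ℝ) ^ 2 ≤ ((n:ℝ) - u) ^ 2 := by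
        intro n u hu
        have h3 : 3/8 * |(n:ℝ)| ≤ |(n:ℝ) - u| := by
          rcases eq_or_ne n 0 with h0 | h0
          · subst h0; simp
          · have h4 : (1:ℝ) ≤ |(n:ℝ)| := by
              have := Int.one_le_abs h0
              exact_mod_cast this
            have h5 := abs_sub_abs_le_abs_sub (n:ℝ) u
            linarith
        have h4 : (3/8 * |(n:ℝ)|) ^ 2 ≤ |(n:ℝ) - u| ^ 2 := pow_le_pow_left₀ (by positivity) h3 2
        rw [sq_abs, mul_pow, sq_abs] at h4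
        linarith
      have hd : 9/64 * nz z ^ 2 ≤ d2 z v := by
        unfold d2
        rw [hnz2]
        have a := hco z.1 v.1 hv1
        have b := hco z.2 v.2 hv2
        linarith
      have hζ2 : ‖zt y t‖ ^ 2 ≤ (3/16) ^ 2 := pow_le_pow_left₀ hζ0 (hζ.trans hyt) 2
      nlinarith
  have hf1 : HasSum f (((3/4) * m ^ 2) ^ (-(3/2):ℝ) + C) := by
    rw [hC]
    exact (hasSum_ite_eq 0 _).add hs.hasSum
  have hsum : ∑' z : ℤ × ℤ, kz (zt y t) z v ≤ ((3/4) * m ^ 2) ^ (-(3/2):ℝ) + C := by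
    rw [← hf1.tsum_eq]
    exact h1.tsum_le_tsum hterm hf1.summable
  -- comparison with the product
  set P := (|v.1| + r) ^ (-(3/2):ℝ) * (|v.2| + r) ^ (-(3/2):ℝ) with hP
  have hPm : (2 * m) ^ (-(3/2):ℝ) * (2 * m) ^ (-(3/2):ℝ) ≤ P := by
    rw [hP]
    have a1 : |v.1| ≤ m := le_max_left _ _
    have a2 : |v.2| ≤ m := le_max_right _ _
    have b1 : (2 * m) ^ (-(3/2):ℝ) ≤ (|v.1| + r) ^ (-(3/2):ℝ) :=
      Real.rpow_le_rpow_of_nonpos (by positivity) (by linarith) (by norm_num)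
    have b2 : (2 * m) ^ (-(3/2):ℝ) ≤ (|v.2| + r) ^ (-(3/2):ℝ) :=
      Real.rpow_le_rpow_of_nonpos (by positivity) (by linarith) (by norm_num)
    gcongr
  have hPe : (2 * m) ^ (-(3/2):ℝ) * (2 * m) ^ (-(3/2):ℝ) = 1 / (8 * m ^ 3) := by
    rw [← Real.rpow_add (by positivity)]
    have : (-(3/2):ℝ) + -(3/2) = -((3:ℕ):ℝ) := by push_cast; norm_num
    rw [this, Real.rpow_neg (by positivity), Real.rpow_natCast, one_div]
    congr 1; ring
  rw [hPe] at hPm
  have hm3 : ((3/4) * m ^ 2) ^ (-(3/2):ℝ) ≤ 2 * (1 / m ^ 3) := by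
    rw [Real.mul_rpow (by norm_num) (by positivity)]
    have e : (m ^ 2) ^ (-(3/2):ℝ) = 1 / m ^ 3 := by
      rw [← Real.rpow_natCast m 2, ← Real.rpow_mul hm0.le]
      have : ((2:ℕ):ℝ) * (-(3/2):ℝ) = -((3:ℕ):ℝ) := by push_cast; norm_num
      rw [this, Real.rpow_neg hm0.le, Real.rpow_natCast, one_div]
    rw [e]
    gcongr
    exact three_quarters
  have hP1 : 1 / m ^ 3 ≤ 8 * P := by
    have e : 1 / m ^ 3 = 8 * (1 / (8 * m ^ 3)) := by field_simp
    rw [e]; gcongr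
  have hP2 : 1 ≤ 2 * P := by
    have h3 : m ^ 3 ≤ 1/4 := by
      calc m ^ 3 ≤ (5/8) ^ 3 := by gcongr
        _ ≤ 1/4 := by norm_num
    have h4 : 1/2 ≤ 1 / (8 * m ^ 3) := by
      rw [div_le_div_iff₀ (by norm_num) (by positivity)]
      linarith
    linarith
  calc ‖Fs y v t‖ ≤ ‖zt y t‖ * ∑' z : ℤ × ℤ, kz (zt y t) z v := h2
    _ ≤ (y + t) * (((3/4) * m ^ 2) ^ (-(3/2):ℝ) + C) :=
        mul_le_mul hζ hsum (tsum_nonneg (fun z => by unfold kz; positivity)) (by linarith)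
    _ ≤ (y + t) * (16 * P + 2 * C * P) := by
        have : C ≤ 2 * C * P := by nlinarith
        have h5 : ((3/4) * m ^ 2) ^ (-(3/2):ℝ) ≤ 16 * P := by linarith
        gcongr
    _ = _ := by ring

/-- one-dimensional integral -/
lemma int_pole {r : ℝ} (hr : 0 < r) (hr1 : r ≤ 1) : Integrable (fun x : ℝ => (|x| + r) ^ (-(3/2):ℝ)) ∧
    ∫ x : ℝ, (|x| + r) ^ (-(3/2):ℝ) = 4 * r ^ (-(1/2):ℝ) := by
  constructor
  · have h1 : Integrable (fun x : ℝ => (1 + ‖x‖) ^ (-(3/2):ℝ)) := by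
      apply integrable_one_add_norm
      simp
      norm_num
    refine Integrable.mono' (h1.const_mul (r ^ (-(3/2):ℝ))) ?_ ?_
    · have hc : Continuous (fun x : ℝ => (|x| + r) ^ (-(3/2):ℝ)) := by
        apply Continuous.rpow_const
        · fun_prop
        · intro x; left; positivity
      exact hc.aestronglyMeasurable
    · refine Eventually.of_forall fun x => ?_
      rw [Real.norm_of_nonneg (by positivity), Real.norm_eq_abs, ← Real.mul_rpow hr.le (by positivity)]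
      apply Real.rpow_le_rpow_of_nonpos (by positivity) _ (by norm_num)
      nlinarith [abs_nonneg x]
  · have h1 : ∫ x : ℝ, (|x| + r) ^ (-(3/2):ℝ) = 2 * ∫ x in Ioi (0:ℝ), (x + r) ^ (-(3/2):ℝ) :=
      integral_comp_abs (f := fun x => (x + r) ^ (-(3/2):ℝ))
    rw [h1]
    have h2 : ∫ x in Ioi (0:ℝ), (x + r) ^ (-(3/2):ℝ) = 0 - (-2 * (0 + r) ^ (-(1/2):ℝ)) := by
      apply integral_Ioi_of_hasDerivAt_of_nonneg' (g := fun x => -2 * (x + r) ^ (-(1/2):ℝ))
      · intro x hx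
        rw [mem_Ici] at hx
        have h3 : HasDerivAt (fun x : ℝ => x + r) 1 x := (hasDerivAt_id x).add_const r
        have h4 := h3.rpow_const (p := -(1/2:ℝ)) (Or.inl (by positivity))
        have h5 := h4.const_mul (-2:ℝ)
        refine h5.congr_deriv ?_
        rw [show (-(1/2:ℝ)) - 1 = -(3/2) by norm_num]; ring
      · intro x hx
        rw [mem_Ioi] at hx
        positivity
      · have h3 : Tendsto (fun x : ℝ => (x + r) ^ (-(1/2):ℝ)) atTop (𝓝 0) :=
          (tendsto_rpow_neg_atTop (by norm_num : (0:ℝ) < 1/2)).comp (tendsto_atTop_add_const_right _ r tendsto_id)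
        simpa using h3.const_mul (-2)
    rw [h2, zero_add]; ring

/-- integral of the product over the square -/
lemma int_pole2 {r : ℝ} (hr : 0 < r) (hr1 : r ≤ 1) (α : ℝ × ℝ) :
    Integrable (fun x : ℝ × ℝ => (|α.1 - x.1| + r) ^ (-(3/2):ℝ) * (|α.2 - x.2| + r) ^ (-(3/2):ℝ)) (volume.restrict Dq) ∧
    ∫ x in Dq, (|α.1 - x.1| + r) ^ (-(3/2):ℝ) * (|α.2 - x.2| + r) ^ (-(3/2):ℝ) ≤ 16 / r := by
  have h1 : ∀ a : ℝ, Integrable (fun x : ℝ => (|a - x| + r) ^ (-(3/2):ℝ)) ∧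
      ∫ x in Ico (-(1/2):ℝ) (1/2), (|a - x| + r) ^ (-(3/2):ℝ) ≤ 4 * r ^ (-(1/2):ℝ) := by
    intro a
    have hi := (int_pole hr hr1).1.comp_sub_left a
    refine ⟨hi, ?_⟩
    rw [← (int_pole hr hr1).2, ← integral_sub_left_eq_self (fun x => (|x| + r) ^ (-(3/2):ℝ)) volume a]
    apply setIntegral_le_integral hi
    exact Eventually.of_forall fun x => by positivity
  have hcont : Continuous (fun x : ℝ × ℝ => (|α.1 - x.1| + r) ^ (-(3/2):ℝ) * (|α.2 - x.2| + r) ^ (-(3/2):ℝ)) := by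
    apply Continuous.mul
    · apply Continuous.rpow_const
      · fun_prop
      · intro x; left; positivity
    · apply Continuous.rpow_const
      · fun_prop
      · intro x; left; positivity
  constructor
  · refine Integrable.mono' (g := fun _ => r ^ (-(3/2):ℝ) * r ^ (-(3/2):ℝ)) (integrable_const _) hcont.aestronglyMeasurable ?_
    refine Eventually.of_forall fun x => ?_
    rw [Real.norm_of_nonneg (by positivity)]
    have a1 : (|α.1 - x.1| + r) ^ (-(3/2):ℝ) ≤ r ^ (-(3/2):ℝ) :=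
      Real.rpow_le_rpow_of_nonpos hr (by have := abs_nonneg (α.1 - x.1); linarith) (by norm_num)
    have a2 : (|α.2 - x.2| + r) ^ (-(3/2):ℝ) ≤ r ^ (-(3/2):ℝ) :=
      Real.rpow_le_rpow_of_nonpos hr (by have := abs_nonneg (α.2 - x.2); linarith) (by norm_num)
    gcongr
  · unfold Dq
    rw [Measure.volume_eq_prod, setIntegral_prod_mul (fun x => (|α.1 - x| + r) ^ (-(3/2):ℝ))
      (fun x => (|α.2 - x| + r) ^ (-(3/2):ℝ))]
    have b1 := (h1 α.1).2
    have b2 := (h1 α.2).2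
    have c2 : 0 ≤ ∫ x in Ico (-(1/2):ℝ) (1/2), (|α.2 - x| + r) ^ (-(3/2):ℝ) :=
      integral_nonneg (fun x => by positivity)
    calc _ ≤ (4 * r ^ (-(1/2):ℝ)) * (4 * r ^ (-(1/2):ℝ)) := by gcongr
      _ = 16 * (r ^ (-(1/2):ℝ) * r ^ (-(1/2):ℝ)) := by ring
      _ = 16 / r := by
          rw [← Real.rpow_add hr]
          norm_num
          rw [Real.rpow_neg_one, div_eq_mul_inv]

lemma sum_inv_sqrt (J : ℕ) : ∑ n ∈ Finset.range J, (1 / √((n:ℝ) + 1)) ≤ 2 * √J := by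
  induction J with
  | zero => simp
  | succ J ih =>
    rw [Finset.sum_range_succ]
    push_cast
    have h1 : 0 < √((J:ℝ) + 1) := by positivity
    have h2 : √(J:ℝ) ≤ √((J:ℝ) + 1) := Real.sqrt_le_sqrt (by linarith)
    have h3 : √(J:ℝ) * √(J:ℝ) = J := Real.mul_self_sqrt (by positivity)
    have h4 : √((J:ℝ) + 1) * √((J:ℝ) + 1) = J + 1 := Real.mul_self_sqrt (by positivity)
    have h5 : 1 / √((J:ℝ) + 1) ≤ 2 * √((J:ℝ) + 1) - 2 * √(J:ℝ) := by
      rw [div_le_iff₀ h1]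
      nlinarith [Real.sqrt_nonneg (J:ℝ)]
    linarith

/-- sums over distinct integers -/
lemma sum_distinct (A : Finset ℤ) : ∑ m ∈ A, (1 / √(|(m:ℝ)| + 1)) ≤ 5 * √(A.card : ℝ) := by
  set J := A.card with hJ
  rcases Nat.eq_zero_or_pos J with h0 | h0
  · have : A = ∅ := Finset.card_eq_zero.mp (hJ ▸ h0)
    rw [this, h0]; simp
  have hJ0 : (0:ℝ) < J := by exact_mod_cast h0
  rw [← Finset.sum_filter_add_sum_filter_not A (fun m => m.natAbs < J)]
  have h1 : ∑ m ∈ A.filter (fun m => m.natAbs < J), (1 / √(|(m:ℝ)| + 1)) ≤ 4 * √J := by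
    have hmap : ∀ m ∈ A.filter (fun m => m.natAbs < J), m.natAbs ∈ Finset.range J := by
      intro m hm
      rw [Finset.mem_filter] at hm
      exact Finset.mem_range.mpr hm.2
    rw [← Finset.sum_fiberwise_of_maps_to hmap]
    calc ∑ n ∈ Finset.range J, ∑ m ∈ (A.filter (fun m => m.natAbs < J)).filter (fun m => m.natAbs = n), (1 / √(|(m:ℝ)| + 1))
        ≤ ∑ n ∈ Finset.range J, 2 * (1 / √((n:ℝ) + 1)) := by
          apply Finset.sum_le_sum
          intro n _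
          have h2 : ∀ m ∈ (A.filter (fun m => m.natAbs < J)).filter (fun m => m.natAbs = n),
              (1 / √(|(m:ℝ)| + 1)) = 1 / √((n:ℝ) + 1) := by
            intro m hm
            rw [Finset.mem_filter] at hm
            have : |(m:ℝ)| = (n:ℝ) := by
              rw [← hm.2, Nat.cast_natAbs]; push_cast; rfl
            rw [this]
          rw [Finset.sum_congr rfl h2, Finset.sum_const, nsmul_eq_mul]
          have h3 : ((A.filter (fun m => m.natAbs < J)).filter (fun m => m.natAbs = n)).card ≤ 2 := by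
            have h4 : (A.filter (fun m => m.natAbs < J)).filter (fun m => m.natAbs = n) ⊆ ({(n:ℤ), -(n:ℤ)} : Finset ℤ) := by
              intro m hm
              rw [Finset.mem_filter] at hm
              rw [Finset.mem_insert, Finset.mem_singleton]
              omega
            exact (Finset.card_le_card h4).trans Finset.card_le_two
          gcongr
          exact_mod_cast h3
      _ = 2 * ∑ n ∈ Finset.range J, (1 / √((n:ℝ) + 1)) := by rw [Finset.mul_sum]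
      _ ≤ 2 * (2 * √J) := by gcongr; exact sum_inv_sqrt J
      _ = _ := by ring
  have h2 : ∑ m ∈ A.filter (fun m => ¬ m.natAbs < J), (1 / √(|(m:ℝ)| + 1)) ≤ √J := by
    calc ∑ m ∈ A.filter (fun m => ¬ m.natAbs < J), (1 / √(|(m:ℝ)| + 1))
        ≤ ∑ m ∈ A.filter (fun m => ¬ m.natAbs < J), (1 / √(J:ℝ)) := by
          apply Finset.sum_le_sum
          intro m hm
          rw [Finset.mem_filter, not_lt] at hm
          have h3 : (J:ℝ) ≤ |(m:ℝ)| := by
            have : (J:ℝ) ≤ (m.natAbs : ℝ) := by exact_mod_cast hm.2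
            rwa [Nat.cast_natAbs, Int.cast_abs] at this
          have h4 : √(J:ℝ) ≤ √(|(m:ℝ)| + 1) := Real.sqrt_le_sqrt (by linarith)
          have h5 : 0 < √(J:ℝ) := Real.sqrt_pos.mpr hJ0
          exact one_div_le_one_div_of_le h5 h4
      _ = ((A.filter (fun m => ¬ m.natAbs < J)).card : ℝ) * (1 / √(J:ℝ)) := by
          rw [Finset.sum_const, nsmul_eq_mul]
      _ ≤ (J:ℝ) * (1 / √(J:ℝ)) := by
          have h7 : (A.filter (fun m => ¬ m.natAbs < J)).card ≤ J := by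
            rw [hJ]; exact Finset.card_le_card (Finset.filter_subset _ _)
          have h8 : ((A.filter (fun m => ¬ m.natAbs < J)).card : ℝ) ≤ J := by exact_mod_cast h7
          gcongr
      _ = √J := by
          have h5 : √(J:ℝ) * √(J:ℝ) = J := Real.mul_self_sqrt hJ0.le
          have h6 : √(J:ℝ) ≠ 0 := (Real.sqrt_pos.mpr hJ0).ne'
          field_simp
          linarith
  linarith

/-- separated sum -/
lemma sep_sum {K : ℝ} (hK : 1 ≤ K) (T : Finset ℝ) (hsep : ∀ s ∈ T, ∀ t ∈ T, s ≠ t → 1 / K ≤ |s - t|) (t : ℝ) :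
    ∑ s ∈ T, (1 / K + |t - s|) ^ (-(1/2):ℝ) ≤ 10 * √K * √(T.card : ℝ) := by
  have hK0 : 0 < K := by linarith
  have hinj : Set.InjOn (fun s => ⌊K * (s - t)⌋) (T : Set ℝ) := by
    intro a ha b hb hab
    by_contra hne
    have h1 := hsep a ha b hb hne
    simp only at hab
    have h2 := Int.abs_sub_lt_one_of_floor_eq_floor hab
    have h3 : K * (a - t) - K * (b - t) = K * (a - b) := by ring
    rw [h3, abs_mul, abs_of_pos hK0] at h2
    have h4 : 1 ≤ K * |a - b| := by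
      calc (1:ℝ) = K * (1 / K) := by field_simp
        _ ≤ _ := by gcongr
    linarith
  have hterm : ∀ s ∈ T, (1 / K + |t - s|) ^ (-(1/2):ℝ) ≤ (2 * √K) * (1 / √(|((⌊K * (s - t)⌋ : ℤ) : ℝ)| + 1)) := by
    intro s _
    set m := ⌊K * (s - t)⌋ with hm
    have hm1 : |(m:ℝ)| ≤ K * |t - s| + 1 := by
      have h1 := Int.floor_le (K * (s - t))
      have h2 := Int.lt_floor_add_one (K * (s - t))
      have h3 : |K * (s - t)| = K * |t - s| := by rw [abs_mul, abs_of_pos hK0, abs_sub_comm]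
      have h4 := abs_le.mp (le_of_eq h3)
      rw [abs_le]
      constructor <;> linarith [h4.1, h4.2]
    have h5 : (|(m:ℝ)| + 1) / (2 * K) ≤ 1 / K + |t - s| := by
      rw [div_le_iff₀ (by positivity)]
      have : (1 / K + |t - s|) * (2 * K) = 2 + 2 * (K * |t - s|) := by field_simp
      rw [this]
      have := abs_nonneg (t - s)
      nlinarith [mul_nonneg hK0.le this]
    have h6 : (1 / K + |t - s|) ^ (-(1/2):ℝ) ≤ ((|(m:ℝ)| + 1) / (2 * K)) ^ (-(1/2):ℝ) :=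
      Real.rpow_le_rpow_of_nonpos (by positivity) h5 (by norm_num)
    refine h6.trans ?_
    rw [Real.rpow_neg (by positivity), ← Real.sqrt_eq_rpow, Real.sqrt_div (by positivity), inv_div]
    rw [Real.sqrt_mul (by norm_num)]
    have h7 : √(2:ℝ) ≤ 2 := by rw [Real.sqrt_le_left (by norm_num)]; norm_num
    calc √2 * √K / √(|(m:ℝ)| + 1) ≤ 2 * √K / √(|(m:ℝ)| + 1) := by gcongr
      _ = _ := by ring
  calc ∑ s ∈ T, (1 / K + |t - s|) ^ (-(1/2):ℝ)
      ≤ ∑ s ∈ T, (2 * √K) * (1 / √(|((⌊K * (s - t)⌋ : ℤ) : ℝ)| + 1)) := Finset.sum_le_sum hterm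
    _ = (2 * √K) * ∑ m ∈ T.image (fun s => ⌊K * (s - t)⌋), (1 / √(|(m:ℝ)| + 1)) := by
        rw [← Finset.mul_sum, Finset.sum_image hinj]
    _ ≤ (2 * √K) * (5 * √((T.image (fun s => ⌊K * (s - t)⌋)).card : ℝ)) := by gcongr; exact sum_distinct _
    _ = _ := by rw [Finset.card_image_of_injOn hinj]; ring

end Pool.Agent.H593.U
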