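import Mathlib
import Pool.Agent.H593.U7.H2

/-!
# A local large values estimate
-/

open MeasureTheory Set Filter Topology
open Pool.Agent.H383.Gauss

namespace Pool.Agent.H593.U

/-- weights multiplied by a growing exponential -/
noncomputable def cw (y : ℝ) (b : ℤ × ℤ → ℝ) (k : ℤ × ℤ) : ℝ := b k * Real.exp (2 * Real.pi * y * nz k)

lemma cw_mul_bb (y : ℝ) (b : ℤ × ℤ → ℝ) (k : ℤ × ℤ) : cw y b k * bb y k = b k := by
  unfold cw bb
  rw [mul_assoc, ← Real.exp_add]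
  simp

lemma bb_sq (y : ℝ) (k : ℤ × ℤ) : bb y k * bb y k = bb (2 * y) k := by
  unfold bb
  rw [← Real.exp_add]; congr 1; ring

/-- the near set -/
def Nr (ρ : ℝ) : Set (ℝ × ℝ) := Icc (-ρ) ρ ×ˢ Icc (-ρ) ρ

lemma measurableSet_Nr (ρ : ℝ) : MeasurableSet (Nr ρ) := measurableSet_Icc.prod measurableSet_Icc

lemma S_conj (B : Finset (ℤ × ℤ)) (b : ℤ × ℤ → ℝ) (a : ℝ × ℝ) (t : ℝ) :
    S B b (-a) (-t) = (starRingEnd ℂ) (S B b a t) := by
  unfold S
  rw [map_sum]
  apply Finset.sum_congr rfl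
  intro k _
  rw [map_mul, Complex.conj_ofReal, ← ex_neg]
  congr 2
  unfold dp; simp only [Prod.fst_neg, Prod.snd_neg]; ring

/-- bound for the smoothed sum, all times -/
lemma S_bb_le : ∃ C : ℝ, 0 < C ∧ ∀ (K : ℝ) (A : Finset (ℤ × ℤ)), 2 ≤ K →
    (∀ (a : ℝ × ℝ) (t : ℝ), ‖Fs (2 * (1 / K)) a t - S A (bb (2 * (1 / K))) a t‖ ≤ 1 / K) →
    ∀ (a : ℝ × ℝ) (s : ℝ), |s| ≤ 1 → ‖S A (bb (2 * (1 / K))) a s‖ ≤ C * (K ^ (3/2:ℝ) * (1 / K + |s|) ^ (-(1/2):ℝ)) := by
  obtain ⟨C, hC, h⟩ := Fs_sup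
  refine ⟨C + 2, by positivity, ?_⟩
  intro K A hK hA
  have hK0 : 0 < K := by linarith
  have main : ∀ (a : ℝ × ℝ) (s : ℝ), 0 ≤ s → s ≤ 1 →
      ‖S A (bb (2 * (1 / K))) a s‖ ≤ (C + 2) * (K ^ (3/2:ℝ) * (1 / K + s) ^ (-(1/2):ℝ)) := by
    intro a s hs0 hs1
    have h1 := h (2 * (1 / K)) s a (by positivity) (by
      rw [mul_one_div, div_le_one hK0]; exact hK) hs0 hs1
    have h2 := hA a s
    have h3 : ‖S A (bb (2 * (1 / K))) a s‖ ≤ ‖Fs (2 * (1 / K)) a s‖ + 1 / K := by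
      have e : S A (bb (2 * (1 / K))) a s = Fs (2 * (1 / K)) a s - (Fs (2 * (1 / K)) a s - S A (bb (2 * (1 / K))) a s) := by ring
      rw [e]
      exact (norm_sub_le _ _).trans (by gcongr)
    have h4 : (2 * (1 / K)) ^ (-(3/2):ℝ) ≤ K ^ (3/2:ℝ) := by
      have : K ^ (3/2:ℝ) = (1 / K) ^ (-(3/2):ℝ) := by
        rw [one_div, Real.inv_rpow hK0.le, ← Real.rpow_neg hK0.le, neg_neg]
      rw [this]
      apply Real.rpow_le_rpow_of_nonpos (by positivity) _ (by norm_num)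
      have : 0 < 1 / K := by positivity
      linarith
    have h5 : (2 * (1 / K) + s) ^ (-(1/2):ℝ) ≤ (1 / K + s) ^ (-(1/2):ℝ) := by
      apply Real.rpow_le_rpow_of_nonpos (by positivity) _ (by norm_num)
      have : 0 < 1 / K := by positivity
      linarith
    have h6 : 1 / 2 ≤ (1 / K + s) ^ (-(1/2):ℝ) := by
      have a2 : (4:ℝ) ^ (-(1/2):ℝ) ≤ (1 / K + s) ^ (-(1/2):ℝ) := by
        apply Real.rpow_le_rpow_of_nonpos (by positivity) _ (by norm_num)
        have : 1 / K ≤ 1 := by rw [div_le_one hK0]; linarith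
        linarith
      have a3 : (4:ℝ) ^ (-(1/2):ℝ) = 1/2 := by
        rw [Real.rpow_neg (by norm_num), ← Real.sqrt_eq_rpow, show (4:ℝ) = 2 ^ 2 by norm_num, Real.sqrt_sq (by norm_num)]
        norm_num
      linarith
    have h7 : 1 ≤ K ^ (3/2:ℝ) := Real.one_le_rpow (by linarith) (by norm_num)
    have h8 : 1 / K ≤ 1 := by rw [div_le_one hK0]; linarith
    have h9 : (2 * (1 / K)) ^ (-(3/2):ℝ) * (2 * (1 / K) + s) ^ (-(1/2):ℝ) ≤ K ^ (3/2:ℝ) * (1 / K + s) ^ (-(1/2):ℝ) := by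
      gcongr
    have h10 : C * ((2 * (1 / K)) ^ (-(3/2):ℝ) * (2 * (1 / K) + s) ^ (-(1/2):ℝ)) ≤ C * (K ^ (3/2:ℝ) * (1 / K + s) ^ (-(1/2):ℝ)) := by
      gcongr
    have h11 : 1 / 2 ≤ K ^ (3/2:ℝ) * (1 / K + s) ^ (-(1/2):ℝ) := by nlinarith
    linarith
  intro a s hs
  rcases le_total 0 s with h0 | h0
  · rw [abs_of_nonneg h0] at hs ⊢
    exact main a s h0 hs
  · have h1 := main (-a) (-s) (by linarith) (by rwa [abs_of_nonpos h0] at hs)
    rw [S_conj, RCLike.norm_conj] at h1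
    rwa [abs_of_nonpos h0]

/-- the mean square of the dual sum -/
lemma dual_sq : ∃ C : ℝ, 0 < C ∧ ∀ (K : ℝ) (A : Finset (ℤ × ℤ)) (T : Finset ℝ) (σ : ℝ → ℂ) (α : ℝ → ℝ × ℝ) (t0 : ℝ), 2 ≤ K →
    (∀ (a : ℝ × ℝ) (t : ℝ), ‖Fs (2 * (1 / K)) a t - S A (bb (2 * (1 / K))) a t‖ ≤ 1 / K) →
    (∀ t ∈ T, ‖σ t‖ = 1) → (∀ s ∈ T, ∀ t ∈ T, |s - t| ≤ 1) → (∀ s ∈ T, ∀ t ∈ T, s ≠ t → 1 / K ≤ |s - t|) →
    ∑ k ∈ A, ‖∑ t ∈ T, σ t * ((bb (1 / K) k : ℂ) * ex (dp k (α t) + (t - t0) * nz k))‖ ^ 2 ≤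
      C * (K ^ 2 * ((T.card : ℝ) * √(T.card : ℝ))) := by
  obtain ⟨C, hC, h⟩ := S_bb_le
  refine ⟨10 * C, by positivity, ?_⟩
  intro K A T σ α t0 hK hA hσ hT1 hsep
  have hK0 : 0 < K := by linarith
  have hcast : ((∑ k ∈ A, ‖∑ t ∈ T, σ t * ((bb (1 / K) k : ℂ) * ex (dp k (α t) + (t - t0) * nz k))‖ ^ 2 : ℝ) : ℂ) =
      ∑ t ∈ T, ∑ t' ∈ T, σ t * (starRingEnd ℂ) (σ t') * S A (bb (2 * (1 / K))) (α t - α t') (t - t') := by
    push_cast
    have e : ∀ k ∈ A, ((‖∑ t ∈ T, σ t * ((bb (1 / K) k : ℂ) * ex (dp k (α t) + (t - t0) * nz k))‖ : ℝ) : ℂ) ^ 2 =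
        ∑ t ∈ T, ∑ t' ∈ T, σ t * (starRingEnd ℂ) (σ t') * ((bb (2 * (1 / K)) k : ℂ) * ex (dp k (α t - α t') + (t - t') * nz k)) := by
      intro k _
      have e1 : ∀ z : ℂ, ((‖z‖ : ℝ) : ℂ) ^ 2 = z * (starRingEnd ℂ) z := by
        intro z; rw [Complex.mul_conj, Complex.normSq_eq_norm_sq]; push_cast; rfl
      rw [e1, map_sum, Finset.sum_mul_sum]
      apply Finset.sum_congr rfl
      intro t _
      apply Finset.sum_congr rfl
      intro t' _
      rw [map_mul, map_mul, Complex.conj_ofReal, ← ex_neg]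
      have e2 : dp k (α t - α t') + (t - t') * nz k = (dp k (α t) + (t - t0) * nz k) + -(dp k (α t') + (t' - t0) * nz k) := by
        unfold dp; simp only [Prod.fst_sub, Prod.snd_sub]; ring
      rw [e2, ex_add (dp k (α t) + (t - t0) * nz k), ← bb_sq]
      push_cast; ring
    rw [Finset.sum_congr rfl e, Finset.sum_comm]
    apply Finset.sum_congr rfl
    intro t _
    rw [Finset.sum_comm]
    apply Finset.sum_congr rfl
    intro t' _
    unfold S
    rw [Finset.mul_sum]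
  have hnn : 0 ≤ ∑ k ∈ A, ‖∑ t ∈ T, σ t * ((bb (1 / K) k : ℂ) * ex (dp k (α t) + (t - t0) * nz k))‖ ^ 2 :=
    Finset.sum_nonneg (fun _ _ => by positivity)
  have h1 := congrArg norm hcast
  rw [Complex.norm_real, Real.norm_of_nonneg hnn] at h1
  rw [h1]
  calc ‖∑ t ∈ T, ∑ t' ∈ T, σ t * (starRingEnd ℂ) (σ t') * S A (bb (2 * (1 / K))) (α t - α t') (t - t')‖
      ≤ ∑ t ∈ T, ∑ t' ∈ T, C * (K ^ (3/2:ℝ) * (1 / K + |t - t'|) ^ (-(1/2):ℝ)) := by
        refine (norm_sum_le _ _).trans (Finset.sum_le_sum fun t ht => ?_)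
        refine (norm_sum_le _ _).trans (Finset.sum_le_sum fun t' ht' => ?_)
        rw [norm_mul, norm_mul, RCLike.norm_conj, hσ t ht, hσ t' ht', one_mul, one_mul]
        exact h K A hK hA _ _ (hT1 t ht t' ht')
    _ ≤ ∑ t ∈ T, C * (K ^ (3/2:ℝ) * (10 * √K * √(T.card : ℝ))) := by
        apply Finset.sum_le_sum
        intro t _
        rw [← Finset.mul_sum, ← Finset.mul_sum]
        have := sep_sum (by linarith : (1:ℝ) ≤ K) T hsep t
        gcongr
    _ = 10 * C * ((K ^ (3/2:ℝ) * √K) * ((T.card : ℝ) * √(T.card : ℝ))) := by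
        rw [Finset.sum_const, nsmul_eq_mul]; ring
    _ = _ := by
        have : K ^ (3/2:ℝ) * √K = K ^ 2 := by
          rw [Real.sqrt_eq_rpow, ← Real.rpow_add hK0]; norm_num
        rw [this]

/-- **Local large values estimate.** -/
theorem HM_local : ∃ C : ℝ, 1 ≤ C ∧ ∀ (K : ℝ) (B : Finset (ℤ × ℤ)) (b : ℤ × ℤ → ℝ) (t0 τ ρ lam U : ℝ) (a0 : ℝ × ℝ)
    (T : Finset ℝ) (a : ℝ → ℝ × ℝ), 2 ≤ K → 0 ≤ τ → 0 < ρ → ρ ≤ 1/4 → 4 * (τ + 1 / K) ≤ ρ →
    (∀ t ∈ T, t0 ≤ t ∧ t ≤ t0 + τ) → (∀ t ∈ T, |(a t).1 - a0.1| ≤ ρ / 2 ∧ |(a t).2 - a0.2| ≤ ρ / 2) →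
    (∀ s ∈ T, ∀ t ∈ T, s ≠ t → 1 / K ≤ |s - t|) → 0 < lam → (∀ t ∈ T, lam ≤ ‖S B b (a t) t‖) →
    (∀ x, ‖S B (cw (1 / K) b) x t0‖ ≤ U) → C * U * (τ + 1 / K) / ρ ≤ lam / 2 →
    √(T.card : ℝ) * lam ^ 2 ≤ C * K ^ 2 * ∫ x in Dq ∩ Nr ρ, ‖S B (cw (1 / K) b) (a0 + x) t0‖ ^ 2 := by
  obtain ⟨C1, hC1, hfar⟩ := Fs_far
  obtain ⟨C2, hC2, hdual⟩ := dual_sq
  refine ⟨32 * C1 + 1 + 4 * C2, by linarith, ?_⟩
  intro K B b t0 τ ρ lam U a0 T a hK hτ hρ hρ1 hτρ hT ha hsep hlam hbig hU hCU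
  have hK0 : 0 < K := by linarith
  have hy0 : 0 < 1 / K := by positivity
  have hy1 : 1 / K ≤ 1 := by rw [div_le_one hK0]; linarith
  set y := 1 / K with hy
  set c := cw y b with hc
  rcases Nat.eq_zero_or_pos T.card with hJ0 | hJ0
  · rw [hJ0]
    simp only [Nat.cast_zero, Real.sqrt_zero, zero_mul]
    have : 0 ≤ ∫ x in Dq ∩ Nr ρ, ‖S B c (a0 + x) t0‖ ^ 2 := integral_nonneg (fun x => by positivity)
    positivity
  have hJ : (0:ℝ) < T.card := by exact_mod_cast hJ0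
  set J : ℝ := (T.card : ℝ) with hJd
  -- the finite set
  obtain ⟨A1, hBA1, hA1⟩ := tail_set' hy0 hy0 B
  obtain ⟨A, hA1A, hA⟩ := tail_set' (y := 2 * y) (by positivity) hy0 A1
  have hBA : B ⊆ A := hBA1.trans hA1A
  have hAy := hA1 A hA1A
  have hA2y := hA A (Finset.Subset.refl _)
  -- signs
  have hσ : ∀ t : ℝ, ∃ s : ℂ, t ∈ T → ‖s‖ = 1 ∧ s * S B b (a t) t = (‖S B b (a t) t‖ : ℂ) := by
    intro t
    by_cases ht : t ∈ T
    · have hne : S B b (a t) t ≠ 0 := by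
        rw [← norm_pos_iff]; exact hlam.trans_le (hbig t ht)
      have hn : (‖S B b (a t) t‖ : ℂ) ≠ 0 := by
        exact_mod_cast (norm_pos_iff.mpr hne).ne'
      refine ⟨(starRingEnd ℂ) (S B b (a t) t) / (‖S B b (a t) t‖ : ℂ), fun _ => ⟨?_, ?_⟩⟩
      · rw [norm_div, RCLike.norm_conj, Complex.norm_real, norm_norm]
        exact div_self (norm_pos_iff.mpr hne).ne'
      · rw [div_mul_eq_mul_div, mul_comm ((starRingEnd ℂ) _), Complex.mul_conj, Complex.normSq_eq_norm_sq]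
        push_cast
        field_simp
    · exact ⟨1, fun h => absurd h ht⟩
  choose σ hσ using hσ
  set α : ℝ → ℝ × ℝ := fun t => a t - a0 with hα
  set W : ℤ × ℤ → ℂ := fun k => ∑ t ∈ T, σ t * ((bb y k : ℂ) * ex (dp k (α t) + (t - t0) * nz k)) with hW
  set g : ℤ × ℤ → ℂ := fun k => if k ∈ B then (c k : ℂ) * ex (dp k a0 + t0 * nz k) else 0 with hg
  -- the two functions
  set Gx : ℝ × ℝ → ℂ := fun x => ∑ k ∈ A, (starRingEnd ℂ) (W k) * ex (dp k x) with hGx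
  have hSt : ∀ x, S B c (a0 + x) t0 = ∑ k ∈ A, g k * ex (dp k x) := by
    intro x
    rw [← Finset.sum_subset hBA]
    · unfold S
      apply Finset.sum_congr rfl
      intro k hk
      simp only [hg, if_pos hk]
      have : dp k (a0 + x) + t0 * nz k = (dp k a0 + t0 * nz k) + dp k x := by
        unfold dp; simp only [Prod.fst_add, Prod.snd_add]; ring
      rw [this, ex_add (dp k a0 + t0 * nz k)]; ring
    · intro k _ hk
      simp only [hg, if_neg hk, zero_mul]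
  have hGS : ∀ x, (starRingEnd ℂ) (Gx x) = ∑ t ∈ T, σ t * S A (bb y) (α t - x) (t - t0) := by
    intro x
    simp only [hGx, hW]
    rw [map_sum]
    have e1 : ∀ k ∈ A, (starRingEnd ℂ) ((starRingEnd ℂ) (∑ t ∈ T, σ t * ((bb y k : ℂ) * ex (dp k (α t) + (t - t0) * nz k))) * ex (dp k x)) =
        ∑ t ∈ T, σ t * ((bb y k : ℂ) * ex (dp k (α t - x) + (t - t0) * nz k)) := by
      intro k _
      rw [map_mul, Complex.conj_conj, ← ex_neg, Finset.sum_mul]
      apply Finset.sum_congr rfl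
      intro t _
      have : dp k (α t - x) + (t - t0) * nz k = (dp k (α t) + (t - t0) * nz k) + -dp k x := by
        unfold dp; simp only [Prod.fst_sub, Prod.snd_sub]; ring
      rw [this, ex_add (dp k (α t) + (t - t0) * nz k)]; ring
    rw [Finset.sum_congr rfl e1, Finset.sum_comm]
    apply Finset.sum_congr rfl
    intro t _
    unfold S
    rw [Finset.mul_sum]
  -- reproduction
  have hrep : ∫ x in Dq, S B c (a0 + x) t0 * (starRingEnd ℂ) (Gx x) = ∑ t ∈ T, (‖S B b (a t) t‖ : ℂ) := by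
    simp_rw [hSt, hGx]
    rw [parsevalD]
    simp only [Complex.conj_conj]
    rw [← Finset.sum_subset hBA (f := fun k => g k * W k)]
    · have e1 : ∀ k ∈ B, g k * W k = ∑ t ∈ T, σ t * ((b k : ℂ) * ex (dp k (a t) + t * nz k)) := by
        intro k hk
        simp only [hg, if_pos hk, hW]
        rw [Finset.mul_sum]
        apply Finset.sum_congr rfl
        intro t _
        have e2 : dp k (a t) + t * nz k = (dp k a0 + t0 * nz k) + (dp k (α t) + (t - t0) * nz k) := by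
          simp only [hα]
          unfold dp; simp only [Prod.fst_sub, Prod.snd_sub]; ring
        rw [e2, ex_add (dp k a0 + t0 * nz k), ← cw_mul_bb y b k]
        simp only [hc]
        push_cast; ring
      rw [Finset.sum_congr rfl e1, Finset.sum_comm]
      apply Finset.sum_congr rfl
      intro t ht
      rw [← (hσ t ht).2]
      unfold S
      rw [Finset.mul_sum]
    · intro k _ hk
      simp only [hg, if_neg hk, zero_mul]
  -- lower bound
  have hlow : J * lam ≤ ∫ x in Dq, ‖S B c (a0 + x) t0‖ * ‖Gx x‖ := by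
    have h1 : J * lam ≤ ∑ t ∈ T, ‖S B b (a t) t‖ := by
      rw [hJd, ← nsmul_eq_mul]
      exact Finset.card_nsmul_le_sum _ _ _ hbig
    have h2 : ‖∑ t ∈ T, (‖S B b (a t) t‖ : ℂ)‖ = ∑ t ∈ T, ‖S B b (a t) t‖ := by
      have : ∑ t ∈ T, (‖S B b (a t) t‖ : ℂ) = ((∑ t ∈ T, ‖S B b (a t) t‖ : ℝ) : ℂ) := by push_cast; rfl
      rw [this, Complex.norm_real, Real.norm_of_nonneg (Finset.sum_nonneg fun _ _ => norm_nonneg _)]
    rw [← h2, ← hrep] at h1
    refine h1.trans ((norm_integral_le_integral_norm _).trans (le_of_eq ?_))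
    congr 1
    ext x
    rw [norm_mul, RCLike.norm_conj]
  -- continuity
  have hcS : Continuous (fun x : ℝ × ℝ => ‖S B c (a0 + x) t0‖) :=
    ((continuous_S_left B c t0).comp (continuous_const.add continuous_id)).norm
  have hcG : Continuous Gx := by
    simp only [hGx]
    have := continuous_ex
    have h2 : ∀ k, Continuous (dp k) := continuous_dp
    fun_prop
  have hGb : ∀ x, ‖Gx x‖ ≤ ∑ k ∈ A, ‖W k‖ := by
    intro x
    simp only [hGx]
    refine (norm_sum_le _ _).trans (le_of_eq ?_)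
    apply Finset.sum_congr rfl
    intro k _
    rw [norm_mul, norm_ex, mul_one, RCLike.norm_conj]
  have hbd : ∀ f : ℝ × ℝ → ℝ, Continuous f → (∃ D, ∀ x, |f x| ≤ D) → Integrable f (volume.restrict Dq) := by
    intro f hf ⟨D, hD⟩
    exact Integrable.mono' (integrable_const D) hf.aestronglyMeasurable (Eventually.of_forall fun x => hD x)
  have hi1 : Integrable (fun x => ‖S B c (a0 + x) t0‖ * ‖Gx x‖) (volume.restrict Dq) := by
    apply hbd (fun x => ‖S B c (a0 + x) t0‖ * ‖Gx x‖) (hcS.mul hcG.norm)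
    refine ⟨U * ∑ k ∈ A, ‖W k‖, fun x => ?_⟩
    rw [abs_of_nonneg (mul_nonneg (norm_nonneg _) (norm_nonneg _))]
    have h1 := hU (a0 + x)
    have h2 := hGb x
    have h3 : 0 ≤ U := (norm_nonneg _).trans h1
    exact mul_le_mul h1 h2 (norm_nonneg _) h3
  have hU0 : 0 ≤ U := (norm_nonneg _).trans (hU 0)
  -- splitting
  have hsplit : ∫ x in Dq, ‖S B c (a0 + x) t0‖ * ‖Gx x‖ =
      (∫ x in Dq ∩ Nr ρ, ‖S B c (a0 + x) t0‖ * ‖Gx x‖) + ∫ x in Dq \ Nr ρ, ‖S B c (a0 + x) t0‖ * ‖Gx x‖ :=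
    (integral_inter_add_sdiff (measurableSet_Nr ρ) hi1).symm
  -- far part
  have hr0 : 0 < ρ / 2 := by positivity
  have hfarb : ∫ x in Dq \ Nr ρ, ‖S B c (a0 + x) t0‖ * ‖Gx x‖ ≤ J * (lam / 2) := by
    have hpt : ∀ x ∈ Dq \ Nr ρ, ‖S B c (a0 + x) t0‖ * ‖Gx x‖ ≤
        ∑ t ∈ T, U * (C1 * (y + τ) * ((|(α t).1 - x.1| + ρ / 2) ^ (-(3/2):ℝ) * (|(α t).2 - x.2| + ρ / 2) ^ (-(3/2):ℝ)) + y) := by
      intro x hx
      have hG1 : ‖Gx x‖ ≤ ∑ t ∈ T, (C1 * (y + τ) * ((|(α t).1 - x.1| + ρ / 2) ^ (-(3/2):ℝ) * (|(α t).2 - x.2| + ρ / 2) ^ (-(3/2):ℝ)) + y) := by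
        have e1 : ‖Gx x‖ = ‖(starRingEnd ℂ) (Gx x)‖ := (RCLike.norm_conj _).symm
        rw [e1, hGS]
        refine (norm_sum_le _ _).trans (Finset.sum_le_sum fun t ht => ?_)
        rw [norm_mul, (hσ t ht).1, one_mul]
        have hat := ha t ht
        have htt := hT t ht
        obtain ⟨hxD, hxN⟩ := hx
        unfold Dq at hxD
        rw [Set.mem_prod, Set.mem_Ico, Set.mem_Ico] at hxD
        have b1 : |(α t).1| ≤ ρ / 2 := by simp only [hα, Prod.fst_sub]; exact hat.1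
        have b2 : |(α t).2| ≤ ρ / 2 := by simp only [hα, Prod.snd_sub]; exact hat.2
        have c1 : |x.1| ≤ 1/2 := abs_le.mpr ⟨hxD.1.1, hxD.1.2.le⟩
        have c2 : |x.2| ≤ 1/2 := abs_le.mpr ⟨hxD.2.1, hxD.2.2.le⟩
        have d1 : |(α t - x).1| ≤ 5/8 := by
          rw [Prod.fst_sub]
          exact (abs_sub _ _).trans (by linarith)
        have d2 : |(α t - x).2| ≤ 5/8 := by
          rw [Prod.snd_sub]
          exact (abs_sub _ _).trans (by linarith)
        have hmax : ρ / 2 ≤ max |(α t - x).1| |(α t - x).2| := by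
          rw [Prod.fst_sub, Prod.snd_sub]
          have hxN' : ρ < |x.1| ∨ ρ < |x.2| := by
            by_contra hcon
            push Not at hcon
            apply hxN
            unfold Nr
            rw [Set.mem_prod, Set.mem_Icc, Set.mem_Icc]
            exact ⟨abs_le.mp hcon.1, abs_le.mp hcon.2⟩
          rcases hxN' with h | h
          · refine le_trans ?_ (le_max_left _ _)
            have := abs_sub_abs_le_abs_sub x.1 (α t).1
            rw [abs_sub_comm] at this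
            linarith
          · refine le_trans ?_ (le_max_right _ _)
            have := abs_sub_abs_le_abs_sub x.2 (α t).2
            rw [abs_sub_comm] at this
            linarith
        have hF := hfar y (t - t0) (ρ / 2) (α t - x) hy0 (by linarith) (by linarith) d1 d2 hr0 hmax (by linarith)
        have hAt := hAy (α t - x) (t - t0)
        have hF2 : ‖Fs y (α t - x) (t - t0)‖ ≤ C1 * (y + τ) * ((|(α t).1 - x.1| + ρ / 2) ^ (-(3/2):ℝ) * (|(α t).2 - x.2| + ρ / 2) ^ (-(3/2):ℝ)) := by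
          refine hF.trans ?_
          rw [Prod.fst_sub, Prod.snd_sub]
          have : y + (t - t0) ≤ y + τ := by linarith
          gcongr
        have e : S A (bb y) (α t - x) (t - t0) = Fs y (α t - x) (t - t0) - (Fs y (α t - x) (t - t0) - S A (bb y) (α t - x) (t - t0)) := by ring
        rw [e]
        exact (norm_sub_le _ _).trans (by linarith)
      rw [← Finset.mul_sum]
      have h1 := hU (a0 + x)
      gcongr
    have hint : ∀ t : ℝ, Integrable (fun x : ℝ × ℝ => U * (C1 * (y + τ) * ((|(α t).1 - x.1| + ρ / 2) ^ (-(3/2):ℝ) * (|(α t).2 - x.2| + ρ / 2) ^ (-(3/2):ℝ)) + y)) (volume.restrict Dq) := by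
      intro t
      have := (int_pole2 hr0 (by linarith) (α t)).1
      exact ((this.const_mul (C1 * (y + τ))).add (integrable_const y)).const_mul U
    have hsub : Dq \ Nr ρ ⊆ Dq := Set.sdiff_subset
    calc ∫ x in Dq \ Nr ρ, ‖S B c (a0 + x) t0‖ * ‖Gx x‖
        ≤ ∫ x in Dq \ Nr ρ, ∑ t ∈ T, U * (C1 * (y + τ) * ((|(α t).1 - x.1| + ρ / 2) ^ (-(3/2):ℝ) * (|(α t).2 - x.2| + ρ / 2) ^ (-(3/2):ℝ)) + y) := by
          apply setIntegral_mono_on (hi1.mono_measure (Measure.restrict_mono hsub le_rfl)) _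
            (measurableSet_Dq.diff (measurableSet_Nr ρ)) hpt
          exact (integrable_finsetSum _ (fun t _ => hint t)).mono_measure (Measure.restrict_mono hsub le_rfl)
      _ ≤ ∫ x in Dq, ∑ t ∈ T, U * (C1 * (y + τ) * ((|(α t).1 - x.1| + ρ / 2) ^ (-(3/2):ℝ) * (|(α t).2 - x.2| + ρ / 2) ^ (-(3/2):ℝ)) + y) := by
          apply setIntegral_mono_set (integrable_finsetSum _ (fun t _ => hint t)) _ hsub.eventuallyLE
          exact Eventually.of_forall fun x => Finset.sum_nonneg fun t _ => by positivity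
      _ = ∑ t ∈ T, U * (C1 * (y + τ) * (∫ x in Dq, ((|(α t).1 - x.1| + ρ / 2) ^ (-(3/2):ℝ) * (|(α t).2 - x.2| + ρ / 2) ^ (-(3/2):ℝ))) + y) := by
          rw [integral_finsetSum _ (fun t _ => hint t)]
          apply Finset.sum_congr rfl
          intro t _
          rw [integral_const_mul, integral_add (((int_pole2 hr0 (by linarith) (α t)).1).const_mul _) (integrable_const y),
            integral_const_mul, setIntegral_const]
          simp [volume_Dq, Measure.real]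
      _ ≤ ∑ t ∈ T, (lam / 2) := by
          apply Finset.sum_le_sum
          intro t _
          have h1 := (int_pole2 hr0 (by linarith) (α t)).2
          refine le_trans ?_ hCU
          have h2 : C1 * (y + τ) * (∫ x in Dq, ((|(α t).1 - x.1| + ρ / 2) ^ (-(3/2):ℝ) * (|(α t).2 - x.2| + ρ / 2) ^ (-(3/2):ℝ))) ≤
              C1 * (y + τ) * (16 / (ρ / 2)) := by gcongr
          have h3 : y ≤ (τ + y) / ρ := by
            rw [le_div_iff₀ hρ]; nlinarith
          have h4 : C1 * (y + τ) * (16 / (ρ / 2)) + y ≤ (32 * C1 + 1 + 4 * C2) * ((τ + y) / ρ) := by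
            have e : C1 * (y + τ) * (16 / (ρ / 2)) = 32 * C1 * ((τ + y) / ρ) := by field_simp; ring
            rw [e]
            have : 0 ≤ C2 * ((τ + y) / ρ) := by positivity
            nlinarith
          calc U * (C1 * (y + τ) * (∫ x in Dq, ((|(α t).1 - x.1| + ρ / 2) ^ (-(3/2):ℝ) * (|(α t).2 - x.2| + ρ / 2) ^ (-(3/2):ℝ))) + y)
              ≤ U * ((32 * C1 + 1 + 4 * C2) * ((τ + y) / ρ)) := by gcongr; linarith
            _ = _ := by ring
      _ = _ := by rw [Finset.sum_const, nsmul_eq_mul]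
  -- near part
  set Near := ∫ x in Dq ∩ Nr ρ, ‖S B c (a0 + x) t0‖ ^ 2 with hNear
  have hGG : ∫ x in Dq, ‖Gx x‖ ^ 2 ≤ C2 * (K ^ 2 * (J * √J)) := by
    simp only [hGx]
    rw [parsevalD_norm]
    simp only [RCLike.norm_conj]
    apply hdual K A T σ α t0 hK hA2y (fun t ht => (hσ t ht).1)
    · intro s hs t ht
      have h1 := hT s hs
      have h2 := hT t ht
      rw [abs_le]; constructor <;> linarith
    · exact hsep
  have hsJ : 0 < √J := Real.sqrt_pos.mpr hJ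
  set s := 2 * C2 * K ^ 2 * √J / lam with hs
  have hs0 : 0 < s := by positivity
  have hnear : ∫ x in Dq ∩ Nr ρ, ‖S B c (a0 + x) t0‖ * ‖Gx x‖ ≤ (s * Near + J * lam / 2) / 2 := by
    have hiS : Integrable (fun x => ‖S B c (a0 + x) t0‖ ^ 2) (volume.restrict Dq) := by
      apply hbd (fun x => ‖S B c (a0 + x) t0‖ ^ 2) (hcS.pow 2)
      refine ⟨U ^ 2, fun x => ?_⟩
      rw [abs_of_nonneg (sq_nonneg _)]
      exact pow_le_pow_left₀ (norm_nonneg _) (hU (a0 + x)) 2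
    have hiG : Integrable (fun x => ‖Gx x‖ ^ 2) (volume.restrict Dq) := by
      apply hbd (fun x => ‖Gx x‖ ^ 2) (hcG.norm.pow 2)
      refine ⟨(∑ k ∈ A, ‖W k‖) ^ 2, fun x => ?_⟩
      rw [abs_of_nonneg (sq_nonneg _)]
      exact pow_le_pow_left₀ (norm_nonneg _) (hGb x) 2
    have hsub : Dq ∩ Nr ρ ⊆ Dq := Set.inter_subset_left
    have m := Measure.restrict_mono (μ := volume) hsub le_rfl
    calc ∫ x in Dq ∩ Nr ρ, ‖S B c (a0 + x) t0‖ * ‖Gx x‖
        ≤ ∫ x in Dq ∩ Nr ρ, (s / 2 * ‖S B c (a0 + x) t0‖ ^ 2 + 1 / (2 * s) * ‖Gx x‖ ^ 2) := by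
          have hadd : Integrable (fun x => s / 2 * ‖S B c (a0 + x) t0‖ ^ 2 + 1 / (2 * s) * ‖Gx x‖ ^ 2)
              (volume.restrict (Dq ∩ Nr ρ)) :=
            ((hiS.mono_measure m).const_mul _).add ((hiG.mono_measure m).const_mul _)
          apply integral_mono (hi1.mono_measure m) hadd
          intro x
          simp only
          have h1 : ‖S B c (a0 + x) t0‖ * ‖Gx x‖ = (s * ‖S B c (a0 + x) t0‖) * ‖Gx x‖ / s := by field_simp
          have h2 : s / 2 * ‖S B c (a0 + x) t0‖ ^ 2 + 1 / (2 * s) * ‖Gx x‖ ^ 2 =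
              ((s * ‖S B c (a0 + x) t0‖) ^ 2 + ‖Gx x‖ ^ 2) / 2 / s := by field_simp
          rw [h1, h2]
          gcongr
          nlinarith [sq_nonneg (s * ‖S B c (a0 + x) t0‖ - ‖Gx x‖)]
      _ = s / 2 * Near + 1 / (2 * s) * ∫ x in Dq ∩ Nr ρ, ‖Gx x‖ ^ 2 := by
          rw [integral_add ((hiS.mono_measure m).const_mul _) ((hiG.mono_measure m).const_mul _), integral_const_mul,
            integral_const_mul]
      _ ≤ s / 2 * Near + 1 / (2 * s) * (C2 * (K ^ 2 * (J * √J))) := by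
          have h1 : ∫ x in Dq ∩ Nr ρ, ‖Gx x‖ ^ 2 ≤ ∫ x in Dq, ‖Gx x‖ ^ 2 :=
            setIntegral_mono_set hiG (Eventually.of_forall fun x => by positivity) hsub.eventuallyLE
          have h2 := h1.trans hGG
          gcongr
      _ = _ := by
          rw [hs]
          have h5 : √J * √J = J := Real.mul_self_sqrt hJ.le
          field_simp
  rw [hsplit] at hlow
  have h1 : J * lam ≤ 2 * (s * Near) := by nlinarith
  have h2 : J * lam * lam ≤ 4 * C2 * K ^ 2 * √J * Near := by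
    have e : 2 * (s * Near) * lam = 4 * C2 * K ^ 2 * √J * Near := by rw [hs]; field_simp; ring
    rw [← e]; gcongr
  have h3 : √J * lam ^ 2 ≤ 4 * C2 * K ^ 2 * Near := by
    have h5 : √J * √J = J := Real.mul_self_sqrt hJ.le
    have h6 : √J * (√J * lam ^ 2) ≤ √J * (4 * C2 * K ^ 2 * Near) := by
      calc √J * (√J * lam ^ 2) = (√J * √J) * lam * lam := by ring
        _ = J * lam * lam := by rw [h5]
        _ ≤ _ := h2
        _ = _ := by ring
    exact le_of_mul_le_mul_left h6 hsJ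
  have hNn : 0 ≤ Near := integral_nonneg (fun x => by positivity)
  have h4 : 0 ≤ (32 * C1 + 1) * K ^ 2 * Near := by positivity
  nlinarith

end Pool.Agent.H593.U
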