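import Mathlib
import Pool.Agent.H593.U.VS

/-!
# Geometry of confocal hyperbolas
-/

open Set Filter Topology
open Pool.Agent.H383.Gauss

namespace Pool.Agent.H593.U

/-- algebraic core: if the level function has small slope in direction `e` at a point, the point is near the
tangency position -/
lemma geo_core {x1 x2 l1 l2 e1 e2 A B δ : ℝ} (hA : 0 < A) (hB : 0 < B)
    (hA2 : A ^ 2 = (x1 + l1) ^ 2 + (x2 + l2) ^ 2) (hB2 : B ^ 2 = x1 ^ 2 + x2 ^ 2)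
    (hs : |e1 * ((x1 + l1) / A - x1 / B) + e2 * ((x2 + l2) / A - x2 / B)| ≤ δ) :
    ((e1 * (2 * x2 + l2) - e2 * (2 * x1 + l1)) * (A + B) - (e1 * l2 - e2 * l1) * (A - B)) ^ 2 *
      (l1 ^ 2 + l2 ^ 2 - (A - B) ^ 2) ≤ 16 * δ ^ 2 * (A * B) ^ 3 := by
  obtain ⟨X1, hX1⟩ : ∃ X1, X1 = (x1 + l1) / A := ⟨_, rfl⟩
  obtain ⟨X2, hX2⟩ : ∃ X2, X2 = (x2 + l2) / A := ⟨_, rfl⟩
  obtain ⟨Y1, hY1⟩ : ∃ Y1, Y1 = x1 / B := ⟨_, rfl⟩
  obtain ⟨Y2, hY2⟩ : ∃ Y2, Y2 = x2 / B := ⟨_, rfl⟩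
  rw [← hX1, ← hX2, ← hY1, ← hY2] at hs
  have hx1 : x1 = B * Y1 := by rw [hY1]; field_simp
  have hx2 : x2 = B * Y2 := by rw [hY2]; field_simp
  have hl1 : l1 = A * X1 - B * Y1 := by rw [← hx1, hX1]; field_simp; ring
  have hl2 : l2 = A * X2 - B * Y2 := by rw [← hx2, hX2]; field_simp; ring
  have hX : X1 ^ 2 + X2 ^ 2 = 1 := by
    rw [hX1, hX2, div_pow, div_pow, ← add_div, ← hA2]; field_simp
  have hY : Y1 ^ 2 + Y2 ^ 2 = 1 := by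
    rw [hY1, hY2, div_pow, div_pow, ← add_div, ← hB2]; field_simp
  -- first factor
  have f1 : (e1 * (2 * x2 + l2) - e2 * (2 * x1 + l1)) * (A + B) - (e1 * l2 - e2 * l1) * (A - B) =
      2 * A * B * (e1 * (X2 + Y2) - e2 * (X1 + Y1)) := by
    rw [hl1, hl2, hx1, hx2]; ring
  have f2 : l1 ^ 2 + l2 ^ 2 - (A - B) ^ 2 = A * B * ((X1 - Y1) ^ 2 + (X2 - Y2) ^ 2) := by
    rw [hl1, hl2]
    linear_combination (A ^ 2 - A * B) * hX + (B ^ 2 - A * B) * hY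
  have hp : (X1 - Y1) * (X1 + Y1) + (X2 - Y2) * (X2 + Y2) = 0 := by linear_combination hX - hY
  have f3 : (e1 * (X2 + Y2) - e2 * (X1 + Y1)) ^ 2 * ((X1 - Y1) ^ 2 + (X2 - Y2) ^ 2) =
      (e1 * (X1 - Y1) + e2 * (X2 - Y2)) ^ 2 * ((X1 + Y1) ^ 2 + (X2 + Y2) ^ 2) := by
    linear_combination ((e1 ^ 2 + e2 ^ 2) * ((X1 - Y1) * (X1 + Y1) + (X2 - Y2) * (X2 + Y2)) -
      2 * (e1 * (X1 - Y1) + e2 * (X2 - Y2)) * (e1 * (X1 + Y1) + e2 * (X2 + Y2))) * hp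
  have f4 : (X1 + Y1) ^ 2 + (X2 + Y2) ^ 2 ≤ 4 := by nlinarith [sq_nonneg (X1 - Y1), sq_nonneg (X2 - Y2)]
  have f5 : (e1 * (X1 - Y1) + e2 * (X2 - Y2)) ^ 2 ≤ δ ^ 2 := by
    rw [← sq_abs]
    exact pow_le_pow_left₀ (abs_nonneg _) hs 2
  rw [f1, f2]
  have hAB : 0 < A * B := mul_pos hA hB
  calc (2 * A * B * (e1 * (X2 + Y2) - e2 * (X1 + Y1))) ^ 2 * (A * B * ((X1 - Y1) ^ 2 + (X2 - Y2) ^ 2))
      = 4 * (A * B) ^ 3 * ((e1 * (X2 + Y2) - e2 * (X1 + Y1)) ^ 2 * ((X1 - Y1) ^ 2 + (X2 - Y2) ^ 2)) := by ring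
    _ = 4 * (A * B) ^ 3 * ((e1 * (X1 - Y1) + e2 * (X2 - Y2)) ^ 2 * ((X1 + Y1) ^ 2 + (X2 + Y2) ^ 2)) := by rw [f3]
    _ ≤ 4 * (A * B) ^ 3 * (δ ^ 2 * 4) := by gcongr
    _ = _ := by ring

/-- the norm of a real vector -/
noncomputable def nr (x y : ℝ) : ℝ := √(x ^ 2 + y ^ 2)

lemma nr_sq (x y : ℝ) : nr x y ^ 2 = x ^ 2 + y ^ 2 := Real.sq_sqrt (by positivity)

lemma nr_nonneg (x y : ℝ) : 0 ≤ nr x y := Real.sqrt_nonneg _

lemma nr_norm (x y : ℝ) : ‖(x:ℂ) + (y:ℂ) * Complex.I‖ = nr x y := by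
  rw [Complex.norm_add_mul_I]; rfl

lemma nr_add_le (x y u v : ℝ) : nr (x + u) (y + v) ≤ nr x y + nr u v := by
  rw [← nr_norm, ← nr_norm, ← nr_norm]
  refine le_trans (le_of_eq ?_) (norm_add_le _ _)
  congr 1; push_cast; ring

lemma nr_sub_le (x y u v : ℝ) : nr x y - nr u v ≤ nr (x + u) (y + v) := by
  rw [← nr_norm, ← nr_norm, ← nr_norm]
  have := norm_sub_le ((x:ℂ) + (y:ℂ) * Complex.I + ((u:ℂ) + (v:ℂ) * Complex.I)) ((u:ℂ) + (v:ℂ) * Complex.I)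
  rw [add_sub_cancel_right] at this
  have e : ((x + u : ℝ) : ℂ) + ((y + v : ℝ) : ℂ) * Complex.I =
    (x:ℂ) + (y:ℂ) * Complex.I + ((u:ℂ) + (v:ℂ) * Complex.I) := by push_cast; ring
  rw [e]
  linarith

lemma nr_smul {s : ℝ} (hs : 0 ≤ s) (x y : ℝ) : nr (s * x) (s * y) = s * nr x y := by
  unfold nr
  rw [show (s * x) ^ 2 + (s * y) ^ 2 = s ^ 2 * (x ^ 2 + y ^ 2) by ring, Real.sqrt_mul (by positivity),
    Real.sqrt_sq hs]

lemma nz_eq_nr (p : ℤ × ℤ) : nz p = nr p.1 p.2 := rfl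

/-- mean value theorem for the level function -/
lemma mvt_level {x1 x2 l1 l2 e1 e2 δ m : ℝ} (hm : 0 < m)
    (hB : ∀ s ∈ Icc (0:ℝ) 1, m ≤ nr (x1 + s * e1) (x2 + s * e2))
    (hA : ∀ s ∈ Icc (0:ℝ) 1, m ≤ nr (x1 + s * e1 + l1) (x2 + s * e2 + l2))
    (hd : |(nr (x1 + e1 + l1) (x2 + e2 + l2) - nr (x1 + e1) (x2 + e2)) - (nr (x1 + l1) (x2 + l2) - nr x1 x2)| ≤ δ) :
    ∃ s ∈ Icc (0:ℝ) 1,
      |e1 * ((x1 + s * e1 + l1) / nr (x1 + s * e1 + l1) (x2 + s * e2 + l2) - (x1 + s * e1) / nr (x1 + s * e1) (x2 + s * e2)) +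
       e2 * ((x2 + s * e2 + l2) / nr (x1 + s * e1 + l1) (x2 + s * e2 + l2) - (x2 + s * e2) / nr (x1 + s * e1) (x2 + s * e2))| ≤ δ := by
  have hder : ∀ (c1 c2 s : ℝ), 0 < nr (x1 + s * e1 + c1) (x2 + s * e2 + c2) →
      HasDerivAt (fun s => nr (x1 + s * e1 + c1) (x2 + s * e2 + c2))
        ((e1 * (x1 + s * e1 + c1) + e2 * (x2 + s * e2 + c2)) / nr (x1 + s * e1 + c1) (x2 + s * e2 + c2)) s := by
    intro c1 c2 s hpos
    have h1 : HasDerivAt (fun s : ℝ => x1 + s * e1 + c1) e1 s := by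
      simpa using (((hasDerivAt_id s).mul_const e1).const_add x1).add_const c1
    have h2 : HasDerivAt (fun s : ℝ => x2 + s * e2 + c2) e2 s := by
      simpa using (((hasDerivAt_id s).mul_const e2).const_add x2).add_const c2
    have h3 := (h1.pow 2).add (h2.pow 2)
    have hne : (x1 + s * e1 + c1) ^ 2 + (x2 + s * e2 + c2) ^ 2 ≠ 0 := by
      rw [← nr_sq]; positivity
    have h4 := HasDerivAt.sqrt h3 hne
    refine h4.congr_deriv ?_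
    have : √((x1 + s * e1 + c1) ^ 2 + (x2 + s * e2 + c2) ^ 2) = nr (x1 + s * e1 + c1) (x2 + s * e2 + c2) := rfl
    simp only [Pi.add_apply, Pi.pow_apply]
    rw [this]
    field_simp
    push_cast
    ring
  set f : ℝ → ℝ := fun s => nr (x1 + s * e1 + l1) (x2 + s * e2 + l2) - nr (x1 + s * e1 + 0) (x2 + s * e2 + 0) with hf
  have hB' : ∀ s ∈ Icc (0:ℝ) 1, 0 < nr (x1 + s * e1 + 0) (x2 + s * e2 + 0) := by
    intro s hs
    rw [add_zero, add_zero]; exact hm.trans_le (hB s hs)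
  have hfd : ∀ s ∈ Icc (0:ℝ) 1, HasDerivAt f _ s := fun s hs =>
    (hder l1 l2 s (hm.trans_le (hA s hs))).sub (hder 0 0 s (hB' s hs))
  obtain ⟨s, hs, hs2⟩ := exists_hasDerivAt_eq_slope f _ (zero_lt_one' ℝ)
    (fun s hs => (hfd s hs).continuousAt.continuousWithinAt) (fun s hs => hfd s (Ioo_subset_Icc_self hs))
  refine ⟨s, Ioo_subset_Icc_self hs, ?_⟩
  have e0 : f 1 - f 0 = (nr (x1 + e1 + l1) (x2 + e2 + l2) - nr (x1 + e1) (x2 + e2)) - (nr (x1 + l1) (x2 + l2) - nr x1 x2) := by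
    simp only [hf]; ring_nf
  rw [sub_zero, div_one, e0] at hs2
  rw [← hs2] at hd
  refine le_trans (le_of_eq ?_) hd
  congr 1
  simp only [add_zero]
  ring

end Pool.Agent.H593.U
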