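import Mathlib
import Pool.Agent.H593.U7.N1

/-!
# Position of pairs of lattice points on a common level
-/

open Set Filter Topology
open Pool.Agent.H383.Gauss

namespace Pool.Agent.H593.U

/-- elliptic coordinates -/
lemma elliptic {x1 x2 l1 l2 A B : ℝ}
    (hA2 : A ^ 2 = (x1 + l1) ^ 2 + (x2 + l2) ^ 2) (hB2 : B ^ 2 = x1 ^ 2 + x2 ^ 2) :
    (2 * x1 + l1) * l1 + (2 * x2 + l2) * l2 = (A - B) * (A + B) ∧
    ((2 * x1 + l1) * l2 - (2 * x2 + l2) * l1) ^ 2 =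
      (l1 ^ 2 + l2 ^ 2 - (A - B) ^ 2) * ((A + B) ^ 2 - (l1 ^ 2 + l2 ^ 2)) ∧
    (2 * x1 + l1) ^ 2 + (2 * x2 + l2) ^ 2 = (A + B) ^ 2 + (A - B) ^ 2 - (l1 ^ 2 + l2 ^ 2) := by
  have h1 : (2 * x1 + l1) * l1 + (2 * x2 + l2) * l2 = (A - B) * (A + B) := by linear_combination hB2 - hA2
  have h3 : (2 * x1 + l1) ^ 2 + (2 * x2 + l2) ^ 2 = (A + B) ^ 2 + (A - B) ^ 2 - (l1 ^ 2 + l2 ^ 2) := by
    linear_combination -2 * hB2 - 2 * hA2
  refine ⟨h1, ?_, h3⟩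
  have h4 : ((2 * x1 + l1) * l2 - (2 * x2 + l2) * l1) ^ 2 =
    ((2 * x1 + l1) ^ 2 + (2 * x2 + l2) ^ 2) * (l1 ^ 2 + l2 ^ 2) - ((2 * x1 + l1) * l1 + (2 * x2 + l2) * l2) ^ 2 := by ring
  rw [h4, h1, h3]; ring

lemma abs_sub_nr_le (x1 x2 l1 l2 : ℝ) : |nr (x1 + l1) (x2 + l2) - nr x1 x2| ≤ nr l1 l2 := by
  rw [abs_le]
  have h1 := nr_add_le x1 x2 l1 l2
  have h2 := nr_sub_le x1 x2 l1 l2
  constructor <;> linarith

lemma abs_det_le (a b c d : ℝ) : |a * d - b * c| ≤ nr a b * nr c d := by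
  apply abs_le_of_sq_le_sq _ (mul_nonneg (nr_nonneg _ _) (nr_nonneg _ _))
  rw [mul_pow, nr_sq, nr_sq]
  nlinarith [sq_nonneg (a * c + b * d)]

lemma abs_dot_le (a b c d : ℝ) : |a * c + b * d| ≤ nr a b * nr c d := by
  apply abs_le_of_sq_le_sq _ (mul_nonneg (nr_nonneg _ _) (nr_nonneg _ _))
  rw [mul_pow, nr_sq, nr_sq]
  nlinarith [sq_nonneg (a * d - b * c)]

/-- the intermediate point -/
lemma star_mid {x1 x2 l1 l2 e1 e2 K δ γ : ℝ} (hK : 0 < K) (hγ : 0 < γ) (hδ : 0 ≤ δ)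
    (h1 : K ≤ nr x1 x2) (h1' : nr x1 x2 ≤ 2 * K) (h2 : K ≤ nr (x1 + l1) (x2 + l2))
    (h2' : nr (x1 + l1) (x2 + l2) ≤ 2 * K) (he : nr e1 e2 ≤ K / 4)
    (hd : |(nr (x1 + e1 + l1) (x2 + e2 + l2) - nr (x1 + e1) (x2 + e2)) - (nr (x1 + l1) (x2 + l2) - nr x1 x2)| ≤ δ)
    (hq1 : γ * K ≤ |(2 * x1 + l1) * l2 - (2 * x2 + l2) * l1|)
    (hq2 : γ * K ≤ |(2 * (x1 + e1) + l1) * l2 - (2 * (x2 + e2) + l2) * l1|)
    (hsgn : 0 ≤ ((2 * x1 + l1) * l2 - (2 * x2 + l2) * l1) * ((2 * (x1 + e1) + l1) * l2 - (2 * (x2 + e2) + l2) * l1)) :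
    ∃ s A B : ℝ, 0 ≤ s ∧ s ≤ 1 ∧ A ^ 2 = (x1 + s * e1 + l1) ^ 2 + (x2 + s * e2 + l2) ^ 2 ∧
      B ^ 2 = (x1 + s * e1) ^ 2 + (x2 + s * e2) ^ 2 ∧ 3 / 4 * K ≤ A ∧ 3 / 4 * K ≤ B ∧ A ≤ 9 / 4 * K ∧ B ≤ 9 / 4 * K ∧
      |A - B| ≤ nr l1 l2 ∧
      |(e1 * (2 * x2 + l2) - e2 * (2 * x1 + l1)) * (A + B) - (e1 * l2 - e2 * l1) * (A - B)| ≤ 206 * δ * K ^ 3 / γ := by
  have hse : ∀ s ∈ Icc (0:ℝ) 1, nr (s * e1) (s * e2) ≤ K / 4 := by
    intro s hs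
    rw [nr_smul hs.1]
    have := nr_nonneg e1 e2
    nlinarith [hs.2]
  have hBs : ∀ s ∈ Icc (0:ℝ) 1, 3/4 * K ≤ nr (x1 + s * e1) (x2 + s * e2) := by
    intro s hs
    have := nr_sub_le x1 x2 (s * e1) (s * e2)
    have := hse s hs
    linarith
  have hAs : ∀ s ∈ Icc (0:ℝ) 1, 3/4 * K ≤ nr (x1 + s * e1 + l1) (x2 + s * e2 + l2) := by
    intro s hs
    have h := nr_sub_le (x1 + l1) (x2 + l2) (s * e1) (s * e2)
    have := hse s hs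
    rw [show x1 + s * e1 + l1 = x1 + l1 + s * e1 by ring, show x2 + s * e2 + l2 = x2 + l2 + s * e2 by ring]
    linarith
  obtain ⟨s, hs, hslope⟩ := mvt_level (m := 3/4 * K) (by positivity) hBs hAs hd
  set A := nr (x1 + s * e1 + l1) (x2 + s * e2 + l2) with hA
  set B := nr (x1 + s * e1) (x2 + s * e2) with hB
  have hA0 : 3/4 * K ≤ A := hAs s hs
  have hB0 : 3/4 * K ≤ B := hBs s hs
  have hA1 : A ≤ 9/4 * K := by
    have h := nr_add_le (x1 + l1) (x2 + l2) (s * e1) (s * e2)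
    have := hse s hs
    rw [hA, show x1 + s * e1 + l1 = x1 + l1 + s * e1 by ring, show x2 + s * e2 + l2 = x2 + l2 + s * e2 by ring]
    linarith
  have hB1 : B ≤ 9/4 * K := by
    have h := nr_add_le x1 x2 (s * e1) (s * e2)
    have := hse s hs
    linarith
  have hA2 : A ^ 2 = (x1 + s * e1 + l1) ^ 2 + (x2 + s * e2 + l2) ^ 2 := nr_sq _ _
  have hB2 : B ^ 2 = (x1 + s * e1) ^ 2 + (x2 + s * e2) ^ 2 := nr_sq _ _
  have hh : |A - B| ≤ nr l1 l2 := abs_sub_nr_le _ _ _ _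
  refine ⟨s, A, B, hs.1, hs.2, hA2, hB2, hA0, hB0, hA1, hB1, hh, ?_⟩
  have hcore := geo_core (x1 := x1 + s * e1) (x2 := x2 + s * e2) (l1 := l1) (l2 := l2) (e1 := e1) (e2 := e2)
    (by linarith) (by linarith) hA2 hB2 hslope
  have hell := (elliptic hA2 hB2).2.1
  -- lower bound for the determinant
  set d0 := (2 * x1 + l1) * l2 - (2 * x2 + l2) * l1 with hd0
  set d1 := (2 * (x1 + e1) + l1) * l2 - (2 * (x2 + e2) + l2) * l1 with hd1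
  have hdet : (2 * (x1 + s * e1) + l1) * l2 - (2 * (x2 + s * e2) + l2) * l1 = (1 - s) * d0 + s * d1 := by
    rw [hd0, hd1]; ring
  have hdets : γ ^ 2 * K ^ 2 ≤ ((1 - s) * d0 + s * d1) ^ 2 := by
    have a1 : (γ * K) ^ 2 ≤ d0 ^ 2 := by rw [← sq_abs d0]; gcongr
    have a2 : (γ * K) ^ 2 ≤ d1 ^ 2 := by rw [← sq_abs d1]; gcongr
    have a3 : (γ * K) ^ 2 ≤ d0 * d1 := by
      have : |d0| * |d1| = d0 * d1 := by rw [← abs_mul, abs_of_nonneg hsgn]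
      rw [← this, sq]; gcongr
    have s0 := hs.1
    have s1 : 0 ≤ 1 - s := by linarith [hs.2]
    calc γ ^ 2 * K ^ 2 = (1 - s) ^ 2 * (γ * K) ^ 2 + 2 * ((1 - s) * s) * (γ * K) ^ 2 + s ^ 2 * (γ * K) ^ 2 := by ring
      _ ≤ (1 - s) ^ 2 * d0 ^ 2 + 2 * ((1 - s) * s) * (d0 * d1) + s ^ 2 * d1 ^ 2 := by gcongr
      _ = _ := by ring
  rw [hdet] at hell
  rw [hell] at hdets
  set lam := l1 ^ 2 + l2 ^ 2 with hlam
  have hlam2 : lam = nr l1 l2 ^ 2 := (nr_sq _ _).symm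
  have hg0 : 0 ≤ lam - (A - B) ^ 2 := by
    rw [hlam2, ← sq_abs (A - B)]
    have := abs_nonneg (A - B)
    nlinarith
  have hg1 : γ ^ 2 ≤ 81 / 4 * (lam - (A - B) ^ 2) := by
    have h5 : (A + B) ^ 2 - lam ≤ 81 / 4 * K ^ 2 := by
      have : 0 ≤ lam := by rw [hlam]; positivity
      nlinarith
    have h6 : γ ^ 2 * K ^ 2 ≤ (lam - (A - B) ^ 2) * (81 / 4 * K ^ 2) :=
      hdets.trans (mul_le_mul_of_nonneg_left h5 hg0)
    have h7 : 0 < K ^ 2 := by positivity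
    nlinarith
  have e0 : e1 * (2 * (x2 + s * e2) + l2) - e2 * (2 * (x1 + s * e1) + l1) = e1 * (2 * x2 + l2) - e2 * (2 * x1 + l1) := by
    ring
  rw [e0] at hcore
  set Z := (e1 * (2 * x2 + l2) - e2 * (2 * x1 + l1)) * (A + B) - (e1 * l2 - e2 * l1) * (A - B) with hZ
  have h8 : (A * B) ^ 3 ≤ (9/4 * K * (9/4 * K)) ^ 3 := by
    have : 0 ≤ A := by linarith
    have : 0 ≤ B := by linarith
    gcongr
  have h9 : Z ^ 2 * γ ^ 2 ≤ (206 * δ * K ^ 3) ^ 2 := by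
    calc Z ^ 2 * γ ^ 2 ≤ Z ^ 2 * (81 / 4 * (lam - (A - B) ^ 2)) := by gcongr
      _ = 81 / 4 * (Z ^ 2 * (lam - (A - B) ^ 2)) := by ring
      _ ≤ 81 / 4 * (16 * δ ^ 2 * (A * B) ^ 3) := by gcongr
      _ ≤ 81 / 4 * (16 * δ ^ 2 * (9/4 * K * (9/4 * K)) ^ 3) := by gcongr
      _ = (81 / 4 * 16 * (9/4) ^ 6) * (δ * K ^ 3) ^ 2 := by ring
      _ ≤ (206 * δ * K ^ 3) ^ 2 := by
          rw [show (206 * δ * K ^ 3) ^ 2 = 206 ^ 2 * (δ * K ^ 3) ^ 2 by ring]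
          gcongr
          norm_num
  rw [le_div_iff₀ hγ]
  rw [← mul_pow] at h9
  have h10 := abs_le_of_sq_le_sq h9 (by positivity)
  rwa [abs_mul, abs_of_pos hγ] at h10

/-- position of pairs on a common level -/
theorem star {x1 x2 l1 l2 e1 e2 K δ γ : ℝ} (hK : 0 < K) (hγ : 0 < γ) (hδ : 0 ≤ δ)
    (h1 : K ≤ nr x1 x2) (h1' : nr x1 x2 ≤ 2 * K) (h2 : K ≤ nr (x1 + l1) (x2 + l2))
    (h2' : nr (x1 + l1) (x2 + l2) ≤ 2 * K) (he : nr e1 e2 ≤ K / 4) (he0 : 0 < nr e1 e2) (hl : nr l1 l2 ≤ K / 4)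
    (hd : |(nr (x1 + e1 + l1) (x2 + e2 + l2) - nr (x1 + e1) (x2 + e2)) - (nr (x1 + l1) (x2 + l2) - nr x1 x2)| ≤ δ)
    (hq1 : γ * K ≤ |(2 * x1 + l1) * l2 - (2 * x2 + l2) * l1|)
    (hq2 : γ * K ≤ |(2 * (x1 + e1) + l1) * l2 - (2 * (x2 + e2) + l2) * l1|)
    (hsgn : 0 ≤ ((2 * x1 + l1) * l2 - (2 * x2 + l2) * l1) * ((2 * (x1 + e1) + l1) * l2 - (2 * (x2 + e2) + l2) * l1)) :
    |e1 * (2 * x2 + l2) - e2 * (2 * x1 + l1)| ≤ nr e1 e2 * nr l1 l2 ^ 2 / K + 206 * δ * K ^ 2 / γ ∧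
    (|e1 * (2 * x2 + l2) - e2 * (2 * x1 + l1)| ≤ nr e1 e2 * K / 2 →
      |(e1 * (2 * x2 + l2) - e2 * (2 * x1 + l1)) * ((2 * x1 + l1) * e1 + (2 * x2 + l2) * e2) -
        (e1 * l2 - e2 * l1) * (e1 * l1 + e2 * l2)| ≤
      927 * nr e1 e2 * δ * K ^ 3 / γ + |e1 * (2 * x2 + l2) - e2 * (2 * x1 + l1)| ^ 3 / (nr e1 e2 * K) +
      2 * |e1 * (2 * x2 + l2) - e2 * (2 * x1 + l1)| * nr e1 e2 * nr l1 l2 ^ 2 / K +
      2 * |e1 * (2 * x2 + l2) - e2 * (2 * x1 + l1)| * nr e1 e2 ^ 2) := by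
  obtain ⟨s, A, B, hs0, hs1, hA2, hB2, hA0, hB0, hA1, hB1, hh, hmain⟩ :=
    star_mid hK hγ hδ h1 h1' h2 h2' he hd hq1 hq2 hsgn
  set D := e1 * (2 * x2 + l2) - e2 * (2 * x1 + l1) with hD
  set q := e1 * l2 - e2 * l1 with hq
  set ne := nr e1 e2 with hne
  set nl := nr l1 l2 with hnl
  have hnl0 : 0 ≤ nl := nr_nonneg _ _
  have hq0 : |q| ≤ ne * nl := abs_det_le _ _ _ _
  have hσ0 : K ≤ A + B := by linarith
  constructor
  · have h3 : |D| * (A + B) ≤ ne * nl ^ 2 + 206 * δ * K ^ 3 / γ := by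
      have h4 : |D * (A + B)| ≤ |q * (A - B)| + 206 * δ * K ^ 3 / γ := by
        have h5 := abs_sub_abs_le_abs_sub (D * (A + B)) (q * (A - B))
        linarith
      rw [abs_mul, abs_mul, abs_of_pos (by linarith : 0 < A + B)] at h4
      have h5 : |q| * |A - B| ≤ ne * nl * nl := by gcongr
      nlinarith
    have h4 : |D| * K ≤ ne * nl ^ 2 + 206 * δ * K ^ 3 / γ :=
      (mul_le_mul_of_nonneg_left hσ0 (abs_nonneg _)).trans h3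
    rw [← le_div_iff₀ hK] at h4
    refine h4.trans (le_of_eq ?_)
    field_simp
  · intro hDs
    obtain ⟨w1, hw1⟩ : ∃ w1, w1 = 2 * (x1 + s * e1) + l1 := ⟨_, rfl⟩
    obtain ⟨w2, hw2⟩ : ∃ w2, w2 = 2 * (x2 + s * e2) + l2 := ⟨_, rfl⟩
    obtain ⟨el1, el2, el3⟩ := elliptic hA2 hB2
    rw [← hw1, ← hw2] at el1 el2 el3
    have hne2 : ne ^ 2 = e1 ^ 2 + e2 ^ 2 := nr_sq _ _
    have hnl2 : nl ^ 2 = l1 ^ 2 + l2 ^ 2 := nr_sq _ _
    rw [← hnl2] at el3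
    set z := w1 * e1 + w2 * e2 with hz
    set c := e1 * l1 + e2 * l2 with hc
    have hDw : D = e1 * w2 - e2 * w1 := by rw [hD, hw1, hw2]; ring
    have id1 : ne ^ 2 * (w1 * l1 + w2 * l2) = z * c + D * q := by
      rw [hne2, hDw, hz, hc, hq]; ring
    have id2 : ne ^ 2 * (w1 ^ 2 + w2 ^ 2) = z ^ 2 + D ^ 2 := by
      rw [hne2, hDw, hz]; ring
    set σ := A + B with hσ
    set h := A - B with hh'
    have hσ1 : σ ≤ 9/2 * K := by rw [hσ]; linarith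
    have hσ32 : 3/2 * K ≤ σ := by rw [hσ]; linarith
    have hhs : h ^ 2 ≤ nl ^ 2 := by
      rw [← sq_abs h]
      exact pow_le_pow_left₀ (abs_nonneg _) hh 2
    -- the key identity
    have key : z * (D * z - q * c) = ne ^ 2 * ((D * σ - q * h) * σ) - D ^ 3 - D * ne ^ 2 * (nl ^ 2 - h ^ 2) + D * q ^ 2 := by
      have e1' : ne ^ 2 * (h * σ) = z * c + D * q := by rw [← el1, id1]
      have e2' : ne ^ 2 * (σ ^ 2 + h ^ 2 - nl ^ 2) = z ^ 2 + D ^ 2 := by rw [← el3, id2]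
      linear_combination D * (-e2') + q * e1'
    have hz2 : ne ^ 2 * K ^ 2 ≤ z ^ 2 := by
      have e2' : ne ^ 2 * (σ ^ 2 + h ^ 2 - nl ^ 2) = z ^ 2 + D ^ 2 := by rw [← el3, id2]
      have hD2 : D ^ 2 ≤ (ne * K / 2) ^ 2 := by
        rw [← sq_abs D]; exact pow_le_pow_left₀ (abs_nonneg _) hDs 2
      have hnlK : nl ^ 2 ≤ (K / 4) ^ 2 := pow_le_pow_left₀ hnl0 hl 2
      have hσs : (3/2 * K) ^ 2 ≤ σ ^ 2 := pow_le_pow_left₀ (by positivity) hσ32 2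
      have h0 : 0 ≤ h ^ 2 := sq_nonneg _
      have h5 : 5/4 * K ^ 2 ≤ σ ^ 2 + h ^ 2 - nl ^ 2 := by nlinarith
      have h6 : ne ^ 2 * (5/4 * K ^ 2) ≤ ne ^ 2 * (σ ^ 2 + h ^ 2 - nl ^ 2) := by gcongr
      nlinarith
    have hzabs : ne * K ≤ |z| := by
      refine (pow_le_pow_iff_left₀ (by positivity) (abs_nonneg _) two_ne_zero).mp ?_
      rw [sq_abs, mul_pow]; exact hz2
    have hσpos : 0 ≤ σ := by linarith
    have hb1 : |z * (D * z - q * c)| ≤ ne ^ 2 * (206 * δ * K ^ 3 / γ * (9/2 * K)) + |D| ^ 3 + 2 * (|D| * ne ^ 2 * nl ^ 2) := by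
      rw [key]
      have t1 : |ne ^ 2 * ((D * σ - q * h) * σ)| ≤ ne ^ 2 * (206 * δ * K ^ 3 / γ * (9/2 * K)) := by
        rw [abs_mul, abs_mul, abs_of_nonneg (by positivity : 0 ≤ ne ^ 2), abs_of_pos (by linarith : 0 < σ)]
        gcongr
      have t2 : |D ^ 3| = |D| ^ 3 := abs_pow _ _
      have t3 : |D * ne ^ 2 * (nl ^ 2 - h ^ 2)| ≤ |D| * ne ^ 2 * nl ^ 2 := by
        rw [abs_mul, abs_mul, abs_of_nonneg (by positivity : 0 ≤ ne ^ 2)]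
        have : |nl ^ 2 - h ^ 2| ≤ nl ^ 2 := by
          rw [abs_of_nonneg (by linarith)]
          have := sq_nonneg h
          linarith
        gcongr
      have t4 : |D * q ^ 2| ≤ |D| * ne ^ 2 * nl ^ 2 := by
        rw [abs_mul, abs_pow, mul_assoc, ← mul_pow]
        gcongr
      calc |ne ^ 2 * ((D * σ - q * h) * σ) - D ^ 3 - D * ne ^ 2 * (nl ^ 2 - h ^ 2) + D * q ^ 2|
          ≤ |ne ^ 2 * ((D * σ - q * h) * σ)| + |D ^ 3| + |D * ne ^ 2 * (nl ^ 2 - h ^ 2)| + |D * q ^ 2| := by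
            refine (abs_add_le _ _).trans ?_
            gcongr
            refine (abs_sub _ _).trans ?_
            gcongr
            exact abs_sub _ _
        _ ≤ _ := by rw [t2]; linarith
    rw [abs_mul] at hb1
    have hb2 : ne * K * |D * z - q * c| ≤ ne ^ 2 * (206 * δ * K ^ 3 / γ * (9/2 * K)) + |D| ^ 3 + 2 * (|D| * ne ^ 2 * nl ^ 2) :=
      (mul_le_mul_of_nonneg_right hzabs (abs_nonneg _)).trans hb1
    have hneK : 0 < ne * K := by positivity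
    have hb3 : |D * z - q * c| ≤ 927 * ne * δ * K ^ 3 / γ + |D| ^ 3 / (ne * K) + 2 * |D| * ne * nl ^ 2 / K := by
      rw [← le_div_iff₀' hneK] at hb2
      refine hb2.trans (le_of_eq ?_)
      field_simp
      ring
    have hzz : (2 * x1 + l1) * e1 + (2 * x2 + l2) * e2 = z - 2 * s * ne ^ 2 := by
      rw [hz, hw1, hw2, hne2]; ring
    rw [hzz]
    have hfin : D * (z - 2 * s * ne ^ 2) - q * c = (D * z - q * c) - D * (2 * s * ne ^ 2) := by ring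
    rw [hfin]
    refine (abs_sub _ _).trans ?_
    have h9 : |D * (2 * s * ne ^ 2)| ≤ 2 * |D| * ne ^ 2 := by
      rw [abs_mul, abs_of_nonneg (by positivity : 0 ≤ 2 * s * ne ^ 2)]
      have : |D| * (2 * s * ne ^ 2) = (2 * |D| * ne ^ 2) * s := by ring
      rw [this]
      exact mul_le_of_le_one_right (by positivity) hs1
    linarith

end Pool.Agent.H593.U
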