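import Mathlib
import Pool.Agent.H593.U7.N2
import Pool.Agent.H593.U.A2a

/-!
# Counting lemmas
-/

open Set Filter Topology
open Pool.Agent.H383.Gauss

namespace Pool.Agent.H593.U

/-- sup norm of a lattice point -/
def mx (e : ℤ × ℤ) : ℕ := max e.1.natAbs e.2.natAbs

lemma mem_box_mx (K : ℕ) (p : ℤ × ℤ) : p ∈ box K ↔ mx p ≤ K := by
  rw [mem_box, mx, max_le_iff, Int.abs_eq_natAbs, Int.abs_eq_natAbs, Nat.cast_le, Nat.cast_le]

lemma mx_le_nz (p : ℤ × ℤ) : (mx p : ℝ) ≤ nz p := by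
  have h := abs_le_nz p
  unfold mx
  rcases le_total p.1.natAbs p.2.natAbs with h1 | h1
  · rw [max_eq_right h1]
    rw [show ((p.2.natAbs : ℕ) : ℝ) = |(p.2:ℝ)| by rw [Nat.cast_natAbs]; push_cast; rfl]
    exact h.2
  · rw [max_eq_left h1]
    rw [show ((p.1.natAbs : ℕ) : ℝ) = |(p.1:ℝ)| by rw [Nat.cast_natAbs]; push_cast; rfl]
    exact h.1

lemma nz_le_mx (p : ℤ × ℤ) : nz p ≤ 2 * mx p := by
  have := nz_le_of_mem_box ((mem_box_mx (mx p) p).mpr le_rfl)
  exact this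

lemma mx_pos {p : ℤ × ℤ} (hp : p ≠ 0) : 1 ≤ mx p := by
  by_contra h
  push Not at h
  apply hp
  unfold mx at h
  have h1 := le_max_left p.1.natAbs p.2.natAbs
  have h2 := le_max_right p.1.natAbs p.2.natAbs
  exact Prod.ext (by simp; omega) (by simp; omega)

/-- sums over shells in the sup norm -/
lemma shell_sum_mx (L : ℕ) (f : ℕ → ℝ) (hf : ∀ n, 0 ≤ f n) :
    ∑ e ∈ (box L).erase 0, f (mx e) ≤ ∑ n ∈ Finset.Icc 1 L, 8 * n * f n := by
  have hmap : ∀ e ∈ (box L).erase 0, mx e ∈ Finset.Icc 1 L := by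
    intro e he
    rw [Finset.mem_erase] at he
    rw [Finset.mem_Icc]
    exact ⟨mx_pos he.1, (mem_box_mx L e).mp he.2⟩
  rw [← Finset.sum_fiberwise_of_maps_to hmap]
  apply Finset.sum_le_sum
  intro n hn
  rw [Finset.mem_Icc] at hn
  have h1 : ∑ e ∈ ((box L).erase 0).filter (fun e => mx e = n), f (mx e) =
      (((box L).erase 0).filter (fun e => mx e = n)).card * f n := by
    rw [← nsmul_eq_mul, ← Finset.sum_const]
    apply Finset.sum_congr rfl
    intro e he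
    rw [Finset.mem_filter] at he
    rw [he.2]
  rw [h1]
  apply mul_le_mul_of_nonneg_right _ (hf n)
  have h2 : ((box L).erase 0).filter (fun e => mx e = n) ⊆ box n \ box (n - 1) := by
    intro e he
    rw [Finset.mem_filter] at he
    rw [Finset.mem_sdiff, mem_box_mx, mem_box_mx]
    omega
  have h3 : box (n - 1) ⊆ box n := by
    intro e he
    rw [mem_box_mx] at he ⊢
    omega
  have h4 := Finset.card_le_card h2
  rw [Finset.card_sdiff_of_subset h3, card_box, card_box] at h4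
  have h5 : (2 * n + 1) ^ 2 - (2 * (n - 1) + 1) ^ 2 = 8 * n := by
    obtain ⟨m, rfl⟩ : ∃ m, n = m + 1 := ⟨n - 1, by omega⟩
    simp only [Nat.add_sub_cancel]
    have : (2 * (m + 1) + 1) ^ 2 = 8 * (m + 1) + (2 * m + 1) ^ 2 := by ring
    omega
  rw [h5] at h4
  exact_mod_cast h4

lemma sum_inv_mx (L : ℕ) : ∑ e ∈ (box L).erase 0, (1 / (mx e : ℝ)) ≤ 8 * L := by
  refine (shell_sum_mx L (fun n => 1 / (n:ℝ)) (fun n => by positivity)).trans ?_
  have : ∑ n ∈ Finset.Icc 1 L, 8 * (n:ℝ) * (1 / (n:ℝ)) = ∑ n ∈ Finset.Icc 1 L, (8:ℝ) := by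
    apply Finset.sum_congr rfl
    intro n hn
    rw [Finset.mem_Icc] at hn
    have : (n:ℝ) ≠ 0 := by
      have : n ≠ 0 := by omega
      exact_mod_cast this
    field_simp
  rw [this, Finset.sum_const, Nat.card_Icc, nsmul_eq_mul]
  simp only [Nat.add_sub_cancel]
  rw [mul_comm]

lemma harm (L : ℕ) : ∑ n ∈ Finset.Icc 1 L, (1 / (n:ℝ)) ≤ 1 + Real.log L := by
  have h := harmonic_le_one_add_log L
  rw [harmonic_eq_sum_Icc] at h
  push_cast at h
  simpa using h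

lemma sum_inv_sq_mx (L : ℕ) : ∑ e ∈ (box L).erase 0, (1 / (mx e : ℝ) ^ 2) ≤ 8 * (1 + Real.log L) := by
  refine (shell_sum_mx L (fun n => 1 / (n:ℝ) ^ 2) (fun n => by positivity)).trans ?_
  have : ∑ n ∈ Finset.Icc 1 L, 8 * (n:ℝ) * (1 / (n:ℝ) ^ 2) = 8 * ∑ n ∈ Finset.Icc 1 L, (1 / (n:ℝ)) := by
    rw [Finset.mul_sum]
    apply Finset.sum_congr rfl
    intro n hn
    rw [Finset.mem_Icc] at hn
    have : (n:ℝ) ≠ 0 := by
      have : n ≠ 0 := by omega
      exact_mod_cast this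
    field_simp
  rw [this]
  have := harm L
  linarith

/-- gcd of a lattice vector -/
def gc (e : ℤ × ℤ) : ℕ := Int.gcd e.1 e.2

lemma gc_pos {e : ℤ × ℤ} (he : e ≠ 0) : 0 < gc e := by
  unfold gc
  rw [Int.gcd_pos_iff]
  by_contra h
  push Not at h
  exact he (Prod.ext h.1 h.2)

lemma gc_le_mx {e : ℤ × ℤ} (he : e ≠ 0) : gc e ≤ mx e := by
  unfold gc mx
  by_cases h1 : e.1 = 0
  · have h2 : e.2 ≠ 0 := fun h => he (Prod.ext h1 h)
    exact (Nat.le_of_dvd (Int.natAbs_pos.mpr h2) (Int.gcd_dvd_natAbs_right _ _)).trans (le_max_right _ _)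
  · exact (Nat.le_of_dvd (Int.natAbs_pos.mpr h1) (Int.gcd_dvd_natAbs_left _ _)).trans (le_max_left _ _)

lemma mx_smul (m : ℕ) (e : ℤ × ℤ) : mx ((m:ℤ) * e.1, (m:ℤ) * e.2) = m * mx e := by
  unfold mx
  simp only [Int.natAbs_mul, Int.natAbs_natCast]
  exact (Nat.mul_max_mul_left m _ _)

lemma sum_gc (L : ℕ) : ∑ e ∈ (box L).erase 0, ((gc e : ℝ) / mx e) ≤ 8 * L * (1 + Real.log L) := by
  have h1 : ∀ e ∈ (box L).erase 0, ((gc e : ℝ) / mx e) ≤
      ∑ m ∈ Finset.Icc 1 L, if ((m:ℤ) ∣ e.1 ∧ (m:ℤ) ∣ e.2) then ((m:ℝ) / mx e) else 0 := by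
    intro e he
    rw [Finset.mem_erase] at he
    have hg : gc e ∈ Finset.Icc 1 L := by
      rw [Finset.mem_Icc]
      exact ⟨gc_pos he.1, (gc_le_mx he.1).trans ((mem_box_mx L e).mp he.2)⟩
    have h2 := Finset.single_le_sum (f := fun m : ℕ => if ((m:ℤ) ∣ e.1 ∧ (m:ℤ) ∣ e.2) then ((m:ℝ) / mx e) else 0)
      (fun m _ => by positivity) hg
    refine le_trans (le_of_eq ?_) h2
    have h3 : ((gc e : ℤ) ∣ e.1 ∧ (gc e : ℤ) ∣ e.2) := ⟨Int.gcd_dvd_left _ _, Int.gcd_dvd_right _ _⟩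
    simp only [if_pos h3]
  refine (Finset.sum_le_sum h1).trans ?_
  rw [Finset.sum_comm]
  have h4 : ∀ m ∈ Finset.Icc 1 L, ∑ e ∈ (box L).erase 0, (if ((m:ℤ) ∣ e.1 ∧ (m:ℤ) ∣ e.2) then ((m:ℝ) / mx e) else 0) ≤
      8 * L * (1 / (m:ℝ)) := by
    intro m hm
    rw [Finset.mem_Icc] at hm
    have hm0 : (0:ℝ) < m := by
      have : 0 < m := by omega
      exact_mod_cast this
    rw [← Finset.sum_filter]
    have h5 : ∑ e ∈ ((box L).erase 0).filter (fun e => (m:ℤ) ∣ e.1 ∧ (m:ℤ) ∣ e.2), ((m:ℝ) / mx e) ≤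
        ∑ e ∈ ((box (L / m)).erase 0).image (fun v : ℤ × ℤ => ((m:ℤ) * v.1, (m:ℤ) * v.2)), ((m:ℝ) / mx e) := by
      apply Finset.sum_le_sum_of_subset_of_nonneg
      · intro e he
        rw [Finset.mem_filter, Finset.mem_erase] at he
        obtain ⟨⟨he0, heL⟩, ⟨a, ha⟩, ⟨b, hb⟩⟩ := he
        rw [Finset.mem_image]
        refine ⟨(a, b), ?_, Prod.ext ha.symm hb.symm⟩
        have hmx : mx e = m * mx (a, b) := by
          rw [← mx_smul]
          congr 1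
          exact Prod.ext ha hb
        rw [Finset.mem_erase, mem_box_mx]
        constructor
        · intro h0
          apply he0
          have h1 : a = 0 := congrArg Prod.fst h0
          have h2 : b = 0 := congrArg Prod.snd h0
          exact Prod.ext (by rw [ha, h1]; simp) (by rw [hb, h2]; simp)
        · rw [mem_box_mx, hmx] at heL
          rw [Nat.le_div_iff_mul_le (by omega), mul_comm]
          exact heL
      · intro e _ _
        positivity
    refine h5.trans ?_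
    rw [Finset.sum_image]
    · have h6 : ∀ v ∈ (box (L / m)).erase 0, ((m:ℝ) / mx ((m:ℤ) * v.1, (m:ℤ) * v.2)) = 1 / mx v := by
        intro v hv
        rw [Finset.mem_erase] at hv
        rw [mx_smul]
        have : (mx v : ℝ) ≠ 0 := by
          have := mx_pos hv.1
          have : mx v ≠ 0 := by omega
          exact_mod_cast this
        push_cast
        field_simp
      rw [Finset.sum_congr rfl h6]
      refine (sum_inv_mx (L / m)).trans ?_
      have h7 : ((L / m : ℕ) : ℝ) ≤ (L:ℝ) / m := Nat.cast_div_le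
      calc 8 * ((L / m : ℕ) : ℝ) ≤ 8 * ((L:ℝ) / m) := by gcongr
        _ = _ := by ring
    · intro a _ b _ hab
      have hm' : (m:ℤ) ≠ 0 := by
        have : m ≠ 0 := by omega
        exact_mod_cast this
      simp only [Prod.mk.injEq] at hab
      exact Prod.ext (mul_left_cancel₀ hm' hab.1) (mul_left_cancel₀ hm' hab.2)
  refine (Finset.sum_le_sum h4).trans ?_
  rw [← Finset.mul_sum]
  gcongr
  exact harm L

lemma collinear {e v : ℤ × ℤ} (h : dt e v = 0) :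
    ∃ j : ℤ, (gc e : ℤ) * v.1 = j * e.1 ∧ (gc e : ℤ) * v.2 = j * e.2 := by
  unfold gc
  have hb := Int.gcd_eq_gcd_ab e.1 e.2
  set s := Int.gcdA e.1 e.2
  set t := Int.gcdB e.1 e.2
  unfold dt at h
  refine ⟨s * v.1 + t * v.2, ?_, ?_⟩
  · rw [hb]; linear_combination (-t) * h
  · rw [hb]; linear_combination s * h

/-- integer dot product -/
def dd (p q : ℤ × ℤ) : ℤ := p.1 * q.1 + p.2 * q.2

/-- number of points on a line in a short interval -/
lemma line_count {e : ℤ × ℤ} (he : e ≠ 0) {S : Finset (ℤ × ℤ)} {Z : ℝ} (hZ : 0 ≤ Z)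
    (h1 : ∀ k ∈ S, ∀ k' ∈ S, dt e (k - k') = 0) (h2 : ∀ k ∈ S, ∀ k' ∈ S, |((dd (k - k') e : ℤ) : ℝ)| ≤ Z) :
    (S.card : ℝ) ≤ Z * gc e / nz e ^ 2 + 1 := by
  have hne : 0 < nz e := lt_of_lt_of_le one_pos (nz_ge_one he)
  have hg := gc_pos he
  have hg' : (0:ℝ) < gc e := by exact_mod_cast hg
  rcases S.eq_empty_or_nonempty with hS | hS
  · rw [hS]; simp; positivity
  obtain ⟨k0, hk0⟩ := hS
  -- position on the line, using the dot product with e divided
  have hj : ∀ k : ℤ × ℤ, k ∈ S → ∃ j : ℤ, (gc e : ℤ) * (k - k0).1 = j * e.1 ∧ (gc e : ℤ) * (k - k0).2 = j * e.2 :=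
    fun k hk => collinear (h1 k hk k0 hk0)
  choose! j hj1 hj2 using hj
  have hinj : Set.InjOn j S := by
    intro k hk k' hk' hjj
    have a1 := hj1 k hk
    have a2 := hj2 k hk
    have b1 := hj1 k' hk'
    have b2 := hj2 k' hk'
    rw [hjj] at a1 a2
    have hg0 : (gc e : ℤ) ≠ 0 := by exact_mod_cast hg.ne'
    have c1 := mul_left_cancel₀ hg0 (a1.trans b1.symm)
    have c2 := mul_left_cancel₀ hg0 (a2.trans b2.symm)
    have : k - k0 = k' - k0 := Prod.ext c1 c2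
    exact sub_left_inj.mp this
  have hdiff : ∀ k ∈ S, ∀ k' ∈ S, |((j k - j k' : ℤ) : ℝ)| ≤ Z * gc e / nz e ^ 2 := by
    intro k hk k' hk'
    have e1 : (gc e : ℤ) * dd (k - k') e = (j k - j k') * (e.1 ^ 2 + e.2 ^ 2) := by
      have a1 := hj1 k hk
      have a2 := hj2 k hk
      have b1 := hj1 k' hk'
      have b2 := hj2 k' hk'
      simp only [Prod.fst_sub, Prod.snd_sub] at a1 a2 b1 b2
      simp only [dd, Prod.fst_sub, Prod.snd_sub]
      linear_combination e.1 * a1 + e.2 * a2 - e.1 * b1 - e.2 * b2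
    have e2 : (gc e : ℝ) * ((dd (k - k') e : ℤ) : ℝ) = ((j k - j k' : ℤ) : ℝ) * nz e ^ 2 := by
      have h3 : nz e ^ 2 = (e.1:ℝ) ^ 2 + (e.2:ℝ) ^ 2 := Real.sq_sqrt (by positivity)
      rw [h3]
      exact_mod_cast e1
    rw [le_div_iff₀ (by positivity)]
    calc |((j k - j k' : ℤ) : ℝ)| * nz e ^ 2 = |((j k - j k' : ℤ) : ℝ) * nz e ^ 2| := by
          rw [abs_mul, abs_of_nonneg (by positivity : 0 ≤ nz e ^ 2)]
      _ = gc e * |((dd (k - k') e : ℤ) : ℝ)| := by rw [← e2, abs_mul, abs_of_pos hg']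
      _ ≤ gc e * Z := by gcongr; exact h2 k hk k' hk'
      _ = _ := by ring
  -- the minimum
  obtain ⟨k1, hk1, hmin⟩ := Finset.exists_min_image S j ⟨k0, hk0⟩
  set W := Z * gc e / nz e ^ 2 with hW
  have hW0 : 0 ≤ W := by positivity
  have h5 : (S.image j) ⊆ Finset.Icc (j k1) (j k1 + ⌊W⌋₊) := by
    intro x hx
    rw [Finset.mem_image] at hx
    obtain ⟨k, hk, rfl⟩ := hx
    rw [Finset.mem_Icc]
    have h6 := hmin k hk
    refine ⟨h6, ?_⟩
    have h7 := hdiff k hk k1 hk1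
    have h8 : ((j k - j k1).toNat : ℝ) ≤ W := by
      refine le_trans (le_of_eq ?_) h7
      rw [abs_of_nonneg (by exact_mod_cast (by omega : (0:ℤ) ≤ j k - j k1))]
      have : ((j k - j k1).toNat : ℤ) = j k - j k1 := Int.toNat_of_nonneg (by omega)
      exact_mod_cast this
    have h9 := Nat.le_floor h8
    omega
  have h6 := Finset.card_le_card h5
  rw [Finset.card_image_of_injOn hinj, Int.card_Icc] at h6
  have h7 : (j k1 + ⌊W⌋₊ + 1 - j k1).toNat = ⌊W⌋₊ + 1 := by omega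
  rw [h7] at h6
  have h8 : (S.card : ℝ) ≤ ((⌊W⌋₊ + 1 : ℕ) : ℝ) := by exact_mod_cast h6
  push_cast at h8
  have := Nat.floor_le hW0
  linarith

/-- number of nonzero multiples -/
lemma mult_count {m : ℕ} (hm : 0 < m) {A : Finset ℤ} {x : ℝ} (hx : 0 ≤ x)
    (h : ∀ d ∈ A, d ≠ 0 ∧ (m:ℤ) ∣ d ∧ |(d:ℝ)| ≤ x) : (A.card : ℝ) ≤ 2 * x / m := by
  have hm' : (0:ℝ) < m := by exact_mod_cast hm
  have hm0 : (m:ℤ) ≠ 0 := by exact_mod_cast hm.ne'
  set n := ⌊x / m⌋₊ with hn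
  have h1 : A.image (fun d => d / (m:ℤ)) ⊆ (Finset.Icc (-(n:ℤ)) n).erase 0 := by
    intro y hy
    rw [Finset.mem_image] at hy
    obtain ⟨d, hd, rfl⟩ := hy
    obtain ⟨h1, ⟨c, hc⟩, h3⟩ := h d hd
    rw [hc, Int.mul_ediv_cancel_left c hm0]
    have hcx : |(c:ℝ)| ≤ x / m := by
      rw [le_div_iff₀ hm']
      rw [hc] at h3
      push_cast at h3
      rw [abs_mul, abs_of_pos hm', mul_comm] at h3
      exact h3
    have hcn : c.natAbs ≤ n := by
      apply Nat.le_floor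
      rw [Nat.cast_natAbs]; push_cast; exact hcx
    rw [Finset.mem_erase, Finset.mem_Icc]
    refine ⟨?_, by omega, by omega⟩
    intro h0
    apply h1; rw [hc, h0, mul_zero]
  have hinj : Set.InjOn (fun d => d / (m:ℤ)) (A : Set ℤ) := by
    intro a ha b hb hab
    obtain ⟨_, ⟨c, hc⟩, _⟩ := h a ha
    obtain ⟨_, ⟨c', hc'⟩, _⟩ := h b hb
    simp only [hc, hc', Int.mul_ediv_cancel_left _ hm0] at hab
    rw [hc, hc', hab]
  have h2 := Finset.card_le_card h1
  rw [Finset.card_image_of_injOn hinj, Finset.card_erase_of_mem (by rw [Finset.mem_Icc]; omega), Int.card_Icc] at h2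
  have h3 : A.card ≤ 2 * n := by omega
  have h4 : (A.card : ℝ) ≤ 2 * (n:ℝ) := by exact_mod_cast h3
  have h5 : (n:ℝ) ≤ x / m := Nat.floor_le (by positivity)
  calc (A.card : ℝ) ≤ 2 * (n:ℝ) := h4
    _ ≤ 2 * (x / m) := by gcongr
    _ = _ := by ring

lemma gc_dvd_dt (e v : ℤ × ℤ) : (gc e : ℤ) ∣ dt e v := by
  unfold dt gc
  exact dvd_sub (Dvd.dvd.mul_right (Int.gcd_dvd_left _ _) _) (Dvd.dvd.mul_right (Int.gcd_dvd_right _ _) _)

end Pool.Agent.H593.U
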