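import Mathlib
import Pool.Agent.H593.U7.N3

/-!
# Pairs of lattice points with a given difference on a common level
-/

open Set Filter Topology
open Pool.Agent.H383.Gauss

namespace Pool.Agent.H593.U

/-- the annulus -/
noncomputable def An (K : ℕ) : Finset (ℤ × ℤ) := (box (2 * K)).filter (fun k => (K:ℝ) ≤ nz k ∧ nz k ≤ 2 * K)

lemma mem_An {K : ℕ} {k : ℤ × ℤ} : k ∈ An K ↔ (K:ℝ) ≤ nz k ∧ nz k ≤ 2 * K := by
  unfold An
  rw [Finset.mem_filter]
  constructor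
  · exact fun h => h.2
  · intro h
    refine ⟨mem_box_of_nz ?_, h⟩
    push_cast; exact h.2

/-- the level function -/
noncomputable def lv (l k : ℤ × ℤ) : ℝ := nz (k + l) - nz k

/-- nondegenerate points -/
noncomputable def Nd (K : ℕ) (γ : ℝ) (l : ℤ × ℤ) : Finset (ℤ × ℤ) :=
  (An K).filter (fun k => k + l ∈ An K ∧ γ * K ≤ 2 * |((dt k l : ℤ) : ℝ)|)

/-- pairs with difference `e` -/
noncomputable def We (K : ℕ) (γ δ : ℝ) (l e : ℤ × ℤ) : Finset (ℤ × ℤ) :=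
  (Nd K γ l).filter (fun k => k + e ∈ Nd K γ l ∧ 0 ≤ dt k l * dt (k + e) l ∧ |lv l (k + e) - lv l k| ≤ δ)

/-- the determinant which is constant along lines -/
def Dk (e l k : ℤ × ℤ) : ℤ := 2 * dt e k + dt e l

/-- the position along the line -/
def zk (e l k : ℤ × ℤ) : ℤ := 2 * dd k e + dd l e

lemma star_int {K : ℕ} (hK : 1 ≤ K) {γ δ : ℝ} (hγ : 0 < γ) (hδ : 0 ≤ δ) {l e k : ℤ × ℤ}
    (he0 : e ≠ 0) (he : nz e ≤ K / 4) (hl : nz l ≤ K / 4) (hk : k ∈ We K γ δ l e) :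
    |((Dk e l k : ℤ) : ℝ)| ≤ nz e * nz l ^ 2 / K + 206 * δ * K ^ 2 / γ ∧
    (|((Dk e l k : ℤ) : ℝ)| ≤ nz e * K / 2 →
      |((Dk e l k : ℤ) : ℝ) * ((zk e l k : ℤ) : ℝ) - ((dt e l : ℤ) : ℝ) * ((dd e l : ℤ) : ℝ)| ≤
      927 * nz e * δ * K ^ 3 / γ + |((Dk e l k : ℤ) : ℝ)| ^ 3 / (nz e * K) +
      2 * |((Dk e l k : ℤ) : ℝ)| * nz e * nz l ^ 2 / K + 2 * |((Dk e l k : ℤ) : ℝ)| * nz e ^ 2) := by
  unfold We Nd at hk
  simp only [Finset.mem_filter, mem_An] at hk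
  obtain ⟨⟨⟨h1, h1'⟩, ⟨⟨h2, h2'⟩, hq1⟩⟩, ⟨⟨_, _⟩, ⟨_, hq2⟩⟩, hsgn, hd⟩ := hk
  have hK' : (0:ℝ) < K := by exact_mod_cast hK
  have e1 : ((Dk e l k : ℤ) : ℝ) = (e.1:ℝ) * (2 * k.2 + l.2) - e.2 * (2 * k.1 + l.1) := by
    unfold Dk dt; push_cast; ring
  have e2 : ((zk e l k : ℤ) : ℝ) = (2 * (k.1:ℝ) + l.1) * e.1 + (2 * k.2 + l.2) * e.2 := by
    unfold zk dd; push_cast; ring
  have e3 : ((dt e l : ℤ) : ℝ) = (e.1:ℝ) * l.2 - e.2 * l.1 := by unfold dt; push_cast; ring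
  have e4 : ((dd e l : ℤ) : ℝ) = (e.1:ℝ) * l.1 + e.2 * l.2 := by unfold dd; push_cast; ring
  have e5 : nz (k + l) = nr ((k.1:ℝ) + l.1) ((k.2:ℝ) + l.2) := by
    rw [nz_eq_nr]; simp only [Prod.fst_add, Prod.snd_add]; push_cast; rfl
  have e6 : nz (k + e) = nr ((k.1:ℝ) + e.1) ((k.2:ℝ) + e.2) := by
    rw [nz_eq_nr]; simp only [Prod.fst_add, Prod.snd_add]; push_cast; rfl
  have e7 : nz (k + e + l) = nr ((k.1:ℝ) + e.1 + l.1) ((k.2:ℝ) + e.2 + l.2) := by
    rw [nz_eq_nr]; simp only [Prod.fst_add, Prod.snd_add]; push_cast; rfl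
  have f1 : (2 * (k.1:ℝ) + l.1) * l.2 - (2 * k.2 + l.2) * l.1 = 2 * ((dt k l : ℤ) : ℝ) := by
    unfold dt; push_cast; ring
  have f2 : (2 * ((k.1:ℝ) + e.1) + l.1) * l.2 - (2 * (k.2 + e.2) + l.2) * l.1 = 2 * ((dt (k + e) l : ℤ) : ℝ) := by
    unfold dt; simp only [Prod.fst_add, Prod.snd_add]; push_cast; ring
  have hne0 : 0 < nz e := lt_of_lt_of_le one_pos (nz_ge_one he0)
  have hst := star (x1 := (k.1:ℝ)) (x2 := k.2) (l1 := l.1) (l2 := l.2) (e1 := e.1) (e2 := e.2) (K := K) (δ := δ)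
    (γ := γ) hK' hγ hδ (by rw [← nz_eq_nr]; exact h1) (by rw [← nz_eq_nr]; exact h1')
    (by rw [← e5]; exact h2) (by rw [← e5]; exact h2') (by rw [← nz_eq_nr]; exact he)
    (by rw [← nz_eq_nr]; exact hne0) (by rw [← nz_eq_nr]; exact hl)
    (by rw [← e5, ← e6, ← e7, ← nz_eq_nr]; exact hd)
    (by rw [f1, abs_mul, abs_of_pos (by norm_num : (0:ℝ) < 2)]; exact hq1)
    (by rw [f2, abs_mul, abs_of_pos (by norm_num : (0:ℝ) < 2)]; exact hq2)
    (by
      rw [f1, f2]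
      have : (0:ℝ) ≤ ((dt k l : ℤ) : ℝ) * ((dt (k + e) l : ℤ) : ℝ) := by exact_mod_cast hsgn
      linarith)
  rw [← nz_eq_nr, ← nz_eq_nr, ← e1, ← e2, ← e3, ← e4] at hst
  exact hst

lemma abs_dd_le (p q : ℤ × ℤ) : |((dd p q : ℤ) : ℝ)| ≤ nz p * nz q := by
  unfold dd
  push_cast
  rw [nz_eq_nr, nz_eq_nr]
  exact abs_dot_le _ _ _ _

lemma nz_sub_le (p q : ℤ × ℤ) : nz (p - q) ≤ nz p + nz q := by
  have h := nr_add_le (p.1:ℝ) p.2 (-(q.1:ℝ)) (-(q.2:ℝ))
  have e1 : nz (p - q) = nr ((p.1:ℝ) + -(q.1:ℝ)) ((p.2:ℝ) + -(q.2:ℝ)) := by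
    rw [nz_eq_nr]; simp only [Prod.fst_sub, Prod.snd_sub]; push_cast; ring_nf
  have e2 : nr (-(q.1:ℝ)) (-(q.2:ℝ)) = nz q := by
    rw [nz_eq_nr]; unfold nr; ring_nf
  rw [e1]
  rw [e2, ← nz_eq_nr] at h
  exact h

lemma fiber_bound {S : Finset (ℤ × ℤ)} (f : ℤ × ℤ → ℤ) {b : ℝ}
    (h : ∀ d ∈ S.image f, ((S.filter (fun k => f k = d)).card : ℝ) ≤ b) :
    (S.card : ℝ) ≤ (S.image f).card * b := by
  rw [Finset.card_eq_sum_card_image f S]
  push_cast
  refine (Finset.sum_le_card_nsmul _ _ b h).trans (le_of_eq ?_)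
  rw [nsmul_eq_mul]

theorem We_bound {K : ℕ} (hK : 1 ≤ K) {γ δ D0 E : ℝ} (hγ : 0 < γ) (hδ : 0 ≤ δ) (hD0 : 0 < D0) {l e : ℤ × ℤ}
    (he0 : e ≠ 0) (heE : nz e ≤ E) (hE : E ≤ K / 4) (hl : nz l ≤ K / 4) (h206 : 206 * δ * K ^ 2 / γ ≤ D0 / 2) :
    ((We K γ δ l e).card : ℝ) ≤ (4 * K * (gc e / nz e) + 1) + (8 * D0 * K / nz e + 2 * D0) +
      (4 * nz e * nz l ^ 2 / K + 4 * nz l ^ 2 / K *
        (927 * δ * K ^ 3 / (γ * D0) + 4 * nz l ^ 4 / K ^ 3 + 2 * nz l ^ 2 / K + 2 * E)) := by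
  have hK' : (0:ℝ) < K := by exact_mod_cast hK
  have hne1 : 1 ≤ nz e := nz_ge_one he0
  have hne : 0 < nz e := by linarith
  have hnl : 0 ≤ nz l := nz_nonneg l
  have hg := gc_pos he0
  have hg1 : (1:ℝ) ≤ gc e := by exact_mod_cast hg
  have hgle : (gc e : ℝ) ≤ nz e := by
    have h1 := gc_le_mx he0
    have h2 := mx_le_nz e
    have h3 : (gc e : ℝ) ≤ mx e := by exact_mod_cast h1
    linarith
  have he4 : nz e ≤ K / 4 := heE.trans hE
  set S := We K γ δ l e with hS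
  have hSA : ∀ k ∈ S, nz k ≤ 2 * K := by
    intro k hk
    rw [hS] at hk
    unfold We Nd at hk
    simp only [Finset.mem_filter, mem_An] at hk
    exact hk.1.1.2
  have hst : ∀ k ∈ S, _ := fun k hk => star_int hK hγ hδ he0 he4 hl hk
  -- trivial fibre bound
  have triv : ∀ S' ⊆ S, ∀ d : ℤ, ((S'.filter (fun k => Dk e l k = d)).card : ℝ) ≤ 4 * K * (gc e / nz e) + 1 := by
    intro S' hS' d
    have h := line_count he0 (S := S'.filter (fun k => Dk e l k = d)) (Z := 4 * K * nz e) (by positivity) ?_ ?_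
    · refine h.trans (le_of_eq ?_)
      field_simp
    · intro k hk k' hk'
      rw [Finset.mem_filter] at hk hk'
      have : Dk e l k - Dk e l k' = 2 * dt e (k - k') := by
        unfold Dk dt; simp only [Prod.fst_sub, Prod.snd_sub]; ring
      rw [hk.2, hk'.2] at this
      omega
    · intro k hk k' hk'
      rw [Finset.mem_filter] at hk hk'
      refine (abs_dd_le _ _).trans ?_
      gcongr
      have := nz_sub_le k k'
      have := hSA k (hS' hk.1)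
      have := hSA k' (hS' hk'.1)
      linarith
  -- the three parts
  set S0 := S.filter (fun k => Dk e l k = 0) with hS0
  set S1 := S.filter (fun k => Dk e l k ≠ 0 ∧ |((Dk e l k : ℤ) : ℝ)| ≤ D0) with hS1
  set S2 := S.filter (fun k => ¬ |((Dk e l k : ℤ) : ℝ)| ≤ D0) with hS2
  have hsplit : S.card ≤ S0.card + S1.card + S2.card := by
    have : S ⊆ S0 ∪ S1 ∪ S2 := by
      intro k hk
      simp only [hS0, hS1, hS2, Finset.mem_union, Finset.mem_filter]
      by_cases h1 : |((Dk e l k : ℤ) : ℝ)| ≤ D0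
      · by_cases h2 : Dk e l k = 0
        · exact Or.inl (Or.inl ⟨hk, h2⟩)
        · exact Or.inl (Or.inr ⟨hk, h2, h1⟩)
      · exact Or.inr ⟨hk, h1⟩
    refine (Finset.card_le_card this).trans ((Finset.card_union_le _ _).trans ?_)
    gcongr
    exact Finset.card_union_le _ _
  have hsplit' : (S.card : ℝ) ≤ S0.card + S1.card + S2.card := by exact_mod_cast hsplit
  have hdvd : ∀ k, (gc e : ℤ) ∣ Dk e l k := by
    intro k
    unfold Dk
    exact dvd_add (Dvd.dvd.mul_left (gc_dvd_dt e k) 2) (gc_dvd_dt e l)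
  -- part 0
  have p0 : (S0.card : ℝ) ≤ 4 * K * (gc e / nz e) + 1 := triv S (Finset.Subset.refl _) 0
  -- part 1
  have p1 : (S1.card : ℝ) ≤ 8 * D0 * K / nz e + 2 * D0 := by
    have hsub : S1 ⊆ S := Finset.filter_subset _ _
    have h1 := fiber_bound (S := S1) (Dk e l) (b := 4 * K * (gc e / nz e) + 1) (fun d _ => triv S1 hsub d)
    have h2 := mult_count hg (A := S1.image (Dk e l)) (x := D0) hD0.le ?_
    · calc (S1.card : ℝ) ≤ (S1.image (Dk e l)).card * (4 * K * (gc e / nz e) + 1) := h1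
        _ ≤ (2 * D0 / gc e) * (4 * K * (gc e / nz e) + 1) := by gcongr
        _ = 8 * D0 * K / nz e + 2 * D0 / gc e := by field_simp; ring
        _ ≤ _ := by
            gcongr
            exact div_le_self (by positivity) hg1
    · intro d hd
      rw [Finset.mem_image] at hd
      obtain ⟨k, hk, rfl⟩ := hd
      rw [hS1, Finset.mem_filter] at hk
      exact ⟨hk.2.1, hdvd k, hk.2.2⟩
  -- part 2
  set Lam := 927 * δ * K ^ 3 / (γ * D0) + 4 * nz l ^ 4 / K ^ 3 + 2 * nz l ^ 2 / K + 2 * E with hLam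
  have hE0 : 0 < E := lt_of_lt_of_le hne heE
  have hLam0 : 0 ≤ Lam := by rw [hLam]; positivity
  have p2 : (S2.card : ℝ) ≤ 4 * nz e * nz l ^ 2 / K + 4 * nz l ^ 2 / K * Lam := by
    have hsub : S2 ⊆ S := Finset.filter_subset _ _
    have hDup : ∀ k ∈ S2, |((Dk e l k : ℤ) : ℝ)| ≤ 2 * nz e * nz l ^ 2 / K := by
      intro k hk
      have h1 := (hst k (hsub hk)).1
      rw [hS2, Finset.mem_filter, not_le] at hk
      have : nz e * nz l ^ 2 / K = (2 * nz e * nz l ^ 2 / K) / 2 := by ring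
      linarith [hk.2]
    have h1 := fiber_bound (S := S2) (Dk e l) (b := Lam * (gc e / nz e) + 1) ?_
    · have h2 := mult_count hg (A := S2.image (Dk e l)) (x := 2 * nz e * nz l ^ 2 / K) (by positivity) ?_
      · calc (S2.card : ℝ) ≤ (S2.image (Dk e l)).card * (Lam * (gc e / nz e) + 1) := h1
          _ ≤ (2 * (2 * nz e * nz l ^ 2 / K) / gc e) * (Lam * (gc e / nz e) + 1) := by gcongr
          _ = 4 * nz l ^ 2 / K * Lam + 4 * nz e * nz l ^ 2 / K / gc e := by field_simp; ring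
          _ ≤ 4 * nz l ^ 2 / K * Lam + 4 * nz e * nz l ^ 2 / K := by
              have h5 : 4 * nz e * nz l ^ 2 / K / gc e ≤ 4 * nz e * nz l ^ 2 / K :=
                div_le_self (by positivity) hg1
              linarith
          _ = _ := by ring
      · intro d hd
        rw [Finset.mem_image] at hd
        obtain ⟨k, hk, rfl⟩ := hd
        refine ⟨?_, hdvd k, hDup k hk⟩
        rw [hS2, Finset.mem_filter, not_le] at hk
        intro h0
        rw [h0] at hk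
        simp at hk
        linarith [hk.2]
    · intro d hd
      rw [Finset.mem_image] at hd
      obtain ⟨k0, hk0, hk0d⟩ := hd
      have hdD0 : D0 < |(d:ℝ)| := by
        rw [hS2, Finset.mem_filter, not_le] at hk0
        rw [← hk0d]; exact hk0.2
      have hdup : |(d:ℝ)| ≤ 2 * nz e * nz l ^ 2 / K := by rw [← hk0d]; exact hDup k0 hk0
      have hd0 : 0 < |(d:ℝ)| := by linarith
      set R := 927 * nz e * δ * K ^ 3 / γ + |(d:ℝ)| ^ 3 / (nz e * K) +
        2 * |(d:ℝ)| * nz e * nz l ^ 2 / K + 2 * |(d:ℝ)| * nz e ^ 2 with hR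
      have hdK : |(d:ℝ)| ≤ nz e * K / 2 := by
        refine hdup.trans ?_
        rw [div_le_div_iff₀ hK' (by norm_num)]
        have : nz l ^ 2 ≤ (K / 4) ^ 2 := pow_le_pow_left₀ hnl hl 2
        nlinarith
      have hRk : ∀ k ∈ S2.filter (fun k => Dk e l k = d),
          |(d:ℝ) * ((zk e l k : ℤ) : ℝ) - ((dt e l : ℤ) : ℝ) * ((dd e l : ℤ) : ℝ)| ≤ R := by
        intro k hk
        rw [Finset.mem_filter] at hk
        have h3 := (hst k (hsub hk.1)).2
        rw [hk.2] at h3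
        exact h3 hdK
      have h := line_count he0 (S := S2.filter (fun k => Dk e l k = d)) (Z := R / |(d:ℝ)|) (by positivity) ?_ ?_
      · refine h.trans ?_
        gcongr
        -- compare
        have k1 : R / |(d:ℝ)| ≤ nz e * Lam := by
          rw [div_le_iff₀ hd0, hR, hLam]
          have t1 : 927 * nz e * δ * K ^ 3 / γ ≤ nz e * (927 * δ * K ^ 3 / (γ * D0)) * |(d:ℝ)| := by
            calc 927 * nz e * δ * K ^ 3 / γ = nz e * (927 * δ * K ^ 3 / (γ * D0)) * D0 := by field_simp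
              _ ≤ _ := by gcongr
          have t2 : |(d:ℝ)| ^ 3 / (nz e * K) ≤ nz e * (4 * nz l ^ 4 / K ^ 3) * |(d:ℝ)| := by
            have : |(d:ℝ)| ^ 2 ≤ (2 * nz e * nz l ^ 2 / K) ^ 2 := by gcongr
            calc |(d:ℝ)| ^ 3 / (nz e * K) = |(d:ℝ)| ^ 2 * |(d:ℝ)| / (nz e * K) := by ring
              _ ≤ (2 * nz e * nz l ^ 2 / K) ^ 2 * |(d:ℝ)| / (nz e * K) := by gcongr
              _ = _ := by field_simp; ring
          have t3 : 2 * |(d:ℝ)| * nz e * nz l ^ 2 / K = nz e * (2 * nz l ^ 2 / K) * |(d:ℝ)| := by ring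
          have t4 : 2 * |(d:ℝ)| * nz e ^ 2 ≤ nz e * (2 * E) * |(d:ℝ)| := by
            have : nz e ^ 2 ≤ nz e * E := by rw [sq]; gcongr
            nlinarith
          calc _ ≤ nz e * (927 * δ * K ^ 3 / (γ * D0)) * |(d:ℝ)| + nz e * (4 * nz l ^ 4 / K ^ 3) * |(d:ℝ)| +
                nz e * (2 * nz l ^ 2 / K) * |(d:ℝ)| + nz e * (2 * E) * |(d:ℝ)| := by
                rw [t3]; gcongr
            _ = _ := by ring
        calc R / |(d:ℝ)| * gc e / nz e ^ 2 ≤ nz e * Lam * gc e / nz e ^ 2 := by gcongr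
          _ = _ := by field_simp
      · intro k hk k' hk'
        rw [Finset.mem_filter] at hk hk'
        have : Dk e l k - Dk e l k' = 2 * dt e (k - k') := by
          unfold Dk dt; simp only [Prod.fst_sub, Prod.snd_sub]; ring
        rw [hk.2, hk'.2] at this
        omega
      · intro k hk k' hk'
        have r1 := hRk k hk
        have r2 := hRk k' hk'
        rw [le_div_iff₀ hd0]
        have e1 : 2 * ((d:ℝ) * ((dd (k - k') e : ℤ) : ℝ)) =
            ((d:ℝ) * ((zk e l k : ℤ) : ℝ) - ((dt e l : ℤ) : ℝ) * ((dd e l : ℤ) : ℝ)) -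
            ((d:ℝ) * ((zk e l k' : ℤ) : ℝ) - ((dt e l : ℤ) : ℝ) * ((dd e l : ℤ) : ℝ)) := by
          unfold zk dd
          simp only [Prod.fst_sub, Prod.snd_sub]
          push_cast; ring
        have h4 : |2 * ((d:ℝ) * ((dd (k - k') e : ℤ) : ℝ))| ≤ 2 * R := by
          rw [e1]
          refine (abs_sub _ _).trans ?_
          linarith
        rw [abs_mul, abs_mul, abs_of_pos (by norm_num : (0:ℝ) < 2)] at h4
        nlinarith
  linarith

end Pool.Agent.H593.U
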