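import Mathlib
import Pool.Agent.H593.U7.N4
import Pool.Agent.H593.U6.Gen

/-!
# Windows, closeness, degenerate points
-/

open MeasureTheory Set Filter Topology
open Pool.Agent.H383.Gauss

namespace Pool.Agent.H593.U

/-- decomposition of the mean square by frequencies -/
lemma N2_fib {ι : Type} (I : Finset ι) (φ : ι → ℤ × ℤ) (lam : ι → ℝ) (t : ℝ) :
    N2 I φ lam (fun _ => 1) t = ∑ s ∈ I.image φ, ‖∑ i ∈ I.filter (fun i => φ i = s), ex (t * lam i)‖ ^ 2 := by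
  rw [← int_G_sq, ← parseval (I.image φ) (fun s => ∑ i ∈ I.filter (fun i => φ i = s), ex (t * lam i))]
  congr 1
  ext a
  congr 2
  unfold G
  rw [← Finset.sum_fiberwise_of_maps_to (g := φ) (t := I.image φ) (fun i hi => Finset.mem_image_of_mem _ hi)]
  apply Finset.sum_congr rfl
  intro s _
  rw [Finset.sum_mul]
  apply Finset.sum_congr rfl
  intro i hi
  rw [Finset.mem_filter] at hi
  rw [hi.2, ex_add]
  push_cast; ring

lemma N2_zero {ι : Type} (I : Finset ι) (lam : ι → ℝ) (t : ℝ) :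
    N2 I (fun _ => 0) lam (fun _ => 1) t = ‖∑ i ∈ I, ex (t * lam i)‖ ^ 2 := by
  rcases I.eq_empty_or_nonempty with h | h
  · subst h; simp [N2, PG]
  · rw [N2_fib, Finset.image_const h, Finset.sum_singleton]
    simp

lemma N2_windows {ι : Type} (I : Finset ι) (φ : ι → ℤ × ℤ) (lam : ι → ℝ) (t : ℝ) :
    N2 I (fun _ => 0) lam (fun _ => 1) t ≤ (I.image φ).card * N2 I φ lam (fun _ => 1) t := by
  rw [N2_zero, N2_fib]
  have h1 : ∑ i ∈ I, ex (t * lam i) = ∑ s ∈ I.image φ, ∑ i ∈ I.filter (fun i => φ i = s), ex (t * lam i) := by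
    rw [Finset.sum_fiberwise_of_maps_to (fun i hi => Finset.mem_image_of_mem _ hi)]
  rw [h1]
  calc ‖∑ s ∈ I.image φ, ∑ i ∈ I.filter (fun i => φ i = s), ex (t * lam i)‖ ^ 2
      ≤ (∑ s ∈ I.image φ, ‖∑ i ∈ I.filter (fun i => φ i = s), ex (t * lam i)‖) ^ 2 := by
        gcongr
        exact norm_sum_le _ _
    _ ≤ _ := sq_sum_le_card_mul_sum_sq

/-- Cauchy–Schwarz over windows -/
theorem EG_windows {ι : Type} {T : ℝ} (hT : 0 < T) (I : Finset ι) (φ : ι → ℤ × ℤ) (lam : ι → ℝ) :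
    EG I (fun _ => 0) lam T ≤ (I.image φ).card * EG I φ lam T := by
  have h1 := EG_eq_int hT I (fun _ => (0 : ℤ × ℤ)) lam
  have h2 := EG_eq_int hT I φ lam
  have i1 := gauss_N2_integrable hT 0 I (fun _ => (0 : ℤ × ℤ)) lam (fun _ => 1)
  have i2 := gauss_N2_integrable hT 0 I φ lam (fun _ => 1)
  simp only [sub_zero] at i1 i2
  have h3 : ∫ t : ℝ, Real.exp (-(Real.pi * t ^ 2 / T ^ 2)) * N2 I (fun _ => 0) lam (fun _ => 1) t ≤
      ∫ t : ℝ, (I.image φ).card * (Real.exp (-(Real.pi * t ^ 2 / T ^ 2)) * N2 I φ lam (fun _ => 1) t) := by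
    apply integral_mono i1 (i2.const_mul _)
    intro t
    simp only
    have := N2_windows I φ lam t
    have h0 := (Real.exp_pos (-(Real.pi * t ^ 2 / T ^ 2))).le
    nlinarith
  rw [integral_const_mul, ← h1, ← h2] at h3
  have h4 : T * EG I (fun _ => 0) lam T ≤ T * ((I.image φ).card * EG I φ lam T) := by linarith
  exact le_of_mul_le_mul_left h4 hT

lemma EG_zero_le {ι : Type} (I : Finset ι) (φ : ι → ℤ × ℤ) (lam : ι → ℝ) (T : ℝ) :
    EG I φ lam T ≤ (I.card : ℝ) ^ 2 := by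
  unfold EG
  calc ∑ x ∈ PG I φ, Real.exp (-(Real.pi * T ^ 2 * (lam x.1 - lam x.2) ^ 2))
      ≤ ∑ x ∈ PG I φ, 1 := by
        apply Finset.sum_le_sum
        intro x _
        rw [Real.exp_le_one_iff]
        have := Real.pi_pos
        have : 0 ≤ Real.pi * T ^ 2 * (lam x.1 - lam x.2) ^ 2 := by positivity
        linarith
    _ = ((PG I φ).card : ℝ) := by simp
    _ ≤ ((I ×ˢ I).card : ℝ) := by exact_mod_cast Finset.card_le_card (Finset.filter_subset _ _)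
    _ = _ := by rw [Finset.card_product]; push_cast; ring

/-- splitting the energy by the distance of the levels -/
lemma EG_split {ι : Type} (I : Finset ι) (φ : ι → ℤ × ℤ) (lam : ι → ℝ) (T : ℝ) {δ : ℝ} (hδ : 0 ≤ δ) :
    EG I φ lam T ≤ (((PG I φ).filter (fun x => |lam x.2 - lam x.1| ≤ δ)).card : ℝ) +
      (I.card : ℝ) ^ 2 * Real.exp (-(Real.pi * (T * δ) ^ 2)) := by
  unfold EG
  have hpi := Real.pi_pos
  rw [← Finset.sum_filter_add_sum_filter_not (PG I φ) (fun x => |lam x.2 - lam x.1| ≤ δ)]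
  apply add_le_add
  · calc ∑ x ∈ (PG I φ).filter (fun x => |lam x.2 - lam x.1| ≤ δ), Real.exp (-(Real.pi * T ^ 2 * (lam x.1 - lam x.2) ^ 2))
        ≤ ∑ x ∈ (PG I φ).filter (fun x => |lam x.2 - lam x.1| ≤ δ), 1 := by
          apply Finset.sum_le_sum
          intro x _
          rw [Real.exp_le_one_iff]
          have : 0 ≤ Real.pi * T ^ 2 * (lam x.1 - lam x.2) ^ 2 := by positivity
          linarith
      _ = _ := by simp
  · have h1 : ∀ x ∈ (PG I φ).filter (fun x => ¬ |lam x.2 - lam x.1| ≤ δ),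
        Real.exp (-(Real.pi * T ^ 2 * (lam x.1 - lam x.2) ^ 2)) ≤ Real.exp (-(Real.pi * (T * δ) ^ 2)) := by
      intro x hx
      rw [Finset.mem_filter, not_le] at hx
      apply Real.exp_le_exp.mpr
      have h2 : δ ^ 2 ≤ (lam x.1 - lam x.2) ^ 2 := by
        rw [← sq_abs (lam x.1 - lam x.2), abs_sub_comm]
        exact pow_le_pow_left₀ hδ hx.2.le 2
      have : Real.pi * T ^ 2 * δ ^ 2 ≤ Real.pi * T ^ 2 * (lam x.1 - lam x.2) ^ 2 := by gcongr
      nlinarith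
    refine (Finset.sum_le_card_nsmul _ _ _ h1).trans ?_
    rw [nsmul_eq_mul]
    gcongr
    calc (((PG I φ).filter (fun x => ¬ |lam x.2 - lam x.1| ≤ δ)).card : ℝ) ≤ ((I ×ˢ I).card : ℝ) := by
          exact_mod_cast Finset.card_le_card ((Finset.filter_subset _ _).trans (Finset.filter_subset _ _))
      _ = _ := by rw [Finset.card_product]; push_cast; ring

/-- the window label -/
noncomputable def wdw (M : ℝ) (l k : ℤ × ℤ) : ℤ × ℤ :=
  (if 0 < dt k l then 1 else 0, ((⌊(nz (k + l) + nz k) / M⌋₊ : ℕ) : ℤ))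

lemma mem_Nd {K : ℕ} {γ : ℝ} {l k : ℤ × ℤ} : k ∈ Nd K γ l ↔ k ∈ An K ∧ k + l ∈ An K ∧ γ * K ≤ 2 * |((dt k l : ℤ) : ℝ)| := by
  unfold Nd; rw [Finset.mem_filter]

lemma wdw_image {K : ℕ} {γ M : ℝ} (hM : 0 < M) (l : ℤ × ℤ) :
    (((Nd K γ l).image (wdw M l)).card : ℝ) ≤ 2 * (4 * K / M + 1) := by
  have h1 : (Nd K γ l).image (wdw M l) ⊆ ({0, 1} : Finset ℤ) ×ˢ ((Finset.range (⌊4 * K / M⌋₊ + 1)).image (fun n : ℕ => (n:ℤ))) := by
    intro y hy
    rw [Finset.mem_image] at hy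
    obtain ⟨k, hk, rfl⟩ := hy
    rw [mem_Nd, mem_An, mem_An] at hk
    rw [Finset.mem_product]
    constructor
    · unfold wdw
      simp only
      split_ifs <;> simp
    · rw [Finset.mem_image]
      refine ⟨⌊(nz (k + l) + nz k) / M⌋₊, ?_, rfl⟩
      rw [Finset.mem_range, Nat.lt_succ_iff]
      apply Nat.floor_le_floor
      gcongr
      linarith [hk.1.2, hk.2.1.2]
  have h2 := Finset.card_le_card h1
  have h3 := Finset.card_image_le (s := Finset.range (⌊4 * K / M⌋₊ + 1)) (f := fun n : ℕ => (n:ℤ))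
  rw [Finset.card_product] at h2
  rw [Finset.card_range] at h3
  have h4 : (({0, 1} : Finset ℤ)).card = 2 := by decide
  rw [h4] at h2
  have h5 : ((Nd K γ l).image (wdw M l)).card ≤ 2 * (⌊4 * K / M⌋₊ + 1) := h2.trans (by gcongr)
  have h6 : (((Nd K γ l).image (wdw M l)).card : ℝ) ≤ 2 * ((⌊4 * K / M⌋₊ : ℝ) + 1) := by exact_mod_cast h5
  have h7 : (⌊4 * (K:ℝ) / M⌋₊ : ℝ) ≤ 4 * K / M := Nat.floor_le (by positivity)
  linarith

lemma close_q {K γ δ M nl h h' σ σ' q q' : ℝ} (hK : 0 < K) (hγ : 0 < γ) (hδ : 0 ≤ δ) (hM : 1 ≤ M) (hnl : 1 ≤ nl)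
    (hl : nl ≤ K / 4) (hδγ : 32 * δ * K / γ ≤ 1) (hh : |h| ≤ nl) (hh' : |h'| ≤ nl) (hd : |h' - h| ≤ δ)
    (hσ1 : 2 * K ≤ σ) (hσ2 : σ ≤ 4 * K) (hσ1' : 2 * K ≤ σ') (hσ2' : σ' ≤ 4 * K) (hσσ : |σ - σ'| ≤ M)
    (p2 : q ^ 2 = (nl ^ 2 - h ^ 2) * (σ ^ 2 - nl ^ 2)) (p2' : q' ^ 2 = (nl ^ 2 - h' ^ 2) * (σ' ^ 2 - nl ^ 2))
    (hqK : γ * K ≤ |q|) (hqq : 0 ≤ q * q') : |q - q'| ≤ nl * (8 * M + 1) := by
  have hq0 : 0 < |q| := lt_of_lt_of_le (by positivity) hqK
  have hnl2 : nl ^ 2 ≤ (K / 4) ^ 2 := pow_le_pow_left₀ (by linarith) hl 2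
  have hg0 : 0 ≤ nl ^ 2 - h ^ 2 := by
    have : h ^ 2 ≤ nl ^ 2 := by rw [← sq_abs h]; exact pow_le_pow_left₀ (abs_nonneg _) hh 2
    linarith
  have hσq : |σ ^ 2 - σ' ^ 2| ≤ 8 * K * M := by
    have e : σ ^ 2 - σ' ^ 2 = (σ + σ') * (σ - σ') := by ring
    rw [e, abs_mul, abs_of_pos (by linarith)]
    exact mul_le_mul (by linarith) hσσ (abs_nonneg _) (by positivity)
  have hhq : |h' ^ 2 - h ^ 2| ≤ 2 * nl * δ := by
    have e : h' ^ 2 - h ^ 2 = (h' + h) * (h' - h) := by ring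
    rw [e, abs_mul]
    have h2 : |h' + h| ≤ 2 * nl := (abs_add_le _ _).trans (by linarith)
    exact mul_le_mul h2 hd (abs_nonneg _) (by positivity)
  have e1 : q ^ 2 - q' ^ 2 = (nl ^ 2 - h ^ 2) * (σ ^ 2 - σ' ^ 2) + (h' ^ 2 - h ^ 2) * (σ' ^ 2 - nl ^ 2) := by
    rw [p2, p2']; ring
  have e2 : |q - q'| * |q| ≤ |q ^ 2 - q' ^ 2| := by
    have e : q ^ 2 - q' ^ 2 = (q - q') * (q + q') := by ring
    rw [e, abs_mul]
    have h3 : |q| ≤ |q + q'| := by
      apply sq_le_sq.mp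
      nlinarith [sq_nonneg q']
    exact mul_le_mul_of_nonneg_left h3 (abs_nonneg _)
  have h16 : |σ' ^ 2 - nl ^ 2| ≤ 16 * K ^ 2 := by
    rw [abs_le]
    constructor
    · nlinarith [sq_nonneg σ']
    · nlinarith [sq_nonneg nl]
  have e3 : |q ^ 2 - q' ^ 2| ≤ (nl ^ 2 - h ^ 2) * (8 * K * M) + 2 * nl * δ * (16 * K ^ 2) := by
    rw [e1]
    refine (abs_add_le _ _).trans ?_
    rw [abs_mul, abs_mul, abs_of_nonneg hg0]
    exact add_le_add (mul_le_mul_of_nonneg_left hσq hg0) (mul_le_mul hhq h16 (abs_nonneg _) (by positivity))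
  have hgq : (nl ^ 2 - h ^ 2) * K ^ 2 ≤ q ^ 2 := by
    rw [p2]
    have h4 : K ^ 2 ≤ σ ^ 2 - nl ^ 2 := by nlinarith
    exact mul_le_mul_of_nonneg_left h4 hg0
  obtain ⟨g, hgn, hgs⟩ : ∃ g : ℝ, 0 ≤ g ∧ g ^ 2 = nl ^ 2 - h ^ 2 := ⟨√(nl ^ 2 - h ^ 2), Real.sqrt_nonneg _, Real.sq_sqrt hg0⟩
  have hgl : g ≤ nl := by
    refine (pow_le_pow_iff_left₀ hgn (by linarith) two_ne_zero).mp ?_
    rw [hgs]; linarith [sq_nonneg h]
  have hgK : g * K ≤ |q| := by
    refine (pow_le_pow_iff_left₀ (by positivity) (abs_nonneg _) two_ne_zero).mp ?_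
    rw [sq_abs, mul_pow, hgs]; exact hgq
  have e4 : (nl ^ 2 - h ^ 2) * (8 * K * M) ≤ nl * (8 * M) * |q| := by
    rw [← hgs]
    calc g ^ 2 * (8 * K * M) = (g * (8 * M)) * (g * K) := by ring
      _ ≤ (nl * (8 * M)) * |q| :=
        mul_le_mul (mul_le_mul_of_nonneg_right hgl (by positivity)) hgK (by positivity) (by positivity)
  have e5 : 2 * nl * δ * (16 * K ^ 2) ≤ nl * |q| := by
    calc 2 * nl * δ * (16 * K ^ 2) = (nl * (32 * δ * K / γ)) * (γ * K) := by field_simp; ring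
      _ ≤ (nl * 1) * |q| :=
        mul_le_mul (mul_le_mul_of_nonneg_left hδγ (by positivity)) hqK (by positivity) (by positivity)
      _ = _ := by ring
  have e6 : |q - q'| * |q| ≤ nl * (8 * M + 1) * |q| := by
    have : nl * (8 * M + 1) * |q| = nl * (8 * M) * |q| + nl * |q| := by ring
    rw [this]; linarith
  exact le_of_mul_le_mul_right e6 hq0

lemma close_p {K δ M nl h h' σ σ' : ℝ} (hK : 0 < K) (hδ : 0 ≤ δ) (hnl : 1 ≤ nl) (hδK : 4 * K * δ ≤ 1)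
    (hh : |h| ≤ nl) (hd : |h' - h| ≤ δ) (hσ1' : 2 * K ≤ σ') (hσ2' : σ' ≤ 4 * K) (hσσ : |σ - σ'| ≤ M) :
    |h * σ - h' * σ'| ≤ nl * (M + 1) := by
  have e : h * σ - h' * σ' = h * (σ - σ') - (h' - h) * σ' := by ring
  rw [e]
  refine (abs_sub _ _).trans ?_
  have h0 : 0 < σ' := by linarith
  rw [abs_mul, abs_mul, abs_of_pos h0]
  have t1 : |h| * |σ - σ'| ≤ nl * M := mul_le_mul hh hσσ (abs_nonneg _) (by linarith)
  have t2 : |h' - h| * σ' ≤ δ * (4 * K) := mul_le_mul hd hσ2' h0.le hδ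
  nlinarith

lemma close_fin {nl z P q M : ℝ} (hM : 1 ≤ M) (hnl : 1 ≤ nl) (hz : 0 ≤ z) (hP : |P| ≤ nl * (M + 1))
    (hq : |q| ≤ nl * (8 * M + 1)) (hdist : nl ^ 2 * (4 * z ^ 2) = P ^ 2 + q ^ 2) : z ≤ 5 * M := by
  have a1 : P ^ 2 ≤ (nl * (M + 1)) ^ 2 := by
    rw [← sq_abs P]; exact pow_le_pow_left₀ (abs_nonneg _) hP 2
  have a2 : q ^ 2 ≤ (nl * (8 * M + 1)) ^ 2 := by
    rw [← sq_abs q]; exact pow_le_pow_left₀ (abs_nonneg _) hq 2
  have a5 : (M + 1) ^ 2 + (8 * M + 1) ^ 2 ≤ (10 * M) ^ 2 := by nlinarith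
  have hn2 : 0 < nl ^ 2 := by positivity
  have a3 : nl ^ 2 * (4 * z ^ 2) ≤ nl ^ 2 * (10 * M) ^ 2 := by
    rw [hdist]
    calc P ^ 2 + q ^ 2 ≤ (nl * (M + 1)) ^ 2 + (nl * (8 * M + 1)) ^ 2 := add_le_add a1 a2
      _ = nl ^ 2 * ((M + 1) ^ 2 + (8 * M + 1) ^ 2) := by ring
      _ ≤ _ := mul_le_mul_of_nonneg_left a5 hn2.le
  have a4 := le_of_mul_le_mul_left a3 hn2
  have a6 : (2 * z) ^ 2 ≤ (10 * M) ^ 2 := by rw [mul_pow]; norm_num; linarith
  have := (pow_le_pow_iff_left₀ (by positivity) (by positivity) two_ne_zero).mp a6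
  linarith

/-- points of the same window on the same level are close -/
lemma close {K : ℕ} (hK : 1 ≤ K) {γ δ M : ℝ} (hγ : 0 < γ) (hδ : 0 ≤ δ) (hM : 1 ≤ M) {l k k' : ℤ × ℤ} (hl0 : l ≠ 0)
    (hl : nz l ≤ K / 4) (hδK : 4 * K * δ ≤ 1) (hδγ : 32 * δ * K / γ ≤ 1)
    (hk : k ∈ Nd K γ l) (hk' : k' ∈ Nd K γ l) (hw : wdw M l k = wdw M l k') (hd : |lv l k' - lv l k| ≤ δ) :
    nz (k' - k) ≤ 5 * M ∧ 0 ≤ dt k l * dt k' l := by
  rw [mem_Nd, mem_An, mem_An] at hk hk'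
  obtain ⟨⟨hB0, hB1⟩, ⟨hA0, hA1⟩, hq⟩ := hk
  obtain ⟨⟨hB0', hB1'⟩, ⟨hA0', hA1'⟩, hq'⟩ := hk'
  have hK' : (0:ℝ) < K := by exact_mod_cast hK
  unfold wdw at hw
  rw [Prod.mk.injEq] at hw
  have hsgn : 0 ≤ dt k l * dt k' l := by
    by_cases h1 : 0 < dt k l
    · by_cases h2 : 0 < dt k' l
      · positivity
      · rw [if_pos h1, if_neg h2] at hw; exact absurd hw.1 (by norm_num)
    · by_cases h2 : 0 < dt k' l
      · rw [if_neg h1, if_pos h2] at hw; exact absurd hw.1 (by norm_num)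
      · push Not at h1 h2
        exact mul_nonneg_of_nonpos_of_nonpos h1 h2
  refine ⟨?_, hsgn⟩
  have hfl : ⌊(nz (k + l) + nz k) / M⌋₊ = ⌊(nz (k' + l) + nz k') / M⌋₊ := by exact_mod_cast hw.2
  have hM0 : 0 < M := by linarith
  have hσσ : |(nz (k + l) + nz k) - (nz (k' + l) + nz k')| ≤ M := by
    have a1 := Nat.floor_le (show 0 ≤ (nz (k + l) + nz k) / M by
      have := nz_nonneg k; have := nz_nonneg (k + l); positivity)
    have a2 := Nat.lt_floor_add_one ((nz (k + l) + nz k) / M)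
    have b1 := Nat.floor_le (show 0 ≤ (nz (k' + l) + nz k') / M by
      have := nz_nonneg k'; have := nz_nonneg (k' + l); positivity)
    have b2 := Nat.lt_floor_add_one ((nz (k' + l) + nz k') / M)
    rw [hfl] at a1 a2
    have c1 : (nz (k + l) + nz k) / M - (nz (k' + l) + nz k') / M ≤ 1 := by linarith
    have c2 : (nz (k' + l) + nz k') / M - (nz (k + l) + nz k) / M ≤ 1 := by linarith
    rw [← sub_div, div_le_one hM0] at c1 c2
    rw [abs_le]; constructor <;> linarith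
  have hnl1 : 1 ≤ nz l := nz_ge_one hl0
  have hlam : nz l ^ 2 = (l.1:ℝ) ^ 2 + (l.2:ℝ) ^ 2 := Real.sq_sqrt (by positivity)
  have hA2 : ∀ p : ℤ × ℤ, nz (p + l) ^ 2 = ((p.1:ℝ) + l.1) ^ 2 + ((p.2:ℝ) + l.2) ^ 2 := by
    intro p
    unfold nz
    rw [Real.sq_sqrt (by positivity)]
    simp only [Prod.fst_add, Prod.snd_add]; push_cast; ring
  have hB2 : ∀ p : ℤ × ℤ, nz p ^ 2 = (p.1:ℝ) ^ 2 + (p.2:ℝ) ^ 2 := by
    intro p
    unfold nz
    rw [Real.sq_sqrt (by positivity)]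
  obtain ⟨p1, p2, _⟩ := elliptic (hA2 k) (hB2 k)
  obtain ⟨p1', p2', _⟩ := elliptic (hA2 k') (hB2 k')
  rw [← hlam] at p2 p2'
  have habs : ∀ p : ℤ × ℤ, |nz (p + l) - nz p| ≤ nz l := by
    intro p
    have := abs_sub_nr_le (p.1:ℝ) p.2 l.1 l.2
    rw [nz_eq_nr l]
    refine le_trans (le_of_eq ?_) this
    congr 1
    rw [nz_eq_nr, nz_eq_nr]
    simp only [Prod.fst_add, Prod.snd_add]; push_cast; rfl
  have eq1 : (2 * (k.1:ℝ) + l.1) * l.2 - (2 * k.2 + l.2) * l.1 = 2 * ((dt k l : ℤ) : ℝ) := by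
    unfold dt; push_cast; ring
  have eq1' : (2 * (k'.1:ℝ) + l.1) * l.2 - (2 * k'.2 + l.2) * l.1 = 2 * ((dt k' l : ℤ) : ℝ) := by
    unfold dt; push_cast; ring
  have hqK : γ * K ≤ |2 * ((dt k l : ℤ) : ℝ)| := by rw [abs_mul, abs_of_pos (by norm_num : (0:ℝ) < 2)]; exact hq
  have hqq : 0 ≤ 2 * ((dt k l : ℤ) : ℝ) * (2 * ((dt k' l : ℤ) : ℝ)) := by
    have : (0:ℝ) ≤ ((dt k l : ℤ) : ℝ) * ((dt k' l : ℤ) : ℝ) := by exact_mod_cast hsgn
    linarith
  unfold lv at hd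
  have hQ := close_q hK' hγ hδ hM hnl1 hl hδγ (habs k) (habs k') hd (by linarith) (by linarith) (by linarith)
    (by linarith) hσσ (by rw [← eq1]; exact p2) (by rw [← eq1']; exact p2') hqK hqq
  have hP := close_p hK' hδ hnl1 hδK (habs k) hd (by linarith) (by linarith) hσσ
  apply close_fin hM hnl1 (nz_nonneg _) hP hQ
  have h3 : nz (k' - k) ^ 2 = ((k'.1:ℝ) - k.1) ^ 2 + ((k'.2:ℝ) - k.2) ^ 2 := by
    unfold nz
    rw [Real.sq_sqrt (by positivity)]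
    simp only [Prod.fst_sub, Prod.snd_sub]; push_cast; ring
  rw [← p1, ← p1', ← eq1, ← eq1', h3, hlam]
  ring

/-- the set of degenerate points -/
noncomputable def Dg (K : ℕ) (γ : ℝ) (l : ℤ × ℤ) : Finset (ℤ × ℤ) :=
  (An K).filter (fun k => ¬ (γ * K ≤ 2 * |((dt k l : ℤ) : ℝ)|))

lemma diam_count {A : Finset ℤ} {W : ℝ} (hW : 0 ≤ W) (h : ∀ a ∈ A, ∀ b ∈ A, |((a - b : ℤ) : ℝ)| ≤ W) :
    (A.card : ℝ) ≤ W + 1 := by
  rcases A.eq_empty_or_nonempty with hA | hA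
  · rw [hA]; simp; linarith
  have hmin := A.min'_mem hA
  have h5 : A ⊆ Finset.Icc (A.min' hA) (A.min' hA + ⌊W⌋₊) := by
    intro x hx
    rw [Finset.mem_Icc]
    have h6 := A.min'_le x hx
    refine ⟨h6, ?_⟩
    have h7 := h x hx _ hmin
    have h8 : ((x - A.min' hA).toNat : ℝ) ≤ W := by
      refine le_trans (le_of_eq ?_) h7
      rw [abs_of_nonneg (by exact_mod_cast (by omega : (0:ℤ) ≤ x - A.min' hA))]
      have : ((x - A.min' hA).toNat : ℤ) = x - A.min' hA := Int.toNat_of_nonneg (by omega)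
      exact_mod_cast this
    have h9 := Nat.le_floor h8
    omega
  have h6 := Finset.card_le_card h5
  rw [Int.card_Icc] at h6
  have h7 : (A.min' hA + ⌊W⌋₊ + 1 - A.min' hA).toNat = ⌊W⌋₊ + 1 := by omega
  rw [h7] at h6
  have h8 : (A.card : ℝ) ≤ ((⌊W⌋₊ + 1 : ℕ) : ℝ) := by exact_mod_cast h6
  push_cast at h8
  have := Nat.floor_le hW
  linarith

lemma Dg_card {K : ℕ} (hK : 1 ≤ K) {γ : ℝ} (hγ : 0 < γ) {l : ℤ × ℤ} (hl0 : l ≠ 0) :
    ((Dg K γ l).card : ℝ) ≤ 5 * K * (γ * K / mx l + 1) := by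
  have hK' : (1:ℝ) ≤ K := by exact_mod_cast hK
  have hmx := mx_pos hl0
  have hmx' : (0:ℝ) < mx l := by
    have : 0 < mx l := hmx
    exact_mod_cast this
  -- general statement for a coordinate
  have key : ∀ f g : ℤ × ℤ → ℤ, (∀ k ∈ Dg K γ l, |f k| ≤ 2 * K) →
      (∀ k k' : ℤ × ℤ, f k = f k' → g k = g k' → k = k') →
      (∀ k ∈ Dg K γ l, ∀ k' ∈ Dg K γ l, f k = f k' → |((g k - g k' : ℤ) : ℝ)| * mx l ≤ γ * K) →
      ((Dg K γ l).card : ℝ) ≤ 5 * K * (γ * K / mx l + 1) := by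
    intro f g hf hfg hg
    have h1 := fiber_bound (S := Dg K γ l) f (b := γ * K / mx l + 1) ?_
    · refine h1.trans ?_
      gcongr
      have h2 : (Dg K γ l).image f ⊆ Finset.Icc (-(2 * K : ℤ)) (2 * K) := by
        intro y hy
        rw [Finset.mem_image] at hy
        obtain ⟨k, hk, rfl⟩ := hy
        rw [Finset.mem_Icc, ← abs_le]
        exact hf k hk
      have h3 := Finset.card_le_card h2
      rw [Int.card_Icc] at h3
      have h4 : ((Dg K γ l).image f).card ≤ 5 * K := by omega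
      exact_mod_cast h4
    · intro d _
      set S := (Dg K γ l).filter (fun k => f k = d) with hS
      have hinj : Set.InjOn g (S : Set (ℤ × ℤ)) := by
        intro k hk k' hk' hgg
        rw [hS, Finset.mem_coe, Finset.mem_filter] at hk hk'
        exact hfg k k' (hk.2.trans hk'.2.symm) hgg
      rw [← Finset.card_image_of_injOn hinj]
      apply diam_count (by positivity)
      intro a ha b hb
      rw [Finset.mem_image] at ha hb
      obtain ⟨k, hk, rfl⟩ := ha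
      obtain ⟨k', hk', rfl⟩ := hb
      rw [hS, Finset.mem_filter] at hk hk'
      rw [le_div_iff₀ hmx']
      exact hg k hk.1 k' hk'.1 (hk.2.trans hk'.2.symm)
  have hbox : ∀ k ∈ Dg K γ l, |k.1| ≤ 2 * K ∧ |k.2| ≤ 2 * K := by
    intro k hk
    unfold Dg at hk
    rw [Finset.mem_filter] at hk
    have := hk.1
    unfold An at this
    rw [Finset.mem_filter, mem_box] at this
    push_cast at this
    exact this.1
  have hdt : ∀ k ∈ Dg K γ l, 2 * |((dt k l : ℤ) : ℝ)| < γ * K := by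
    intro k hk
    unfold Dg at hk
    rw [Finset.mem_filter, not_le] at hk
    exact hk.2
  rcases le_total l.1.natAbs l.2.natAbs with h | h
  · have hm : mx l = l.2.natAbs := max_eq_right h
    have hm' : (mx l : ℝ) = |(l.2:ℝ)| := by rw [hm, Nat.cast_natAbs]; push_cast; rfl
    apply key (fun k => k.2) (fun k => k.1) (fun k hk => (hbox k hk).2)
    · intro k k' h1 h2; exact Prod.ext h2 h1
    · intro k hk k' hk' hf
      have a := hdt k hk
      have b := hdt k' hk'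
      have e : ((k.1 - k'.1 : ℤ) : ℝ) * (l.2:ℝ) = ((dt k l : ℤ) : ℝ) - ((dt k' l : ℤ) : ℝ) := by
        unfold dt
        have : (k.2:ℝ) = k'.2 := by exact_mod_cast hf
        push_cast
        rw [this]; ring
      rw [hm', ← abs_mul, e]
      refine (abs_sub _ _).trans ?_
      linarith
  · have hm : mx l = l.1.natAbs := max_eq_left h
    have hm' : (mx l : ℝ) = |(l.1:ℝ)| := by rw [hm, Nat.cast_natAbs]; push_cast; rfl
    apply key (fun k => k.1) (fun k => k.2) (fun k hk => (hbox k hk).1)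
    · intro k k' h1 h2; exact Prod.ext h1 h2
    · intro k hk k' hk' hf
      have a := hdt k hk
      have b := hdt k' hk'
      have e : ((k.2 - k'.2 : ℤ) : ℝ) * (l.1:ℝ) = ((dt k' l : ℤ) : ℝ) - ((dt k l : ℤ) : ℝ) := by
        unfold dt
        have : (k.1:ℝ) = k'.1 := by exact_mod_cast hf
        push_cast
        rw [this]; ring
      rw [hm', ← abs_mul, e]
      refine (abs_sub _ _).trans ?_
      linarith

end Pool.Agent.H593.U
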