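import Mathlib
import Pool.Agent.H593.U7.N5

/-!
# The energy of the level function
-/

open MeasureTheory Set Filter Topology
open Pool.Agent.H383.Gauss

namespace Pool.Agent.H593.U

lemma card_An (K : ℕ) (hK : 1 ≤ K) : ((An K).card : ℝ) ≤ 25 * (K:ℝ) ^ 2 := by
  have h1 : (An K).card ≤ (box (2 * K)).card := Finset.card_le_card (Finset.filter_subset _ _)
  rw [card_box] at h1
  have h2 : ((An K).card : ℝ) ≤ ((2 * (2 * K) + 1) ^ 2 : ℕ) := by exact_mod_cast h1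
  refine h2.trans ?_
  push_cast
  have : (1:ℝ) ≤ K := by exact_mod_cast hK
  nlinarith

lemma pair_count {K : ℕ} (hK : 1 ≤ K) {γ δ M : ℝ} (hγ : 0 < γ) (hδ : 0 ≤ δ) (hM : 1 ≤ M) {l : ℤ × ℤ} (hl0 : l ≠ 0)
    (hl : nz l ≤ K / 4) (hδK : 4 * K * δ ≤ 1) (hδγ : 32 * δ * K / γ ≤ 1) :
    (((PG (Nd K γ l) (wdw M l)).filter (fun x => |lv l x.2 - lv l x.1| ≤ δ)).card : ℝ) ≤
      (An K).card + ∑ e ∈ ((box ⌊5 * M⌋₊).erase 0).filter (fun e => nz e ≤ 5 * M), ((We K γ δ l e).card : ℝ) := by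
  set P := (PG (Nd K γ l) (wdw M l)).filter (fun x => |lv l x.2 - lv l x.1| ≤ δ) with hP
  set F := ((box ⌊5 * M⌋₊).erase 0).filter (fun e => nz e ≤ 5 * M) with hF
  have hcl : ∀ x ∈ P, nz (x.2 - x.1) ≤ 5 * M ∧ 0 ≤ dt x.1 l * dt x.2 l ∧ x.1 ∈ Nd K γ l ∧ x.2 ∈ Nd K γ l ∧
      |lv l x.2 - lv l x.1| ≤ δ := by
    intro x hx
    rw [hP, Finset.mem_filter, mem_PG] at hx
    have := close hK hγ hδ hM hl0 hl hδK hδγ hx.1.1.1 hx.1.1.2 hx.1.2 hx.2
    exact ⟨this.1, this.2, hx.1.1.1, hx.1.1.2, hx.2⟩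
  have hmap : ∀ x ∈ P, x.2 - x.1 ∈ insert 0 F := by
    intro x hx
    have h := (hcl x hx).1
    rw [Finset.mem_insert]
    by_cases h0 : x.2 - x.1 = 0
    · exact Or.inl h0
    · right
      rw [hF, Finset.mem_filter, Finset.mem_erase, mem_box_mx]
      refine ⟨⟨h0, ?_⟩, h⟩
      apply Nat.le_floor
      exact (mx_le_nz _).trans h
  have h1 := Finset.card_eq_sum_card_fiberwise (f := fun x : (ℤ × ℤ) × (ℤ × ℤ) => x.2 - x.1) (s := P) (t := insert 0 F) hmap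
  have h0F : (0 : ℤ × ℤ) ∉ F := by
    rw [hF, Finset.mem_filter, Finset.mem_erase]; simp
  rw [Finset.sum_insert h0F] at h1
  rw [h1]
  push_cast
  apply add_le_add
  · have h2 : (P.filter (fun x => x.2 - x.1 = 0)).card ≤ (An K).card := by
      apply Finset.card_le_card_of_injOn (fun x => x.1)
      · intro x hx
        rw [Finset.mem_coe, Finset.mem_filter] at hx
        exact ((mem_Nd.mp (hcl x hx.1).2.2.1)).1
      · intro x hx y hy hxy
        rw [Finset.mem_coe, Finset.mem_filter] at hx hy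
        simp only at hxy
        have a := sub_eq_zero.mp hx.2
        have b := sub_eq_zero.mp hy.2
        exact Prod.ext hxy (by rw [a, b]; exact hxy)
    exact_mod_cast h2
  · apply Finset.sum_le_sum
    intro e _
    have h2 : (P.filter (fun x => x.2 - x.1 = e)).card ≤ (We K γ δ l e).card := by
      apply Finset.card_le_card_of_injOn (fun x => x.1)
      · intro x hx
        rw [Finset.mem_coe, Finset.mem_filter] at hx
        obtain ⟨a1, a2, a3, a4, a5⟩ := hcl x hx.1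
        have hxe : x.1 + e = x.2 := by rw [← hx.2]; abel
        show x.1 ∈ We K γ δ l e
        unfold We
        rw [Finset.mem_filter, hxe]
        exact ⟨a3, a4, a2, a5⟩
      · intro x hx y hy hxy
        rw [Finset.mem_coe, Finset.mem_filter] at hx hy
        simp only at hxy
        have a : x.2 = x.1 + e := by rw [← hx.2]; abel
        have b : y.2 = y.1 + e := by rw [← hy.2]; abel
        exact Prod.ext hxy (by rw [a, b, hxy])
    exact_mod_cast h2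

lemma exp_pow_bound (n : ℕ) : ∃ C : ℝ, 0 < C ∧ ∀ x : ℝ, 1 ≤ x → x ^ n * Real.exp (-x) ≤ C := by
  refine ⟨(n.factorial : ℝ), by positivity, ?_⟩
  intro x hx
  have h := Real.pow_div_factorial_le_exp x (by linarith) n
  rw [Real.exp_neg, ← div_eq_mul_inv, div_le_iff₀ (Real.exp_pos _)]
  rw [div_le_iff₀ (by positivity)] at h
  linarith

/-- the sum over differences -/
lemma diff_sum {K : ℕ} {x : ℝ} (hx : 1000 ≤ x) (hKx : (K:ℝ) = x ^ 1000) {l : ℤ × ℤ} (hl : (mx l : ℝ) ≤ x ^ 510) :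
    ∑ e ∈ ((box ⌊5 * x ^ 530⌋₊).erase 0).filter (fun e => nz e ≤ 5 * x ^ 530),
      ((We K (x ^ 300)⁻¹ (x ^ 1998)⁻¹ l e).card : ℝ) ≤ 3000000 * x ^ 2000 := by
  have hx1 : 1 ≤ x := by linarith
  have hx0 : 0 < x := by linarith
  have pw : ∀ n m : ℕ, n ≤ m → x ^ n ≤ x ^ m := fun n m h => pow_le_pow_right₀ hx1 h
  have big : ∀ n : ℕ, 1 ≤ n → 1000 ≤ x ^ n := fun n hn => hx.trans (le_self_pow₀ hx1 (by omega))
  have hK : 1 ≤ K := by
    have : (1:ℝ) ≤ K := by rw [hKx]; exact one_le_pow₀ hx1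
    exact_mod_cast this
  set M := x ^ 530 with hM
  set L := ⌊5 * M⌋₊ with hL
  have hM1 : 1 ≤ M := one_le_pow₀ hx1
  have hL5 : (L:ℝ) ≤ 5 * M := Nat.floor_le (by positivity)
  have hL1 : 1 ≤ L := Nat.le_floor (by push_cast; linarith)
  have hL1' : (1:ℝ) ≤ L := by exact_mod_cast hL1
  have hnl : nz l ≤ 2 * x ^ 510 := (nz_le_mx l).trans (by linarith)
  have hnl0 : 0 ≤ nz l := nz_nonneg l
  have hnl2 : nz l ^ 2 ≤ 4 * x ^ 1020 := by
    calc nz l ^ 2 ≤ (2 * x ^ 510) ^ 2 := by gcongr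
      _ = _ := by ring
  have hlK : nz l ≤ K / 4 := by
    rw [hKx]
    have h1 : x ^ 1000 = x ^ 490 * x ^ 510 := by ring
    have h2 := big 490 (by norm_num)
    have h3 : 0 < x ^ 510 := by positivity
    rw [h1]; nlinarith
  have hEK : 5 * M ≤ K / 4 := by
    rw [hKx, hM]
    have h1 : x ^ 1000 = x ^ 470 * x ^ 530 := by ring
    have h2 := big 470 (by norm_num)
    have h3 : 0 < x ^ 530 := by positivity
    rw [h1]; nlinarith
  have h206 : 206 * (x ^ 1998)⁻¹ * (K:ℝ) ^ 2 / (x ^ 300)⁻¹ ≤ x ^ 420 / 2 := by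
    have e1 : 206 * (x ^ 1998)⁻¹ * (K:ℝ) ^ 2 / (x ^ 300)⁻¹ = 206 * x ^ 302 := by
      rw [hKx]; field_simp
    rw [e1]
    have h1 : x ^ 420 = x ^ 118 * x ^ 302 := by ring
    have h2 := big 118 (by norm_num)
    have h3 : 0 < x ^ 302 := by positivity
    rw [h1]; nlinarith
  have hlK2 : nz l ^ 2 / K ≤ 4 * x ^ 20 := by
    rw [div_le_iff₀ (by rw [hKx]; positivity), hKx]
    calc nz l ^ 2 ≤ 4 * x ^ 1020 := hnl2
      _ = _ := by ring
  have hLam : 927 * (x ^ 1998)⁻¹ * (K:ℝ) ^ 3 / ((x ^ 300)⁻¹ * x ^ 420) + 4 * nz l ^ 4 / K ^ 3 + 2 * nz l ^ 2 / K +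
      2 * (5 * M) ≤ 1010 * x ^ 882 := by
    have t1 : 927 * (x ^ 1998)⁻¹ * (K:ℝ) ^ 3 / ((x ^ 300)⁻¹ * x ^ 420) = 927 * x ^ 882 := by
      rw [hKx]; field_simp
    have t2 : 4 * nz l ^ 4 / (K:ℝ) ^ 3 ≤ 64 * x ^ 882 := by
      rw [div_le_iff₀ (by rw [hKx]; positivity), hKx]
      calc 4 * nz l ^ 4 = 4 * (nz l ^ 2) ^ 2 := by ring
        _ ≤ 4 * (4 * x ^ 1020) ^ 2 := by gcongr
        _ = 64 * x ^ 2040 := by ring
        _ ≤ 64 * x ^ 3882 := by gcongr; norm_num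
        _ = _ := by ring
    have t3 : 2 * nz l ^ 2 / (K:ℝ) ≤ 8 * x ^ 882 := by
      calc 2 * nz l ^ 2 / (K:ℝ) = 2 * (nz l ^ 2 / K) := by ring
        _ ≤ 2 * (4 * x ^ 20) := by gcongr
        _ = 8 * x ^ 20 := by ring
        _ ≤ _ := by gcongr; norm_num
    have t4 : 2 * (5 * M) ≤ 10 * x ^ 882 := by
      rw [hM]
      have := pw 530 882 (by norm_num)
      linarith
    rw [t1]
    have h0 : 0 < x ^ 882 := by positivity
    linarith
  have hterm : ∀ e ∈ ((box L).erase 0).filter (fun e => nz e ≤ 5 * M),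
      ((We K (x ^ 300)⁻¹ (x ^ 1998)⁻¹ l e).card : ℝ) ≤
      4 * x ^ 1000 * (gc e / mx e) + 8 * x ^ 1420 * (1 / mx e) + 16243 * x ^ 902 := by
    intro e he
    rw [Finset.mem_filter, Finset.mem_erase] at he
    obtain ⟨⟨he0, _⟩, heM⟩ := he
    have hW := We_bound (K := K) hK (γ := (x ^ 300)⁻¹) (δ := (x ^ 1998)⁻¹) (D0 := x ^ 420) (E := 5 * M)
      (by positivity) (by positivity) (by positivity) he0 heM hEK hlK h206
    have hmx := mx_le_nz e
    have hmx0 : (0:ℝ) < mx e := by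
      have : 0 < mx e := mx_pos he0
      exact_mod_cast this
    have hne0 : 0 < nz e := hmx0.trans_le hmx
    have a1 : 4 * (K:ℝ) * (gc e / nz e) ≤ 4 * x ^ 1000 * (gc e / mx e) := by rw [hKx]; gcongr
    have a2 : 8 * x ^ 420 * K / nz e ≤ 8 * x ^ 1420 * (1 / mx e) := by
      rw [hKx]
      calc 8 * x ^ 420 * x ^ 1000 / nz e ≤ 8 * x ^ 420 * x ^ 1000 / mx e := by gcongr
        _ = _ := by ring
    have a3 : 4 * nz e * nz l ^ 2 / K ≤ 80 * x ^ 902 := by
      calc 4 * nz e * nz l ^ 2 / K = 4 * nz e * (nz l ^ 2 / K) := by ring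
        _ ≤ 4 * (5 * M) * (4 * x ^ 20) := by gcongr
        _ = 80 * x ^ 550 := by rw [hM]; ring
        _ ≤ _ := by gcongr; norm_num
    have a4 : 4 * nz l ^ 2 / K * (927 * (x ^ 1998)⁻¹ * (K:ℝ) ^ 3 / ((x ^ 300)⁻¹ * x ^ 420) + 4 * nz l ^ 4 / K ^ 3 +
        2 * nz l ^ 2 / K + 2 * (5 * M)) ≤ 16160 * x ^ 902 := by
      calc _ ≤ 4 * nz l ^ 2 / K * (1010 * x ^ 882) := by gcongr
        _ = 4 * (nz l ^ 2 / K) * (1010 * x ^ 882) := by ring
        _ ≤ 4 * (4 * x ^ 20) * (1010 * x ^ 882) := by gcongr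
        _ = _ := by ring
    have a5 : 1 + 2 * x ^ 420 ≤ 3 * x ^ 902 := by
      have h1 : (1:ℝ) ≤ x ^ 902 := one_le_pow₀ hx1
      have h2 := pw 420 902 (by norm_num)
      linarith
    linarith
  refine (Finset.sum_le_sum hterm).trans ?_
  have hsub : ∑ e ∈ ((box L).erase 0).filter (fun e => nz e ≤ 5 * M),
      (4 * x ^ 1000 * ((gc e : ℝ) / mx e) + 8 * x ^ 1420 * (1 / (mx e : ℝ)) + 16243 * x ^ 902) ≤
      ∑ e ∈ (box L).erase 0, (4 * x ^ 1000 * ((gc e : ℝ) / mx e) + 8 * x ^ 1420 * (1 / (mx e : ℝ)) + 16243 * x ^ 902) := by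
    apply Finset.sum_le_sum_of_subset_of_nonneg (Finset.filter_subset _ _)
    intro e _ _
    positivity
  refine hsub.trans ?_
  rw [Finset.sum_add_distrib, Finset.sum_add_distrib, ← Finset.mul_sum, ← Finset.mul_sum, Finset.sum_const, nsmul_eq_mul]
  have s1 := sum_gc L
  have s2 := sum_inv_mx L
  have s3 : (((box L).erase 0).card : ℝ) ≤ 121 * x ^ 1060 := by
    have h1 : ((box L).erase 0).card ≤ (box L).card := Finset.card_le_card (Finset.erase_subset _ _)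
    rw [card_box] at h1
    have h2 : (((box L).erase 0).card : ℝ) ≤ ((2 * L + 1) ^ 2 : ℕ) := by exact_mod_cast h1
    refine h2.trans ?_
    push_cast
    calc (2 * (L:ℝ) + 1) ^ 2 ≤ (11 * M) ^ 2 := by
          gcongr
          linarith
      _ = _ := by rw [hM]; ring
  have hlog : Real.log L ≤ 2 + 530 * x := by
    have h1 : Real.log L ≤ Real.log (5 * M) := Real.log_le_log (by linarith) hL5
    have h2 : Real.log (5 * M) = Real.log 5 + 530 * Real.log x := by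
      rw [hM, Real.log_mul (by norm_num) (by positivity), Real.log_pow]; push_cast; ring
    have h3 : Real.log x ≤ x := (Real.log_le_sub_one_of_pos hx0).trans (by linarith)
    have h4 : Real.log 5 ≤ 2 := by
      rw [Real.log_le_iff_le_exp (by norm_num)]
      have := Real.add_one_le_exp (1:ℝ)
      have h5 : Real.exp 2 = Real.exp 1 * Real.exp 1 := by rw [← Real.exp_add]; norm_num
      have h6 := Real.exp_one_gt_d9
      rw [h5]; nlinarith
    rw [h2] at h1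
    linarith
  have b1 : 4 * x ^ 1000 * ∑ e ∈ (box L).erase 0, ((gc e : ℝ) / mx e) ≤ 85440 * x ^ 1531 := by
    calc _ ≤ 4 * x ^ 1000 * (8 * L * (1 + Real.log L)) := by gcongr
      _ ≤ 4 * x ^ 1000 * (8 * (5 * M) * (534 * x)) := by
          have : 1 + Real.log L ≤ 534 * x := by linarith
          have h0 : 0 ≤ Real.log L := Real.log_nonneg hL1'
          gcongr
      _ = _ := by rw [hM]; ring
  have b2 : 8 * x ^ 1420 * ∑ e ∈ (box L).erase 0, (1 / (mx e : ℝ)) ≤ 320 * x ^ 1950 := by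
    calc _ ≤ 8 * x ^ 1420 * (8 * L) := by gcongr
      _ ≤ 8 * x ^ 1420 * (8 * (5 * M)) := by gcongr
      _ = _ := by rw [hM]; ring
  have b3 : (((box L).erase 0).card : ℝ) * (16243 * x ^ 902) ≤ 1965403 * x ^ 1962 := by
    calc _ ≤ 121 * x ^ 1060 * (16243 * x ^ 902) := by gcongr
      _ = _ := by ring
  have c1 := pw 1531 2000 (by norm_num)
  have c2 := pw 1950 2000 (by norm_num)
  have c3 := pw 1962 2000 (by norm_num)
  have c4 : 0 < x ^ 2000 := by positivity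
  linarith

/-- **Energy of the level function.** -/
theorem level_energy : ∃ C : ℝ, 0 < C ∧ ∀ (K : ℕ) (x T : ℝ) (l : ℤ × ℤ), 1000 ≤ x → (K:ℝ) = x ^ 1000 →
    x ^ 1999 ≤ T → l ≠ 0 → (mx l : ℝ) ≤ x ^ 510 →
    EG ((An K).filter (fun k => k + l ∈ An K)) (fun _ => 0) (lv l) T ≤ C * (x ^ 2470 + x ^ 3400 / (mx l : ℝ) ^ 2) := by
  obtain ⟨C1, hC1, hexp⟩ := exp_pow_bound 4000
  refine ⟨2 * (10 * (3000025 + 625 * C1) + 50), by positivity, ?_⟩
  intro K x T l hx hKx hT hl0 hl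
  have hx1 : 1 ≤ x := by linarith
  have hx0 : 0 < x := by linarith
  have pw : ∀ n m : ℕ, n ≤ m → x ^ n ≤ x ^ m := fun n m h => pow_le_pow_right₀ hx1 h
  have big : ∀ n : ℕ, 1 ≤ n → 1000 ≤ x ^ n := fun n hn => hx.trans (le_self_pow₀ hx1 (by omega))
  have hK : 1 ≤ K := by
    have : (1:ℝ) ≤ K := by rw [hKx]; exact one_le_pow₀ hx1
    exact_mod_cast this
  have hT0 : 0 < T := lt_of_lt_of_le (by positivity) hT
  have hnl : nz l ≤ 2 * x ^ 510 := (nz_le_mx l).trans (by linarith)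
  have hlK : nz l ≤ K / 4 := by
    rw [hKx]
    have h1 : x ^ 1000 = x ^ 490 * x ^ 510 := by ring
    have h2 := big 490 (by norm_num)
    have h3 : 0 < x ^ 510 := by positivity
    rw [h1]; nlinarith
  have hmx0 : (1:ℝ) ≤ mx l := by exact_mod_cast mx_pos hl0
  set γ := (x ^ 300)⁻¹ with hγd
  set δ := (x ^ 1998)⁻¹ with hδd
  have hγ : 0 < γ := by rw [hγd]; positivity
  have hδ : 0 < δ := by rw [hδd]; positivity
  set I := (An K).filter (fun k => k + l ∈ An K) with hI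
  -- step 1: degenerate and nondegenerate points
  set φ1 : ℤ × ℤ → ℤ × ℤ := fun k => (if γ * K ≤ 2 * |((dt k l : ℤ) : ℝ)| then 1 else 0, 0) with hφ1
  have h1 := EG_windows hT0 I φ1 (lv l)
  have hc1 : ((I.image φ1).card : ℝ) ≤ 2 := by
    have h2 : I.image φ1 ⊆ ({(1, 0), (0, 0)} : Finset (ℤ × ℤ)) := by
      intro y hy
      rw [Finset.mem_image] at hy
      obtain ⟨k, _, rfl⟩ := hy
      rw [hφ1]
      simp only
      split_ifs <;> simp
    have h3 := Finset.card_le_card h2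
    have h4 : (({(1, 0), (0, 0)} : Finset (ℤ × ℤ))).card = 2 := by decide
    rw [h4] at h3
    exact_mod_cast h3
  have h2 : EG I φ1 (lv l) T ≤ EG (Nd K γ l) (fun _ => 0) (lv l) T + EG (Dg K γ l) (fun _ => 0) (lv l) T := by
    unfold EG
    have hsub : PG I φ1 ⊆ PG (Nd K γ l) (fun _ => (0 : ℤ × ℤ)) ∪ PG (Dg K γ l) (fun _ => (0 : ℤ × ℤ)) := by
      intro y hy
      rw [mem_PG] at hy
      obtain ⟨⟨y1, y2⟩, y3⟩ := hy
      rw [hI, Finset.mem_filter] at y1 y2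
      rw [hφ1] at y3
      simp only [Prod.mk.injEq, and_true] at y3
      rw [Finset.mem_union, mem_PG, mem_PG]
      by_cases a : γ * K ≤ 2 * |((dt y.1 l : ℤ) : ℝ)|
      · left
        have b : γ * K ≤ 2 * |((dt y.2 l : ℤ) : ℝ)| := by
          by_contra b
          rw [if_pos a, if_neg b] at y3
          exact absurd y3 (by norm_num)
        exact ⟨⟨mem_Nd.mpr ⟨y1.1, y1.2, a⟩, mem_Nd.mpr ⟨y2.1, y2.2, b⟩⟩, rfl⟩
      · right
        have b : ¬ γ * K ≤ 2 * |((dt y.2 l : ℤ) : ℝ)| := by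
          intro b
          rw [if_neg a, if_pos b] at y3
          exact absurd y3 (by norm_num)
        refine ⟨⟨?_, ?_⟩, rfl⟩
        · unfold Dg; rw [Finset.mem_filter]; exact ⟨y1.1, a⟩
        · unfold Dg; rw [Finset.mem_filter]; exact ⟨y2.1, b⟩
    refine (Finset.sum_le_sum_of_subset_of_nonneg hsub (fun _ _ _ => (Real.exp_pos _).le)).trans ?_
    have := Finset.sum_union_inter (s₁ := PG (Nd K γ l) (fun _ => (0 : ℤ × ℤ))) (s₂ := PG (Dg K γ l) (fun _ => (0 : ℤ × ℤ)))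
      (f := fun x => Real.exp (-(Real.pi * T ^ 2 * (lv l x.1 - lv l x.2) ^ 2)))
    have h0 : 0 ≤ ∑ x ∈ PG (Nd K γ l) (fun _ => (0 : ℤ × ℤ)) ∩ PG (Dg K γ l) (fun _ => (0 : ℤ × ℤ)),
      Real.exp (-(Real.pi * T ^ 2 * (lv l x.1 - lv l x.2) ^ 2)) := Finset.sum_nonneg (fun _ _ => (Real.exp_pos _).le)
    linarith
  -- step 2: degenerate
  have h3 : EG (Dg K γ l) (fun _ => 0) (lv l) T ≤ 50 * x ^ 3400 / (mx l : ℝ) ^ 2 + 50 * x ^ 2000 := by
    refine (EG_zero_le _ _ _ _).trans ?_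
    have hcard := Dg_card hK hγ hl0
    calc ((Dg K γ l).card : ℝ) ^ 2 ≤ (5 * K * (γ * K / mx l + 1)) ^ 2 := by gcongr
      _ = 25 * x ^ 2000 * (x ^ 700 / mx l + 1) ^ 2 := by
          rw [hKx, hγd]
          have : (x ^ 300)⁻¹ * x ^ 1000 = x ^ 700 := by field_simp
          rw [this]; ring
      _ ≤ 25 * x ^ 2000 * (2 * (x ^ 700 / mx l) ^ 2 + 2) := by
          gcongr
          nlinarith [sq_nonneg (x ^ 700 / (mx l : ℝ) - 1)]
      _ = _ := by rw [div_pow]; ring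
  -- step 3: nondegenerate
  have hδK : 4 * K * δ ≤ 1 := by
    rw [hKx, hδd]
    have h5 : 4 * x ^ 1000 * (x ^ 1998)⁻¹ = 4 / x ^ 998 := by field_simp
    rw [h5, div_le_one (by positivity)]
    have := big 998 (by norm_num)
    linarith
  have hδγ : 32 * δ * K / γ ≤ 1 := by
    rw [hKx, hδd, hγd]
    have h5 : 32 * (x ^ 1998)⁻¹ * x ^ 1000 / (x ^ 300)⁻¹ = 32 / x ^ 698 := by field_simp
    rw [h5, div_le_one (by positivity)]
    have := big 698 (by norm_num)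
    linarith
  have h4 := EG_windows hT0 (Nd K γ l) (wdw (x ^ 530) l) (lv l)
  have hc4 := wdw_image (K := K) (γ := γ) (M := x ^ 530) (by positivity) l
  have hc4' : (((Nd K γ l).image (wdw (x ^ 530) l)).card : ℝ) ≤ 10 * x ^ 470 := by
    refine hc4.trans ?_
    have h5 : 4 * (K:ℝ) / x ^ 530 = 4 * x ^ 470 := by rw [hKx]; field_simp
    rw [h5]
    have : (1:ℝ) ≤ x ^ 470 := one_le_pow₀ hx1
    linarith
  have h5 := EG_split (Nd K γ l) (wdw (x ^ 530) l) (lv l) T hδ.le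
  have h6 := pair_count (M := x ^ 530) hK hγ hδ.le (one_le_pow₀ hx1) hl0 hlK hδK hδγ
  have h7 := diff_sum hx hKx hl
  have h8 := card_An K hK
  have h9 : ((Nd K γ l).card : ℝ) ^ 2 * Real.exp (-(Real.pi * (T * δ) ^ 2)) ≤ 625 * C1 := by
    have a1 : ((Nd K γ l).card : ℝ) ≤ 25 * x ^ 2000 := by
      have : ((Nd K γ l).card : ℝ) ≤ ((An K).card : ℝ) := by exact_mod_cast Finset.card_le_card (Finset.filter_subset _ _)
      refine this.trans (h8.trans (le_of_eq ?_))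
      rw [hKx]; ring
    have a2 : x ≤ T * δ := by
      rw [hδd, ← div_eq_mul_inv, le_div_iff₀ (by positivity)]
      calc x * x ^ 1998 = x ^ 1999 := by ring
        _ ≤ T := hT
    have a3 : x ≤ Real.pi * (T * δ) ^ 2 := by
      have := Real.pi_gt_three
      have h10 : x * 1 ≤ (T * δ) ^ 2 := by rw [sq]; gcongr; linarith
      nlinarith
    calc ((Nd K γ l).card : ℝ) ^ 2 * Real.exp (-(Real.pi * (T * δ) ^ 2)) ≤ (25 * x ^ 2000) ^ 2 * Real.exp (-x) := by
          gcongr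
      _ = 625 * (x ^ 4000 * Real.exp (-x)) := by ring
      _ ≤ _ := by gcongr; exact hexp x hx1
  have h10 : EG (Nd K γ l) (wdw (x ^ 530) l) (lv l) T ≤ (3000025 + 625 * C1) * x ^ 2000 := by
    have : (1:ℝ) ≤ x ^ 2000 := one_le_pow₀ hx1
    have h11 : ((An K).card : ℝ) ≤ 25 * x ^ 2000 := h8.trans (le_of_eq (by rw [hKx]; ring))
    nlinarith
  have h11 : EG (Nd K γ l) (fun _ => 0) (lv l) T ≤ 10 * (3000025 + 625 * C1) * x ^ 2470 := by
    calc _ ≤ _ := h4
      _ ≤ 10 * x ^ 470 * ((3000025 + 625 * C1) * x ^ 2000) := by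
          have := EG_nonneg (Nd K γ l) (wdw (x ^ 530) l) (lv l) T
          gcongr
      _ = _ := by ring
  have h12 := pw 2000 2470 (by norm_num)
  have h13 : 0 ≤ x ^ 3400 / (mx l : ℝ) ^ 2 := by positivity
  have h14 : 0 ≤ x ^ 2470 := by positivity
  have h15 := EG_nonneg I φ1 (lv l) T
  calc EG I (fun _ => 0) (lv l) T ≤ (I.image φ1).card * EG I φ1 (lv l) T := h1
    _ ≤ 2 * EG I φ1 (lv l) T := by gcongr
    _ ≤ 2 * (10 * (3000025 + 625 * C1) * x ^ 2470 + (50 * x ^ 3400 / (mx l : ℝ) ^ 2 + 50 * x ^ 2000)) := by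
        gcongr
        linarith
    _ = 2 * (10 * (3000025 + 625 * C1) * x ^ 2470 + (50 * (x ^ 3400 / (mx l : ℝ) ^ 2) + 50 * x ^ 2000)) := by ring
    _ ≤ _ := by
        have : 0 ≤ C1 * (x ^ 3400 / (mx l : ℝ) ^ 2) := by positivity
        nlinarith

end Pool.Agent.H593.U
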