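import Mathlib
import Pool.Agent.H593.U7.H3
import Pool.Agent.H593.U7.N6
import Pool.Agent.H593.U6.F3

/-!
# Statements for the limit law of the discrepancy of discs as a function of the centre

`S B b a t = ∑ k ∈ B, b k e(k·a + t |k|)`; `nz k = |k|`, `dp k a = k·a`, `ex x = e(x)`.
-/

open MeasureTheory Set Filter Topology
open Pool.Agent.H383.Gauss
open scoped ENNReal

namespace Pool.Agent.H593.U

/-- pairs `(l, k)` with `l ≠ 0` in the box of side `N` and `k`, `k + l` in `B` -/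
noncomputable def IL (N : ℕ) (B : Finset (ℤ × ℤ)) : Finset ((ℤ × ℤ) × (ℤ × ℤ)) :=
  (((box N).erase 0) ×ˢ B).filter (fun x => x.2 + x.1 ∈ B)

/-- the Fejer weight: `N ^ 2 * fw N l` is the number of pairs `(m, m')` in `([0,N)^2)^2` with `m' - m = l` -/
noncomputable def fw (N : ℕ) (l : ℤ × ℤ) : ℝ := max 0 (1 - |(l.1:ℝ)| / N) * max 0 (1 - |(l.2:ℝ)| / N)

/-- the off-diagonal part of the local energy of `S B c` near `a` at time `t` -/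
noncomputable def off (N : ℕ) (B : Finset (ℤ × ℤ)) (c : ℤ × ℤ → ℝ) (a : ℝ × ℝ) (t : ℝ) : ℂ :=
  G (IL N B) (fun x => x.1) (fun x => lv x.1 x.2) (fun x => fw N x.1 * (c (x.2 + x.1) * c x.2)) a t

/-- the supremum of the exponential sum over all centres -/
noncomputable def sS (B : Finset (ℤ × ℤ)) (b : ℤ × ℤ → ℝ) (t : ℝ) : ℝ≥0∞ :=
  ⨆ a : ℝ × ℝ, ENNReal.ofReal ‖S B b a t‖

lemma lsc_sS (B : Finset (ℤ × ℤ)) (b : ℤ × ℤ → ℝ) : LowerSemicontinuous (sS B b) := by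
  apply lowerSemicontinuous_iSup
  intro a
  apply Continuous.lowerSemicontinuous
  have := continuous_S_right B b a
  exact ENNReal.continuous_ofReal.comp this.norm

lemma measurable_sS (B : Finset (ℤ × ℤ)) (b : ℤ × ℤ → ℝ) : Measurable (sS B b) := (lsc_sS B b).measurable

lemma le_sS (B : Finset (ℤ × ℤ)) (b : ℤ × ℤ → ℝ) (a : ℝ × ℝ) (t : ℝ) : ENNReal.ofReal ‖S B b a t‖ ≤ sS B b t :=
  le_iSup (fun a : ℝ × ℝ => ENNReal.ofReal ‖S B b a t‖) a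

/-- the mean of `g` over the window `[X, X + H]` -/
noncomputable def avg (X H : ℝ) (g : ℝ → ℝ) : ℝ := (1 / H) * ∫ t in Icc X (X + H), g t

/-- `g` has a mean value, uniformly over all windows -/
def HasMean (g : ℝ → ℝ) : Prop :=
  ∃ L : ℝ, ∀ ε : ℝ, 0 < ε → ∃ H0 : ℝ, 0 < H0 ∧ ∀ X H : ℝ, H0 ≤ H → |avg X H g - L| ≤ ε

/-- **NEAR.** The energy of `S B c` in the small square of side `1/(2N)` around `a`.

Proof. (1) For `x ∈ Nr (1/(4N))` the sum `D x = ∑ m ∈ [0,N)^2, ex (dp m x)` has `‖D x‖ ≥ N^2/4`: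
it is a product of two sums `∑ m < N, ex (m y)`, `|y| ≤ 1/(4N)`; multiplying by the unimodular
`ex (-(N-1)y/2)` the real part of each term is `cos (2π (m-(N-1)/2) y) ≥ cos (π/4) ≥ 1/2`, as `|m-(N-1)/2| ≤ N/2`.
(2) So the left side is at most `16/N^4 * ∫ x in Dq, ‖D x * S B c (a + x) t‖^2`, and the product is
`G I ξ lam c' x 1` with index `i = (m, k)` in `[0,N)^2 ×ˢ B`, `ξ i = m + k`, `lam i = dp k a + t * nz k`, `c' i = c k`.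
(3) `∫ x in Dq, ‖G I ξ lam c' x 1‖^2 = N2 I ξ lam c' 1` (as in `int_G_sq`, with `parsevalD_norm` instead of `parseval`;
or use that both `Q` and `Dq` give `∑ s, ‖g_s‖^2`), and `N2` is the sum over `(m,k), (m',k')` with `m + k = m' + k'` of
`c k c k' cos (2π ((k-k')·a + t (nz k - nz k')))`.
(4) the terms with `k = k'` (`m = m'`) give `N^2 ∑ c k^2`; the terms with `k ≠ k'`: put `l = k - k'`; the number of
`(m, m')` with `m' - m = l` is `N^2 * fw N l` (0 unless `|l.1|, |l.2| < N`), so they give `N^2 * (off N B c a t).re`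
(`ex_re`, with `x = (l, k')`). Any constant `C` (e.g. 16) is fine. -/
def S_NEAR : Prop := ∃ C : ℝ, 0 < C ∧ ∀ (N : ℕ) (B : Finset (ℤ × ℤ)) (c : ℤ × ℤ → ℝ) (a : ℝ × ℝ) (t : ℝ), 1 ≤ N →
  ∫ x in Dq ∩ Nr (1 / (4 * N)), ‖S B c (a + x) t‖ ^ 2 ≤ C / (N:ℝ) ^ 2 * (∑ k ∈ B, c k ^ 2 + ‖off N B c a t‖)

/-- **EN.** Sum of `level_energy` (module `U7/N6`) over `l`.

Proof. The pairs in `PG (IL N B) (·.1)` have the same `l`, so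
`EG (IL N B) (·.1) _ T = ∑ l ∈ (box N).erase 0, EG (B.filter (k + l ∈ B)) (fun _ => 0) (lv l) T`, and
`B.filter (k + l ∈ B) ⊆ (An K).filter (k + l ∈ An K)` (`EG_mono`). For `l ∈ box N`, `mx l ≤ N ≤ x^510` (`mem_box_mx`), `level_energy` gives
`≤ C (x^2470 + x^3400/(mx l)^2)`; the sum over `l` is `≤ C ((2N+1)^2 x^2470 + x^3400 * 8 (1 + log N))` (`card_box`, `sum_inv_sq_mx`)
`≤ C' x^3490` as `(2N+1)^2 ≤ 9 x^1020` and `log N ≤ 510 log x ≤ 510 x`. -/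
def S_EN : Prop := ∃ C : ℝ, 0 < C ∧ ∀ (K N : ℕ) (x T : ℝ) (B : Finset (ℤ × ℤ)), 1000 ≤ x → (K:ℝ) = x ^ 1000 →
  x ^ 1999 ≤ T → (N:ℝ) ≤ x ^ 510 → B ⊆ An K →
  EG (IL N B) (fun y => y.1) (fun y => lv y.1 y.2) T ≤ C * x ^ 3490

/-- **SIX.** Sixth moment of the supremum over all centres.

Proof. `‖S B b a t‖^6 = ‖S^3‖^2`, `S^3 = G (tup 3 B) xm lm (cm b) a t` (`S_pow`) `= ∑ s ∈ image xm, g_s ex (dp s a)` with
`∑ ‖g_s‖^2 = MP 3 B b t` (`int_S_pow`/`parseval`), so by Cauchy `‖S B b a t‖^6 ≤ card (image xm) * MP 3 B b t ≤ 169 K^2 MP 3 B b t`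
(the image lies in `box (6K)`; compare `S_four_le` in `U/Energy`). Hence `sS^6 ≤ ofReal (169 K^2 MP 3 B b t)`. Then `lint_MP_le` (`U6/TB`, with `L = H`)
and `gauss_MP_le` (`U6/Pow`), `EnM_mono` to `box (2K)` and `HE_three` (`U6/SC5`) for `2K`, `T = H`. -/
def S_SIX : Prop := ∀ ε θ : ℝ, 0 < ε → 0 ≤ θ → θ < 2 → ∃ C : ℝ, 0 < C ∧
  ∀ (K : ℕ) (B : Finset (ℤ × ℤ)) (b : ℤ × ℤ → ℝ) (κ X H : ℝ),
  1 ≤ K → B ⊆ box (2 * K) → 0 ≤ κ → (∀ k ∈ B, |b k| ≤ κ) → 0 < H →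
  ∫⁻ t in Icc X (X + H), sS B b t ^ (6:ℝ) ≤
    ENNReal.ofReal (C * (κ ^ 6 * ((K:ℝ) ^ (11 + ε) * (1 + H * (K:ℝ) ^ (-θ)))))

/-- **CELL.** Few separated times with a large value in a short window.

Proof. `HM_local` (`U7/H3`) with `ρ = 1/(4N)` and `S_NEAR`. Choose for `t ∈ T` a point `a t ∈ Q` (periodicity: `exists_mem_Q`, `ex_dp_zc`).
For `a0 : ℝ × ℝ` let `J(a0)` be the number of `t ∈ T` with `|(a t).i - a0.i| ≤ ρ/2`, `i = 1, 2`. `HM_local` for these `t` gives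
`√J lam^2 ≤ C1 K^2 * ∫ Near ≤ C2 K^2/N^2 (K^2 + ‖off N B c a0 t0‖)`, `c = cw (1/K) b`, `|c k| ≤ exp (4π)` for `k ∈ box (2K)` (`nz_le_of_mem_box`: `nz k ≤ 4K`, so
`|c k| ≤ exp (8π)`), hence `J lam^4 ≤ C3 K^4/N^4 (K^4 + ‖off‖^2)`; by `C K^8 ≤ lam^4 N^4` with `C ≥ 2 C3` the first term is at most `lam^4/2 ≤ J lam^4/2` when `J ≥ 1`;
so `J(a0) lam^4 ≤ 2 C3 K^4/N^4 ‖off N B c a0 t0‖^2` for all `a0`. Integrate over `a0 ∈ [-1,2)^2`: each `t` contributes `ρ^2 = 1/(16 N^2)` on the left,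
and `‖off‖` is 1-periodic in both coordinates so the right side is `9` times the integral over `Q`. -/
def S_CELL : Prop := ∃ C : ℝ, 1 ≤ C ∧ ∀ (K N : ℕ) (B : Finset (ℤ × ℤ)) (b : ℤ × ℤ → ℝ) (t0 τ lam U : ℝ) (T : Finset ℝ),
  2 ≤ K → 1 ≤ N → B ⊆ box (2 * K) → (∀ k ∈ B, |b k| ≤ 1) →
  0 ≤ τ → 16 * N * (τ + 1 / K) ≤ 1 → (∀ t ∈ T, t0 ≤ t ∧ t ≤ t0 + τ) → (∀ s ∈ T, ∀ t ∈ T, s ≠ t → 1 / (K:ℝ) ≤ |s - t|) →
  0 < lam → (∀ t ∈ T, ∃ a, lam ≤ ‖S B b a t‖) → (∀ x, ‖S B (cw (1 / K) b) x t0‖ ≤ U) →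
  C * U * N * (τ + 1 / K) ≤ lam → C * (K:ℝ) ^ 8 ≤ lam ^ 4 * (N:ℝ) ^ 4 →
  (T.card : ℝ) * (lam ^ 4 * (N:ℝ) ^ 2) ≤ C * ((K:ℝ) ^ 4 * ∫ a in Q, ‖off N B (cw (1 / K) b) a t0‖ ^ 2)

/-- **BADA.** The times at which some centre has a value above `K^1.499`. -/
def S_BADA : Prop := ∃ C : ℝ, 0 < C ∧ ∀ (K : ℕ) (B : Finset (ℤ × ℤ)) (b : ℤ × ℤ → ℝ) (X H : ℝ),
  1 ≤ K → B ⊆ An K → (∀ k ∈ B, |b k| ≤ 1) → (K:ℝ) ^ (1.999:ℝ) ≤ H →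
  volume {t : ℝ | X ≤ t ∧ t ≤ X + H ∧ ∃ a : ℝ × ℝ, (K:ℝ) ^ (1.499:ℝ) < ‖S B b a t‖} ≤
    ENNReal.ofReal (C * (H * (K:ℝ) ^ (-(1/100):ℝ)))

/-- **BLK.** Moments of order `p < 6` of one block, with a power saving.

Proof. By homogeneity (`b / κ`, `S B (κ b') = κ S B b'`) assume `κ = 1`. Put `ε = η = min (1/1000) ((1 - p/6)/1000)`, `θ = 2 - η`.
Let `E` be the set in `S_BADA` (as a measurable set: `E = {t ∈ Icc X (X+H) | ofReal (K^1.499) < sS B b t}`, `lt_iSup_iff`, `measurable_sS`).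
Outside `E`: `sS^p ≤ (K^1.499)^p`. On `E`: Holder with exponents `6/p` and its conjugate:
`∫_E sS^p ≤ (∫ sS^6)^(p/6) * (volume E)^(1 - p/6) ≤ (C K^(11+ε) (1 + H K^(-θ)))^(p/6) (C H K^(-1/100))^(1-p/6)`, and `1 ≤ H K^(-θ)`, so this is
`≤ C' H K^((9 + ε + η) p/6 - (1 - p/6)/100) ≤ C' H K^(3p/2 + 2η - (1-p/6)/100) ≤ C' H K^(3p/2 - (1-p/6)/200)`.
So `d = min (1/1000) ((1-p/6)/(200 p))`, or anything smaller, works (`K ^ (1.499 p) = K^(3p/2 - p/1000)`). -/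
def S_BLK : Prop := ∀ p : ℝ, 1 ≤ p → p < 6 → ∃ η d C : ℝ, 0 < η ∧ η ≤ 1 / 1000 ∧ 0 < d ∧ d ≤ 1 ∧ 0 < C ∧
  ∀ (K : ℕ) (B : Finset (ℤ × ℤ)) (b : ℤ × ℤ → ℝ) (κ X H : ℝ),
  1 ≤ K → B ⊆ An K → 0 < κ → (∀ k ∈ B, |b k| ≤ κ) → (K:ℝ) ^ (2 - η) ≤ H →
  ∫⁻ t in Icc X (X + H), sS B b t ^ p ≤ ENNReal.ofReal (C * (H * (κ * (K:ℝ) ^ (3/2 - d)) ^ p))

/-- **TONE.** One block with the smoothed weights `bw δ`, `δ = X^(-1/2-η)`.

Proof. Let `K = 2^j` (`B ⊆ sh Y j ⊆ An K`, `lg_le`, `lt_lg`), `|bw δ k| ≤ K^(-3/2) min 1 ((δK)^(-3/2))` on `sh Y j` (`bw_shell`, `U/A1b`).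
The window has length `H + 2 ≤ 3H` (`H ≥ X^(1-c) ≥ 1`). Let `η₀, d₀` be from `S_BLK` for `p`; take `c = η = η₀/20` (any small multiple).
Case 1: `K ≤ X^(1/2+2η)`. Then `K^(2-η₀) ≤ X^((1/2+2η)(2-η₀)) ≤ X^(1-c) ≤ H` and `S_BLK` with `κ = K^(-3/2)` gives `≤ C 3H K^(-d₀ p)`.
Case 2: `K > X^(1/2+2η)`. Then `δ K ≥ X^η ≥ 1`, and by `S_SIX` (with `ε = η`, `θ = 2 - η`, `κ = K^(-3/2) (δK)^(-3/2)`) and Jensen/Holder
`∫ sS^p ≤ (3H)^(1-p/6) (∫ sS^6)^(p/6)`, `∫ sS^6 ≤ C (δK)^(-9) K^(2+η) (1 + 3H K^(-2+η))`. Here `(δK)^(-9) K^(2η) ≤ K^(-7η)` because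
`X ≤ K^(1/(1/2+2η))` gives `δK ≥ K^(η/(1/2+2η)) ≥ K^η`, and `(δK)^(-9) K^(2+η) ≤ H K^(-η)` because with `K = X^s`, `s ≥ 1/2+2η`, the exponent of
`(δK)^(-9) K^(2+η) / H` in base `X` is at most `9/2 + 9η - (7-η) s - (1-c) ≤ -3η - (7-η)(s-1/2-2η) ≤ -η s` for `c ≤ η ≤ 1/10^4`. -/
def S_TONE : Prop := ∀ p : ℝ, 1 ≤ p → p < 6 → ∃ c η d C : ℝ, 0 < c ∧ c < 1 ∧ 0 < η ∧ η ≤ 1 / 4 ∧ 0 < d ∧ 0 < C ∧
  ∀ (X H : ℝ) (Y j : ℕ) (B : Finset (ℤ × ℤ)),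
  1 ≤ X → X ^ (1 - c) ≤ H → H ≤ X → B ⊆ sh Y j →
  ∫⁻ t in Icc (X - 1) (X + H + 1), sS B (bw (X ^ (-(1/2) - η))) t ^ p ≤ ENNReal.ofReal (C * (H * (((2:ℝ) ^ (-d)) ^ j) ^ p))

/-- **TAIL.** The sum over the blocks `j ≥ J0`: Minkowski (`ENNReal.lintegral_Lp_add_le`, or `lintegral_rpow_finset_sum`-type lemma, by induction)
and a geometric series: with `q = 2^(-d) < 1`, `(∫ (∑ f_j)^p)^(1/p) ≤ ∑ (C H q^(jp))^(1/p) ≤ (C H)^(1/p) q^J0/(1-q)`. -/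
def S_TAIL : Prop := ∀ p : ℝ, 1 ≤ p → p < 6 → ∃ c η q C : ℝ, 0 < c ∧ c < 1 ∧ 0 < η ∧ η ≤ 1 / 4 ∧ 0 < q ∧ q < 1 ∧ 0 < C ∧
  ∀ (X H : ℝ) (Y J0 J : ℕ) (B : ℕ → Finset (ℤ × ℤ)),
  1 ≤ X → X ^ (1 - c) ≤ H → H ≤ X → (∀ j, B j ⊆ sh Y j) →
  ∫⁻ t in Icc (X - 1) (X + H + 1), (∑ j ∈ Finset.Ico J0 J, sS (B j) (bw (X ^ (-(1/2) - η))) t) ^ p ≤
    ENNReal.ofReal (C * (H * q ^ J0))

/-- **CMP.** Comparison of the discrepancy with a fixed trigonometric polynomial. `Va R 0 K a` is the Fourier series with weights `bw 0 k = |k|^(-3/2)/π`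
(`J 0 = π`), truncated at `|k| ≤ K`.

Proof. `δ = X^(-1/2-η)`, `Y = ⌈(4X)^3⌉`. `Na_le_W` and `le_Na_W` (`U/Disc`): `Pa a R/√R ≤ π (2Rδ+δ^2)/√R + √((R+δ)/R) Wa (R+δ) δ a` and similarly below with `R-δ`.
`π(2Rδ+δ^2)/√R ≤ C X^(-η) → 0`. `Wa_sub_Va`: `|Wa R' δ a - Va R' δ Y a| ≤ C (1/R' + δ^(-3/2) Y^(-9/10)) → 0` (`δ^(-3/2) ≤ X^(9/8)`, `Y^(-9/10) ≤ X^(-2.7)`);
`|√((R±δ)/R) - 1| ≤ 2δ/R` and `|Wa| ≤ C δ^(-3/2)` (`abs_Wa_le`), product `→ 0`. `Va_eq`: `Va R' δ Y a = (ph * S (B0 Y) (bw δ) a R').im`; for `K ≤ Y` split `B0 Y` into `B0 K` and the rest,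
the rest is the disjoint union over `j < J` of `(sh Y j).filter (K < nz)` (as in `S_shells`; apply it to the weights `fun p => if K < nz p then bw δ p else 0`).
Finally for fixed `K`, `|Va R' δ K a - Va R 0 K a| ≤ ∑ p ∈ B0 K, (|bw δ p - bw 0 p| + |bw 0 p| 2π |R'-R| nz p) → 0` as `δ → 0` (`J` is continuous at `0`, e.g.
`|J l - J 0| ≤ 4π |l| * 2` from `|cos x - 1| ≤ |x|`). The maximum of the two one-sided bounds is at most their sum. -/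
def S_CMP : Prop := ∀ η : ℝ, 0 < η → η ≤ 1 / 4 → ∀ (K : ℕ) (e : ℝ), 0 < e → ∃ X0 : ℝ, 1 ≤ X0 ∧
  ∀ (X R : ℝ) (a : ℝ × ℝ) (J : ℕ), X0 ≤ X → X ≤ R → R ≤ 2 * X → ⌈(4 * X) ^ 3⌉₊ < 2 ^ J →
  |Pa a R / √R - Va R 0 K a| ≤ e +
    2 * ∑ j ∈ Finset.range J, ‖S ((sh ⌈(4 * X) ^ 3⌉₊ j).filter (fun p => (K:ℝ) < nz p)) (bw (X ^ (-(1/2) - η))) a (R + X ^ (-(1/2) - η))‖ +
    2 * ∑ j ∈ Finset.range J, ‖S ((sh ⌈(4 * X) ^ 3⌉₊ j).filter (fun p => (K:ℝ) < nz p)) (bw (X ^ (-(1/2) - η))) a (R - X ^ (-(1/2) - η))‖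

/-- **AP.** The discrepancy is almost periodic of order `p < 6` in the radius, uniformly in the centre.

Proof. From `S_TAIL` (`c, η, q, C` for `p`) and `S_CMP` for this `η`, with `J` such that `⌈(4X)^3⌉ < 2^J` and `J0 = Nat.log 2 K`: for `j < J0` and `p ∈ sh Y j`, `nz p < 2^(j+1) ≤ 2^J0 ≤ K`
so the filtered set is empty and `S = 0`. The integrand is at most `(ofReal e + 2 F(R+δ) + 2 F(R-δ))^p ≤ 3^p (e^p + 2^p F(R+δ)^p + 2^p F(R-δ)^p)`,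
`F = ∑ j ∈ Ico J0 J, sS (B j) (bw δ)` measurable; `R ± δ ∈ [X-1, X+H+1]` (translation invariance of `lintegral`). `K0` large makes `C' q^J0 ≤ ε/2` (`Nat.log` tends to infinity), and `e` small. -/
def S_AP : Prop := ∀ p : ℝ, 1 ≤ p → p < 6 → ∃ c : ℝ, 0 < c ∧ c < 1 ∧ ∀ ε : ℝ, 0 < ε → ∃ K0 : ℕ, ∀ K : ℕ, K0 ≤ K → ∃ X0 : ℝ,
  ∀ X H : ℝ, X0 ≤ X → X ^ (1 - c) ≤ H → H ≤ X →
  ∫⁻ R in Icc X (X + H), (⨆ a : ℝ × ℝ, ENNReal.ofReal |Pa a R / √R - Va R 0 K a|) ^ p ≤ ENNReal.ofReal (ε * H)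

/-- **TOR.** A continuous periodic function along a line has a mean value uniformly over windows.

Proof. `Φ` induces a continuous function on `UnitAddTorus ι = ι → UnitAddCircle`; by `UnitAddTorus.span_mFourier_closure_eq_top` (or Stone-Weierstrass) it is uniformly within `ε`
of a finite sum `∑ n ∈ F, c n e(n·x)`; along the line each term is `c n e(t (n·lam))`, whose mean over `[X,X+H]` is `c n` if `n·lam = 0` and at most `|c n|/(π |n·lam| H)` otherwise.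
So `avg` is Cauchy, uniformly. -/
def S_TOR : Prop := ∀ (ι : Type) [Fintype ι] (lam : ι → ℝ) (Φ : (ι → ℝ) → ℝ), Continuous Φ →
  (∀ (x : ι → ℝ) (n : ι → ℤ), Φ (fun i => x i + n i) = Φ x) → HasMean (fun t => Φ (fun i => t * lam i))

/-- **LAW1.** Existence of the limit law.

Proof. For bounded Lipschitz `g` the window means `avg X H (g ∘ M)` converge (Cauchy: compare with `g ∘ A K`, error `≤ Lg * (1/H) ∫ ‖M - A K‖ ≤ Lg ε`). The laws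
`μ_X` of `M` on `[X, 2X]` (normalised Lebesgue measure; `H = X`; `X ≥ X0 ≥ 1`) are tight: `(1/X) ∫ ‖M‖ ≤ D + 1` (compare with one bounded `A K`), Markov. By Prokhorov
(`isCompact_closure_of_isTightMeasureSet` or the like in `Mathlib/MeasureTheory/Measure/Prokhorov.lean`; `Fin n → ℝ` is Polish) there is a cluster point `μ` of `μ_X` as `X → ∞` (take an
ultrafilter finer than `map μ_X atTop`), and for bounded Lipschitz `g` the integral `∫ g dμ` is the limit of `avg X X (g ∘ M)` along the ultrafilter, so it equals the limit over all windows.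
(If no Prokhorov theorem fits: Riesz-Markov, or Helly, are alternatives.) -/
def S_LAW1 : Prop := ∀ (n : ℕ) (M : ℝ → Fin n → ℝ) (A : ℕ → ℝ → Fin n → ℝ) (c : ℝ), 0 < c → c < 1 →
  AEMeasurable M (volume.restrict (Ici 1)) → (∀ K, Continuous (A K)) → (∀ K, ∃ D : ℝ, ∀ t, ‖A K t‖ ≤ D) →
  (∀ (K : ℕ) (g : (Fin n → ℝ) → ℝ), Continuous g → HasMean (fun t => g (A K t))) →
  (∀ ε : ℝ, 0 < ε → ∃ (K : ℕ) (X0 : ℝ), ∀ X H : ℝ, X0 ≤ X → X ^ (1 - c) ≤ H → H ≤ X →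
    ∫⁻ t in Icc X (X + H), ENNReal.ofReal ‖M t - A K t‖ ≤ ENNReal.ofReal (ε * H)) →
  ∃ μ : Measure (Fin n → ℝ), IsProbabilityMeasure μ ∧ ∀ (g : (Fin n → ℝ) → ℝ) (Lg : NNReal), LipschitzWith Lg g →
    (∃ D : ℝ, ∀ x, |g x| ≤ D) → ∀ ε : ℝ, 0 < ε → ∃ X0 : ℝ, ∀ X H : ℝ, X0 ≤ X → X ^ (1 - c) ≤ H → H ≤ X →
    |avg X H (fun t => g (M t)) - ∫ x, g x ∂μ| ≤ ε

/-- **LAW2.** Extension to continuous functions of polynomial growth below the moment bound.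

Proof. Given `p`, choose `q = (p+6)/2 ∈ (p, 6)`, let `c` be the minimum of `c1` and the constant for `q` (larger windows are fewer: `X^(1-c') ≤ X^(1-c)` for `c ≤ c'`, `X ≥ 1`).
Let `χ_r x = min 1 (max 0 (r + 1 - ‖x‖))` (1 for `‖x‖ ≤ r`, 0 for `‖x‖ ≥ r+1`). `f χ_r` is continuous with compact support, so uniformly continuous and a uniform limit of bounded
Lipschitz functions: its window means converge to `∫ f χ_r dμ`. `|f - f χ_r| ≤ C (1+‖x‖^p) 1_{‖x‖ > r} ≤ 2 C r^(p-q) ‖x‖^q` for `r ≥ 1`, so the window means of the difference are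
`≤ 2 C D r^(p-q)`. For `μ`: `∫ ‖x‖^q dμ ≤ D` by monotone convergence from `∫ min (‖x‖^q χ_r, ·)`: the windows means of `‖x‖^q χ_r` are `≤ D` so `∫ ‖x‖^q χ_r dμ ≤ D`. -/
def S_LAW2 : Prop := ∀ (n : ℕ) (M : ℝ → Fin n → ℝ) (c1 : ℝ) (μ : Measure (Fin n → ℝ)), 0 < c1 → c1 < 1 → IsProbabilityMeasure μ →
  AEMeasurable M (volume.restrict (Ici 1)) →
  (∀ (g : (Fin n → ℝ) → ℝ) (Lg : NNReal), LipschitzWith Lg g →
    (∃ D : ℝ, ∀ x, |g x| ≤ D) → ∀ ε : ℝ, 0 < ε → ∃ X0 : ℝ, ∀ X H : ℝ, X0 ≤ X → X ^ (1 - c1) ≤ H → H ≤ X →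
    |avg X H (fun t => g (M t)) - ∫ x, g x ∂μ| ≤ ε) →
  (∀ q : ℝ, 1 ≤ q → q < 6 → ∃ c D X0 : ℝ, 0 < c ∧ c < 1 ∧ 0 < D ∧ ∀ X H : ℝ, X0 ≤ X → X ^ (1 - c) ≤ H → H ≤ X →
    ∫⁻ t in Icc X (X + H), ENNReal.ofReal (‖M t‖ ^ q) ≤ ENNReal.ofReal (D * H)) →
  ∀ p : ℝ, 1 ≤ p → p < 6 → ∃ c : ℝ, 0 < c ∧ c < 1 ∧ ∀ f : (Fin n → ℝ) → ℝ, Continuous f → (∃ C : ℝ, ∀ x, |f x| ≤ C * (1 + ‖x‖ ^ p)) →
    Integrable f μ ∧ ∀ ε : ℝ, 0 < ε → ∃ X0 : ℝ, ∀ X H : ℝ, X0 ≤ X → X ^ (1 - c) ≤ H → H ≤ X →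
    |avg X H (fun t => f (M t)) - ∫ x, f x ∂μ| ≤ ε

/-- **SUP.** The (signed) supremum of the normalised discrepancy over a set of centres is a measurable function of the radius, and the supremum is a Lipschitz functional.

Proof. For `R ≤ 0`, `√R = 0` and the value is `0`. For `R > 0`, `⨆ a : A, (Na a R - π R^2)/√R = ((⨆ a : A, Na a R) - π R^2)/√R` (`Na a R` is bounded uniformly in `a`: `Pa_lin`, `Pa_small`), and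
`⨆ a : A, Na a R` is monotone in `R ≥ 0` (`Na_mono`), so measurable on `Ioi 0`; for `s = -1` use the infimum. Lipschitz: if `f` is bounded above on `A` then so is `g`, and conversely;
if not, both suprema are `0` (`Real.iSup_of_not_bddAbove`). -/
def S_SUP : Prop := ∀ A : Set (ℝ × ℝ), A.Nonempty → ∀ s : ℝ, (s = 1 ∨ s = -1) →
  (Measurable fun R : ℝ => ⨆ a : A, s * (Pa (a : ℝ × ℝ) R / √R)) ∧
  ∀ (f g : ℝ × ℝ → ℝ) (D : ℝ), (∀ a, |f a - g a| ≤ D) → |(⨆ a : A, s * f (a : ℝ × ℝ)) - ⨆ a : A, s * g (a : ℝ × ℝ)| ≤ D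

/-- **POS.** The mean of the maximal discrepancy is bounded below.

Proof. By `S_AP` for `p = 1`, `ε = 1/100` and some `K ≥ 1`: it suffices to bound below `(1/H) ∫ sup_a |Va R 0 K a| dR`. The coefficient of `cos (2π a.1)`:
`∫ a in Q, Va R 0 K a * cos (2π a.1) = bw 0 (1,0) sin (2πR - π/4)` (both `p = ±(1,0)` contribute, each with `∫ cos^2 = 1/2`), so
`sup_a |Va R 0 K a| ≥ (1/π) |sin (2πR - π/4)|`, whose window means tend to `2/π^2 > 1/10`. -/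
def S_POS : Prop := ∃ c0 X0 c : ℝ, 0 < c0 ∧ 0 < c ∧ c < 1 ∧ ∀ X H : ℝ, X0 ≤ X → X ^ (1 - c) ≤ H → H ≤ X →
  ENNReal.ofReal (c0 * H) ≤ ∫⁻ R in Icc X (X + H), (⨆ a : ℝ × ℝ, ENNReal.ofReal |Pa a R / √R|)

end Pool.Agent.H593.U
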