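import Mathlib
import Pool.Agent.H593.U7.Stm

/-!
# Separated subsets, a Fubini identity, and the mean of the off-diagonal energy
-/

open MeasureTheory Set Filter Topology
open Pool.Agent.H383.Gauss
open scoped ENNReal

namespace Pool.Agent.H593.U

/-- a maximal separated subset -/
lemma exists_sep {η : ℝ} (hη : 0 < η) (n : ℕ) : ∀ (a : ℝ) (E : Set ℝ), (∀ t ∈ E, a ≤ t ∧ t < a + n * η) →
    ∃ T : Finset ℝ, (∀ t ∈ T, t ∈ E) ∧ (∀ s ∈ T, ∀ t ∈ T, s ≠ t → η ≤ |s - t|) ∧
      E ⊆ ⋃ t ∈ T, Icc (t - η) (t + η) := by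
  induction n with
  | zero =>
    intro a E hE
    refine ⟨∅, by simp, by simp, ?_⟩
    intro t ht
    have := hE t ht
    simp only [Nat.cast_zero, zero_mul, add_zero] at this
    linarith
  | succ n ih =>
    intro a E hE
    by_cases h : ∃ t ∈ E, t < a + η
    · obtain ⟨t, htE, hta⟩ := h
      obtain ⟨T, h1, h2, h3⟩ := ih (t + η) {s | s ∈ E ∧ t + η ≤ s} (by
        intro s hs
        have k1 := hE s hs.1
        have k2 := hE t htE
        push_cast at k1
        exact ⟨hs.2, by linarith⟩)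
      refine ⟨insert t T, ?_, ?_, ?_⟩
      · intro s hs
        rw [Finset.mem_insert] at hs
        rcases hs with rfl | hs
        · exact htE
        · exact (h1 s hs).1
      · intro s hs s' hs' hne
        rw [Finset.mem_insert] at hs hs'
        rcases hs with rfl | hs
        · rcases hs' with rfl | hs'
          · exact absurd rfl hne
          · have := (h1 s' hs').2
            rw [abs_sub_comm, le_abs]
            left; linarith
        · rcases hs' with rfl | hs'
          · have := (h1 s hs).2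
            rw [le_abs]
            left; linarith
          · exact h2 s hs s' hs' hne
      · intro s hs
        by_cases hst : t + η ≤ s
        · have := h3 ⟨hs, hst⟩
          rw [mem_iUnion₂] at this ⊢
          obtain ⟨u, hu, hu2⟩ := this
          exact ⟨u, Finset.mem_insert_of_mem hu, hu2⟩
        · rw [mem_iUnion₂]
          refine ⟨t, Finset.mem_insert_self _ _, ?_⟩
          have k1 := hE s hs
          push Not at hst
          exact ⟨by linarith, hst.le⟩
    · push Not at h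
      obtain ⟨T, h1, h2, h3⟩ := ih (a + η) E (by
        intro s hs
        have k1 := hE s hs
        push_cast at k1
        exact ⟨h s hs, by linarith⟩)
      exact ⟨T, h1, h2, h3⟩

/-- the measure of a bounded set is controlled by a separated subset -/
lemma sep_vol {η a b : ℝ} (hη : 0 < η) (E : Set ℝ) (hE : ∀ t ∈ E, a ≤ t ∧ t ≤ b) :
    ∃ T : Finset ℝ, (∀ t ∈ T, t ∈ E) ∧ (∀ s ∈ T, ∀ t ∈ T, s ≠ t → η ≤ |s - t|) ∧
      volume E ≤ ENNReal.ofReal (2 * η * T.card) := by
  obtain ⟨n, hn⟩ := exists_nat_gt ((b - a) / η)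
  obtain ⟨T, h1, h2, h3⟩ := exists_sep hη n a E (by
    intro t ht
    have k := hE t ht
    rw [div_lt_iff₀ hη] at hn
    exact ⟨k.1, by linarith⟩)
  refine ⟨T, h1, h2, ?_⟩
  calc volume E ≤ volume (⋃ t ∈ T, Icc (t - η) (t + η)) := measure_mono h3
    _ ≤ ∑ t ∈ T, volume (Icc (t - η) (t + η)) := measure_biUnion_finset_le _ _
    _ = ENNReal.ofReal (2 * η * T.card) := by
        have : ∀ t ∈ T, volume (Icc (t - η) (t + η)) = ENNReal.ofReal (2 * η) := by
          intro t _
          rw [Real.volume_Icc]; congr 1; ring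
        rw [Finset.sum_congr rfl this, Finset.sum_const, nsmul_eq_mul, mul_comm (2 * η) (T.card : ℝ),
          ENNReal.ofReal_mul (Nat.cast_nonneg _), ENNReal.ofReal_natCast]

/-- averaging over short windows -/
lemma window_avg {E : Set ℝ} (hE : MeasurableSet E) {X H τ : ℝ} (hτ : 0 ≤ τ) (hEX : ∀ t ∈ E, X ≤ t ∧ t ≤ X + H) :
    ENNReal.ofReal τ * volume E ≤ ∫⁻ t0 in Icc (X - τ) (X + H), volume (E ∩ Icc t0 (t0 + τ)) := by
  set s : Set (ℝ × ℝ) := {p | p.2 ∈ E ∧ p.1 ≤ p.2 ∧ p.2 ≤ p.1 + τ} with hs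
  have hms : MeasurableSet s := by
    apply MeasurableSet.inter (hE.preimage measurable_snd)
    apply MeasurableSet.inter (measurableSet_le measurable_fst measurable_snd)
    exact measurableSet_le measurable_snd (measurable_fst.add_const τ)
  have h1 := Measure.prod_apply (μ := volume) (ν := volume) hms
  have h2 := Measure.prod_apply_symm (μ := (volume : Measure ℝ)) (ν := (volume : Measure ℝ)) hms
  have e1 : ∀ t0 : ℝ, Prod.mk t0 ⁻¹' s = E ∩ Icc t0 (t0 + τ) := by
    intro t0; ext t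
    constructor
    · rintro ⟨h1, h2, h3⟩; exact ⟨h1, h2, h3⟩
    · rintro ⟨h1, h2, h3⟩; exact ⟨h1, h2, h3⟩
  have e2 : ∀ t : ℝ, volume ((fun x => (x, t)) ⁻¹' s) = E.indicator (fun _ => ENNReal.ofReal τ) t := by
    intro t
    by_cases ht : t ∈ E
    · rw [indicator_of_mem ht]
      have : (fun x => (x, t)) ⁻¹' s = Icc (t - τ) t := by
        ext x
        constructor
        · rintro ⟨_, h1, h2⟩; exact ⟨by linarith, h1⟩
        · rintro ⟨h1, h2⟩; exact ⟨ht, h2, by linarith⟩
      rw [this, Real.volume_Icc]; congr 1; ring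
    · rw [indicator_of_notMem ht]
      have : (fun x => (x, t)) ⁻¹' s = ∅ := by
        ext x; simp [hs, ht]
      rw [this, measure_empty]
  simp_rw [e1] at h1
  simp_rw [e2] at h2
  rw [lintegral_indicator hE, lintegral_const, Measure.restrict_apply_univ] at h2
  have h3 : ∫⁻ t0, volume (E ∩ Icc t0 (t0 + τ)) = ∫⁻ t0 in Icc (X - τ) (X + H), volume (E ∩ Icc t0 (t0 + τ)) := by
    symm
    apply setLIntegral_eq_of_support_subset
    intro t0 ht0
    rw [Function.mem_support] at ht0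
    by_contra hcon
    apply ht0
    have : E ∩ Icc t0 (t0 + τ) = ∅ := by
      ext t
      simp only [mem_inter_iff, mem_Icc, mem_empty_iff_false, iff_false]
      rintro ⟨h1, h2, h3⟩
      apply hcon
      have := hEX t h1
      exact ⟨by linarith, by linarith⟩
    rw [this, measure_empty]
  rw [← h3, ← h1, h2]

/-- integrals of the mean square over windows -/
lemma lint_N2_le {ι : Type} {L : ℝ} (hL : 0 < L) (X : ℝ) (I : Finset ι) (ξ : ι → ℤ × ℤ) (lam c : ι → ℝ) {κ : ℝ}
    (hc : ∀ i ∈ I, |c i| ≤ κ) {s : Set ℝ} (hs : ∀ t ∈ s, |t - X| ≤ L) (hms : MeasurableSet s) :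
    ∫⁻ t in s, ENNReal.ofReal (N2 I ξ lam c t) ≤
      ENNReal.ofReal (Real.exp Real.pi * (L * κ ^ 2 * EG I ξ lam L)) := by
  have hint := gauss_N2_integrable hL X I ξ lam c
  refine le_trans ?_ (ENNReal.ofReal_le_ofReal (mul_le_mul_of_nonneg_left (gauss_N2_le hL X I ξ lam c hc) (Real.exp_pos _).le))
  rw [ENNReal.ofReal_mul (Real.exp_pos _).le,
    ofReal_integral_eq_lintegral_ofReal hint (Eventually.of_forall fun t => by
      have := N2_nonneg I ξ lam c t
      positivity), ← lintegral_const_mul' _ _ ENNReal.ofReal_ne_top]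
  refine le_trans ?_ (setLIntegral_le_lintegral s _)
  apply setLIntegral_mono' hms
  intro t ht
  rw [← ENNReal.ofReal_mul (Real.exp_pos _).le]
  apply ENNReal.ofReal_le_ofReal
  have h0 := N2_nonneg I ξ lam c t
  have h1 : 1 ≤ Real.exp Real.pi * Real.exp (-(Real.pi * (t - X) ^ 2 / L ^ 2)) := by
    rw [← Real.exp_add]
    apply Real.one_le_exp
    have h2 : (t - X) ^ 2 ≤ L ^ 2 := by
      have := hs t ht
      rw [← sq_abs]
      gcongr
    have h3 : Real.pi * (t - X) ^ 2 / L ^ 2 ≤ Real.pi := by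
      rw [div_le_iff₀ (by positivity)]
      have := Real.pi_pos
      gcongr
    linarith
  calc N2 I ξ lam c t = 1 * N2 I ξ lam c t := (one_mul _).symm
    _ ≤ (Real.exp Real.pi * Real.exp (-(Real.pi * (t - X) ^ 2 / L ^ 2))) * N2 I ξ lam c t := by gcongr
    _ = _ := by ring

lemma fw_nonneg (N : ℕ) (l : ℤ × ℤ) : 0 ≤ fw N l := by unfold fw; positivity

lemma fw_le_one (N : ℕ) (l : ℤ × ℤ) : fw N l ≤ 1 := by
  unfold fw
  have h : ∀ x : ℝ, max 0 (1 - |x| / N) ≤ 1 := by
    intro x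
    apply max_le (by norm_num)
    have : 0 ≤ |x| / N := by positivity
    linarith
  calc max 0 (1 - |(l.1:ℝ)| / N) * max 0 (1 - |(l.2:ℝ)| / N) ≤ 1 * 1 := by
        gcongr
        · exact h _
        · exact h _
    _ = 1 := one_mul 1

lemma cw_le {K : ℕ} (hK : 1 ≤ K) {B : Finset (ℤ × ℤ)} (hB : B ⊆ An K) {b : ℤ × ℤ → ℝ} (hb : ∀ k ∈ B, |b k| ≤ 1)
    {k : ℤ × ℤ} (hk : k ∈ B) : |cw (1 / K) b k| ≤ Real.exp (4 * Real.pi) := by
  unfold cw
  have h1 := (mem_An.mp (hB hk)).2
  have hK0 : (0:ℝ) < K := by exact_mod_cast hK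
  have hpi := Real.pi_pos
  rw [abs_mul, abs_of_pos (Real.exp_pos _)]
  calc |b k| * Real.exp (2 * Real.pi * (1 / K) * nz k) ≤ 1 * Real.exp (2 * Real.pi * (1 / K) * (2 * K)) := by
        gcongr
        exact hb k hk
    _ = Real.exp (4 * Real.pi) := by
        rw [one_mul]; congr 1; field_simp; ring

/-- the mean of the off-diagonal energy -/
lemma off_mean {K N : ℕ} (hK : 1 ≤ K) {B : Finset (ℤ × ℤ)} (hB : B ⊆ An K) {b : ℤ × ℤ → ℝ} (hb : ∀ k ∈ B, |b k| ≤ 1)
    {L : ℝ} (hL : 0 < L) (X : ℝ) {s : Set ℝ} (hs : ∀ t ∈ s, |t - X| ≤ L) (hms : MeasurableSet s) {E : ℝ}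
    (hE : EG (IL N B) (fun y => y.1) (fun y => lv y.1 y.2) L ≤ E) :
    ∫⁻ t in s, ENNReal.ofReal (∫ a in Q, ‖off N B (cw (1 / K) b) a t‖ ^ 2) ≤
      ENNReal.ofReal (Real.exp Real.pi * Real.exp (4 * Real.pi) ^ 4 * (L * E)) := by
  have h1 : ∀ t, ∫ a in Q, ‖off N B (cw (1 / K) b) a t‖ ^ 2 =
      N2 (IL N B) (fun x => x.1) (fun x => lv x.1 x.2) (fun x => fw N x.1 * (cw (1 / K) b (x.2 + x.1) * cw (1 / K) b x.2)) t := by
    intro t
    exact int_G_sq _ _ _ _ _
  simp_rw [h1]
  refine (lint_N2_le hL X (IL N B) _ _ _ (κ := Real.exp (4 * Real.pi) ^ 2) ?_ hs hms).trans ?_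
  · intro x hx
    unfold IL at hx
    rw [Finset.mem_filter, Finset.mem_product] at hx
    rw [abs_mul, abs_mul, abs_of_nonneg (fw_nonneg _ _)]
    have k1 := cw_le hK hB hb hx.2
    have k2 := cw_le hK hB hb hx.1.2
    have k3 := fw_le_one N x.1
    have k4 := fw_nonneg N x.1
    calc fw N x.1 * (|cw (1 / K) b (x.2 + x.1)| * |cw (1 / K) b x.2|)
        ≤ 1 * (Real.exp (4 * Real.pi) * Real.exp (4 * Real.pi)) := by gcongr
      _ = _ := by ring
  · apply ENNReal.ofReal_le_ofReal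
    have hE0 := (EG_nonneg (IL N B) (fun y => y.1) (fun y => lv y.1 y.2) L)
    calc Real.exp Real.pi * (L * (Real.exp (4 * Real.pi) ^ 2) ^ 2 * EG (IL N B) (fun x => x.1) (fun x => lv x.1 x.2) L)
        ≤ Real.exp Real.pi * (L * (Real.exp (4 * Real.pi) ^ 2) ^ 2 * E) := by gcongr
      _ = _ := by ring

end Pool.Agent.H593.U
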