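import Mathlib
import Pool.Agent.H593.U7.Stm

/-!
# The limit law for Lipschitz functionals of the discrepancy
-/

open MeasureTheory Set Filter Topology
open Pool.Agent.H383.Gauss
open scoped ENNReal

namespace Pool.Agent.H593.U

namespace FL

/-- the trigonometric polynomial with free phases -/
noncomputable def TP (B : Finset (ℤ × ℤ)) (θ : B → ℝ) (a : ℝ × ℝ) : ℝ :=
  ∑ k : B, bw 0 (k : ℤ × ℤ) * Real.sin (2 * Real.pi * θ k - Real.pi/4) * Real.cos (2 * Real.pi * dp (k : ℤ × ℤ) a)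

lemma Va_eq_TP (R : ℝ) (K : ℕ) (a : ℝ × ℝ) : Va R 0 K a = TP (B0 K) (fun k => R * nz k) a := by
  unfold Va TP B0
  exact (Finset.sum_coe_sort ((ballS (K:ℝ)).erase 0) (fun p => bw 0 p *
    Real.sin (2 * Real.pi * (R * nz p) - Real.pi/4) * Real.cos (2 * Real.pi * dp p a))).symm

lemma TP_periodic (B : Finset (ℤ × ℤ)) (θ : B → ℝ) (n : B → ℤ) (a : ℝ × ℝ) :
    TP B (fun i => θ i + n i) a = TP B θ a := by
  unfold TP
  apply Finset.sum_congr rfl
  intro k _
  congr 2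
  rw [show 2 * Real.pi * (θ k + n k) - Real.pi/4 = 2 * Real.pi * θ k - Real.pi/4 + (n k) * (2 * Real.pi) by ring,
    Real.sin_add_int_mul_two_pi]

lemma TP_lip (B : Finset (ℤ × ℤ)) : ∃ C : ℝ, 0 < C ∧ ∀ (θ θ' : B → ℝ) (a : ℝ × ℝ), |TP B θ a - TP B θ' a| ≤ C * dist θ θ' := by
  refine ⟨∑ k : B, |bw 0 (k : ℤ × ℤ)| * (2 * Real.pi) + 1, by positivity, ?_⟩
  intro θ θ' a
  unfold TP
  rw [← Finset.sum_sub_distrib]
  have h1 : ∀ k : B, |bw 0 (k : ℤ × ℤ) * Real.sin (2 * Real.pi * θ k - Real.pi/4) * Real.cos (2 * Real.pi * dp (k : ℤ × ℤ) a) -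
      bw 0 (k : ℤ × ℤ) * Real.sin (2 * Real.pi * θ' k - Real.pi/4) * Real.cos (2 * Real.pi * dp (k : ℤ × ℤ) a)| ≤
      |bw 0 (k : ℤ × ℤ)| * (2 * Real.pi) * dist θ θ' := by
    intro k
    rw [← sub_mul, ← mul_sub, abs_mul, abs_mul]
    have k1 : |Real.sin (2 * Real.pi * θ k - Real.pi/4) - Real.sin (2 * Real.pi * θ' k - Real.pi/4)| ≤
        2 * Real.pi * dist θ θ' := by
      refine (Real.abs_sin_sub_sin_le _ _).trans ?_
      have : 2 * Real.pi * θ k - Real.pi/4 - (2 * Real.pi * θ' k - Real.pi/4) = 2 * Real.pi * (θ k - θ' k) := by ring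
      rw [this, abs_mul, abs_of_pos (by positivity)]
      gcongr
      rw [← Real.dist_eq]
      exact dist_le_pi_dist θ θ' k
    have k2 := Real.abs_cos_le_one (2 * Real.pi * dp (k : ℤ × ℤ) a)
    calc |bw 0 (k : ℤ × ℤ)| * |Real.sin (2 * Real.pi * θ k - Real.pi/4) - Real.sin (2 * Real.pi * θ' k - Real.pi/4)| *
          |Real.cos (2 * Real.pi * dp (k : ℤ × ℤ) a)|
        ≤ |bw 0 (k : ℤ × ℤ)| * (2 * Real.pi * dist θ θ') * 1 := by gcongr
      _ = _ := by ring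
  calc _ ≤ ∑ k : B, |bw 0 (k : ℤ × ℤ)| * (2 * Real.pi) * dist θ θ' :=
        (Finset.abs_sum_le_sum_abs _ _).trans (Finset.sum_le_sum fun k _ => h1 k)
    _ = (∑ k : B, |bw 0 (k : ℤ × ℤ)| * (2 * Real.pi)) * dist θ θ' := by rw [Finset.sum_mul]
    _ ≤ _ := by
        gcongr
        linarith

lemma TP_bdd (B : Finset (ℤ × ℤ)) : ∃ C : ℝ, 0 < C ∧ ∀ (θ : B → ℝ) (a : ℝ × ℝ), |TP B θ a| ≤ C := by
  refine ⟨∑ k : B, |bw 0 (k : ℤ × ℤ)| + 1, by positivity, ?_⟩
  intro θ a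
  unfold TP
  calc _ ≤ ∑ k : B, |bw 0 (k : ℤ × ℤ) * Real.sin (2 * Real.pi * θ k - Real.pi/4) * Real.cos (2 * Real.pi * dp (k : ℤ × ℤ) a)| :=
        Finset.abs_sum_le_sum_abs _ _
    _ ≤ ∑ k : B, |bw 0 (k : ℤ × ℤ)| := by
        apply Finset.sum_le_sum
        intro k _
        rw [abs_mul, abs_mul]
        calc _ ≤ |bw 0 (k : ℤ × ℤ)| * 1 * 1 := by
              gcongr
              · exact Real.abs_sin_le_one _
              · exact Real.abs_cos_le_one _
          _ = _ := by ring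
    _ ≤ _ := by linarith

/-- the class of functionals: Lipschitz in the uniform distance -/
def Lip {n : ℕ} (L : ℝ) (Φ : Fin n → ((ℝ × ℝ → ℝ) → ℝ)) : Prop :=
  ∀ (i : Fin n) (f g : ℝ × ℝ → ℝ) (D : ℝ), (∀ a, |f a - g a| ≤ D) → |Φ i f - Φ i g| ≤ L * D

lemma Lip_dist {n : ℕ} {L : ℝ} (hL : 0 ≤ L) {Φ : Fin n → ((ℝ × ℝ → ℝ) → ℝ)} (h : Lip L Φ) {f g : ℝ × ℝ → ℝ} {D : ℝ} (hD : 0 ≤ D)
    (hfg : ∀ a, |f a - g a| ≤ D) : dist (fun i => Φ i f) (fun i => Φ i g) ≤ L * D := by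
  rw [dist_pi_le_iff (by positivity)]
  intro i
  rw [Real.dist_eq]
  exact h i f g D hfg

lemma law_ofReal {n : ℕ} {L : ℝ} (hL : 0 < L) {Φ : Fin n → ((ℝ × ℝ → ℝ) → ℝ)} (h : Lip L Φ) (f g : ℝ × ℝ → ℝ) :
    ENNReal.ofReal ‖(fun i => Φ i f) - (fun i => Φ i g)‖ ≤ ENNReal.ofReal L * ⨆ a, ENNReal.ofReal |f a - g a| := by
  set s := ⨆ a, ENNReal.ofReal |f a - g a| with hs
  by_cases hfin : s = ⊤
  · rw [hfin, ENNReal.mul_top (by simpa using hL)]
    exact le_top
  · have h1 : ∀ a, |f a - g a| ≤ s.toReal := by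
      intro a
      have : ENNReal.ofReal |f a - g a| ≤ s := le_iSup (fun a => ENNReal.ofReal |f a - g a|) a
      rwa [ENNReal.ofReal_le_iff_le_toReal hfin] at this
    have h2 := Lip_dist hL.le h ENNReal.toReal_nonneg h1
    rw [← ENNReal.ofReal_toReal hfin, ← ENNReal.ofReal_mul hL.le, ← dist_eq_norm]
    exact ENNReal.ofReal_le_ofReal h2

end FL

open FL in
/-- the limit law for Lipschitz functionals -/
theorem fun_law (hAP : S_AP) (hTOR : S_TOR) (hL1 : S_LAW1) (hL2 : S_LAW2) (n : ℕ) (L : ℝ)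
    (Φ : Fin n → ((ℝ × ℝ → ℝ) → ℝ)) (hΦ : Lip L Φ)
    (hm : AEMeasurable (fun (R : ℝ) (i : Fin n) => Φ i (fun a => Pa a R / √R)) (volume.restrict (Ici 1))) :
    ∃ μ : Measure (Fin n → ℝ), IsProbabilityMeasure μ ∧ ∀ p : ℝ, 1 ≤ p → p < 6 → ∃ c : ℝ, 0 < c ∧ c < 1 ∧
      ∀ f : (Fin n → ℝ) → ℝ, Continuous f → (∃ C : ℝ, ∀ x, |f x| ≤ C * (1 + ‖x‖ ^ p)) →
      Integrable f μ ∧ ∀ ε : ℝ, 0 < ε → ∃ X0 : ℝ, ∀ X H : ℝ, X0 ≤ X → X ^ (1 - c) ≤ H → H ≤ X →
      |avg X H (fun R => f (fun i => Φ i (fun a => Pa a R / √R))) - ∫ x, f x ∂μ| ≤ ε := by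
  -- replace L by max L 1
  wlog hL : 1 ≤ L generalizing L with hw
  · refine hw (max L 1) ?_ (le_max_right _ _)
    intro i f g D hD
    have h0 : 0 ≤ D := (abs_nonneg _).trans (hD 0)
    exact (hΦ i f g D hD).trans (mul_le_mul_of_nonneg_right (le_max_left _ _) h0)
  have hL0 : 0 < L := by linarith
  set M : ℝ → Fin n → ℝ := fun R i => Φ i (fun a => Pa a R / √R) with hM
  set A : ℕ → ℝ → Fin n → ℝ := fun K R i => Φ i (fun a => Va R 0 K a) with hA
  have hAT : ∀ K R, A K R = fun i => Φ i (TP (B0 K) (fun k => R * nz k)) := by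
    intro K R
    funext i
    simp only [hA]
    congr 1
    funext a
    exact Va_eq_TP R K a
  -- continuity of the functional of the trigonometric polynomial in the phases
  have hcont : ∀ K, Continuous (fun θ : (B0 K) → ℝ => (fun i => Φ i (TP (B0 K) θ))) := by
    intro K
    obtain ⟨C, hC, h1⟩ := TP_lip (B0 K)
    have : LipschitzWith (Real.toNNReal (L * C)) (fun θ : (B0 K) → ℝ => (fun i => Φ i (TP (B0 K) θ))) := by
      apply LipschitzWith.of_dist_le_mul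
      intro θ θ'
      rw [Real.coe_toNNReal _ (by positivity)]
      have := Lip_dist hL0.le hΦ (f := TP (B0 K) θ) (g := TP (B0 K) θ') (D := C * dist θ θ') (by positivity)
        (fun a => h1 θ θ' a)
      calc _ ≤ L * (C * dist θ θ') := this
        _ = _ := by ring
    exact this.continuous
  have hAc : ∀ K, Continuous (A K) := by
    intro K
    have : A K = (fun θ : (B0 K) → ℝ => (fun i => Φ i (TP (B0 K) θ))) ∘ (fun R : ℝ => fun k : B0 K => R * nz k) := by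
      funext R
      rw [hAT]; rfl
    rw [this]
    exact (hcont K).comp (by fun_prop)
  have hAb : ∀ K, ∃ D : ℝ, ∀ t, ‖A K t‖ ≤ D := by
    intro K
    obtain ⟨C, hC, h1⟩ := TP_bdd (B0 K)
    refine ⟨‖(fun i => Φ i 0 : Fin n → ℝ)‖ + L * C, ?_⟩
    intro t
    rw [hAT]
    have := Lip_dist hL0.le hΦ (f := TP (B0 K) (fun k => t * nz k)) (g := 0) (D := C) hC.le
      (fun a => by rw [Pi.zero_apply, sub_zero]; exact h1 _ a)
    rw [dist_eq_norm] at this
    calc ‖(fun i => Φ i (TP (B0 K) (fun k => t * nz k)) : Fin n → ℝ)‖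
        = ‖((fun i => Φ i (TP (B0 K) (fun k => t * nz k)) : Fin n → ℝ) - fun i => Φ i 0) + fun i => Φ i 0‖ := by
          rw [sub_add_cancel]
      _ ≤ _ := by
          refine (norm_add_le _ _).trans ?_
          linarith
  have hAm : ∀ (K : ℕ) (g : (Fin n → ℝ) → ℝ), Continuous g → HasMean (fun t => g (A K t)) := by
    intro K g hg
    have h1 := hTOR (B0 K) (fun k => nz k) (fun θ => g (fun i => Φ i (TP (B0 K) θ))) (hg.comp (hcont K)) (by
      intro θ m
      have : TP (B0 K) (fun i => θ i + m i) = TP (B0 K) θ := by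
        funext a; exact TP_periodic _ _ _ _
      simp only [this])
    have e : (fun t => g (A K t)) = (fun t : ℝ => g (fun i => Φ i (TP (B0 K) (fun k => t * nz k)))) := by
      funext t; rw [hAT]
    rw [e]
    exact h1
  have hMA : ∀ K R, ENNReal.ofReal ‖M R - A K R‖ ≤ ENNReal.ofReal L * ⨆ a, ENNReal.ofReal |Pa a R / √R - Va R 0 K a| := by
    intro K R
    exact law_ofReal hL0 hΦ (fun a => Pa a R / √R) (fun a => Va R 0 K a)
  obtain ⟨c1, hc1, hc1', hap1⟩ := hAP 1 le_rfl (by norm_num)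
  obtain ⟨μ, hμ, hμ2⟩ := hL1 n M A c1 hc1 hc1' hm hAc hAb hAm (by
    intro ε hε
    obtain ⟨K0, hK0⟩ := hap1 (ε / L) (by positivity)
    obtain ⟨X0, hX0⟩ := hK0 K0 le_rfl
    refine ⟨K0, max X0 1, ?_⟩
    intro X H hX h1 h2
    have hX1 : 1 ≤ X := (le_max_right _ _).trans hX
    have hH0 : 0 < H := lt_of_lt_of_le (by positivity) h1
    have h3 := hX0 X H ((le_max_left _ _).trans hX) h1 h2
    calc ∫⁻ t in Icc X (X + H), ENNReal.ofReal ‖M t - A K0 t‖
        ≤ ∫⁻ t in Icc X (X + H), ENNReal.ofReal L * (⨆ a, ENNReal.ofReal |Pa a t / √t - Va t 0 K0 a|) ^ (1:ℝ) := by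
          apply lintegral_mono
          intro t
          simp only [ENNReal.rpow_one]
          exact hMA K0 t
      _ = ENNReal.ofReal L * ∫⁻ t in Icc X (X + H), (⨆ a, ENNReal.ofReal |Pa a t / √t - Va t 0 K0 a|) ^ (1:ℝ) :=
          lintegral_const_mul' _ _ ENNReal.ofReal_ne_top
      _ ≤ ENNReal.ofReal L * ENNReal.ofReal (ε / L * H) := by gcongr
      _ = ENNReal.ofReal (ε * H) := by
          rw [← ENNReal.ofReal_mul hL0.le]; congr 1; field_simp)
  refine ⟨μ, hμ, ?_⟩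
  exact hL2 n M c1 μ hc1 hc1' hμ hm hμ2 (by
    intro q hq1 hq6
    obtain ⟨c, hc, hc', hapq⟩ := hAP q hq1 hq6
    obtain ⟨K, hK⟩ := hapq 1 one_pos
    obtain ⟨X0, hX0⟩ := hK K le_rfl
    obtain ⟨D, hD⟩ := hAb K
    have hD0 : 0 ≤ D := (norm_nonneg _).trans (hD 0)
    refine ⟨c, 2 ^ q * (L ^ q + D ^ q), max X0 1, hc, hc', by positivity, ?_⟩
    intro X H hX h1 h2
    have hX1 : 1 ≤ X := (le_max_right _ _).trans hX
    have hH0 : 0 < H := lt_of_lt_of_le (by positivity) h1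
    have h3 := hX0 X H ((le_max_left _ _).trans hX) h1 h2
    have hq0 : 0 ≤ q := by linarith
    have hpt : ∀ t, ENNReal.ofReal (‖M t‖ ^ q) ≤ ENNReal.ofReal (2 ^ q * L ^ q) *
        (⨆ a, ENNReal.ofReal |Pa a t / √t - Va t 0 K a|) ^ q + ENNReal.ofReal (2 ^ q * D ^ q) := by
      intro t
      have k1 : ‖M t‖ ≤ ‖M t - A K t‖ + D := by
        calc ‖M t‖ = ‖(M t - A K t) + A K t‖ := by rw [sub_add_cancel]
          _ ≤ ‖M t - A K t‖ + ‖A K t‖ := norm_add_le _ _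
          _ ≤ _ := by gcongr; exact hD t
      have k2 : ‖M t‖ ^ q ≤ 2 ^ q * ‖M t - A K t‖ ^ q + 2 ^ q * D ^ q := by
        have hn := norm_nonneg (M t - A K t)
        rcases le_total ‖M t - A K t‖ D with hh | hh
        · calc ‖M t‖ ^ q ≤ (2 * D) ^ q := by
                apply Real.rpow_le_rpow (norm_nonneg _) _ hq0
                linarith
            _ = 2 ^ q * D ^ q := Real.mul_rpow (by norm_num) hD0
            _ ≤ _ := by
                have : 0 ≤ 2 ^ q * ‖M t - A K t‖ ^ q := by positivity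
                linarith
        · calc ‖M t‖ ^ q ≤ (2 * ‖M t - A K t‖) ^ q := by
                apply Real.rpow_le_rpow (norm_nonneg _) _ hq0
                linarith
            _ = 2 ^ q * ‖M t - A K t‖ ^ q := Real.mul_rpow (by norm_num) hn
            _ ≤ _ := by
                have : 0 ≤ 2 ^ q * D ^ q := by positivity
                linarith
      refine (ENNReal.ofReal_le_ofReal k2).trans ?_
      rw [ENNReal.ofReal_add (by positivity) (by positivity)]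
      gcongr
      rw [ENNReal.ofReal_mul (by positivity), ENNReal.ofReal_mul (by positivity : (0:ℝ) ≤ 2 ^ q), mul_assoc]
      gcongr
      rw [← ENNReal.ofReal_rpow_of_nonneg (norm_nonneg _) hq0, ← ENNReal.ofReal_rpow_of_nonneg hL0.le hq0,
        ← ENNReal.mul_rpow_of_nonneg _ _ hq0]
      gcongr
      exact hMA K t
    calc ∫⁻ t in Icc X (X + H), ENNReal.ofReal (‖M t‖ ^ q)
        ≤ ∫⁻ t in Icc X (X + H), (ENNReal.ofReal (2 ^ q * L ^ q) *
          (⨆ a, ENNReal.ofReal |Pa a t / √t - Va t 0 K a|) ^ q + ENNReal.ofReal (2 ^ q * D ^ q)) := lintegral_mono hpt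
      _ = ENNReal.ofReal (2 ^ q * L ^ q) * (∫⁻ t in Icc X (X + H), (⨆ a, ENNReal.ofReal |Pa a t / √t - Va t 0 K a|) ^ q) +
          ENNReal.ofReal (2 ^ q * D ^ q) * ENNReal.ofReal H := by
          rw [lintegral_add_right _ measurable_const, lintegral_const_mul' _ _ ENNReal.ofReal_ne_top, lintegral_const,
            Measure.restrict_apply_univ, Real.volume_Icc, show X + H - X = H by ring]
      _ ≤ ENNReal.ofReal (2 ^ q * L ^ q) * ENNReal.ofReal (1 * H) + ENNReal.ofReal (2 ^ q * D ^ q) * ENNReal.ofReal H := by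
          gcongr
      _ = _ := by
          rw [← ENNReal.ofReal_mul (by positivity), ← ENNReal.ofReal_mul (by positivity),
            ← ENNReal.ofReal_add (by positivity) (by positivity)]
          congr 1; ring)

end Pool.Agent.H593.U
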