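import Mathlib
import Pool.Agent.H593.U7.FL

/-!
# Moments of the maximal discrepancy
-/

open MeasureTheory Set Filter Topology
open Pool.Agent.H383.Gauss
open scoped ENNReal

namespace Pool.Agent.H593.U

/-- the maximal discrepancy over all centres -/
noncomputable def MX (R : ℝ) : ℝ := ⨆ a : ℝ × ℝ, |Pa a R / √R|

namespace MOM

/-- the two functionals -/
noncomputable def Ph (i : Fin 2) (f : ℝ × ℝ → ℝ) : ℝ :=
  ⨆ a : (univ : Set (ℝ × ℝ)), (if i = 0 then (1:ℝ) else -1) * f (a : ℝ × ℝ)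

lemma Ph_lip (hs : S_SUP) : FL.Lip 1 Ph := by
  intro i f g D hD
  rw [one_mul]
  unfold Ph
  refine (hs univ univ_nonempty (if i = 0 then (1:ℝ) else -1) ?_).2 f g D hD
  by_cases h : i = 0 <;> simp [h]

lemma Ph_meas (hs : S_SUP) (i : Fin 2) : Measurable (fun R : ℝ => Ph i (fun a => Pa a R / √R)) := by
  unfold Ph
  refine (hs univ univ_nonempty (if i = 0 then (1:ℝ) else -1) ?_).1
  by_cases h : i = 0 <;> simp [h]

lemma bdd (C : ℝ) (R : ℝ) (f : ℝ × ℝ → ℝ) (h : ∀ a, |f a| ≤ C) : (⨆ a, |f a|) = |max (Ph 0 f) (Ph 1 f)| := by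
  have b1 : BddAbove (range fun a => |f a|) := ⟨C, by rintro _ ⟨a, rfl⟩; exact h a⟩
  have b2 : BddAbove (range fun a : (univ : Set (ℝ × ℝ)) => (1:ℝ) * f (a : ℝ × ℝ)) :=
    ⟨C, by rintro _ ⟨a, rfl⟩; simpa using (le_abs_self _).trans (h a)⟩
  have b3 : BddAbove (range fun a : (univ : Set (ℝ × ℝ)) => (-1:ℝ) * f (a : ℝ × ℝ)) :=
    ⟨C, by
      rintro _ ⟨a, rfl⟩
      have k1 := neg_le_abs (f (a : ℝ × ℝ))
      have k2 := h (a : ℝ × ℝ)
      show (-1:ℝ) * f (a : ℝ × ℝ) ≤ C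
      linarith⟩
  have e0 : Ph 0 f = ⨆ a : (univ : Set (ℝ × ℝ)), (1:ℝ) * f (a : ℝ × ℝ) := by simp [Ph]
  have e1 : Ph 1 f = ⨆ a : (univ : Set (ℝ × ℝ)), (-1:ℝ) * f (a : ℝ × ℝ) := by simp [Ph]
  have g0 : ∀ a, f a ≤ Ph 0 f := by
    intro a
    rw [e0]
    have := le_ciSup b2 ⟨a, mem_univ a⟩
    simpa using this
  have g1 : ∀ a, -f a ≤ Ph 1 f := by
    intro a
    rw [e1]
    have := le_ciSup b3 ⟨a, mem_univ a⟩
    simpa using this
  have hmax : 0 ≤ max (Ph 0 f) (Ph 1 f) := by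
    rcases le_total 0 (f 0) with h0 | h0
    · exact (h0.trans (g0 0)).trans (le_max_left _ _)
    · exact ((by linarith : 0 ≤ -f 0).trans (g1 0)).trans (le_max_right _ _)
  rw [abs_of_nonneg hmax]
  apply le_antisymm
  · apply ciSup_le
    intro a
    rw [abs_le]
    constructor
    · have := g1 a
      have h2 := le_max_right (Ph 0 f) (Ph 1 f)
      linarith
    · exact (g0 a).trans (le_max_left _ _)
  · apply max_le
    · rw [e0]
      have : Nonempty (univ : Set (ℝ × ℝ)) := ⟨⟨0, mem_univ _⟩⟩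
      apply ciSup_le
      intro a
      rw [one_mul]
      exact (le_abs_self _).trans (le_ciSup b1 (a : ℝ × ℝ))
    · rw [e1]
      have : Nonempty (univ : Set (ℝ × ℝ)) := ⟨⟨0, mem_univ _⟩⟩
      apply ciSup_le
      intro a
      have : -1 * f (a : ℝ × ℝ) = -f a := by ring
      rw [this]
      exact (neg_le_abs _).trans (le_ciSup b1 (a : ℝ × ℝ))

lemma bdd_F : ∃ C : ℝ, 0 < C ∧ ∀ (R : ℝ) (a : ℝ × ℝ), 1 ≤ R → |Pa a R / √R| ≤ C * R := by
  obtain ⟨C, hC, h⟩ := Pa_lin
  refine ⟨C, by linarith, ?_⟩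
  intro R a hR
  have h1 : 1 ≤ √R := Real.one_le_sqrt.mpr hR
  rw [abs_div, abs_of_pos (by linarith : (0:ℝ) < √R)]
  calc |Pa a R| / √R ≤ |Pa a R| / 1 := by gcongr
    _ ≤ C * R := by rw [div_one]; exact h a R hR

lemma MX_eq {R : ℝ} (hR : 1 ≤ R) : MX R = |max (Ph 0 (fun a => Pa a R / √R)) (Ph 1 (fun a => Pa a R / √R))| := by
  obtain ⟨C, hC, h⟩ := bdd_F
  exact bdd (C * R) R (fun a => Pa a R / √R) (fun a => h R a hR)

lemma ofReal_MX {R : ℝ} (hR : 1 ≤ R) : (⨆ a : ℝ × ℝ, ENNReal.ofReal |Pa a R / √R|) = ENNReal.ofReal (MX R) := by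
  obtain ⟨C, hC, h⟩ := bdd_F
  have b1 : BddAbove (range fun a : ℝ × ℝ => |Pa a R / √R|) := ⟨C * R, by rintro _ ⟨a, rfl⟩; exact h R a hR⟩
  apply le_antisymm
  · apply iSup_le
    intro a
    exact ENNReal.ofReal_le_ofReal (le_ciSup b1 a)
  · have hfin : (⨆ a : ℝ × ℝ, ENNReal.ofReal |Pa a R / √R|) ≠ ⊤ := by
      apply ne_top_of_le_ne_top (b := ENNReal.ofReal (C * R)) ENNReal.ofReal_ne_top
      apply iSup_le
      intro a
      exact ENNReal.ofReal_le_ofReal (h R a hR)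
    rw [ENNReal.ofReal_le_iff_le_toReal hfin]
    unfold MX
    apply ciSup_le
    intro a
    rw [← ENNReal.ofReal_le_iff_le_toReal hfin]
    exact le_iSup (fun a : ℝ × ℝ => ENNReal.ofReal |Pa a R / √R|) a

end MOM

open MOM in
/-- the mean values of the powers `p < 6` of the maximal discrepancy converge to positive limits -/
theorem moments (hAP : S_AP) (hTOR : S_TOR) (hL1 : S_LAW1) (hL2 : S_LAW2) (hs : S_SUP) (hpos : S_POS) :
    ∀ p : ℝ, 1 ≤ p → p < 6 → ∃ C c : ℝ, 0 < C ∧ 0 < c ∧ c < 1 ∧ ∀ ε : ℝ, 0 < ε → ∃ X0 : ℝ, ∀ X H : ℝ, X0 ≤ X →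
      X ^ (1 - c) ≤ H → H ≤ X → |avg X H (fun R => MX R ^ p) - C| ≤ ε := by
  have hmeas : Measurable (fun (R : ℝ) (i : Fin 2) => Ph i (fun a => Pa a R / √R)) :=
    measurable_pi_lambda _ (fun i => Ph_meas hs i)
  obtain ⟨μ, hμ, hlaw⟩ := fun_law hAP hTOR hL1 hL2 2 1 Ph (Ph_lip hs) hmeas.aemeasurable
  set f : ℝ → (Fin 2 → ℝ) → ℝ := fun p x => |max (x 0) (x 1)| ^ p with hf
  have hfc : ∀ p : ℝ, 1 ≤ p → Continuous (f p) := by
    intro p hp
    have h1 : Continuous (fun x : Fin 2 → ℝ => |max (x 0) (x 1)|) := by fun_prop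
    exact h1.rpow_const (fun x => Or.inr (by linarith))
  have hfb : ∀ p : ℝ, 1 ≤ p → ∃ C : ℝ, ∀ x, |f p x| ≤ C * (1 + ‖x‖ ^ p) := by
    intro p hp
    refine ⟨1, ?_⟩
    intro x
    have h1 : |max (x 0) (x 1)| ≤ ‖x‖ := by
      have k0 := norm_le_pi_norm x 0
      have k1 := norm_le_pi_norm x 1
      rw [Real.norm_eq_abs] at k0 k1
      rcases max_choice (x 0) (x 1) with h | h <;> rw [h]
      · exact k0
      · exact k1
    simp only [hf]
    rw [abs_of_nonneg (by positivity)]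
    have h2 : |max (x 0) (x 1)| ^ p ≤ ‖x‖ ^ p := Real.rpow_le_rpow (abs_nonneg _) h1 (by linarith)
    linarith
  have heq : ∀ (p X H : ℝ), 1 ≤ X → avg X H (fun R => f p (fun i => Ph i (fun a => Pa a R / √R))) = avg X H (fun R => MX R ^ p) := by
    intro p X H hX
    unfold avg
    congr 1
    apply setIntegral_congr_fun measurableSet_Icc
    intro R hR
    simp only [hf]
    rw [MX_eq (hX.trans hR.1)]
  have hf0 : ∀ p x, 0 ≤ f p x := fun p x => by simp only [hf]; positivity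
  -- positivity for p = 1
  obtain ⟨c1, hc1, hc1', hl1⟩ := hlaw 1 le_rfl (by norm_num)
  obtain ⟨hint1, hlim1⟩ := hl1 (f 1) (hfc 1 le_rfl) (hfb 1 le_rfl)
  have hpos1 : 0 < ∫ x, f 1 x ∂μ := by
    obtain ⟨c0, X0, c, hc0, hc, hc', hp⟩ := hpos
    by_contra hcon
    push Not at hcon
    obtain ⟨X1, hX1⟩ := hlim1 (c0 / 2) (by positivity)
    set X := max (max X0 X1) 1 with hX
    have hX01 : X0 ≤ X := (le_max_left _ _).trans (le_max_left _ _)
    have hX11 : X1 ≤ X := (le_max_right _ _).trans (le_max_left _ _)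
    have hXone : 1 ≤ X := le_max_right _ _
    have hX0 : 0 < X := by linarith
    have k1 := hp X X hX01 (Real.rpow_le_self_of_one_le hXone (by linarith)) le_rfl
    have k2 := hX1 X X hX11 (Real.rpow_le_self_of_one_le hXone (by linarith)) le_rfl
    rw [heq 1 X X hXone] at k2
    have hint : IntegrableOn (fun R => MX R) (Icc X (X + X)) := by
      obtain ⟨C, hC, hb⟩ := bdd_F
      have hm0 : AEStronglyMeasurable (fun R => MX R) (volume.restrict (Icc X (X + X))) := by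
        have : AEStronglyMeasurable (fun R => f 1 (fun i => Ph i (fun a => Pa a R / √R))) (volume.restrict (Icc X (X + X))) :=
          ((hfc 1 le_rfl).measurable.comp hmeas).aestronglyMeasurable
        refine this.congr ?_
        filter_upwards [ae_restrict_mem measurableSet_Icc] with R hR
        simp only [hf, Real.rpow_one]
        rw [MX_eq (hXone.trans hR.1)]
      refine Integrable.of_bound hm0 (C * (X + X)) ?_
      filter_upwards [ae_restrict_mem measurableSet_Icc] with R hR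
      have hR1 : 1 ≤ R := hXone.trans hR.1
      rw [Real.norm_eq_abs, MX_eq hR1, abs_abs, ← MX_eq hR1]
      unfold MX
      apply ciSup_le
      intro a
      refine (hb R a hR1).trans ?_
      gcongr
      exact hR.2
    have k3 : ∫⁻ R in Icc X (X + X), (⨆ a : ℝ × ℝ, ENNReal.ofReal |Pa a R / √R|) = ENNReal.ofReal (∫ R in Icc X (X + X), MX R) := by
      rw [ofReal_integral_eq_lintegral_ofReal hint]
      · apply setLIntegral_congr_fun measurableSet_Icc
        intro R hR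
        exact ofReal_MX (hXone.trans hR.1)
      · filter_upwards [ae_restrict_mem measurableSet_Icc] with R hR
        rw [Pi.zero_apply, MX_eq (hXone.trans hR.1)]
        positivity
    rw [k3] at k1
    have h0 : 0 ≤ ∫ R in Icc X (X + X), MX R := by
      apply setIntegral_nonneg measurableSet_Icc
      intro R hR
      rw [MX_eq (hXone.trans hR.1)]
      positivity
    rw [ENNReal.ofReal_le_ofReal_iff h0] at k1
    unfold avg at k2
    simp only [Real.rpow_one] at k2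
    have k4 : c0 ≤ (1 / X) * ∫ R in Icc X (X + X), MX R := by
      rw [one_div, inv_mul_eq_div, le_div_iff₀ hX0]
      exact k1
    have k5 := (abs_le.mp k2).2
    linarith
  intro p hp1 hp6
  obtain ⟨c, hc, hc', hl⟩ := hlaw p hp1 hp6
  obtain ⟨hint, hlim⟩ := hl (f p) (hfc p hp1) (hfb p hp1)
  refine ⟨∫ x, f p x ∂μ, c, ?_, hc, hc', ?_⟩
  · have h0 : 0 ≤ ∫ x, f p x ∂μ := integral_nonneg (fun x => hf0 p x)
    rcases h0.lt_or_eq with h | h
    · exact h
    · exfalso
      have h1 := (integral_eq_zero_iff_of_nonneg (fun x => hf0 p x) hint).mp h.symm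
      have h2 : (fun x => f 1 x) =ᵐ[μ] 0 := by
        filter_upwards [h1] with x hx
        simp only [hf, Pi.zero_apply] at hx ⊢
        rw [Real.rpow_eq_zero_iff_of_nonneg (abs_nonneg _)] at hx
        rw [hx.1, Real.rpow_one]
      have h3 : ∫ x, f 1 x ∂μ = 0 := by
        rw [integral_congr_ae h2]; simp
      linarith
  · intro ε hε
    obtain ⟨X0, hX0⟩ := hlim ε hε
    refine ⟨max X0 1, ?_⟩
    intro X H hX h1 h2
    rw [← heq p X H ((le_max_right _ _).trans hX)]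
    exact hX0 X H ((le_max_left _ _).trans hX) h1 h2

end Pool.Agent.H593.U
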