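import Mathlib
import Pool.Agent.H593.U7.Stm

/-!
# Task UL-AP (helper721 for helper593): almost periodicity, uniformly in the centre
-/

open MeasureTheory Set Filter Topology
open Pool.Agent.H383.Gauss
open scoped ENNReal

namespace Pool.Agent.H593.U.PAP

open Pool.Agent.H593.U

lemma shift (f : ℝ → ℝ≥0∞) (s X H : ℝ) (hs : |s| ≤ 1) :
    ∫⁻ R in Icc X (X + H), f (R + s) ≤ ∫⁻ t in Icc (X - 1) (X + H + 1), f t := by
  have h1 := abs_le.1 hs
  rw [← lintegral_indicator measurableSet_Icc, ← lintegral_indicator measurableSet_Icc,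
    ← lintegral_add_right_eq_self ((Icc (X - 1) (X + H + 1)).indicator f) s]
  refine lintegral_mono fun R => ?_
  by_cases hR : R ∈ Icc X (X + H)
  · rw [indicator_of_mem hR, indicator_of_mem]
    exact ⟨by linarith [hR.1], by linarith [hR.2]⟩
  · rw [indicator_of_notMem hR]
    exact zero_le

lemma rpow_three (x y z : ℝ≥0∞) (p : ℝ) (hp : 1 ≤ p) :
    (x + y + z) ^ p ≤ 3 ^ p * (x ^ p + y ^ p + z ^ p) := by
  have hp0 : 0 ≤ p := by linarith
  obtain ⟨m, hm⟩ : ∃ m, m = max (max x y) z := ⟨_, rfl⟩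
  have hx : x ≤ m := by rw [hm]; exact (le_max_left _ _).trans (le_max_left _ _)
  have hy : y ≤ m := by rw [hm]; exact (le_max_right _ _).trans (le_max_left _ _)
  have hz : z ≤ m := by rw [hm]; exact le_max_right _ _
  have h1 : x + y + z ≤ 3 * m := by
    calc x + y + z ≤ m + m + m := by gcongr
      _ = 3 * m := by ring
  have h2 : m ^ p ≤ x ^ p + y ^ p + z ^ p := by
    rcases max_choice (max x y) z with h | h
    · rcases max_choice x y with h' | h'
      · rw [hm, h, h', add_assoc]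
        exact le_self_add
      · rw [hm, h, h', add_right_comm]
        exact le_add_self
    · rw [hm, h]
      exact le_add_self
  calc (x + y + z) ^ p ≤ (3 * m) ^ p := ENNReal.rpow_le_rpow h1 hp0
    _ = 3 ^ p * m ^ p := ENNReal.mul_rpow_of_nonneg _ _ hp0
    _ ≤ _ := by gcongr

lemma filter_empty {Y j K : ℕ} (hK : K ≠ 0) (hj : j < Nat.log 2 K) :
    (sh Y j).filter (fun p => (K : ℝ) < nz p) = ∅ := by
  rw [Finset.filter_eq_empty_iff]
  intro p hp
  unfold sh at hp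
  rw [Finset.mem_filter] at hp
  have h1 := lt_lg p
  rw [hp.2] at h1
  have h2 : 2 ^ (j + 1) ≤ K :=
    (Nat.pow_le_pow_right (by norm_num) hj).trans (Nat.pow_log_le_self 2 hK)
  have h3 : (2 : ℝ) ^ (j + 1) ≤ K := by exact_mod_cast h2
  exact not_lt.2 (h1.le.trans h3)

lemma S_empty (b : ℤ × ℤ → ℝ) (a : ℝ × ℝ) (t : ℝ) : S ∅ b a t = 0 := by
  unfold S
  rw [Finset.sum_empty]

lemma sum_le (Y J K : ℕ) (hK : K ≠ 0) (δ : ℝ) (a : ℝ × ℝ) (t : ℝ) :
    ENNReal.ofReal (∑ j ∈ Finset.range J,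
      ‖S ((sh Y j).filter (fun p => (K : ℝ) < nz p)) (bw δ) a t‖) ≤
    ∑ j ∈ Finset.Ico (Nat.log 2 K) J, sS ((sh Y j).filter (fun p => (K : ℝ) < nz p)) (bw δ) t := by
  have h1 : ∑ j ∈ Finset.range J, ‖S ((sh Y j).filter (fun p => (K : ℝ) < nz p)) (bw δ) a t‖ =
      ∑ j ∈ Finset.Ico (Nat.log 2 K) J,
        ‖S ((sh Y j).filter (fun p => (K : ℝ) < nz p)) (bw δ) a t‖ := by
    symm
    apply Finset.sum_subset
    · intro j hj
      rw [Finset.mem_Ico] at hj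
      exact Finset.mem_range.2 hj.2
    · intro j hj hj2
      rw [Finset.mem_range] at hj
      have h2 : j < Nat.log 2 K := by
        by_contra h3
        exact hj2 (Finset.mem_Ico.2 ⟨by omega, hj⟩)
      rw [filter_empty hK h2, S_empty, norm_zero]
  rw [h1, ENNReal.ofReal_sum_of_nonneg fun j _ => norm_nonneg _]
  exact Finset.sum_le_sum fun j _ => le_sS _ _ _ _

end Pool.Agent.H593.U.PAP

namespace Pool.Agent.H593.U

open PAP

theorem ap (h1 : S_TAIL) (h2 : S_CMP) : S_AP := by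
  intro p hp hp6
  obtain ⟨c, η, q, C, hc0, hc1, hη0, hη, hq0, hq1, hC, htail⟩ := h1 p hp hp6
  refine ⟨c, hc0, hc1, ?_⟩
  intro ε hε
  have hp0 : 0 < p := by linarith
  have h3p : (0 : ℝ) < 3 ^ p := Real.rpow_pos_of_pos (by norm_num) _
  have h2p : (0 : ℝ) < 2 ^ p := Real.rpow_pos_of_pos (by norm_num) _
  -- the constants
  obtain ⟨e, he0, he⟩ : ∃ e : ℝ, 0 < e ∧ 3 ^ p * e ^ p = ε / 2 := by
    refine ⟨(ε / 2 / 3 ^ p) ^ (1 / p), Real.rpow_pos_of_pos (by positivity) _, ?_⟩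
    rw [← Real.rpow_mul (by positivity), one_div, inv_mul_cancel₀ hp0.ne', Real.rpow_one]
    field_simp
  obtain ⟨n₁, hn₁⟩ : ∃ n : ℕ, q ^ n < ε / (4 * (3 ^ p * 2 ^ p * C)) :=
    exists_pow_lt_of_lt_one (by positivity) hq1
  refine ⟨2 ^ n₁, ?_⟩
  intro K hK
  have hK0 : K ≠ 0 := by
    have : 0 < 2 ^ n₁ := by positivity
    omega
  have hlog : n₁ ≤ Nat.log 2 K := Nat.le_log_of_pow_le (by norm_num) hK
  obtain ⟨X0, hX0, hcmp⟩ := h2 η hη0 hη K e he0
  refine ⟨X0, ?_⟩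
  intro X H hX hXH hHX
  have hX1 : 1 ≤ X := hX0.trans hX
  have hH0 : 0 < H := lt_of_lt_of_le (Real.rpow_pos_of_pos (by linarith) _) hXH
  obtain ⟨δ, hδ⟩ : ∃ δ, δ = X ^ (-(1/2) - η) := ⟨_, rfl⟩
  have hδ0 : 0 < δ := by rw [hδ]; exact Real.rpow_pos_of_pos (by linarith) _
  have hδ1 : δ ≤ 1 := by
    rw [hδ]
    exact Real.rpow_le_one_of_one_le_of_nonpos hX1 (by linarith)
  obtain ⟨Y, hY⟩ : ∃ Y, Y = ⌈(4 * X) ^ 3⌉₊ := ⟨_, rfl⟩
  have hYJ : Y < 2 ^ Y := Nat.lt_two_pow_self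
  obtain ⟨B, hB⟩ : ∃ B : ℕ → Finset (ℤ × ℤ), B = fun j =>
      (sh Y j).filter (fun p => (K : ℝ) < nz p) := ⟨_, rfl⟩
  obtain ⟨F, hF⟩ : ∃ F : ℝ → ℝ≥0∞, F = fun t =>
      ∑ j ∈ Finset.Ico (Nat.log 2 K) Y, sS (B j) (bw δ) t := ⟨_, rfl⟩
  have hFm : Measurable F := by
    rw [hF]
    exact Finset.measurable_sum _ fun j _ => measurable_sS _ _
  have hFint : ∫⁻ t in Icc (X - 1) (X + H + 1), F t ^ p ≤
      ENNReal.ofReal (C * (H * q ^ (Nat.log 2 K))) := by
    have h3 := htail X H Y (Nat.log 2 K) Y B hX1 hXH hHX (fun j => by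
      rw [hB]
      exact Finset.filter_subset _ _)
    rw [← hδ] at h3
    rw [hF]
    exact h3
  -- pointwise bound
  have hpt : ∀ R ∈ Icc X (X + H), (⨆ a : ℝ × ℝ, ENNReal.ofReal |Pa a R / √R - Va R 0 K a|) ^ p ≤
      3 ^ p * (ENNReal.ofReal e ^ p + (2 * F (R + δ)) ^ p + (2 * F (R + (-δ))) ^ p) := by
    intro R hR
    refine le_trans (ENNReal.rpow_le_rpow ?_ hp0.le) (rpow_three _ _ _ p hp)
    refine iSup_le fun a => ?_
    have h3 := hcmp X R a Y hX hR.1 (by linarith [hR.2]) (by rw [← hY]; exact hYJ)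
    rw [← hY, ← hδ] at h3
    refine (ENNReal.ofReal_le_ofReal h3).trans ?_
    have h4 : ∀ t : ℝ, ENNReal.ofReal (2 * ∑ j ∈ Finset.range Y,
        ‖S ((sh Y j).filter (fun p => (K : ℝ) < nz p)) (bw δ) a t‖) ≤ 2 * F t := by
      intro t
      rw [ENNReal.ofReal_mul (by norm_num), ENNReal.ofReal_ofNat, hF, hB]
      exact mul_le_mul_of_nonneg_left (sum_le Y Y K hK0 δ a t) zero_le
    refine (ENNReal.ofReal_add_le).trans (add_le_add ((ENNReal.ofReal_add_le).trans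
      (add_le_add le_rfl (h4 _))) ?_)
    rw [← sub_eq_add_neg]
    exact h4 _
  have hm1 : ∀ s : ℝ, Measurable fun R : ℝ => (2 * F (R + s)) ^ p := fun s =>
    ((hFm.comp (measurable_add_const s)).const_mul 2).pow_const p
  have hsh : ∀ s : ℝ, |s| ≤ 1 → ∫⁻ R in Icc X (X + H), (2 * F (R + s)) ^ p ≤
      2 ^ p * ENNReal.ofReal (C * (H * q ^ (Nat.log 2 K))) := by
    intro s hs
    refine (shift (fun t => (2 * F t) ^ p) s X H hs).trans ?_
    have h3 : ∀ t, (2 * F t) ^ p = 2 ^ p * F t ^ p := fun t =>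
      ENNReal.mul_rpow_of_nonneg _ _ hp0.le
    simp only [h3]
    rw [lintegral_const_mul _ (hFm.pow_const p)]
    exact mul_le_mul_of_nonneg_left hFint zero_le
  have hδa : |δ| ≤ 1 := by rw [abs_of_pos hδ0]; exact hδ1
  refine (setLIntegral_mono' measurableSet_Icc hpt).trans ?_
  have hm2 : Measurable fun R : ℝ => ENNReal.ofReal e ^ p + (2 * F (R + δ)) ^ p :=
    measurable_const.add (hm1 δ)
  have hm3 : Measurable fun R : ℝ => ENNReal.ofReal e ^ p + (2 * F (R + δ)) ^ p +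
      (2 * F (R + (-δ))) ^ p := hm2.add (hm1 (-δ))
  rw [lintegral_const_mul _ hm3, lintegral_add_left hm2, lintegral_add_left measurable_const,
    setLIntegral_const, Real.volume_Icc]
  have hvol : X + H - X = H := by ring
  rw [hvol]
  have h3 : (3 : ℝ≥0∞) ^ p = ENNReal.ofReal (3 ^ p) := by
    rw [← ENNReal.ofReal_rpow_of_pos (by norm_num), ENNReal.ofReal_ofNat]
  have h4 : (2 : ℝ≥0∞) ^ p = ENNReal.ofReal (2 ^ p) := by
    rw [← ENNReal.ofReal_rpow_of_pos (by norm_num), ENNReal.ofReal_ofNat]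
  have h5 : ENNReal.ofReal e ^ p = ENNReal.ofReal (e ^ p) :=
    ENNReal.ofReal_rpow_of_pos he0
  have hep : 0 < e ^ p := Real.rpow_pos_of_pos he0 _
  have hqJ : 0 < q ^ (Nat.log 2 K) := pow_pos hq0 _
  calc (3 : ℝ≥0∞) ^ p * (ENNReal.ofReal e ^ p * ENNReal.ofReal H +
        (∫⁻ R in Icc X (X + H), (2 * F (R + δ)) ^ p) +
        (∫⁻ R in Icc X (X + H), (2 * F (R + (-δ))) ^ p)) ≤
      (3 : ℝ≥0∞) ^ p * (ENNReal.ofReal e ^ p * ENNReal.ofReal H +
        2 ^ p * ENNReal.ofReal (C * (H * q ^ (Nat.log 2 K))) +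
        2 ^ p * ENNReal.ofReal (C * (H * q ^ (Nat.log 2 K)))) := by
        refine mul_le_mul_of_nonneg_left (add_le_add (add_le_add le_rfl (hsh δ hδa))
          (hsh (-δ) (by rw [abs_neg]; exact hδa))) zero_le
    _ = ENNReal.ofReal (3 ^ p * (e ^ p * H + 2 ^ p * (C * (H * q ^ (Nat.log 2 K))) +
        2 ^ p * (C * (H * q ^ (Nat.log 2 K))))) := by
        rw [h3, h4, h5, ← ENNReal.ofReal_mul hep.le, ← ENNReal.ofReal_mul h2p.le,
          ← ENNReal.ofReal_add (by positivity) (by positivity),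
          ← ENNReal.ofReal_add (by positivity) (by positivity), ← ENNReal.ofReal_mul h3p.le]
    _ ≤ ENNReal.ofReal (ε * H) := by
        apply ENNReal.ofReal_le_ofReal
        have h6 : q ^ (Nat.log 2 K) ≤ q ^ n₁ := pow_le_pow_of_le_one hq0.le hq1.le hlog
        have h7 : q ^ (Nat.log 2 K) ≤ ε / (4 * (3 ^ p * 2 ^ p * C)) := h6.trans hn₁.le
        rw [le_div_iff₀ (by positivity)] at h7
        have h8 : 3 ^ p * (e ^ p * H + 2 ^ p * (C * (H * q ^ (Nat.log 2 K))) +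
            2 ^ p * (C * (H * q ^ (Nat.log 2 K)))) =
            (3 ^ p * e ^ p) * H + (q ^ (Nat.log 2 K) * (4 * (3 ^ p * 2 ^ p * C))) / 2 * H := by
          ring
        rw [h8, he]
        nlinarith

end Pool.Agent.H593.U
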