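import Mathlib
import Pool.Agent.H593.U7.BA1

/-!
# The times at which some centre has a large value
-/

open MeasureTheory Set Filter Topology
open Pool.Agent.H383.Gauss
open scoped ENNReal

namespace Pool.Agent.H593.U

namespace PBADA

lemma isOpen_big (B : Finset (ℤ × ℤ)) (b : ℤ × ℤ → ℝ) (c : ℝ) : IsOpen {t : ℝ | ∃ a : ℝ × ℝ, c < ‖S B b a t‖} := by
  have : {t : ℝ | ∃ a : ℝ × ℝ, c < ‖S B b a t‖} = ⋃ a : ℝ × ℝ, {t : ℝ | c < ‖S B b a t‖} := by
    ext t; simp
  rw [this]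
  apply isOpen_iUnion
  intro a
  exact isOpen_lt continuous_const (continuous_S_right B b a).norm

lemma meas_E (B : Finset (ℤ × ℤ)) (b : ℤ × ℤ → ℝ) (X H c : ℝ) :
    MeasurableSet {t : ℝ | X ≤ t ∧ t ≤ X + H ∧ ∃ a : ℝ × ℝ, c < ‖S B b a t‖} := by
  have : {t : ℝ | X ≤ t ∧ t ≤ X + H ∧ ∃ a : ℝ × ℝ, c < ‖S B b a t‖} =
      Icc X (X + H) ∩ {t : ℝ | ∃ a : ℝ × ℝ, c < ‖S B b a t‖} := by
    ext t; constructor
    · rintro ⟨h1, h2, h3⟩; exact ⟨⟨h1, h2⟩, h3⟩
    · rintro ⟨⟨h1, h2⟩, h3⟩; exact ⟨h1, h2, h3⟩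
  rw [this]
  exact measurableSet_Icc.inter (isOpen_big B b c).measurableSet

lemma pow_conv {K : ℕ} (hK : 1 ≤ K) : ∃ x : ℝ, 1 ≤ x ∧ (K:ℝ) = x ^ 1000 ∧ ∀ r : ℝ, (K:ℝ) ^ r = x ^ (1000 * r) := by
  have hK1 : (1:ℝ) ≤ K := by exact_mod_cast hK
  have h0 : (0:ℝ) ≤ K := by linarith
  have h1 : (1:ℝ) ≤ (K:ℝ) ^ (1/1000:ℝ) := Real.one_le_rpow hK1 (by norm_num)
  have h2 : (K:ℝ) = ((K:ℝ) ^ (1/1000:ℝ)) ^ 1000 := by
    rw [← Real.rpow_natCast, ← Real.rpow_mul h0]
    norm_num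
  refine ⟨(K:ℝ) ^ (1/1000:ℝ), h1, h2, ?_⟩
  intro r
  rw [← Real.rpow_mul h0]
  congr 1; ring

end PBADA

open PBADA in
theorem bada (hc : S_CELL) (he : S_EN) (h6 : S_SIX) : S_BADA := by
  obtain ⟨C1, hC1, h1⟩ := hc
  obtain ⟨C2, hC2, h2⟩ := he
  obtain ⟨C3, hC3, h3⟩ := h6 (1/1000) 1.999 (by norm_num) (by norm_num) (by norm_num)
  set κ : ℝ := Real.exp (4 * Real.pi) with hκ
  have hκ0 : 0 < κ := Real.exp_pos _
  set P : ℝ := Real.exp Real.pi * κ ^ 4 with hP
  have hP0 : 0 < P := by positivity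
  set x0 : ℝ := 1000 + 16 * C1 with hx0
  have hx0' : 0 < x0 := by positivity
  set D : ℝ := 8 * C1 * P * C2 + 3 * C3 * κ ^ 6 with hD
  have hD0 : 0 < D := by positivity
  refine ⟨x0 ^ 10 + D, by positivity, ?_⟩
  intro K B b X H hK hB hb hH
  obtain ⟨x, hx1, hKx, hpow⟩ := pow_conv hK
  have hx : 0 < x := by linarith
  have e1999 : (K:ℝ) ^ (1.999:ℝ) = x ^ 1999 := by
    rw [hpow, ← Real.rpow_natCast]; norm_num
  have e1499 : (K:ℝ) ^ (1.499:ℝ) = x ^ 1499 := by
    rw [hpow, ← Real.rpow_natCast]; norm_num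
  have em10 : (K:ℝ) ^ (-(1/100):ℝ) = (x ^ 10)⁻¹ := by
    rw [hpow, ← Real.rpow_natCast, ← Real.rpow_neg hx.le]; norm_num
  have e11 : (K:ℝ) ^ (11 + 1/1000:ℝ) = x ^ 11001 := by
    rw [hpow, ← Real.rpow_natCast]; norm_num
  have em1999 : (K:ℝ) ^ (-(1.999):ℝ) = (x ^ 1999)⁻¹ := by
    rw [hpow, ← Real.rpow_natCast, ← Real.rpow_neg hx.le]; norm_num
  rw [e1999] at hH
  rw [e1499, em10]
  have hH1 : 1 ≤ H := (one_le_pow₀ hx1).trans hH
  have hH0 : 0 < H := by linarith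
  set E : Set ℝ := {t : ℝ | X ≤ t ∧ t ≤ X + H ∧ ∃ a : ℝ × ℝ, x ^ 1499 < ‖S B b a t‖} with hE
  rcases lt_or_ge x x0 with hxx | hxx
  · calc volume E ≤ volume (Icc X (X + H)) := measure_mono (fun t ht => ⟨ht.1, ht.2.1⟩)
      _ = ENNReal.ofReal H := by rw [Real.volume_Icc]; congr 1; ring
      _ ≤ _ := by
          apply ENNReal.ofReal_le_ofReal
          have k1 : x ^ 10 ≤ x0 ^ 10 := by gcongr
          have k2 : (x0 ^ 10)⁻¹ ≤ (x ^ 10)⁻¹ := by gcongr
          calc H = x0 ^ 10 * (H * (x0 ^ 10)⁻¹) := by field_simp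
            _ ≤ (x0 ^ 10 + D) * (H * (x ^ 10)⁻¹) := by
                gcongr
                linarith
  · have hx1000 : 1000 ≤ x := by linarith
    have hK2 : 2 ≤ K := by
      have : (2:ℝ) ≤ K := by
        rw [hKx]
        calc (2:ℝ) ≤ x := by linarith
          _ ≤ x ^ 1000 := le_self_pow₀ hx1 (by norm_num)
      exact_mod_cast this
    set N : ℕ := ⌊x ^ 510⌋₊ with hN
    have hN1 : (N:ℝ) ≤ x ^ 510 := Nat.floor_le (by positivity)
    have hx510 : 1 ≤ x ^ 510 := one_le_pow₀ hx1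
    have hx510' : 2 ≤ x ^ 510 := by
      calc (2:ℝ) ≤ x := by linarith
        _ ≤ x ^ 510 := le_self_pow₀ hx1 (by norm_num)
    have hN2 : x ^ 510 / 2 ≤ N := by
      have := Nat.lt_floor_add_one (x ^ 510)
      rw [← hN] at this
      linarith
    have hN1' : 1 ≤ N := by
      rw [hN]; exact Nat.le_floor (by simpa using hx510)
    have hN0 : (0:ℝ) < N := by exact_mod_cast hN1'
    set τ : ℝ := (x ^ 514)⁻¹ with hτ
    have hτ0 : 0 < τ := by positivity
    have hτ1 : τ ≤ 1 := by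
      rw [hτ]; exact inv_le_one_of_one_le₀ (one_le_pow₀ hx1)
    have hKτ : τ + 1 / (K:ℝ) ≤ 2 * τ := by
      have : 1 / (K:ℝ) ≤ τ := by
        rw [hKx, hτ, one_div]
        gcongr
        norm_num
      linarith
    -- the parameters of the cell bound
    have p1 : 16 * N * (τ + 1 / (K:ℝ)) ≤ 1 := by
      calc 16 * N * (τ + 1 / (K:ℝ)) ≤ 16 * x ^ 510 * (2 * τ) := by gcongr
        _ = 32 * (x ^ 4)⁻¹ := by rw [hτ]; field_simp; ring
        _ ≤ 1 := by
            rw [← div_eq_mul_inv, div_le_one (by positivity)]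
            calc (32:ℝ) ≤ x := by linarith
              _ ≤ x ^ 4 := le_self_pow₀ hx1 (by norm_num)
    have p2 : C1 * x ^ 1502 * N * (τ + 1 / (K:ℝ)) ≤ x ^ 1499 := by
      calc C1 * x ^ 1502 * N * (τ + 1 / (K:ℝ)) ≤ C1 * x ^ 1502 * x ^ 510 * (2 * τ) := by gcongr
        _ = 2 * C1 * x ^ 1498 := by rw [hτ]; field_simp
        _ ≤ x * x ^ 1498 := by gcongr; linarith
        _ = x ^ 1499 := by ring
    have p3 : C1 * (K:ℝ) ^ 8 ≤ (x ^ 1499) ^ 4 * (N:ℝ) ^ 4 := by
      have k1 : (x ^ 510 / 2) ^ 4 ≤ (N:ℝ) ^ 4 := by gcongr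
      calc C1 * (K:ℝ) ^ 8 = C1 * x ^ 8000 := by rw [hKx]; ring
        _ ≤ (x / 16) * x ^ 8000 := by gcongr; linarith
        _ = x ^ 8001 / 16 := by ring
        _ ≤ x ^ 8036 / 16 := by gcongr; norm_num
        _ = (x ^ 1499) ^ 4 * (x ^ 510 / 2) ^ 4 := by ring
        _ ≤ _ := by gcongr
    have hκb : ∀ k ∈ B, |cw (1 / K) b k| ≤ κ := fun k hk => cw_le hK hB hb hk
    have hbox : B ⊆ box (2 * K) := hB.trans (Finset.filter_subset _ _)
    -- pointwise bound
    have hpt : ∀ t0 : ℝ, volume (E ∩ Icc t0 (t0 + τ)) ≤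
        ENNReal.ofReal (8 * C1 * (x ^ 4016)⁻¹) * ENNReal.ofReal (∫ a in Q, ‖off N B (cw (1 / K) b) a t0‖ ^ 2) +
          ENNReal.ofReal (τ * (x ^ 9012)⁻¹) * sS B (cw (1 / K) b) t0 ^ (6:ℝ) := by
      intro t0
      rcases le_or_gt (sS B (cw (1 / K) b) t0) (ENNReal.ofReal (x ^ 1502)) with hs | hs
      · refine le_trans ?_ le_self_add
        obtain ⟨T, hT1, hT2, hT3⟩ := sep_vol (η := 1 / (K:ℝ)) (a := t0) (b := t0 + τ) (by positivity) (E ∩ Icc t0 (t0 + τ))
          (fun t ht => ht.2)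
        refine hT3.trans ?_
        rw [← ENNReal.ofReal_mul (by positivity)]
        apply ENNReal.ofReal_le_ofReal
        have hU : ∀ y, ‖S B (cw (1 / K) b) y t0‖ ≤ x ^ 1502 := by
          intro y
          have := (le_sS B (cw (1 / K) b) y t0).trans hs
          rwa [ENNReal.ofReal_le_ofReal_iff (by positivity)] at this
        have k1 := h1 K N B b t0 τ (x ^ 1499) (x ^ 1502) T hK2 hN1' hbox hb hτ0.le p1
          (fun t ht => (hT1 t ht).2) hT2 (by positivity)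
          (fun t ht => by
            obtain ⟨a, ha⟩ := (hT1 t ht).1.2.2
            exact ⟨a, ha.le⟩) hU p2 p3
        set I : ℝ := ∫ a in Q, ‖off N B (cw (1 / K) b) a t0‖ ^ 2 with hI
        have hI0 : 0 ≤ I := integral_nonneg (fun a => by positivity)
        have k2 : (T.card : ℝ) * (x ^ 7016 / 4) ≤ C1 * (x ^ 4000 * I) := by
          calc (T.card : ℝ) * (x ^ 7016 / 4) = (T.card : ℝ) * ((x ^ 1499) ^ 4 * (x ^ 510 / 2) ^ 2) := by ring
            _ ≤ (T.card : ℝ) * ((x ^ 1499) ^ 4 * (N:ℝ) ^ 2) := by gcongr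
            _ ≤ C1 * ((K:ℝ) ^ 4 * I) := k1
            _ = C1 * (x ^ 4000 * I) := by rw [hKx]; ring
        have k3 : (T.card : ℝ) ≤ 4 * C1 * (x ^ 3016)⁻¹ * I := by
          have : (T.card : ℝ) * (x ^ 7016 / 4) ≤ (4 * C1 * (x ^ 3016)⁻¹ * I) * (x ^ 7016 / 4) := by
            refine k2.trans (le_of_eq ?_)
            have e : x ^ 7016 = x ^ 3016 * x ^ 4000 := by ring
            rw [e]
            field_simp
          exact le_of_mul_le_mul_right this (by positivity)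
        calc 2 * (1 / (K:ℝ)) * T.card ≤ 2 * (1 / (K:ℝ)) * (4 * C1 * (x ^ 3016)⁻¹ * I) := by gcongr
          _ = 8 * C1 * (x ^ 4016)⁻¹ * I := by
              rw [hKx]
              have e : x ^ 4016 = x ^ 1000 * x ^ 3016 := by ring
              rw [e]
              field_simp
              ring
      · refine le_trans ?_ le_add_self
        calc volume (E ∩ Icc t0 (t0 + τ)) ≤ volume (Icc t0 (t0 + τ)) := measure_mono inter_subset_right
          _ = ENNReal.ofReal τ := by rw [Real.volume_Icc]; congr 1; ring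
          _ = ENNReal.ofReal (τ * (x ^ 9012)⁻¹) * ENNReal.ofReal (x ^ 1502) ^ (6:ℝ) := by
              rw [ENNReal.ofReal_rpow_of_nonneg (by positivity) (by norm_num), ← ENNReal.ofReal_mul (by positivity)]
              congr 1
              have : (x ^ 1502) ^ (6:ℝ) = x ^ 9012 := by
                rw [show (6:ℝ) = ((6:ℕ):ℝ) by norm_num, Real.rpow_natCast]; ring
              rw [this]
              field_simp
          _ ≤ _ := by gcongr
    have hmE := meas_E B b X H (x ^ 1499)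
    have hw := window_avg hmE (X := X) (H := H) hτ0.le (fun t ht => ⟨ht.1, ht.2.1⟩)
    have hOff := off_mean (N := N) hK hB hb hH0 X (s := Icc (X - τ) (X + H))
      (fun t ht => by rw [abs_le]; constructor <;> linarith [ht.1, ht.2]) measurableSet_Icc
      (h2 K N x H B hx1000 hKx hH hN1 hB)
    have hSix := h3 K B (cw (1 / K) b) κ (X - τ) (H + τ) hK hbox hκ0.le hκb (by positivity)
    rw [show X - τ + (H + τ) = X + H by ring, e11, em1999] at hSix
    have hfin : ENNReal.ofReal τ * volume E ≤ ENNReal.ofReal τ * ENNReal.ofReal ((x0 ^ 10 + D) * (H * (x ^ 10)⁻¹)) := by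
      calc ENNReal.ofReal τ * volume E ≤ ∫⁻ t0 in Icc (X - τ) (X + H), volume (E ∩ Icc t0 (t0 + τ)) := hw
        _ ≤ ∫⁻ t0 in Icc (X - τ) (X + H), (ENNReal.ofReal (8 * C1 * (x ^ 4016)⁻¹) *
              ENNReal.ofReal (∫ a in Q, ‖off N B (cw (1 / K) b) a t0‖ ^ 2) +
              ENNReal.ofReal (τ * (x ^ 9012)⁻¹) * sS B (cw (1 / K) b) t0 ^ (6:ℝ)) := lintegral_mono hpt
        _ = ENNReal.ofReal (8 * C1 * (x ^ 4016)⁻¹) * (∫⁻ t0 in Icc (X - τ) (X + H),
              ENNReal.ofReal (∫ a in Q, ‖off N B (cw (1 / K) b) a t0‖ ^ 2)) +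
            ENNReal.ofReal (τ * (x ^ 9012)⁻¹) * ∫⁻ t0 in Icc (X - τ) (X + H), sS B (cw (1 / K) b) t0 ^ (6:ℝ) := by
              have hm6 : Measurable (fun t0 => ENNReal.ofReal (τ * (x ^ 9012)⁻¹) * sS B (cw (1 / K) b) t0 ^ (6:ℝ)) :=
                ((measurable_sS _ _).pow_const _).const_mul _
              rw [lintegral_add_right _ hm6, lintegral_const_mul' _ _ ENNReal.ofReal_ne_top,
                lintegral_const_mul' _ _ ENNReal.ofReal_ne_top]
        _ ≤ ENNReal.ofReal (8 * C1 * (x ^ 4016)⁻¹) * ENNReal.ofReal (P * (H * (C2 * x ^ 3490))) +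
            ENNReal.ofReal (τ * (x ^ 9012)⁻¹) * ENNReal.ofReal (C3 * (κ ^ 6 * (x ^ 11001 * (1 + (H + τ) * (x ^ 1999)⁻¹)))) := by
              gcongr
        _ ≤ _ := by
              rw [← ENNReal.ofReal_mul (by positivity), ← ENNReal.ofReal_mul (by positivity),
                ← ENNReal.ofReal_mul (by positivity), ← ENNReal.ofReal_add (by positivity) (by positivity)]
              apply ENNReal.ofReal_le_ofReal
              have m1 : 1 + (H + τ) * (x ^ 1999)⁻¹ ≤ 3 * (H * (x ^ 1999)⁻¹) := by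
                have : 1 ≤ H * (x ^ 1999)⁻¹ := by
                  rw [← div_eq_mul_inv, one_le_div (by positivity)]; exact hH
                have h5 : τ * (x ^ 1999)⁻¹ ≤ H * (x ^ 1999)⁻¹ := by gcongr; linarith
                linarith
              have m2 : 8 * C1 * (x ^ 4016)⁻¹ * (P * (H * (C2 * x ^ 3490))) ≤ τ * (8 * C1 * P * C2 * (H * (x ^ 10)⁻¹)) := by
                have e : (x ^ 4016)⁻¹ * x ^ 3490 = (x ^ 526)⁻¹ := by
                  rw [show x ^ 4016 = x ^ 526 * x ^ 3490 by ring]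
                  field_simp
                have e2 : (x ^ 526)⁻¹ ≤ τ * (x ^ 10)⁻¹ := by
                  rw [hτ, ← mul_inv, ← pow_add]
                  gcongr
                  norm_num
                calc 8 * C1 * (x ^ 4016)⁻¹ * (P * (H * (C2 * x ^ 3490)))
                    = (8 * C1 * P * C2 * H) * ((x ^ 4016)⁻¹ * x ^ 3490) := by ring
                  _ ≤ (8 * C1 * P * C2 * H) * (τ * (x ^ 10)⁻¹) := by rw [e]; gcongr
                  _ = _ := by ring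
              have m3 : τ * (x ^ 9012)⁻¹ * (C3 * (κ ^ 6 * (x ^ 11001 * (1 + (H + τ) * (x ^ 1999)⁻¹)))) ≤
                  τ * (3 * C3 * κ ^ 6 * (H * (x ^ 10)⁻¹)) := by
                have e : (x ^ 9012)⁻¹ * (x ^ 11001 * (x ^ 1999)⁻¹) = (x ^ 10)⁻¹ := by
                  rw [show x ^ 11001 = x ^ 9012 * x ^ 1989 by ring, show x ^ 1999 = x ^ 1989 * x ^ 10 by ring]
                  field_simp
                calc τ * (x ^ 9012)⁻¹ * (C3 * (κ ^ 6 * (x ^ 11001 * (1 + (H + τ) * (x ^ 1999)⁻¹))))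
                    ≤ τ * (x ^ 9012)⁻¹ * (C3 * (κ ^ 6 * (x ^ 11001 * (3 * (H * (x ^ 1999)⁻¹))))) := by gcongr
                  _ = τ * (3 * C3 * κ ^ 6 * (H * ((x ^ 9012)⁻¹ * (x ^ 11001 * (x ^ 1999)⁻¹)))) := by ring
                  _ = _ := by rw [e]
              calc _ ≤ τ * (8 * C1 * P * C2 * (H * (x ^ 10)⁻¹)) + τ * (3 * C3 * κ ^ 6 * (H * (x ^ 10)⁻¹)) := add_le_add m2 m3
                _ = τ * (D * (H * (x ^ 10)⁻¹)) := by rw [hD]; ring
                _ ≤ _ := by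
                    gcongr
                    have : 0 ≤ x0 ^ 10 := by positivity
                    linarith
    rwa [ENNReal.mul_le_mul_iff_right (by simpa using hτ0) ENNReal.ofReal_ne_top] at hfin

end Pool.Agent.H593.U
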