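import Mathlib
import Pool.Agent.H593.U7.Stm

/-!
Moments of order `p < 6` of one block: Holder interpolation between the sixth moment and the measure of
the set of the times with a large value.
-/

open MeasureTheory Set Filter Topology
open Pool.Agent.H383.Gauss
open scoped ENNReal

namespace Pool.Agent.H593.U

namespace PBLK

lemma S_scale (B : Finset (ℤ × ℤ)) (b : ℤ × ℤ → ℝ) {κ : ℝ} (hκ : 0 < κ) (a : ℝ × ℝ) (t : ℝ) :
    S B b a t = (κ : ℂ) * S B (fun k => b k / κ) a t := by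
  unfold S
  rw [Finset.mul_sum]
  refine Finset.sum_congr rfl fun k _ => ?_
  have hκ' : (κ : ℂ) ≠ 0 := by exact_mod_cast hκ.ne'
  push_cast
  field_simp

lemma sS_scale (B : Finset (ℤ × ℤ)) (b : ℤ × ℤ → ℝ) {κ : ℝ} (hκ : 0 < κ) (t : ℝ) :
    sS B b t = ENNReal.ofReal κ * sS B (fun k => b k / κ) t := by
  unfold sS
  rw [ENNReal.mul_iSup]
  congr 1
  funext a
  rw [S_scale B b hκ, norm_mul, ENNReal.ofReal_mul (norm_nonneg _), Complex.norm_real,
    Real.norm_eq_abs, abs_of_pos hκ]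

/-- interpolation -/
lemma holder (μ : Measure ℝ) (f : ℝ → ℝ≥0∞) (hf : Measurable f) (E : Set ℝ) (p : ℝ) (hp : 1 ≤ p)
    (hp6 : p < 6) :
    ∫⁻ t in E, f t ^ p ∂μ ≤ (∫⁻ t in E, f t ^ (6:ℝ) ∂μ) ^ (p / 6) * (μ E) ^ (1 - p / 6) := by
  have hp0 : 0 < p := by linarith
  have hr : 0 < 1 - p / 6 := by linarith
  have hc : (6 / p).HolderConjugate (1 / (1 - p / 6)) := by
    rw [Real.holderConjugate_iff]
    refine ⟨by rw [lt_div_iff₀ hp0]; linarith, ?_⟩
    rw [inv_div, one_div, inv_inv]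
    ring
  have h := ENNReal.lintegral_mul_le_Lp_mul_Lq (μ.restrict E) hc (f := fun t => f t ^ p)
    (g := fun _ => 1) (hf.pow_const p).aemeasurable measurable_const.aemeasurable
  have e1 : ∀ t, (f t ^ p) ^ (6 / p) = f t ^ (6:ℝ) := by
    intro t
    rw [← ENNReal.rpow_mul]
    congr 1
    field_simp
  simp only [Pi.mul_apply, mul_one, e1, ENNReal.one_rpow, lintegral_const, one_mul, one_div,
    inv_div, inv_inv, Measure.restrict_apply MeasurableSet.univ, univ_inter] at h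
  exact h

/-- the arithmetic of the exponents -/
lemma arith (C1 C2 : ℝ) (hC1 : 0 < C1) (hC2 : 0 < C2) (K H p : ℝ) (hK : 1 ≤ K) (hH : 0 < H)
    (hp : 1 ≤ p) (hp6 : p < 6)
    (h1 : 1 ≤ H * K ^ (-(2 - (1 - p / 6) / 1000))) :
    (C1 * (1 ^ 6 * (K ^ (11 + (1 - p / 6) / 1000) *
        (1 + H * K ^ (-(2 - (1 - p / 6) / 1000)))))) ^ (p / 6) *
      (C2 * (H * K ^ (-(1 / 100) : ℝ))) ^ (1 - p / 6) ≤
    ((2 * C1) ^ (p / 6) * C2 ^ (1 - p / 6)) * (H * (K ^ (3 / 2 - (1 - p / 6) / 1000)) ^ p) := by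
  have hK0 : 0 < K := by linarith
  have hr : 0 < 1 - p / 6 := by linarith
  have hp60 : 0 < p / 6 := by linarith
  set r := 1 - p / 6 with hrdef
  have hp' : p = 6 * (1 - r) := by rw [hrdef]; ring
  have hs1 : C1 * (1 ^ 6 * (K ^ (11 + r / 1000) * (1 + H * K ^ (-(2 - r / 1000))))) ≤
      (2 * C1) * (H * K ^ (9 + r / 500)) := by
    have e : K ^ (9 + r / 500) = K ^ (11 + r / 1000) * K ^ (-(2 - r / 1000)) := by
      rw [← Real.rpow_add hK0]
      congr 1
      ring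
    rw [e]
    have hpos : 0 < K ^ (11 + r / 1000) := Real.rpow_pos_of_pos hK0 _
    have : (1 + H * K ^ (-(2 - r / 1000))) ≤ 2 * (H * K ^ (-(2 - r / 1000))) := by linarith
    calc C1 * (1 ^ 6 * (K ^ (11 + r / 1000) * (1 + H * K ^ (-(2 - r / 1000)))))
        = C1 * (K ^ (11 + r / 1000) * (1 + H * K ^ (-(2 - r / 1000)))) := by ring
      _ ≤ C1 * (K ^ (11 + r / 1000) * (2 * (H * K ^ (-(2 - r / 1000))))) := by
          gcongr
      _ = _ := by ring
  have hs2 : (C1 * (1 ^ 6 * (K ^ (11 + r / 1000) * (1 + H * K ^ (-(2 - r / 1000)))))) ^ (p / 6) ≤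
      ((2 * C1) * (H * K ^ (9 + r / 500))) ^ (p / 6) := by
    refine Real.rpow_le_rpow ?_ hs1 hp60.le
    positivity
  refine (mul_le_mul_of_nonneg_right hs2 (by positivity)).trans ?_
  rw [Real.mul_rpow (by positivity) (by positivity), Real.mul_rpow hH.le (by positivity),
    Real.mul_rpow hC2.le (by positivity), Real.mul_rpow hH.le (by positivity),
    ← Real.rpow_mul hK0.le, ← Real.rpow_mul hK0.le, ← Real.rpow_mul hK0.le]
  have e1 : (2 * C1) ^ (p / 6) * (H ^ (p / 6) * K ^ ((9 + r / 500) * (p / 6))) *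
      (C2 ^ r * (H ^ r * K ^ (-(1 / 100) * r))) =
      (2 * C1) ^ (p / 6) * C2 ^ r * ((H ^ (p / 6) * H ^ r) *
        (K ^ ((9 + r / 500) * (p / 6)) * K ^ (-(1 / 100) * r))) := by ring
  rw [e1, ← Real.rpow_add hH, ← Real.rpow_add hK0]
  have e2 : p / 6 + r = 1 := by rw [hrdef]; ring
  rw [e2, Real.rpow_one]
  have h3 : K ^ ((9 + r / 500) * (p / 6) + -(1 / 100) * r) ≤ K ^ ((3 / 2 - r / 1000) * p) := by
    refine Real.rpow_le_rpow_of_exponent_le hK ?_
    rw [hp']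
    have hr1 : r ≤ 1 := by rw [hrdef]; linarith
    nlinarith
  gcongr

/-- the case `κ = 1` -/
lemma one (h1 : S_BADA) (h2 : S_SIX) (p : ℝ) (hp : 1 ≤ p) (hp6 : p < 6) : ∃ C : ℝ, 0 < C ∧
    ∀ (K : ℕ) (B : Finset (ℤ × ℤ)) (b : ℤ × ℤ → ℝ) (X H : ℝ),
    1 ≤ K → B ⊆ An K → (∀ k ∈ B, |b k| ≤ 1) → (K:ℝ) ^ (2 - (1 - p / 6) / 1000) ≤ H →
    ∫⁻ t in Icc X (X + H), sS B b t ^ p ≤
      ENNReal.ofReal (C * (H * ((K:ℝ) ^ (3 / 2 - (1 - p / 6) / 1000)) ^ p)) := by
  obtain ⟨C2, hC2, hB⟩ := h1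
  have hp0 : 0 < p := by linarith
  have hr : 0 < 1 - p / 6 := by linarith
  have hr1 : 1 - p / 6 < 1 := by linarith
  obtain ⟨C1, hC1, hS⟩ := h2 ((1 - p / 6) / 1000) (2 - (1 - p / 6) / 1000) (by positivity)
    (by linarith) (by linarith)
  refine ⟨1 + (2 * C1) ^ (p / 6) * C2 ^ (1 - p / 6), by positivity, ?_⟩
  intro K B b X H hK hBA hb hKH
  have hK1 : (1:ℝ) ≤ K := by exact_mod_cast hK
  have hK0 : (0:ℝ) < K := by linarith
  have hH : 0 < H := lt_of_lt_of_le (Real.rpow_pos_of_pos hK0 _) hKH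
  have hBb : B ⊆ box (2 * K) := hBA.trans (Finset.filter_subset _ _)
  have hKH' : (K:ℝ) ^ (1.999:ℝ) ≤ H := by
    refine le_trans (Real.rpow_le_rpow_of_exponent_le hK1 ?_) hKH
    norm_num
    linarith
  have hHK : 1 ≤ H * (K:ℝ) ^ (-(2 - (1 - p / 6) / 1000)) := by
    rw [Real.rpow_neg hK0.le, ← div_eq_mul_inv, le_div_iff₀ (Real.rpow_pos_of_pos hK0 _), one_mul]
    exact hKH
  set f := sS B b with hf
  have hfm : Measurable f := measurable_sS B b
  set E : Set ℝ := {t | ENNReal.ofReal ((K:ℝ) ^ (1.499:ℝ)) < f t} with hE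
  have hEm : MeasurableSet E := measurableSet_lt measurable_const hfm
  have hvolE : volume (Icc X (X + H) ∩ E) ≤ ENNReal.ofReal (C2 * (H * (K:ℝ) ^ (-(1/100):ℝ))) := by
    refine le_trans (measure_mono ?_) (hB K B b X H hK hBA hb hKH')
    rintro t ⟨ht1, ht2⟩
    refine ⟨ht1.1, ht1.2, ?_⟩
    have ht3 : ENNReal.ofReal ((K:ℝ) ^ (1.499:ℝ)) < ⨆ a : ℝ × ℝ, ENNReal.ofReal ‖S B b a t‖ := ht2
    obtain ⟨a, ha⟩ := lt_iSup_iff.1 ht3
    exact ⟨a, ((ENNReal.ofReal_lt_ofReal_iff_of_nonneg (by positivity)).1 ha)⟩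
  -- the part outside of `E`
  have hout : ∫⁻ t in Icc X (X + H) \ E, f t ^ p ≤
      ENNReal.ofReal (1 * (H * ((K:ℝ) ^ (3 / 2 - (1 - p / 6) / 1000)) ^ p)) := by
    have hle : ∀ t ∈ Icc X (X + H) \ E, f t ^ p ≤
        ENNReal.ofReal (((K:ℝ) ^ (3 / 2 - (1 - p / 6) / 1000)) ^ p) := by
      intro t ht
      have h3 : f t ≤ ENNReal.ofReal ((K:ℝ) ^ (1.499:ℝ)) := not_lt.1 ht.2
      rw [← ENNReal.ofReal_rpow_of_nonneg (by positivity) hp0.le]
      refine ENNReal.rpow_le_rpow (h3.trans (ENNReal.ofReal_le_ofReal ?_)) hp0.le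
      refine Real.rpow_le_rpow_of_exponent_le hK1 ?_
      norm_num
      linarith
    refine (setLIntegral_mono' (measurableSet_Icc.diff hEm) hle).trans ?_
    rw [setLIntegral_const, one_mul, mul_comm, ENNReal.ofReal_mul hH.le]
    gcongr
    refine (measure_mono sdiff_subset).trans ?_
    rw [Real.volume_Icc]
    refine ENNReal.ofReal_le_ofReal ?_
    linarith
  -- the part in `E`
  have hin : ∫⁻ t in Icc X (X + H) ∩ E, f t ^ p ≤
      ENNReal.ofReal (((2 * C1) ^ (p / 6) * C2 ^ (1 - p / 6)) *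
        (H * ((K:ℝ) ^ (3 / 2 - (1 - p / 6) / 1000)) ^ p)) := by
    refine (holder volume f hfm (Icc X (X + H) ∩ E) p hp hp6).trans ?_
    have h6 : ∫⁻ t in Icc X (X + H) ∩ E, f t ^ (6:ℝ) ≤
        ENNReal.ofReal (C1 * (1 ^ 6 * ((K:ℝ) ^ (11 + (1 - p / 6) / 1000) *
          (1 + H * (K:ℝ) ^ (-(2 - (1 - p / 6) / 1000)))))) := by
      refine (lintegral_mono_set inter_subset_left).trans ?_
      exact hS K B b 1 X H hK hBb zero_le_one hb hH
    refine (mul_le_mul' (ENNReal.rpow_le_rpow h6 (by positivity))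
      (ENNReal.rpow_le_rpow hvolE hr.le)).trans ?_
    rw [ENNReal.ofReal_rpow_of_nonneg (by positivity) (by positivity),
      ENNReal.ofReal_rpow_of_nonneg (by positivity) hr.le, ← ENNReal.ofReal_mul (by positivity)]
    exact ENNReal.ofReal_le_ofReal (arith C1 C2 hC1 hC2 K H p hK1 hH hp hp6 hHK)
  rw [← lintegral_inter_add_sdiff (fun t => f t ^ p) (Icc X (X + H)) hEm]
  refine (add_le_add hin hout).trans ?_
  rw [← ENNReal.ofReal_add (by positivity) (by positivity)]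
  refine ENNReal.ofReal_le_ofReal (le_of_eq ?_)
  ring

end PBLK

theorem blk (h1 : S_BADA) (h2 : S_SIX) : S_BLK := by
  intro p hp hp6
  obtain ⟨C, hC, h⟩ := PBLK.one h1 h2 p hp hp6
  have hp0 : 0 < p := by linarith
  refine ⟨(1 - p / 6) / 1000, (1 - p / 6) / 1000, C, by linarith, by linarith, by linarith,
    by linarith, hC, ?_⟩
  intro K B b κ X H hK hB hκ hb hKH
  have hK0 : (0:ℝ) < K := by exact_mod_cast hK
  have hH : 0 < H := lt_of_lt_of_le (Real.rpow_pos_of_pos hK0 _) hKH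
  have h3 := h K B (fun k => b k / κ) X H hK hB (fun k hk => by
    rw [abs_div, abs_of_pos hκ, div_le_one hκ]
    exact hb k hk) hKH
  have e : ∀ t, sS B b t ^ p = ENNReal.ofReal (κ ^ p) * sS B (fun k => b k / κ) t ^ p := by
    intro t
    rw [PBLK.sS_scale B b hκ, ENNReal.mul_rpow_of_nonneg _ _ hp0.le,
      ENNReal.ofReal_rpow_of_pos hκ]
  simp only [e]
  rw [lintegral_const_mul _ ((measurable_sS B _).pow_const p)]
  refine (mul_le_mul_right h3 _).trans ?_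
  rw [← ENNReal.ofReal_mul (by positivity)]
  refine ENNReal.ofReal_le_ofReal (le_of_eq ?_)
  rw [Real.mul_rpow hκ.le (by positivity)]
  ring

end Pool.Agent.H593.U
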