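import Mathlib
import Pool.Agent.H593.U7.Stm

/-!
# Few separated times with a large value in a short window
-/

open MeasureTheory Set Filter Topology
open Pool.Agent.H383.Gauss
open scoped ENNReal

namespace Pool.Agent.H593.U.PCELL

/-- a small interval near `x` inside the unit interval -/
lemma near_int {ρ x : ℝ} (hρ : 0 < ρ) (hρ1 : ρ ≤ 1 / 4) (hx : x ∈ Ico (0:ℝ) 1) :
    ∃ u : ℝ, Ico u (u + ρ / 2) ⊆ Ico (0:ℝ) 1 ∧ ∀ y ∈ Ico u (u + ρ / 2), |x - y| ≤ ρ / 2 := by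
  rw [mem_Ico] at hx
  rcases le_or_gt x (1 / 2) with h | h
  · refine ⟨x, fun y hy => ?_, fun y hy => ?_⟩
    · rw [mem_Ico] at *
      constructor <;> linarith
    · rw [mem_Ico] at hy
      rw [abs_le]
      constructor <;> linarith
  · refine ⟨x - ρ / 2, fun y hy => ?_, fun y hy => ?_⟩
    · rw [mem_Ico] at *
      constructor <;> linarith
    · rw [mem_Ico] at hy
      rw [abs_le]
      constructor <;> linarith

lemma S_zc (B : Finset (ℤ × ℤ)) (b : ℤ × ℤ → ℝ) (a : ℝ × ℝ) (q : ℤ × ℤ) (t : ℝ) :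
    S B b (a + zc q) t = S B b a t := by
  unfold S
  refine Finset.sum_congr rfl fun k _ => ?_
  rw [ex_add, ex_add, ex_dp_zc]

lemma continuous_off (N : ℕ) (B : Finset (ℤ × ℤ)) (c : ℤ × ℤ → ℝ) (t : ℝ) :
    Continuous fun a => off N B c a t := by
  unfold off G
  refine continuous_finsetSum _ fun i _ => ?_
  exact continuous_const.mul (continuous_ex.comp ((continuous_dp _).add continuous_const))

lemma integrableOn_Q {f : ℝ × ℝ → ℝ} (hf : Continuous f) : IntegrableOn f Q := by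
  have h1 : IntegrableOn f (Icc (0:ℝ) 1 ×ˢ Icc (0:ℝ) 1) :=
    hf.continuousOn.integrableOn_compact (isCompact_Icc.prod isCompact_Icc)
  exact h1.mono_set (Set.prod_mono Ico_subset_Icc_self Ico_subset_Icc_self)

/-- the sum of the squares of the weights -/
lemma sum_cw {K : ℕ} (hK : 2 ≤ K) {B : Finset (ℤ × ℤ)} {b : ℤ × ℤ → ℝ} (hB : B ⊆ box (2 * K))
    (hb : ∀ k ∈ B, |b k| ≤ 1) :
    ∑ k ∈ B, cw (1 / K) b k ^ 2 ≤ 25 * Real.exp (16 * Real.pi) * (K:ℝ) ^ 2 := by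
  have hK0 : (0:ℝ) < K := by
    have : (2:ℝ) ≤ K := by exact_mod_cast hK
    linarith
  have h1 : ∀ k ∈ B, cw (1 / K) b k ^ 2 ≤ Real.exp (16 * Real.pi) := by
    intro k hk
    have h2 := nz_le_of_mem_box (hB hk)
    push_cast at h2
    unfold cw
    have h3 : Real.exp (2 * Real.pi * (1 / K) * nz k) ≤ Real.exp (8 * Real.pi) := by
      apply Real.exp_le_exp.2
      have h4 : 2 * Real.pi * (1 / K) * nz k ≤ 2 * Real.pi * (1 / K) * (2 * (2 * K)) := by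
        have := Real.pi_pos
        gcongr
      refine h4.trans (le_of_eq ?_)
      field_simp
      ring
    have h5 : b k ^ 2 ≤ 1 := by
      rw [sq_le_one_iff_abs_le_one]
      exact hb k hk
    have h6 : Real.exp (16 * Real.pi) = Real.exp (8 * Real.pi) ^ 2 := by
      rw [← Real.exp_nat_mul]
      congr 1
      push_cast
      ring
    rw [mul_pow, h6]
    calc b k ^ 2 * Real.exp (2 * Real.pi * (1 / K) * nz k) ^ 2
        ≤ 1 * Real.exp (8 * Real.pi) ^ 2 := by gcongr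
      _ = _ := one_mul _
  have h2 : ∑ k ∈ B, cw (1 / K) b k ^ 2 ≤ B.card • Real.exp (16 * Real.pi) :=
    Finset.sum_le_card_nsmul _ _ _ h1
  have h3 : (B.card : ℝ) ≤ (4 * (K:ℝ) + 1) ^ 2 := by
    have h4 := Finset.card_le_card hB
    rw [card_box] at h4
    have h5 : (B.card : ℝ) ≤ (((2 * (2 * K) + 1) ^ 2 : ℕ) : ℝ) := by exact_mod_cast h4
    refine h5.trans (le_of_eq ?_)
    push_cast
    ring
  have h4 : (4 * (K:ℝ) + 1) ^ 2 ≤ 25 * (K:ℝ) ^ 2 := by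
    have : (2:ℝ) ≤ K := by exact_mod_cast hK
    nlinarith
  refine h2.trans ?_
  rw [nsmul_eq_mul]
  calc (B.card : ℝ) * Real.exp (16 * Real.pi) ≤ (25 * (K:ℝ) ^ 2) * Real.exp (16 * Real.pi) := by
        gcongr
        exact h3.trans h4
    _ = _ := by ring

/-- the pointwise inequality -/
lemma alg {J lam C3 K N o : ℝ} (hC3 : 0 < C3) (hK : 0 < K) (hN : 0 < N)
    (hJ : J = 0 ∨ 1 ≤ J) (h : √J * lam ^ 2 ≤ C3 * (K ^ 2 / N ^ 2) * (K ^ 2 + o))
    (hlam : 4 * C3 ^ 2 * K ^ 8 ≤ lam ^ 4 * N ^ 4) :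
    J * lam ^ 4 ≤ 4 * C3 ^ 2 * (K ^ 4 / N ^ 4) * o ^ 2 := by
  rcases hJ with hJ | hJ
  · rw [hJ, zero_mul]
    positivity
  · have h1 : (√J * lam ^ 2) ^ 2 ≤ (C3 * (K ^ 2 / N ^ 2) * (K ^ 2 + o)) ^ 2 :=
      pow_le_pow_left₀ (by positivity) h 2
    have h2 : (√J * lam ^ 2) ^ 2 = J * lam ^ 4 := by
      rw [mul_pow, Real.sq_sqrt (by linarith)]
      ring
    have h3 : (C3 * (K ^ 2 / N ^ 2) * (K ^ 2 + o)) ^ 2 ≤
        2 * C3 ^ 2 * (K ^ 4 / N ^ 4) * (K ^ 4 + o ^ 2) := by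
      have e1 : (C3 * (K ^ 2 / N ^ 2) * (K ^ 2 + o)) ^ 2 = C3 ^ 2 * (K ^ 4 / N ^ 4) * (K ^ 2 + o) ^ 2 := by
        rw [mul_pow, mul_pow, div_pow]
        ring
      rw [e1]
      have e2 : (K ^ 2 + o) ^ 2 ≤ 2 * (K ^ 4 + o ^ 2) := by nlinarith [sq_nonneg (K ^ 2 - o)]
      calc C3 ^ 2 * (K ^ 4 / N ^ 4) * (K ^ 2 + o) ^ 2 ≤ C3 ^ 2 * (K ^ 4 / N ^ 4) * (2 * (K ^ 4 + o ^ 2)) := by
            gcongr
        _ = _ := by ring
    have h4 : 2 * C3 ^ 2 * (K ^ 4 / N ^ 4) * K ^ 4 ≤ J * lam ^ 4 / 2 := by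
      have e1 : 2 * C3 ^ 2 * (K ^ 4 / N ^ 4) * K ^ 4 ≤ lam ^ 4 / 2 := by
        have e2 : 2 * C3 ^ 2 * (K ^ 4 / N ^ 4) * K ^ 4 = (4 * C3 ^ 2 * K ^ 8) / N ^ 4 / 2 := by ring
        rw [e2]
        have e3 : (4 * C3 ^ 2 * K ^ 8) / N ^ 4 ≤ lam ^ 4 := by
          rw [div_le_iff₀ (by positivity)]
          exact hlam
        linarith
      have e3 : 0 ≤ lam ^ 4 := by positivity
      nlinarith
    rw [h2] at h1
    have h5 := h1.trans h3
    have h6 : 2 * C3 ^ 2 * (K ^ 4 / N ^ 4) * (K ^ 4 + o ^ 2) =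
        2 * C3 ^ 2 * (K ^ 4 / N ^ 4) * K ^ 4 + 2 * C3 ^ 2 * (K ^ 4 / N ^ 4) * o ^ 2 := by ring
    rw [h6] at h5
    have h7 : 4 * C3 ^ 2 * (K ^ 4 / N ^ 4) * o ^ 2 = 2 * (2 * C3 ^ 2 * (K ^ 4 / N ^ 4) * o ^ 2) := by ring
    rw [h7]
    linarith

end Pool.Agent.H593.U.PCELL

namespace Pool.Agent.H593.U

open PCELL

theorem cell (h : S_NEAR) : S_CELL := by
  obtain ⟨C2, hC2, hnear⟩ := h
  obtain ⟨C1, hC1, hloc⟩ := HM_local
  have he : (1:ℝ) ≤ Real.exp (16 * Real.pi) := by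
    have := Real.pi_pos
    rw [Real.one_le_exp_iff]
    positivity
  set D : ℝ := 25 * Real.exp (16 * Real.pi) with hD
  have hD1 : 1 ≤ D := by linarith
  set C3 : ℝ := C1 * C2 * D with hC3
  have hC3p : 0 < C3 := by positivity
  refine ⟨8 * C1 + 256 * C3 ^ 2, by nlinarith [sq_nonneg C3], ?_⟩
  intro K N B b t0 τ lam U T hK hN hB hb hτ hτN hT hsep hlam hbig hU hUlam hKlam
  set C : ℝ := 8 * C1 + 256 * C3 ^ 2 with hC
  have hK2 : (2:ℝ) ≤ K := by exact_mod_cast hK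
  have hK0 : (0:ℝ) < K := by linarith
  have hN1 : (1:ℝ) ≤ N := by exact_mod_cast hN
  have hN0 : (0:ℝ) < N := by linarith
  have hU0 : 0 ≤ U := (norm_nonneg _).trans (hU 0)
  set ρ : ℝ := 1 / (4 * N) with hρ
  have hρ0 : 0 < ρ := by positivity
  have hρ1 : ρ ≤ 1 / 4 := by
    rw [hρ]
    apply one_div_le_one_div_of_le (by norm_num)
    linarith
  have hρN : ρ * (4 * N) = 1 := by rw [hρ]; field_simp
  have hτρ : 4 * (τ + 1 / K) ≤ ρ := by
    rw [hρ, le_div_iff₀ (by positivity)]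
    linarith
  have hτ1 : 0 ≤ τ + 1 / K := by positivity
  have hCU : C1 * U * (τ + 1 / K) / ρ ≤ lam / 2 := by
    rw [div_le_iff₀ hρ0]
    have h1 : 8 * C1 * U * N * (τ + 1 / K) ≤ lam := by
      refine le_trans ?_ hUlam
      have h2 : 8 * C1 ≤ C := by rw [hC]; nlinarith [sq_nonneg C3]
      gcongr
    have h3 : 8 * C1 * U * N * (τ + 1 / K) * ρ ≤ lam * ρ := by gcongr
    have h4 : 8 * C1 * U * N * (τ + 1 / K) * ρ = 2 * (C1 * U * (τ + 1 / K)) * (ρ * (4 * N)) := by ring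
    rw [h4, hρN] at h3
    linarith
  -- the centres
  have hcen : ∀ t, ∃ a : ℝ × ℝ, t ∈ T → a ∈ Q ∧ lam ≤ ‖S B b a t‖ := by
    intro t
    by_cases ht : t ∈ T
    · obtain ⟨a, ha⟩ := hbig t ht
      obtain ⟨q, hq⟩ := exists_mem_Q a
      exact ⟨a + zc q, fun _ => ⟨hq, by rwa [S_zc]⟩⟩
    · exact ⟨0, fun h => absurd h ht⟩
  choose a ha using hcen
  have hu : ∀ t, ∃ u : ℝ × ℝ, t ∈ T → (Ico u.1 (u.1 + ρ / 2) ×ˢ Ico u.2 (u.2 + ρ / 2) ⊆ Q ∧
      ∀ y ∈ Ico u.1 (u.1 + ρ / 2) ×ˢ Ico u.2 (u.2 + ρ / 2), |(a t).1 - y.1| ≤ ρ / 2 ∧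
        |(a t).2 - y.2| ≤ ρ / 2) := by
    intro t
    by_cases ht : t ∈ T
    · have h1 := (ha t ht).1
      unfold Q at h1
      rw [mem_prod] at h1
      obtain ⟨u1, hu1, hu1'⟩ := near_int hρ0 hρ1 h1.1
      obtain ⟨u2, hu2, hu2'⟩ := near_int hρ0 hρ1 h1.2
      refine ⟨(u1, u2), fun _ => ⟨Set.prod_mono hu1 hu2, fun y hy => ?_⟩⟩
      rw [mem_prod] at hy
      exact ⟨hu1' _ hy.1, hu2' _ hy.2⟩
    · exact ⟨0, fun h => absurd h ht⟩
  choose u hu using hu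
  set R : ℝ → Set (ℝ × ℝ) := fun t =>
    Ico (u t).1 ((u t).1 + ρ / 2) ×ˢ Ico (u t).2 ((u t).2 + ρ / 2) with hR
  have hRm : ∀ t, MeasurableSet (R t) := fun t => measurableSet_Ico.prod measurableSet_Ico
  have hRv : ∀ t, volume.real (R t) = (ρ / 2) ^ 2 := by
    intro t
    rw [measureReal_def, hR]
    simp only
    rw [Measure.volume_eq_prod, Measure.prod_prod, Real.volume_Ico, Real.volume_Ico,
      ENNReal.toReal_mul, ENNReal.toReal_ofReal (by linarith), ENNReal.toReal_ofReal (by linarith)]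
    ring
  have hRfin : ∀ t, volume (R t) ≠ ⊤ := by
    intro t
    rw [hR]
    simp only
    rw [Measure.volume_eq_prod, Measure.prod_prod, Real.volume_Ico, Real.volume_Ico]
    exact ENNReal.mul_ne_top ENNReal.ofReal_ne_top ENNReal.ofReal_ne_top
  set A : ℝ := 4 * C3 ^ 2 * ((K:ℝ) ^ 4 / (N:ℝ) ^ 4) with hA
  -- the pointwise bound
  have hpt : ∀ a0 : ℝ × ℝ, (∑ t ∈ T, (R t).indicator (fun _ => (1:ℝ)) a0) * lam ^ 4 ≤
      A * ‖off N B (cw (1 / K) b) a0 t0‖ ^ 2 := by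
    classical
    intro a0
    have h1 : ∑ t ∈ T, (R t).indicator (fun _ => (1:ℝ)) a0 = ((T.filter fun t => a0 ∈ R t).card : ℝ) := by
      rw [Finset.card_filter]
      push_cast
      refine Finset.sum_congr rfl fun t _ => ?_
      simp only [indicator_apply]
    set T' := T.filter fun t => a0 ∈ R t with hT'
    rw [h1]
    have h2 := hloc K B b t0 τ ρ lam U a0 T' a hK2 hτ hρ0 hρ1 hτρ
      (fun t ht => hT t (Finset.mem_filter.1 ht).1)
      (fun t ht => (hu t (Finset.mem_filter.1 ht).1).2 a0 (Finset.mem_filter.1 ht).2)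
      (fun s hs t ht => hsep s (Finset.mem_filter.1 hs).1 t (Finset.mem_filter.1 ht).1)
      hlam (fun t ht => (ha t (Finset.mem_filter.1 ht).1).2) hU hCU
    have h3 := hnear N B (cw (1 / K) b) a0 t0 hN
    have h4 := sum_cw hK hB hb
    rw [← hρ] at h3
    rw [← hD] at h4
    have ho := norm_nonneg (off N B (cw (1 / K) b) a0 t0)
    refine alg hC3p hK0 hN0 ?_ ?_ ?_
    · rcases Nat.eq_zero_or_pos T'.card with h | h
      · left; rw [h]; simp
      · right; exact_mod_cast h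
    · refine h2.trans ?_
      calc C1 * (K:ℝ) ^ 2 * ∫ x in Dq ∩ Nr ρ, ‖S B (cw (1 / K) b) (a0 + x) t0‖ ^ 2
          ≤ C1 * (K:ℝ) ^ 2 * (C2 / (N:ℝ) ^ 2 * (D * (K:ℝ) ^ 2 +
            D * ‖off N B (cw (1 / K) b) a0 t0‖)) := by
            gcongr
            refine h3.trans ?_
            gcongr
            exact le_mul_of_one_le_left ho hD1
        _ = _ := by rw [hC3]; ring
    · refine le_trans ?_ hKlam
      have h5 : 4 * C3 ^ 2 ≤ C := by rw [hC]; nlinarith [sq_nonneg C3]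
      gcongr
  -- integration
  have hRi : ∀ t, Integrable ((R t).indicator (fun _ => (1:ℝ))) (volume.restrict Q) := by
    intro t
    have e1 : IntegrableOn (fun _ : ℝ × ℝ => (1:ℝ)) (R t) volume := integrableOn_const (hRfin t)
    exact (e1.integrable_indicator (hRm t)).integrableOn
  have hint1 : IntegrableOn (fun a0 => (∑ t ∈ T, (R t).indicator (fun _ => (1:ℝ)) a0) * lam ^ 4) Q := by
    refine Integrable.mul_const ?_ _
    exact integrable_finsetSum _ fun t _ => hRi t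
  have hint2 : IntegrableOn (fun a0 => A * ‖off N B (cw (1 / K) b) a0 t0‖ ^ 2) Q :=
    integrableOn_Q (continuous_const.mul ((continuous_off N B _ t0).norm.pow 2))
  have h1 := setIntegral_mono hint1 hint2 hpt
  have h2 : ∫ a0 in Q, (∑ t ∈ T, (R t).indicator (fun _ => (1:ℝ)) a0) * lam ^ 4 =
      (T.card : ℝ) * (ρ / 2) ^ 2 * lam ^ 4 := by
    rw [integral_mul_const]
    congr 1
    rw [integral_finsetSum _ (fun t _ => hRi t)]
    rw [← nsmul_eq_mul, ← Finset.sum_const]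
    refine Finset.sum_congr rfl fun t ht => ?_
    rw [setIntegral_indicator (hRm t), inter_eq_self_of_subset_right (hu t ht).1, setIntegral_const,
      hRv, smul_eq_mul, mul_one]
  rw [h2, integral_const_mul] at h1
  set I : ℝ := ∫ a in Q, ‖off N B (cw (1 / K) b) a t0‖ ^ 2 with hI
  have hI0 : 0 ≤ I := integral_nonneg fun _ => by positivity
  have hρ4 : (ρ / 2) ^ 2 = 1 / (64 * (N:ℝ) ^ 2) := by
    rw [hρ]
    field_simp
    norm_num
  rw [hρ4] at h1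
  have h3 : (T.card : ℝ) * (lam ^ 4 * (N:ℝ) ^ 2) ≤ 256 * C3 ^ 2 * ((K:ℝ) ^ 4 * I) := by
    have h4 : (T.card : ℝ) * (lam ^ 4 * (N:ℝ) ^ 2) =
        (T.card : ℝ) * (1 / (64 * (N:ℝ) ^ 2)) * lam ^ 4 * (64 * (N:ℝ) ^ 4) := by
      field_simp
    rw [h4]
    calc (T.card : ℝ) * (1 / (64 * (N:ℝ) ^ 2)) * lam ^ 4 * (64 * (N:ℝ) ^ 4)
        ≤ A * I * (64 * (N:ℝ) ^ 4) := by gcongr
      _ = 256 * C3 ^ 2 * ((K:ℝ) ^ 4 * I) := by
          rw [hA]
          field_simp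
          ring
  refine h3.trans ?_
  have h5 : 256 * C3 ^ 2 ≤ C := by rw [hC]; linarith
  gcongr

end Pool.Agent.H593.U
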