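import Mathlib
import Pool.Agent.H593.U7.Stm

/-!
# Comparison of the discrepancy with a fixed trigonometric polynomial
-/

open MeasureTheory Set Filter Topology
open Pool.Agent.H383.Gauss
open scoped ENNReal

namespace Pool.Agent.H593.U

namespace PCMP

lemma J_sub0 (l : ℝ) : |J l - J 0| ≤ 8 * Real.pi * |l| := by
  unfold J
  rw [← intervalIntegral.integral_sub ((J_cont_aux l).intervalIntegrable _ _)
    ((J_cont_aux 0).intervalIntegrable _ _)]
  have h := intervalIntegral.norm_integral_le_of_norm_le_const (a := (-1:ℝ)) (b := 1)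
    (C := 4 * Real.pi * |l|)
    (f := fun x : ℝ => 2 * √(1 - x^2) * Real.cos (2 * Real.pi * l * x) -
      2 * √(1 - x^2) * Real.cos (2 * Real.pi * 0 * x)) (by
      intro x hx
      rw [uIoc_of_le (by norm_num)] at hx
      have hx1 : |x| ≤ 1 := abs_le.mpr ⟨hx.1.le, hx.2⟩
      have h1 := Real.abs_cos_sub_cos_le (2 * Real.pi * l * x) (2 * Real.pi * 0 * x)
      have h2 : |2 * Real.pi * l * x - 2 * Real.pi * 0 * x| = 2 * Real.pi * |l| * |x| := by
        rw [show 2 * Real.pi * l * x - 2 * Real.pi * 0 * x = 2 * Real.pi * l * x by ring,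
          abs_mul, abs_mul, abs_of_pos (by positivity : 0 < 2 * Real.pi)]
      rw [h2] at h1
      have h3 : √(1 - x ^ 2) ≤ 1 := by
        rw [Real.sqrt_le_left (by norm_num)]
        nlinarith [sq_nonneg x]
      have h4 : 0 ≤ √(1 - x ^ 2) := Real.sqrt_nonneg _
      rw [← mul_sub, norm_mul, Real.norm_eq_abs, Real.norm_eq_abs, abs_of_nonneg (by positivity)]
      calc 2 * √(1 - x ^ 2) * |Real.cos (2 * Real.pi * l * x) - Real.cos (2 * Real.pi * 0 * x)|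
          ≤ 2 * 1 * (2 * Real.pi * |l| * |x|) := by gcongr
        _ ≤ 2 * 1 * (2 * Real.pi * |l| * 1) := by gcongr
        _ = 4 * Real.pi * |l| := by ring)
  rw [Real.norm_eq_abs] at h
  refine h.trans (le_of_eq ?_)
  norm_num
  ring

lemma J_sub (l : ℝ) : |J l - Real.pi| ≤ 8 * Real.pi * |l| := by
  have h := J_sub0 l
  rwa [J_zero] at h

lemma bw_sub {δ : ℝ} (hδ : 0 ≤ δ) {p : ℤ × ℤ} (hp : p ≠ 0) :
    |bw δ p - bw 0 p| ≤ 8 * Real.pi * (δ * nz p) := by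
  have h1 := nz_ge_one hp
  have hpi := Real.pi_gt_three
  unfold bw
  rw [zero_mul, J_zero, ← mul_sub, abs_mul, abs_of_nonneg (by positivity)]
  have h2 := J_sub (δ * nz p)
  rw [abs_of_nonneg (mul_nonneg hδ (by linarith))] at h2
  have h3 : 1 / Real.pi ^ 2 * nz p ^ (-(3/2):ℝ) ≤ 1 * 1 := by
    have h4 : 1 / Real.pi ^ 2 ≤ 1 := by
      rw [div_le_one (by positivity)]; nlinarith
    have h5 : nz p ^ (-(3/2):ℝ) ≤ 1 := Real.rpow_le_one_of_one_le_of_nonpos h1 (by norm_num)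
    gcongr
  calc 1 / Real.pi ^ 2 * nz p ^ (-(3/2):ℝ) * |J (δ * nz p) - Real.pi|
      ≤ (1 * 1) * (8 * Real.pi * (δ * nz p)) := by gcongr
    _ = _ := by ring

lemma abs_bw_zero {p : ℤ × ℤ} (hp : p ≠ 0) : |bw 0 p| ≤ 1 := by
  have h1 := nz_ge_one hp
  have hpi := Real.pi_gt_three
  unfold bw
  rw [zero_mul, J_zero, abs_of_nonneg (by positivity)]
  have h5 : nz p ^ (-(3/2):ℝ) ≤ 1 := Real.rpow_le_one_of_one_le_of_nonpos h1 (by norm_num)
  calc 1 / Real.pi ^ 2 * nz p ^ (-(3/2):ℝ) * Real.pi ≤ 1 / Real.pi ^ 2 * 1 * Real.pi := by gcongr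
    _ = 1 / Real.pi := by field_simp
    _ ≤ 1 := by rw [div_le_one (by positivity)]; linarith

/-- the truncated sums for `δ` and `0` -/
lemma Va_fix (K : ℕ) : ∃ C : ℝ, 0 ≤ C ∧ ∀ (R R' δ : ℝ) (a : ℝ × ℝ), 0 ≤ δ → |R' - R| ≤ δ →
    |Va R' δ K a - Va R 0 K a| ≤ C * δ := by
  refine ⟨∑ p ∈ (ballS (K:ℝ)).erase 0, 10 * Real.pi * nz p, ?_, ?_⟩
  · apply Finset.sum_nonneg
    intro p _
    have := nz_nonneg p
    positivity
  · intro R R' δ a hδ hR
    unfold Va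
    rw [← Finset.sum_sub_distrib, Finset.sum_mul]
    refine (Finset.abs_sum_le_sum_abs _ _).trans (Finset.sum_le_sum ?_)
    intro p hp
    rw [Finset.mem_erase] at hp
    have hn := nz_nonneg p
    have hpi := Real.pi_pos
    have b1 := bw_sub hδ hp.1
    have b2 := abs_bw_zero hp.1
    have b3 := Real.abs_sin_sub_sin_le (2 * Real.pi * (R' * nz p) - Real.pi/4)
      (2 * Real.pi * (R * nz p) - Real.pi/4)
    have b4 : |2 * Real.pi * (R' * nz p) - Real.pi/4 - (2 * Real.pi * (R * nz p) - Real.pi/4)| ≤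
        2 * Real.pi * (δ * nz p) := by
      rw [show 2 * Real.pi * (R' * nz p) - Real.pi/4 - (2 * Real.pi * (R * nz p) - Real.pi/4) =
        2 * Real.pi * ((R' - R) * nz p) by ring, abs_mul (2 * Real.pi), abs_mul (R' - R), abs_of_nonneg hn,
        abs_of_pos (by positivity : 0 < 2 * Real.pi)]
      gcongr
    have b5 := Real.abs_sin_le_one (2 * Real.pi * (R' * nz p) - Real.pi/4)
    have b6 := Real.abs_cos_le_one (2 * Real.pi * dp p a)
    set s' := Real.sin (2 * Real.pi * (R' * nz p) - Real.pi/4)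
    set s := Real.sin (2 * Real.pi * (R * nz p) - Real.pi/4)
    set c := Real.cos (2 * Real.pi * dp p a)
    have e : bw δ p * s' * c - bw 0 p * s * c = ((bw δ p - bw 0 p) * s' + bw 0 p * (s' - s)) * c := by ring
    rw [e, abs_mul]
    calc |(bw δ p - bw 0 p) * s' + bw 0 p * (s' - s)| * |c|
        ≤ (|(bw δ p - bw 0 p) * s'| + |bw 0 p * (s' - s)|) * 1 := by
          gcongr
          exact abs_add_le _ _
      _ = |bw δ p - bw 0 p| * |s'| + |bw 0 p| * |s' - s| := by rw [mul_one, abs_mul, abs_mul]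
      _ ≤ (8 * Real.pi * (δ * nz p)) * 1 + 1 * (2 * Real.pi * (δ * nz p)) := by
          gcongr
          exact b3.trans b4
      _ = 10 * Real.pi * nz p * δ := by ring

/-- weights cut off -/
lemma S_cut (B : Finset (ℤ × ℤ)) (P : ℤ × ℤ → Prop) [DecidablePred P] (b : ℤ × ℤ → ℝ) (a : ℝ × ℝ) (t : ℝ) :
    S B (fun p => if P p then b p else 0) a t = S (B.filter P) b a t := by
  unfold S
  rw [Finset.sum_filter]
  apply Finset.sum_congr rfl
  intro p _
  beta_reduce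
  by_cases h : P p
  · rw [if_pos h, if_pos h]
  · rw [if_neg h, if_neg h, Complex.ofReal_zero, zero_mul]

open Classical in
/-- the tail of the sum -/
lemma Va_tail {K Y J : ℕ} (hK : K ≤ Y) (hJ : Y < 2 ^ J) (R δ : ℝ) (a : ℝ × ℝ) :
    |Va R δ Y a - Va R δ K a| ≤ ∑ j ∈ Finset.range J, ‖S ((sh Y j).filter (fun p => (K:ℝ) < nz p)) (bw δ) a R‖ := by
  have h1 : S (B0 Y) (bw δ) a R - S (B0 K) (bw δ) a R =
      S ((B0 Y).filter (fun p => (K:ℝ) < nz p)) (bw δ) a R := by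
    have h2 : B0 K = (B0 Y).filter (fun p => ¬ (K:ℝ) < nz p) := by
      ext p
      rw [Finset.mem_filter, mem_B0, mem_B0, not_lt]
      constructor
      · rintro ⟨h3, h4⟩
        have : (K:ℝ) ≤ Y := by exact_mod_cast hK
        exact ⟨⟨h3, h4.trans this⟩, h4⟩
      · rintro ⟨⟨h3, _⟩, h4⟩
        exact ⟨h3, h4⟩
    rw [h2]
    unfold S
    rw [← Finset.sum_filter_add_sum_filter_not (B0 Y) (fun p => (K:ℝ) < nz p)]
    ring
  have h2 : S ((B0 Y).filter (fun p => (K:ℝ) < nz p)) (bw δ) a R =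
      ∑ j ∈ Finset.range J, S ((sh Y j).filter (fun p => (K:ℝ) < nz p)) (bw δ) a R := by
    rw [← S_cut, S_shells hJ]
    apply Finset.sum_congr rfl
    intro j _
    rw [S_cut]
  rw [Va_eq, Va_eq, ← Complex.sub_im, ← mul_sub, h1, h2]
  refine (Complex.abs_im_le_norm _).trans ?_
  rw [norm_mul, norm_ph, one_mul]
  exact norm_sum_le _ _

/-- the normalised dual sum near the radius `R` -/
lemma W_near (K : ℕ) : ∃ C : ℝ, 0 ≤ C ∧ ∀ (η X R R' : ℝ) (a : ℝ × ℝ) (J : ℕ), 0 < η → η ≤ 1 / 4 →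
    4 ≤ X → (K:ℝ) ≤ X → X ≤ R → |R' - R| ≤ X ^ (-(1/2) - η) → ⌈(4 * X) ^ 3⌉₊ < 2 ^ J →
    |√R' / √R * Wa R' (X ^ (-(1/2) - η)) a - Va R 0 K a| ≤ C * X ^ (-η) +
      ∑ j ∈ Finset.range J, ‖S ((sh ⌈(4 * X) ^ 3⌉₊ j).filter (fun p => (K:ℝ) < nz p))
        (bw (X ^ (-(1/2) - η))) a R'‖ := by
  obtain ⟨C1, hC1, h1⟩ := Wa_sub_Va
  obtain ⟨C2, hC2, h2⟩ := abs_Wa_le
  obtain ⟨C3, hC3, h3⟩ := Va_fix K
  refine ⟨C2 + 3 * C1 + C3, by positivity, ?_⟩
  intro η X R R' a J hη hη4 hX hKX hXR hR' hJ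
  set δ := X ^ (-(1/2) - η) with hδ
  set Y := ⌈(4 * X) ^ 3⌉₊ with hY
  have hX0 : 0 < X := by linarith
  have hX1 : 1 ≤ X := by linarith
  have hδ0 : 0 < δ := by positivity
  have hδ1 : δ ≤ 1 := Real.rpow_le_one_of_one_le_of_nonpos hX1 (by linarith)
  have hR0 : 0 < R := by linarith
  have habs := abs_le.mp hR'
  have hR'1 : X / 2 ≤ R' := by linarith [habs.1]
  have hR'0 : 0 < R' := by linarith
  have hYX : X ^ 3 ≤ (Y:ℝ) := by
    have this0 : X ^ 3 ≤ (4 * X) ^ 3 := by gcongr; linarith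
    exact this0.trans (Nat.le_ceil _)
  have hYX1 : X ≤ (Y:ℝ) := by
    have : X ≤ X ^ 3 := by
      calc X = X * 1 := (mul_one X).symm
        _ ≤ X * X ^ 2 := by gcongr; exact one_le_pow₀ hX1
        _ = X ^ 3 := by ring
    exact this.trans hYX
  have hY1' : 1 ≤ Y := by
    have : (1:ℝ) ≤ Y := by linarith
    exact_mod_cast this
  have hKY : K ≤ Y := by
    have : (K:ℝ) ≤ Y := hKX.trans hYX1
    exact_mod_cast this
  have k1 := h1 R' δ Y a hR'0 hδ0 hY1'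
  have k2 := h2 R' δ a hR'0 hδ0
  have k3 := h3 R R' δ a hδ0.le hR'
  have k4 := Va_tail hKY hJ R' δ a
  set T := ∑ j ∈ Finset.range J, ‖S ((sh Y j).filter (fun p => (K:ℝ) < nz p)) (bw δ) a R'‖
  -- powers
  have hδη : δ ≤ X ^ (-η) := Real.rpow_le_rpow_of_exponent_le hX1 (by linarith)
  have e1 : 1 / X ≤ X ^ (-η) := by
    rw [one_div, ← Real.rpow_neg_one]
    exact Real.rpow_le_rpow_of_exponent_le hX1 (by linarith)
  have a1 : δ ^ (-(3/2):ℝ) ≤ X ^ (9/8:ℝ) := by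
    rw [hδ, ← Real.rpow_mul hX0.le]
    exact Real.rpow_le_rpow_of_exponent_le hX1 (by linarith)
  have e2 : δ ^ (-(3/2):ℝ) * (Y:ℝ) ^ (-(9/10):ℝ) ≤ 1 / X := by
    have a2 : (Y:ℝ) ^ (-(9/10):ℝ) ≤ X ^ (-(27/10):ℝ) := by
      calc (Y:ℝ) ^ (-(9/10):ℝ) ≤ (X^3) ^ (-(9/10):ℝ) :=
            Real.rpow_le_rpow_of_nonpos (by positivity) hYX (by norm_num)
        _ = X ^ (-(27/10):ℝ) := by
            rw [← Real.rpow_natCast, ← Real.rpow_mul hX0.le]; norm_num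
    calc δ ^ (-(3/2):ℝ) * (Y:ℝ) ^ (-(9/10):ℝ) ≤ X ^ (9/8:ℝ) * X ^ (-(27/10):ℝ) := by gcongr
      _ = X ^ (-(63/40):ℝ) := by rw [← Real.rpow_add hX0]; norm_num
      _ ≤ X ^ (-1:ℝ) := Real.rpow_le_rpow_of_exponent_le hX1 (by norm_num)
      _ = 1/X := by rw [Real.rpow_neg_one, one_div]
  have e3 : C1 * (1 / R' + δ ^ (-(3/2):ℝ) * (Y:ℝ) ^ (-(9/10):ℝ)) ≤ 3 * C1 * X ^ (-η) := by
    have : 1/R' ≤ 2/X := by rw [div_le_div_iff₀ hR'0 hX0]; linarith
    calc C1 * (1 / R' + δ ^ (-(3/2):ℝ) * (Y:ℝ) ^ (-(9/10):ℝ)) ≤ C1 * (2 / X + 1 / X) := by gcongr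
      _ = 3 * C1 * (1 / X) := by ring
      _ ≤ _ := by gcongr
  -- the square root
  have e4 : |√R' / √R - 1| ≤ δ / X := by
    have s0 : 0 < √R := Real.sqrt_pos.mpr hR0
    have s1 : 0 ≤ √R' := Real.sqrt_nonneg _
    have s2 : √R * √R = R := Real.mul_self_sqrt hR0.le
    have s3 : √R' * √R' = R' := Real.mul_self_sqrt hR'0.le
    have s4 : |√R' - √R| * (√R' + √R) = |R' - R| := by
      rw [← abs_of_pos (by positivity : 0 < √R' + √R), ← abs_mul]
      congr 1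
      linear_combination s3 - s2
    have s5 : √R' / √R - 1 = (√R' - √R) / √R := by field_simp
    rw [s5, abs_div, abs_of_pos s0, div_le_div_iff₀ s0 hX0]
    calc |√R' - √R| * X ≤ |√R' - √R| * (√R * √R) := by
          rw [s2]; gcongr
      _ ≤ |√R' - √R| * ((√R' + √R) * √R) := by gcongr; linarith
      _ = |R' - R| * √R := by rw [← mul_assoc, s4]
      _ ≤ δ * √R := by gcongr
  have e5 : δ / X * (C2 * δ ^ (-(3/2):ℝ)) ≤ C2 * X ^ (-η) := by
    have b1 : δ * δ ^ (-(3/2):ℝ) = δ ^ (-(1/2):ℝ) := by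
      nth_rewrite 1 [← Real.rpow_one δ]
      rw [← Real.rpow_add hδ0]; norm_num
    have b2 : δ ^ (-(1/2):ℝ) ≤ X ^ (3/8:ℝ) := by
      rw [hδ, ← Real.rpow_mul hX0.le]
      exact Real.rpow_le_rpow_of_exponent_le hX1 (by linarith)
    calc δ / X * (C2 * δ ^ (-(3/2):ℝ)) = C2 * ((δ * δ ^ (-(3/2):ℝ)) * (1 / X)) := by ring
      _ ≤ C2 * (X ^ (3/8:ℝ) * (1 / X)) := by rw [b1]; gcongr
      _ = C2 * X ^ (-(5/8):ℝ) := by
          rw [one_div, ← Real.rpow_neg_one, ← Real.rpow_add hX0]; norm_num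
      _ ≤ C2 * X ^ (-η) := by
          gcongr
          linarith
  have e6 : |√R' / √R * Wa R' δ a - Wa R' δ a| ≤ C2 * X ^ (-η) := by
    have : √R' / √R * Wa R' δ a - Wa R' δ a = (√R' / √R - 1) * Wa R' δ a := by ring
    rw [this, abs_mul]
    calc |√R' / √R - 1| * |Wa R' δ a| ≤ δ / X * (C2 * δ ^ (-(3/2):ℝ)) := by gcongr
      _ ≤ _ := e5
  have e7 : √R' / √R * Wa R' δ a - Va R 0 K a = (√R' / √R * Wa R' δ a - Wa R' δ a) +
      (Wa R' δ a - Va R' δ Y a) + (Va R' δ Y a - Va R' δ K a) + (Va R' δ K a - Va R 0 K a) := by ring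
  rw [e7]
  have m1 := abs_add_le ((√R' / √R * Wa R' δ a - Wa R' δ a) +
      (Wa R' δ a - Va R' δ Y a) + (Va R' δ Y a - Va R' δ K a)) (Va R' δ K a - Va R 0 K a)
  have m2 := abs_add_le ((√R' / √R * Wa R' δ a - Wa R' δ a) +
      (Wa R' δ a - Va R' δ Y a)) (Va R' δ Y a - Va R' δ K a)
  have m3 := abs_add_le (√R' / √R * Wa R' δ a - Wa R' δ a) (Wa R' δ a - Va R' δ Y a)
  have m4 : C3 * δ ≤ C3 * X ^ (-η) := by gcongr
  calc _ ≤ C2 * X ^ (-η) + 3 * C1 * X ^ (-η) + T + C3 * X ^ (-η) := by linarith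
    _ = _ := by ring

end PCMP

open PCMP in
theorem cmp : S_CMP := by
  intro η hη hη4 K e he
  obtain ⟨C, hC, h⟩ := W_near K
  have hlim : Tendsto (fun X : ℝ => (C + 14) * X ^ (-η)) atTop (𝓝 0) := by
    have := (tendsto_rpow_neg_atTop hη).const_mul (C + 14)
    rwa [mul_zero] at this
  have hev : ∀ᶠ X : ℝ in atTop, (C + 14) * X ^ (-η) ≤ e ∧ 4 ≤ X ∧ (K:ℝ) ≤ X :=
    (hlim.eventually (ge_mem_nhds he)).and ((eventually_ge_atTop 4).and (eventually_ge_atTop _))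
  obtain ⟨X0, hX0⟩ := eventually_atTop.mp hev
  refine ⟨max X0 1, le_max_right _ _, ?_⟩
  intro X R a J hX hXR hRX hJ
  obtain ⟨h1, h2, h3⟩ := hX0 X ((le_max_left _ _).trans hX)
  have hX0' : 0 < X := by linarith
  have hX1 : 1 ≤ X := by linarith
  set δ := X ^ (-(1/2) - η) with hδ
  have hδ0 : 0 < δ := by positivity
  have hδ1 : δ ≤ 1 := Real.rpow_le_one_of_one_le_of_nonpos hX1 (by linarith)
  have hR0 : 0 < R := by linarith
  have w1 := h η X R (R + δ) a J hη hη4 h2 h3 hXR (by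
    rw [add_sub_cancel_left, abs_of_pos hδ0]) hJ
  have w2 := h η X R (R - δ) a J hη hη4 h2 h3 hXR (by
    rw [sub_sub_cancel_left, abs_neg, abs_of_pos hδ0]) hJ
  rw [← hδ] at w1 w2
  have k1 := Na_le_W a (R := R) (δ := δ) (by linarith) hδ0
  have k2 := le_Na_W a (R := R) (δ := δ) hδ0 (by linarith)
  set Tp := ∑ j ∈ Finset.range J, ‖S ((sh ⌈(4 * X) ^ 3⌉₊ j).filter (fun p => (K:ℝ) < nz p)) (bw δ) a (R + δ)‖
    with hTp
  set Tm := ∑ j ∈ Finset.range J, ‖S ((sh ⌈(4 * X) ^ 3⌉₊ j).filter (fun p => (K:ℝ) < nz p)) (bw δ) a (R - δ)‖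
    with hTm
  have hTp0 : 0 ≤ Tp := Finset.sum_nonneg fun j _ => norm_nonneg _
  have hTm0 : 0 ≤ Tm := Finset.sum_nonneg fun j _ => norm_nonneg _
  have hpi := Real.pi_gt_three
  have hpi2 := Real.pi_lt_d2
  have s0 : 0 < √R := Real.sqrt_pos.mpr hR0
  have s1 : √R * √R = R := Real.mul_self_sqrt hR0.le
  have s2 : 1 ≤ √R := Real.one_le_sqrt.mpr (by linarith)
  -- the first error
  have r1 : √R * δ ≤ (3/2) * X ^ (-η) := by
    have q1 : √R ≤ (3/2) * √X := by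
      rw [Real.sqrt_le_left (by positivity)]
      have : √X ^ 2 = X := Real.sq_sqrt hX0'.le
      nlinarith
    have q2 : √X * δ = X ^ (-η) := by
      rw [hδ, Real.sqrt_eq_rpow, ← Real.rpow_add hX0']
      congr 1; ring
    calc √R * δ ≤ (3/2) * √X * δ := by gcongr
      _ = (3/2) * (√X * δ) := by ring
      _ = _ := by rw [q2]
  have hδη : δ ≤ X ^ (-η) := Real.rpow_le_rpow_of_exponent_le hX1 (by linarith)
  have r2 : Real.pi * (2 * R * δ + δ ^ 2) / √R ≤ 14 * X ^ (-η) := by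
    rw [div_le_iff₀ s0]
    have q3 : R * δ ≤ (3/2) * X ^ (-η) * √R := by
      calc R * δ = (√R * δ) * √R := by
            nth_rewrite 1 [← s1]; ring
        _ ≤ _ := by gcongr
    have q4 : δ ^ 2 ≤ X ^ (-η) * √R := by
      calc δ ^ 2 = δ * δ := by ring
        _ ≤ X ^ (-η) * √R := by
            gcongr
            linarith
    have q5 : 0 ≤ X ^ (-η) * √R := by positivity
    calc Real.pi * (2 * R * δ + δ ^ 2) ≤ 3.15 * (2 * ((3/2) * X ^ (-η) * √R) + X ^ (-η) * √R) := by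
          have q6 : 2 * R * δ + δ ^ 2 ≤ 2 * ((3/2) * X ^ (-η) * √R) + X ^ (-η) * √R := by linarith
          have q7 : 0 ≤ 2 * R * δ + δ ^ 2 := by positivity
          exact mul_le_mul hpi2.le q6 q7 (by norm_num)
      _ ≤ _ := by nlinarith
  have hup : Pa a R / √R ≤ 14 * X ^ (-η) + √(R + δ) / √R * Wa (R + δ) δ a := by
    refine le_trans ?_ (add_le_add_left r2 _)
    rw [div_mul_eq_mul_div, ← add_div]
    gcongr
    unfold Pa
    linarith
  have hlow : -(14 * X ^ (-η)) + √(R - δ) / √R * Wa (R - δ) δ a ≤ Pa a R / √R := by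
    have r3 : -(14 * X ^ (-η)) ≤ -(Real.pi * (2 * R * δ + δ ^ 2) / √R) := neg_le_neg r2
    refine (add_le_add_left r3 _).trans ?_
    rw [div_mul_eq_mul_div, ← neg_div, ← add_div]
    gcongr
    unfold Pa
    have : 0 ≤ Real.pi * δ ^ 2 := by positivity
    linarith
  have w1' := abs_le.mp w1
  have w2' := abs_le.mp w2
  rw [abs_le]
  constructor
  · linarith [w2'.1]
  · linarith [w1'.2]

end Pool.Agent.H593.U
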