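import Mathlib
import Pool.Agent.H593.U7.Stm

/-! EN: sum of the level energies. -/

open MeasureTheory Set Filter Topology
open Pool.Agent.H383.Gauss

namespace Pool.Agent.H593.U.PEN

open Pool.Agent.H593.U

/-- the pairs for one `l` -/
lemma fiber_le (K N : ℕ) (T : ℝ) (B : Finset (ℤ × ℤ)) (hB : B ⊆ An K) (l : ℤ × ℤ) :
    ∑ p ∈ (PG (IL N B) (fun y => y.1)).filter (fun p => p.1.1 = l),
      Real.exp (-(Real.pi * T ^ 2 * (lv p.1.1 p.1.2 - lv p.2.1 p.2.2) ^ 2)) ≤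
    EG ((An K).filter (fun k => k + l ∈ An K)) (fun _ => 0) (lv l) T := by
  unfold EG
  have hF : ∀ p ∈ (PG (IL N B) (fun y => y.1)).filter (fun p => p.1.1 = l),
      p.1.1 = l ∧ p.2.1 = l ∧ (p.1.2 ∈ B ∧ p.1.2 + l ∈ B) ∧ (p.2.2 ∈ B ∧ p.2.2 + l ∈ B) := by
    intro p hp
    rw [Finset.mem_filter, mem_PG] at hp
    obtain ⟨⟨⟨h1, h2⟩, h3⟩, h4⟩ := hp
    unfold IL at h1 h2
    rw [Finset.mem_filter, Finset.mem_product] at h1 h2
    have h5 : p.2.1 = l := by rw [← h4]; exact h3.symm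
    refine ⟨h4, h5, ⟨h1.1.2, ?_⟩, ⟨h2.1.2, ?_⟩⟩
    · have := h1.2; rw [h4] at this; exact this
    · have := h2.2; rw [h5] at this; exact this
  have h1 : ∑ p ∈ (PG (IL N B) (fun y => y.1)).filter (fun p => p.1.1 = l),
      Real.exp (-(Real.pi * T ^ 2 * (lv p.1.1 p.1.2 - lv p.2.1 p.2.2) ^ 2)) =
      ∑ q ∈ ((PG (IL N B) (fun y => y.1)).filter (fun p => p.1.1 = l)).image
        (fun p : ((ℤ × ℤ) × (ℤ × ℤ)) × ((ℤ × ℤ) × (ℤ × ℤ)) => (p.1.2, p.2.2)),
        Real.exp (-(Real.pi * T ^ 2 * (lv l q.1 - lv l q.2) ^ 2)) := by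
    rw [Finset.sum_image]
    · refine Finset.sum_congr rfl fun p hp => ?_
      obtain ⟨a1, a2, -, -⟩ := hF p hp
      rw [a1, a2]
    · intro p hp q hq hpq
      obtain ⟨a1, a2, -, -⟩ := hF p (Finset.mem_coe.1 hp)
      obtain ⟨b1, b2, -, -⟩ := hF q (Finset.mem_coe.1 hq)
      have hpq' : (p.1.2, p.2.2) = (q.1.2, q.2.2) := hpq
      obtain ⟨h3, h4⟩ := Prod.mk.inj hpq'
      exact Prod.ext (Prod.ext (a1.trans b1.symm) h3) (Prod.ext (a2.trans b2.symm) h4)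
  rw [h1]
  refine Finset.sum_le_sum_of_subset_of_nonneg ?_ fun _ _ _ => (Real.exp_pos _).le
  intro q hq
  rw [Finset.mem_image] at hq
  obtain ⟨p, hp, rfl⟩ := hq
  obtain ⟨-, -, ⟨a1, a2⟩, ⟨a3, a4⟩⟩ := hF p hp
  rw [mem_PG]
  refine ⟨⟨?_, ?_⟩, rfl⟩
  · exact Finset.mem_filter.2 ⟨hB a1, hB a2⟩
  · exact Finset.mem_filter.2 ⟨hB a3, hB a4⟩

lemma EG_le (K N : ℕ) (T : ℝ) (B : Finset (ℤ × ℤ)) (hB : B ⊆ An K) :
    EG (IL N B) (fun y => y.1) (fun y => lv y.1 y.2) T ≤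
      ∑ l ∈ (box N).erase 0, EG ((An K).filter (fun k => k + l ∈ An K)) (fun _ => 0) (lv l) T := by
  have hmaps : ∀ p ∈ PG (IL N B) (fun y => y.1), p.1.1 ∈ (box N).erase 0 := by
    intro p hp
    rw [mem_PG] at hp
    have h1 := hp.1.1
    unfold IL at h1
    rw [Finset.mem_filter, Finset.mem_product] at h1
    exact h1.1.1
  have h2 : EG (IL N B) (fun y => y.1) (fun y => lv y.1 y.2) T =
      ∑ l ∈ (box N).erase 0, ∑ p ∈ (PG (IL N B) (fun y => y.1)).filter (fun p => p.1.1 = l),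
        Real.exp (-(Real.pi * T ^ 2 * (lv p.1.1 p.1.2 - lv p.2.1 p.2.2) ^ 2)) := by
    unfold EG
    exact (Finset.sum_fiberwise_of_maps_to hmaps _).symm
  rw [h2]
  exact Finset.sum_le_sum fun l _ => fiber_le K N T B hB l

end Pool.Agent.H593.U.PEN

namespace Pool.Agent.H593.U

theorem en : S_EN := by
  obtain ⟨C, hC, hle⟩ := level_energy
  refine ⟨C * 4097, by positivity, ?_⟩
  intro K N x T B hx hK hT hN hB
  have hx1 : 1 ≤ x := by linarith
  have hx0 : 0 < x := by linarith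
  refine (PEN.EG_le K N T B hB).trans ?_
  have h1 : ∑ l ∈ (box N).erase 0, EG ((An K).filter (fun k => k + l ∈ An K)) (fun _ => 0) (lv l) T ≤
      ∑ l ∈ (box N).erase 0, (C * x ^ 2470 + C * x ^ 3400 * (1 / (mx l : ℝ) ^ 2)) := by
    refine Finset.sum_le_sum fun l hl => ?_
    rw [Finset.mem_erase, mem_box_mx] at hl
    have h2 : (mx l : ℝ) ≤ x ^ 510 := le_trans (by exact_mod_cast hl.2) hN
    refine (hle K x T l hx hK hT hl.1 h2).trans (le_of_eq ?_)
    ring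
  refine h1.trans ?_
  rw [Finset.sum_add_distrib, Finset.sum_const, nsmul_eq_mul, ← Finset.mul_sum]
  have hx510 : 1 ≤ x ^ 510 := one_le_pow₀ hx1
  have h3 : (((box N).erase 0).card : ℝ) ≤ 9 * x ^ 1020 := by
    have h4 : ((box N).erase 0).card ≤ (2 * N + 1) ^ 2 := by
      rw [← card_box]
      exact Finset.card_le_card (Finset.erase_subset _ _)
    have h5 : (((box N).erase 0).card : ℝ) ≤ (2 * (N:ℝ) + 1) ^ 2 := by exact_mod_cast h4
    refine h5.trans ?_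
    have h6 : 2 * (N:ℝ) + 1 ≤ 3 * x ^ 510 := by linarith
    have h7 : (0:ℝ) ≤ 2 * (N:ℝ) + 1 := by positivity
    calc (2 * (N:ℝ) + 1) ^ 2 ≤ (3 * x ^ 510) ^ 2 := pow_le_pow_left₀ h7 h6 2
      _ = 9 * x ^ 1020 := by ring
  have h8 : Real.log N ≤ 510 * x := by
    rcases Nat.eq_zero_or_pos N with h | h
    · rw [h, Nat.cast_zero, Real.log_zero]
      positivity
    · have h9 : (0:ℝ) < N := by exact_mod_cast h
      have h10 : Real.log N ≤ Real.log (x ^ 510) := Real.log_le_log h9 hN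
      rw [Real.log_pow] at h10
      have h11 : Real.log x ≤ x := (Real.log_le_sub_one_of_pos hx0).trans (by linarith)
      refine h10.trans ?_
      push_cast
      linarith
  have h12 : ∑ l ∈ (box N).erase 0, (1 / (mx l : ℝ) ^ 2) ≤ 4088 * x := by
    refine (sum_inv_sq_mx N).trans ?_
    linarith
  have h13 : (((box N).erase 0).card : ℝ) * (C * x ^ 2470) ≤ C * (9 * x ^ 3490) := by
    calc (((box N).erase 0).card : ℝ) * (C * x ^ 2470) ≤ 9 * x ^ 1020 * (C * x ^ 2470) :=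
          mul_le_mul_of_nonneg_right h3 (by positivity)
      _ = C * (9 * x ^ 3490) := by ring
  have h14 : C * x ^ 3400 * ∑ l ∈ (box N).erase 0, (1 / (mx l : ℝ) ^ 2) ≤ C * (4088 * x ^ 3490) := by
    calc C * x ^ 3400 * ∑ l ∈ (box N).erase 0, (1 / (mx l : ℝ) ^ 2) ≤ C * x ^ 3400 * (4088 * x) :=
          mul_le_mul_of_nonneg_left h12 (by positivity)
      _ = C * (4088 * x ^ 3401) := by ring
      _ ≤ C * (4088 * x ^ 3490) := by
          have : x ^ 3401 ≤ x ^ 3490 := pow_le_pow_right₀ hx1 (by norm_num)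
          have hc : 0 < C := hC
          nlinarith
  calc (((box N).erase 0).card : ℝ) * (C * x ^ 2470) +
        C * x ^ 3400 * ∑ l ∈ (box N).erase 0, (1 / (mx l : ℝ) ^ 2)
      ≤ C * (9 * x ^ 3490) + C * (4088 * x ^ 3490) := add_le_add h13 h14
    _ = C * 4097 * x ^ 3490 := by ring

end Pool.Agent.H593.U
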