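import Mathlib
import Pool.Agent.H593.U7.Stm

/-!
# Consequences of the almost periodicity
-/

open MeasureTheory Set Filter Topology
open Pool.Agent.H383.Gauss
open scoped ENNReal

namespace Pool.Agent.H593.U

/-- **MEAS.** The radii with a large discrepancy at some centre.

Proof. `S_AP` for `p` with `ε = 1`, `K = K0`; `|Va R 0 K a| ≤ D` with `D = ∑ p ∈ B0 K, |bw 0 p|`. With `G(R) = ⨆ a, ofReal |Pa a R/√R - Va R 0 K a|` (`∫⁻ G^p ≤ ofReal H`):
`|Pa a R|/√R ≤ G + D`. For `V ≤ 2D + 2`: the measure is at most `H ≤ (2D+2)^p H V^(-p)`. For `V > 2D + 2` the set is contained in `{R ∈ [X, X+H] | ofReal (V/2) ≤ G(R)}`, Chebyshev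
(`meas_ge_le_lintegral_div` needs measurability of `G`; use instead that the lower integral of a majorant is enough: `MeasureTheory.lintegral` of a non-measurable function is the supremum over measurable minorants,
so first prove `G` (a.e.) measurable: for `R > 0`, `G R = ⨆ a, ofReal |(Na a R - π R^2)/√R - Va R 0 K a|` is right/left ... or simpler: it is the supremum over the countable dense set? If this is awkward: the set itself
`{R | ∃ a, V √R < |Pa a R|}` is measurable (or its outer measure can be used): `mul_meas_ge_le_lintegral₀`-free argument: let `E` be the set; `∫⁻ G^p ≥ ∫⁻ E.indicator (ofReal (V/2)^p) ≥ ofReal (V/2)^p * volume E`,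
where the last inequality `c * μ E ≤ ∫⁻ indicator E c` needs `E` measurable: `E ∩ Ici 1` is measurable because `R ↦ ⨆ a, Na a R` and `R ↦ ⨅ a, Na a R` are monotone in `R ≥ 0` (`Na_mono`; bounded by `Pa_lin`), so
`{R ≥ 1 | ∃ a, V √R < |Na a R - π R^2|} = {R ≥ 1 | V √R < (⨆ a, Na a R) - π R^2} ∪ {R ≥ 1 | (⨅ a, Na a R) - π R^2 < -V √R}` (`lt_ciSup_iff`, `ciInf_lt_iff`).) -/
def S_MEAS : Prop := ∀ p : ℝ, 1 ≤ p → p < 6 → ∃ c C X0 : ℝ, 0 < c ∧ c < 1 ∧ 0 < C ∧ ∀ X H V : ℝ, X0 ≤ X → X ^ (1 - c) ≤ H → H ≤ X → 0 < V →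
  volume {R : ℝ | X ≤ R ∧ R ≤ X + H ∧ ∃ a : ℝ × ℝ, V * √R < |Pa a R|} ≤ ENNReal.ofReal (C * (H * V ^ (-p)))

/-- **UNIT.** Almost all unit intervals: exponent `4/7 + ε` for all radii in the interval and all centres.

Proof. We may assume `ε ≤ 1/14` (the condition is stronger for larger `ε`, as `R ≥ 1`). For small `X` the number of `n` is at most `X + 2`. For large `X` put `V = X^(1/14+ε)`,
`η = V/(100 √X) ≤ 1/100`: `R^(4/7+ε) ≥ √R V` for `R ≥ X`. `persist` (`U/Fin2`): for each `n ∈ A` there are `R_n ∈ [n, n+1]`, `a`, and `c ∈ [R_n - η, R_n]` with `V/4 √R' < |Pa a R'|` on `[c, c+η]`.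
For the even (odd) `n ∈ A` the `R_n` are pairwise at distance `≥ 1 > 2η`, so `pack` (`U/Fin2`) gives `card * η ≤ volume {R' ∈ [X-1, 2X+2] | ∃ a, V/4 √R' < |Pa a R'|}`, and this is
`≤ C X (V/4)^(-p)` by `S_MEAS` with `p = 6 - ε` for the windows `[X-1, 2(X-1)]` and `[2(X-1), 4(X-1)]` (`H = X`). So `card A ≤ C' X^(3/2) V^(-p-1) = C' X^(3/2 - (7-ε)(1/14+ε)) ≤ C' X^(1-5ε)`. -/
def S_UNIT : Prop := ∀ ε : ℝ, 0 < ε → ∃ ε' C : ℝ, 0 < ε' ∧ 0 < C ∧ ∀ (X : ℝ) (A : Finset ℕ), 1 ≤ X →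
  (∀ n ∈ A, X ≤ n ∧ (n:ℝ) ≤ 2 * X ∧ ∃ R : ℝ, n ≤ R ∧ R ≤ n + 1 ∧ ∃ a : ℝ × ℝ, R ^ (4/7 + ε) < |Pa a R|) →
  (A.card : ℝ) ≤ C * X ^ (1 - ε')

/-- **J0.** The value of the Bessel kernel at `0`: the area `π` of the unit disc is `∫ 2 √(1-x²)`. -/
def S_J0 : Prop := J 0 = Real.pi

end Pool.Agent.H593.U
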