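import Mathlib
import Pool.Agent.H593.U7.Stm2

/-!
# The value of the Bessel kernel at `0`
-/

open MeasureTheory Set Filter Topology
open Pool.Agent.H383.Gauss
open scoped ENNReal

namespace Pool.Agent.H593.U

theorem j0 : S_J0 := by
  show J 0 = Real.pi
  unfold J
  simp only [mul_zero, zero_mul, Real.cos_zero, mul_one]
  rw [intervalIntegral.integral_const_mul, integral_sqrt_one_sub_sq]
  ring

end Pool.Agent.H593.U
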