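import Mathlib
import Pool.Agent.H593.U7.Stm

/-!
# Existence of the limit law (Prokhorov)
-/

open MeasureTheory Set Filter Topology
open scoped ENNReal NNReal BoundedContinuousFunction

namespace Pool.Agent.H593.U.PLAW1

variable {n : ℕ}

/-- the normalised law on the window `[X, X + H]` -/
noncomputable def law (M : ℝ → Fin n → ℝ) (X H : ℝ) : Measure (Fin n → ℝ) :=
  (ENNReal.ofReal (1 / H)) • (volume.restrict (Icc X (X + H))).map M

lemma aem_win {M : ℝ → Fin n → ℝ} (hM : AEMeasurable M (volume.restrict (Ici 1))) {X H : ℝ} (hX : 1 ≤ X) :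
    AEMeasurable M (volume.restrict (Icc X (X + H))) :=
  hM.mono_measure (Measure.restrict_mono (fun _ ht => hX.trans ht.1) le_rfl)

lemma vol_win (X H : ℝ) : volume (Icc X (X + H)) = ENNReal.ofReal H := by
  rw [Real.volume_Icc]
  congr 1
  ring

lemma ofReal_inv_mul {H : ℝ} (hH : 0 < H) : ENNReal.ofReal (1 / H) * ENNReal.ofReal H = 1 := by
  rw [← ENNReal.ofReal_mul (by positivity), one_div, inv_mul_cancel₀ hH.ne', ENNReal.ofReal_one]

lemma law_prob {M : ℝ → Fin n → ℝ} (hM : AEMeasurable M (volume.restrict (Ici 1))) {X H : ℝ} (hX : 1 ≤ X)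
    (hH : 0 < H) : IsProbabilityMeasure (law M X H) := by
  constructor
  rw [law, Measure.smul_apply, Measure.map_apply_of_aemeasurable (aem_win hM hX) MeasurableSet.univ,
    preimage_univ, Measure.restrict_apply_univ, vol_win, smul_eq_mul, ofReal_inv_mul hH]

lemma integral_law {M : ℝ → Fin n → ℝ} (hM : AEMeasurable M (volume.restrict (Ici 1))) {X H : ℝ} (hX : 1 ≤ X)
    (hH : 0 < H) {g : (Fin n → ℝ) → ℝ} (hg : Continuous g) :
    ∫ x, g x ∂(law M X H) = avg X H (fun t => g (M t)) := by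
  rw [law, integral_smul_measure, integral_map (aem_win hM hX) hg.aestronglyMeasurable, avg,
    ENNReal.toReal_ofReal (by positivity), smul_eq_mul]

lemma lintegral_law {M : ℝ → Fin n → ℝ} (hM : AEMeasurable M (volume.restrict (Ici 1))) {X H : ℝ} (hX : 1 ≤ X)
    {g : (Fin n → ℝ) → ℝ≥0∞} (hg : Measurable g) :
    ∫⁻ x, g x ∂(law M X H) = ENNReal.ofReal (1 / H) * ∫⁻ t in Icc X (X + H), g (M t) := by
  rw [law, lintegral_smul_measure, lintegral_map' hg.aemeasurable (aem_win hM hX), smul_eq_mul]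

lemma int_bdd {M : ℝ → Fin n → ℝ} {X H : ℝ} (hM : AEMeasurable M (volume.restrict (Icc X (X + H))))
    {g : (Fin n → ℝ) → ℝ} (hg : Continuous g) {D : ℝ} (hD : ∀ x, |g x| ≤ D) :
    Integrable (fun t => g (M t)) (volume.restrict (Icc X (X + H))) := by
  have : IsFiniteMeasure (volume.restrict (Icc X (X + H))) := ⟨by
    rw [Measure.restrict_apply_univ, vol_win]; exact ENNReal.ofReal_lt_top⟩
  refine Integrable.of_bound (C := D) ?_ ?_
  · exact (hg.measurable.comp_aemeasurable hM).aestronglyMeasurable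
  · exact Filter.Eventually.of_forall (fun t => by rw [Real.norm_eq_abs]; exact hD _)

/-- comparison of the window means along `M` and along `A` -/
lemma cmp_avg {M A : ℝ → Fin n → ℝ} {X H : ℝ} (hH : 0 < H)
    (hM : AEMeasurable M (volume.restrict (Icc X (X + H)))) (hA : Continuous A)
    {g : (Fin n → ℝ) → ℝ} {Lg : ℝ≥0} (hg : LipschitzWith Lg g) {D : ℝ} (hD : ∀ x, |g x| ≤ D) {ε : ℝ} (hε : 0 ≤ ε)
    (h : ∫⁻ t in Icc X (X + H), ENNReal.ofReal ‖M t - A t‖ ≤ ENNReal.ofReal (ε * H)) :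
    |avg X H (fun t => g (M t)) - avg X H (fun t => g (A t))| ≤ Lg * ε := by
  have hgc : Continuous g := hg.continuous
  have i1 := int_bdd hM hgc hD
  have i2 := int_bdd (X := X) (H := H) (hA.measurable.aemeasurable) hgc hD
  unfold avg
  rw [← mul_sub, ← integral_sub i1 i2, abs_mul, abs_of_pos (by positivity : (0:ℝ) < 1 / H)]
  have e1 : |∫ t in Icc X (X + H), (g (M t) - g (A t))| ≤ Lg * (ε * H) := by
    rw [← Real.norm_eq_abs]
    refine (norm_integral_le_lintegral_norm _).trans ?_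
    refine ENNReal.toReal_le_of_le_ofReal (by positivity) ?_
    calc ∫⁻ t in Icc X (X + H), ENNReal.ofReal ‖g (M t) - g (A t)‖
        ≤ ∫⁻ t in Icc X (X + H), ENNReal.ofReal Lg * ENNReal.ofReal ‖M t - A t‖ := by
          refine lintegral_mono (fun t => ?_)
          rw [← ENNReal.ofReal_mul (by positivity)]
          refine ENNReal.ofReal_le_ofReal ?_
          have := hg.dist_le_mul (M t) (A t)
          rwa [dist_eq_norm, dist_eq_norm] at this
      _ = ENNReal.ofReal Lg * ∫⁻ t in Icc X (X + H), ENNReal.ofReal ‖M t - A t‖ := by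
          rw [lintegral_const_mul' _ _ ENNReal.ofReal_ne_top]
      _ ≤ ENNReal.ofReal Lg * ENNReal.ofReal (ε * H) := by gcongr
      _ = ENNReal.ofReal (Lg * (ε * H)) := by
          rw [← ENNReal.ofReal_mul (by positivity)]
  calc 1 / H * |∫ t in Icc X (X + H), (g (M t) - g (A t))| ≤ 1 / H * (Lg * (ε * H)) := by gcongr
    _ = Lg * ε := by field_simp

lemma self_win {X c : ℝ} (hX : 1 ≤ X) (hc : 0 < c) : X ^ (1 - c) ≤ X := by
  calc X ^ (1 - c) ≤ X ^ (1:ℝ) := Real.rpow_le_rpow_of_exponent_le hX (by linarith)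
    _ = X := Real.rpow_one X

lemma big_win {c H0 : ℝ} (hc1 : c < 1) : ∃ X1 : ℝ, ∀ X : ℝ, X1 ≤ X → H0 ≤ X ^ (1 - c) := by
  have h := (tendsto_rpow_atTop (by linarith : (0:ℝ) < 1 - c)).eventually_ge_atTop H0
  exact eventually_atTop.1 h

/-- the window means of `g ∘ M` are Cauchy -/
lemma cauchy_avg {M : ℝ → Fin n → ℝ} {A : ℕ → ℝ → Fin n → ℝ} {c : ℝ} (hc1 : c < 1)
    (hM : AEMeasurable M (volume.restrict (Ici 1))) (hA : ∀ K, Continuous (A K))
    (hmean : ∀ (K : ℕ) (g : (Fin n → ℝ) → ℝ), Continuous g → HasMean (fun t => g (A K t)))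
    (happ : ∀ ε : ℝ, 0 < ε → ∃ (K : ℕ) (X0 : ℝ), ∀ X H : ℝ, X0 ≤ X → X ^ (1 - c) ≤ H → H ≤ X →
      ∫⁻ t in Icc X (X + H), ENNReal.ofReal ‖M t - A K t‖ ≤ ENNReal.ofReal (ε * H))
    {g : (Fin n → ℝ) → ℝ} {Lg : ℝ≥0} (hg : LipschitzWith Lg g) {D : ℝ} (hD : ∀ x, |g x| ≤ D) {ε : ℝ} (hε : 0 < ε) :
    ∃ ℓ X0 : ℝ, ∀ X H : ℝ, X0 ≤ X → X ^ (1 - c) ≤ H → H ≤ X → |avg X H (fun t => g (M t)) - ℓ| ≤ ε := by
  have hL : (0:ℝ) < (Lg:ℝ) + 1 := by positivity
  obtain ⟨K, X0, hK⟩ := happ (ε / (2 * ((Lg:ℝ) + 1))) (by positivity)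
  obtain ⟨ℓ, hℓ⟩ := hmean K g hg.continuous
  obtain ⟨H0, _, hH0⟩ := hℓ (ε / 2) (by positivity)
  obtain ⟨X1, hX1⟩ := big_win (H0 := H0) hc1
  refine ⟨ℓ, max 1 (max X0 X1), fun X H hX h1 h2 => ?_⟩
  have a1 : 1 ≤ X := (le_max_left _ _).trans hX
  have a2 : X0 ≤ X := ((le_max_left _ _).trans (le_max_right _ _)).trans hX
  have a3 : X1 ≤ X := ((le_max_right _ _).trans (le_max_right _ _)).trans hX
  have hH : 0 < H := lt_of_lt_of_le (Real.rpow_pos_of_pos (by linarith) _) h1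
  have b1 := cmp_avg hH (aem_win hM a1) (hA K) hg hD (by positivity) (hK X H a2 h1 h2)
  have b2 := hH0 X H ((hX1 X a3).trans h1)
  have b3 : (Lg:ℝ) * (ε / (2 * ((Lg:ℝ) + 1))) ≤ ε / 2 := by
    rw [mul_div_assoc', div_le_div_iff₀ (by positivity) (by positivity)]
    nlinarith [hε, Lg.coe_nonneg]
  have b4 := abs_sub_le (avg X H (fun t => g (M t))) (avg X H (fun t => g (A K t))) ℓ
  linarith

/-- first moments of the laws -/
lemma mom_law {M A : ℝ → Fin n → ℝ} (hM : AEMeasurable M (volume.restrict (Ici 1))) {X D : ℝ} (hX : 1 ≤ X)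
    (hD : ∀ t, ‖A t‖ ≤ D)
    (h : ∫⁻ t in Icc X (X + X), ENNReal.ofReal ‖M t - A t‖ ≤ ENNReal.ofReal (1 * X)) :
    ∫⁻ x, ENNReal.ofReal ‖x‖ ∂(law M X X) ≤ ENNReal.ofReal (1 + D) := by
  have hX0 : 0 < X := by linarith
  have hD0 : 0 ≤ D := (norm_nonneg _).trans (hD 0)
  have hm : Measurable (fun x : Fin n → ℝ => ENNReal.ofReal ‖x‖) :=
    (ENNReal.continuous_ofReal.comp continuous_norm).measurable
  rw [lintegral_law hM hX hm]
  have e1 : ∫⁻ t in Icc X (X + X), ENNReal.ofReal ‖M t‖ ≤ ENNReal.ofReal ((1 + D) * X) := by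
    calc ∫⁻ t in Icc X (X + X), ENNReal.ofReal ‖M t‖
        ≤ ∫⁻ t in Icc X (X + X), (ENNReal.ofReal ‖M t - A t‖ + ENNReal.ofReal D) := by
          refine lintegral_mono (fun t => ?_)
          rw [← ENNReal.ofReal_add (norm_nonneg _) hD0]
          refine ENNReal.ofReal_le_ofReal ?_
          have h1 : ‖M t‖ ≤ ‖M t - A t‖ + ‖A t‖ := by
            have := norm_add_le (M t - A t) (A t)
            rwa [sub_add_cancel] at this
          linarith [hD t]
      _ = (∫⁻ t in Icc X (X + X), ENNReal.ofReal ‖M t - A t‖) + ENNReal.ofReal D * ENNReal.ofReal X := by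
          rw [lintegral_add_right _ measurable_const, lintegral_const, Measure.restrict_apply_univ, vol_win]
      _ ≤ ENNReal.ofReal (1 * X) + ENNReal.ofReal D * ENNReal.ofReal X := by gcongr
      _ = ENNReal.ofReal ((1 + D) * X) := by
          rw [← ENNReal.ofReal_mul hD0, ← ENNReal.ofReal_add (by positivity) (by positivity)]
          congr 1
          ring
  calc ENNReal.ofReal (1 / X) * ∫⁻ t in Icc X (X + X), ENNReal.ofReal ‖M t‖
      ≤ ENNReal.ofReal (1 / X) * ENNReal.ofReal ((1 + D) * X) := by gcongr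
    _ = ENNReal.ofReal (1 + D) := by
        rw [← ENNReal.ofReal_mul (by positivity)]
        congr 1
        field_simp

/-- tightness from first moments -/
lemma tight_of_mom {S : Set (Measure (Fin n → ℝ))} {D : ℝ} (hD : 0 ≤ D)
    (h : ∀ μ ∈ S, ∫⁻ x, ENNReal.ofReal ‖x‖ ∂μ ≤ ENNReal.ofReal D) : IsTightMeasureSet S := by
  rw [isTightMeasureSet_iff_exists_isCompact_measure_compl_le]
  intro ε hε
  have hm : Measurable (fun x : Fin n → ℝ => ENNReal.ofReal ‖x‖) :=
    (ENNReal.continuous_ofReal.comp continuous_norm).measurable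
  -- choose a real number below `ε`
  obtain ⟨e, he0, heε⟩ : ∃ e : ℝ, 0 < e ∧ ENNReal.ofReal e ≤ ε := by
    obtain ⟨q, hq0, hq⟩ := ENNReal.lt_iff_exists_nnreal_btwn.1 hε
    refine ⟨q, by exact_mod_cast hq0, ?_⟩
    rw [ENNReal.ofReal_coe_nnreal]
    exact hq.le
  set r : ℝ := D / e + 1 with hr
  have hr0 : 0 < r := by positivity
  refine ⟨Metric.closedBall 0 r, isCompact_closedBall 0 r, fun μ hμ => ?_⟩
  have h1 : (Metric.closedBall (0 : Fin n → ℝ) r)ᶜ ⊆ {x | ENNReal.ofReal r ≤ ENNReal.ofReal ‖x‖} := by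
    intro x hx
    rw [mem_compl_iff, Metric.mem_closedBall, dist_zero_right, not_le] at hx
    exact ENNReal.ofReal_le_ofReal hx.le
  have h2 := mul_meas_ge_le_lintegral₀ (μ := μ) hm.aemeasurable (ENNReal.ofReal r)
  have h3 : ENNReal.ofReal r * μ (Metric.closedBall (0 : Fin n → ℝ) r)ᶜ ≤ ENNReal.ofReal r * ENNReal.ofReal e := by
    calc ENNReal.ofReal r * μ (Metric.closedBall (0 : Fin n → ℝ) r)ᶜ
        ≤ ENNReal.ofReal r * μ {x | ENNReal.ofReal r ≤ ENNReal.ofReal ‖x‖} := by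
          gcongr
      _ ≤ ENNReal.ofReal D := h2.trans (h μ hμ)
      _ ≤ ENNReal.ofReal (r * e) := by
          refine ENNReal.ofReal_le_ofReal ?_
          rw [hr, add_mul, div_mul_cancel₀ _ he0.ne']
          linarith
      _ = ENNReal.ofReal r * ENNReal.ofReal e := ENNReal.ofReal_mul hr0.le
  have h4 : μ (Metric.closedBall (0 : Fin n → ℝ) r)ᶜ ≤ ENNReal.ofReal e := by
    rwa [ENNReal.mul_le_mul_iff_right (by simpa using hr0) ENNReal.ofReal_ne_top] at h3
  exact h4.trans heε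

end PLAW1

open PLAW1 in
theorem law1 : S_LAW1 := by
  intro n M A c hc0 hc1 hM hA hAb hmean happ
  obtain ⟨K1, X0, hX0⟩ := happ 1 one_pos
  obtain ⟨D1, hD1⟩ := hAb K1
  set Xs : ℕ → ℝ := fun m => max X0 1 + m with hXs
  have hXs1 : ∀ m, 1 ≤ Xs m := fun m => by
    have := le_max_right X0 1
    have h2 : (0:ℝ) ≤ m := Nat.cast_nonneg m
    simp only [hXs]; linarith
  have hXs0 : ∀ m, X0 ≤ Xs m := fun m => by
    have := le_max_left X0 1
    have h2 : (0:ℝ) ≤ m := Nat.cast_nonneg m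
    simp only [hXs]; linarith
  have hXspos : ∀ m, 0 < Xs m := fun m => by linarith [hXs1 m]
  have hXst : Tendsto Xs atTop atTop := by
    simp only [hXs]
    exact tendsto_atTop_add_const_left _ _ tendsto_natCast_atTop_atTop
  let P : ℕ → ProbabilityMeasure (Fin n → ℝ) := fun m => ⟨law M (Xs m) (Xs m), law_prob hM (hXs1 m) (hXspos m)⟩
  have hD0 : 0 ≤ D1 := (norm_nonneg _).trans (hD1 0)
  have ht : IsTightMeasureSet {((μ : ProbabilityMeasure (Fin n → ℝ)) : Measure (Fin n → ℝ)) | μ ∈ Set.range P} := by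
    apply tight_of_mom (D := 1 + D1) (by linarith)
    rintro μ ⟨ν, ⟨m, rfl⟩, rfl⟩
    exact mom_law hM (hXs1 m) hD1 (hX0 _ _ (hXs0 m) (self_win (hXs1 m) hc0) le_rfl)
  have hcomp := isCompact_closure_of_isTightMeasureSet ht
  obtain ⟨μ, _, hμ⟩ := hcomp.exists_mapClusterPt (f := atTop) (u := P)
    (Filter.tendsto_principal.2 (Filter.Eventually.of_forall (fun m => subset_closure (Set.mem_range_self m))))
  refine ⟨μ, inferInstance, ?_⟩
  rintro g Lg hg ⟨D, hD⟩ ε hε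
  obtain ⟨ℓ, X1, hX1⟩ := cauchy_avg hc1 hM hA hmean happ hg hD (half_pos hε)
  let gb : (Fin n → ℝ) →ᵇ ℝ := BoundedContinuousFunction.ofNormedAddCommGroup g hg.continuous D
    (fun x => by rw [Real.norm_eq_abs]; exact hD x)
  have hcont : Continuous (fun ν : ProbabilityMeasure (Fin n → ℝ) => ∫ x, gb x ∂(ν : Measure (Fin n → ℝ))) :=
    ProbabilityMeasure.continuous_integral_boundedContinuousFunction gb
  have hcl : MapClusterPt (∫ x, gb x ∂(μ : Measure (Fin n → ℝ))) atTop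
      (fun m => ∫ x, gb x ∂(P m : Measure (Fin n → ℝ))) :=
    hμ.continuousAt_comp (f := fun ν : ProbabilityMeasure (Fin n → ℝ) => ∫ x, gb x ∂(ν : Measure (Fin n → ℝ)))
      hcont.continuousAt
  have hev : ∀ᶠ m in atTop, (∫ x, gb x ∂(P m : Measure (Fin n → ℝ))) ∈ Metric.closedBall ℓ (ε / 2) := by
    filter_upwards [hXst.eventually_ge_atTop X1] with m hm
    rw [Metric.mem_closedBall, Real.dist_eq]
    have e1 : ∫ x, gb x ∂(P m : Measure (Fin n → ℝ)) = avg (Xs m) (Xs m) (fun t => g (M t)) :=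
      integral_law hM (hXs1 m) (hXspos m) hg.continuous
    rw [e1]
    exact hX1 _ _ hm (self_win (hXs1 m) hc0) le_rfl
  have hmem : (∫ x, gb x ∂(μ : Measure (Fin n → ℝ))) ∈ Metric.closedBall ℓ (ε / 2) := by
    by_contra hcon
    have hopen : (Metric.closedBall ℓ (ε / 2))ᶜ ∈ 𝓝 (∫ x, gb x ∂(μ : Measure (Fin n → ℝ))) :=
      (Metric.isClosed_closedBall.isOpen_compl).mem_nhds hcon
    have hf := hcl.frequently (p := fun y => y ∈ (Metric.closedBall ℓ (ε / 2))ᶜ) hopen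
    obtain ⟨m, hm1, hm2⟩ := (hf.and_eventually hev).exists
    exact hm1 hm2
  have hmem' : |(∫ x, g x ∂(μ : Measure (Fin n → ℝ))) - ℓ| ≤ ε / 2 := by
    rw [Metric.mem_closedBall, Real.dist_eq] at hmem
    exact hmem
  refine ⟨X1, fun X H hX h1 h2 => ?_⟩
  have h3 := hX1 X H hX h1 h2
  rw [abs_le] at h3 hmem' ⊢
  constructor <;> linarith [h3.1, h3.2, hmem'.1, hmem'.2]

end Pool.Agent.H593.U
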