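import Mathlib
import Pool.Agent.H593.U7.Stm

/-! LAW2: extension of the limit law to functions of polynomial growth. -/

open MeasureTheory Set Filter Topology
open Pool.Agent.H383.Gauss
open scoped ENNReal

namespace Pool.Agent.H593.U

namespace PLAW2

variable {n : ℕ}

/-- Lipschitz approximation from below -/
theorem lip_approx {g : (Fin n → ℝ) → ℝ} (hu : UniformContinuous g) {D : ℝ}
    (hD : ∀ x, |g x| ≤ D) {ε : ℝ} (hε : 0 < ε) :
    ∃ (h : (Fin n → ℝ) → ℝ) (L : NNReal), LipschitzWith L h ∧ (∀ x, h x ≤ g x) ∧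
      ∀ x, g x - ε ≤ h x := by
  have hD0 : 0 ≤ D := (abs_nonneg _).trans (hD 0)
  obtain ⟨δ, hδ, hδ2⟩ := Metric.uniformContinuous_iff.1 hu ε hε
  let L : NNReal := ⟨2 * D / δ, by positivity⟩
  have hLδ : (L : ℝ) * δ = 2 * D := by
    show 2 * D / δ * δ = 2 * D
    field_simp
  have hb : ∀ x, BddBelow (Set.range fun y => g y + (L : ℝ) * dist x y) := fun x => ⟨-D, by
    rintro _ ⟨y, rfl⟩
    have h1 := (abs_le.1 (hD y)).1
    have h2 : 0 ≤ (L : ℝ) * dist x y := mul_nonneg L.2 dist_nonneg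
    show -D ≤ g y + (L : ℝ) * dist x y
    linarith⟩
  refine ⟨fun x => ⨅ y, (g y + (L : ℝ) * dist x y), L, ?_, ?_, ?_⟩
  · refine LipschitzWith.of_le_add_mul L fun x x' => ?_
    rw [← sub_le_iff_le_add]
    refine le_ciInf fun y => ?_
    have h1 : (⨅ y, (g y + (L : ℝ) * dist x y)) ≤ g y + (L : ℝ) * dist x y := ciInf_le (hb x) y
    have h2 : (L : ℝ) * dist x y ≤ (L : ℝ) * (dist x x' + dist x' y) :=
      mul_le_mul_of_nonneg_left (dist_triangle x x' y) L.2
    linarith
  · intro x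
    have h1 : (⨅ y, (g y + (L : ℝ) * dist x y)) ≤ g x + (L : ℝ) * dist x x := ciInf_le (hb x) x
    rw [dist_self, mul_zero, add_zero] at h1
    exact h1
  · intro x
    refine le_ciInf fun y => ?_
    by_cases hxy : dist x y < δ
    · have h1 := hδ2 hxy
      rw [Real.dist_eq] at h1
      have h2 := (abs_lt.1 h1).2
      have h3 : 0 ≤ (L : ℝ) * dist x y := mul_nonneg L.2 dist_nonneg
      linarith
    · push Not at hxy
      have h1 : (L : ℝ) * δ ≤ (L : ℝ) * dist x y := mul_le_mul_of_nonneg_left hxy L.2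
      have h2 := (abs_le.1 (hD y)).1
      have h3 := (abs_le.1 (hD x)).2
      linarith

/-- the limit law for one function -/
def Cv (M : ℝ → Fin n → ℝ) (μ : Measure (Fin n → ℝ)) (c : ℝ) (g : (Fin n → ℝ) → ℝ) : Prop :=
  ∀ ε : ℝ, 0 < ε → ∃ X0 : ℝ, ∀ X H : ℝ, X0 ≤ X → X ^ (1 - c) ≤ H → H ≤ X →
    |avg X H (fun t => g (M t)) - ∫ x, g x ∂μ| ≤ ε

theorem vol_Icc {X H : ℝ} (hH : 0 ≤ H) : (volume : Measure ℝ).real (Icc X (X + H)) = H := by
  rw [Measure.real, Real.volume_Icc, add_sub_cancel_left, ENNReal.toReal_ofReal hH]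

theorem avg_sub_le {X H B : ℝ} (hH : 0 < H) {u v : ℝ → ℝ} (hu : IntegrableOn u (Icc X (X + H)))
    (hv : IntegrableOn v (Icc X (X + H))) (h : ∀ t, |u t - v t| ≤ B) :
    |avg X H u - avg X H v| ≤ B := by
  unfold avg
  rw [← mul_sub, ← integral_sub hu hv, abs_mul, abs_of_pos (by positivity)]
  have h1 : |∫ t in Icc X (X + H), (u t - v t)| ≤ B * H := by
    have := norm_setIntegral_le_of_norm_le_const (μ := volume) (s := Icc X (X + H))
      (f := fun t => u t - v t) (C := B) (by rw [Real.volume_Icc]; exact ENNReal.ofReal_lt_top)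
      (fun t _ => h t)
    rw [vol_Icc hH.le] at this
    exact this
  calc 1 / H * |∫ t in Icc X (X + H), (u t - v t)| ≤ 1 / H * (B * H) :=
        mul_le_mul_of_nonneg_left h1 (by positivity)
    _ = B := by field_simp

theorem win_pos {c X H : ℝ} (hX : 1 ≤ X) (h : X ^ (1 - c) ≤ H) : 0 < H :=
  (Real.rpow_pos_of_pos (by linarith) _).trans_le h

theorem aem {M : ℝ → Fin n → ℝ} (hM : AEMeasurable M (volume.restrict (Ici 1)))
    {X H : ℝ} (hX : 1 ≤ X) : AEMeasurable M (volume.restrict (Icc X (X + H))) :=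
  hM.mono_set fun _ ht => hX.trans ht.1

theorem int_bdd {M : ℝ → Fin n → ℝ} (hM : AEMeasurable M (volume.restrict (Ici 1)))
    {X H : ℝ} (hX : 1 ≤ X) {g : (Fin n → ℝ) → ℝ} (hg : Continuous g) {D : ℝ}
    (hD : ∀ x, |g x| ≤ D) : IntegrableOn (fun t => g (M t)) (Icc X (X + H)) := by
  exact Integrable.of_bound (hg.measurable.comp_aemeasurable (aem hM hX)).aestronglyMeasurable D
    (Eventually.of_forall fun t => hD _)

/-- bounded uniformly continuous functions -/
theorem cv_unif {M : ℝ → Fin n → ℝ} {c1 c : ℝ} {μ : Measure (Fin n → ℝ)} (hcc : c ≤ c1)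
    [IsProbabilityMeasure μ] (hM : AEMeasurable M (volume.restrict (Ici 1)))
    (hL : ∀ (g : (Fin n → ℝ) → ℝ) (Lg : NNReal), LipschitzWith Lg g →
      (∃ D : ℝ, ∀ x, |g x| ≤ D) → ∀ ε : ℝ, 0 < ε → ∃ X0 : ℝ, ∀ X H : ℝ, X0 ≤ X →
      X ^ (1 - c1) ≤ H → H ≤ X → |avg X H (fun t => g (M t)) - ∫ x, g x ∂μ| ≤ ε)
    {g : (Fin n → ℝ) → ℝ} (hu : UniformContinuous g) {D : ℝ} (hD : ∀ x, |g x| ≤ D) :
    Cv M μ c g := by
  intro ε hε
  obtain ⟨h, L, hLip, h1, h2⟩ := lip_approx hu hD (ε := ε / 3) (by positivity)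
  have hb : ∀ x, |h x| ≤ D + ε / 3 := by
    intro x
    have h3 := abs_le.1 (hD x)
    rw [abs_le]
    constructor
    · have := h2 x
      linarith [h3.1]
    · have := h1 x
      linarith [h3.2]
  obtain ⟨X0, hX0⟩ := hL h L hLip ⟨_, hb⟩ (ε / 3) (by positivity)
  refine ⟨max 1 X0, fun X H hX hH1 hH2 => ?_⟩
  have hX1 : 1 ≤ X := (le_max_left _ _).trans hX
  have hH : 0 < H := win_pos hX1 hH1
  have hw : X ^ (1 - c1) ≤ H :=
    (Real.rpow_le_rpow_of_exponent_le hX1 (by linarith)).trans hH1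
  have a1 := hX0 X H ((le_max_right _ _).trans hX) hw hH2
  have hd : ∀ x, |g x - h x| ≤ ε / 3 := by
    intro x
    rw [abs_le]
    constructor
    · have := h1 x; linarith
    · have := h2 x; linarith
  have a2 : |avg X H (fun t => g (M t)) - avg X H (fun t => h (M t))| ≤ ε / 3 :=
    avg_sub_le hH (int_bdd hM hX1 hu.continuous hD) (int_bdd hM hX1 hLip.continuous hb)
      fun t => hd _
  have ig : Integrable g μ := Integrable.of_bound hu.continuous.aestronglyMeasurable D
    (Eventually.of_forall hD)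
  have ih : Integrable h μ := Integrable.of_bound hLip.continuous.aestronglyMeasurable (D + ε / 3)
    (Eventually.of_forall hb)
  have a3 : |∫ x, h x ∂μ - ∫ x, g x ∂μ| ≤ ε / 3 := by
    rw [← integral_sub ih ig]
    have := norm_integral_le_of_norm_le_const (μ := μ) (f := fun x => h x - g x) (C := ε / 3)
      (Eventually.of_forall fun x => by
        rw [Real.norm_eq_abs, abs_sub_comm]; exact hd x)
    simpa using this
  have e : avg X H (fun t => g (M t)) - ∫ x, g x ∂μ =
      (avg X H (fun t => g (M t)) - avg X H (fun t => h (M t))) +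
      (avg X H (fun t => h (M t)) - ∫ x, h x ∂μ) + (∫ x, h x ∂μ - ∫ x, g x ∂μ) := by ring
  rw [e]
  refine (abs_add_three _ _ _).trans ?_
  linarith

/-- the cutoff function -/
noncomputable def kut (r : ℝ) (x : Fin n → ℝ) : ℝ := min 1 (max 0 (r + 1 - ‖x‖))

theorem kut_cont (r : ℝ) : Continuous (kut (n := n) r) := by
  unfold kut
  fun_prop

theorem kut_nonneg (r : ℝ) (x : Fin n → ℝ) : 0 ≤ kut r x :=
  le_min zero_le_one (le_max_left _ _)

theorem kut_le_one (r : ℝ) (x : Fin n → ℝ) : kut r x ≤ 1 := min_le_left _ _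

theorem kut_one {r : ℝ} {x : Fin n → ℝ} (h : ‖x‖ ≤ r) : kut r x = 1 := by
  unfold kut
  rw [min_eq_left]
  exact le_max_of_le_right (by linarith)

theorem kut_zero {r : ℝ} {x : Fin n → ℝ} (h : r + 1 ≤ ‖x‖) : kut r x = 0 := by
  unfold kut
  rw [max_eq_left (by linarith), min_eq_right zero_le_one]

theorem cut_unif {f : (Fin n → ℝ) → ℝ} (hf : Continuous f) (r : ℝ) :
    UniformContinuous (fun x => f x * kut r x) ∧ ∃ D, ∀ x, |f x * kut r x| ≤ D := by
  have hc : Continuous (fun x => f x * kut r x) := hf.mul (kut_cont r)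
  have hcs : HasCompactSupport (fun x => f x * kut r x) := by
    refine HasCompactSupport.intro (isCompact_closedBall (0 : Fin n → ℝ) (r + 1)) fun x hx => ?_
    rw [mem_closedBall_zero_iff, not_le] at hx
    rw [kut_zero hx.le, mul_zero]
  constructor
  · exact hcs.uniformContinuous_of_continuous hc
  · obtain ⟨D, hD⟩ := hcs.exists_bound_of_continuous hc
    exact ⟨D, fun x => hD x⟩


theorem avg_mono {X H : ℝ} (hH : 0 < H) {u v : ℝ → ℝ} (hu : IntegrableOn u (Icc X (X + H)))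
    (hv : IntegrableOn v (Icc X (X + H))) (h : ∀ t, u t ≤ v t) : avg X H u ≤ avg X H v := by
  unfold avg
  exact mul_le_mul_of_nonneg_left (integral_mono hu hv h) (by positivity)

theorem avg_sub_le' {X H : ℝ} (hH : 0 < H) {u v w : ℝ → ℝ} (hu : IntegrableOn u (Icc X (X + H)))
    (hv : IntegrableOn v (Icc X (X + H))) (hw : IntegrableOn w (Icc X (X + H)))
    (h : ∀ t, |u t - v t| ≤ w t) : |avg X H u - avg X H v| ≤ avg X H w := by
  unfold avg
  rw [← mul_sub, ← integral_sub hu hv, abs_mul, abs_of_pos (by positivity)]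
  refine mul_le_mul_of_nonneg_left ?_ (by positivity)
  exact norm_integral_le_of_norm_le (f := fun t => u t - v t) hw (Eventually.of_forall h)

theorem avg_const_mul (X H a : ℝ) (u : ℝ → ℝ) : avg X H (fun t => a * u t) = a * avg X H u := by
  unfold avg
  rw [integral_const_mul]
  ring

theorem kut_mono (x : Fin n → ℝ) : Monotone (fun r : ℝ => kut r x) := by
  intro r r' h
  unfold kut
  exact min_le_min_left _ (max_le_max_left _ (by linarith))

/-- the moment of the limit law -/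
theorem moment {μ : Measure (Fin n → ℝ)} [IsProbabilityMeasure μ] {q D : ℝ} (hq : 1 ≤ q)
    (hD : 0 ≤ D) (h : ∀ r : ℝ, ∫ x, ‖x‖ ^ q * kut r x ∂μ ≤ D) :
    Integrable (fun x : Fin n → ℝ => ‖x‖ ^ q) μ ∧ ∫ x, ‖x‖ ^ q ∂μ ≤ D := by
  have hc : Continuous (fun x : Fin n → ℝ => ‖x‖ ^ q) :=
    continuous_norm.rpow_const fun _ => Or.inr (by linarith)
  have hnn : ∀ x : Fin n → ℝ, 0 ≤ ‖x‖ ^ q := fun x => Real.rpow_nonneg (norm_nonneg _) _
  have hlim : Tendsto (fun k : ℕ => ∫⁻ x, ENNReal.ofReal (‖x‖ ^ q * kut (k : ℝ) x) ∂μ) atTop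
      (𝓝 (∫⁻ x, ENNReal.ofReal (‖x‖ ^ q) ∂μ)) := by
    refine lintegral_tendsto_of_tendsto_of_monotone (fun k => ?_) ?_ ?_
    · exact ((hc.mul (kut_cont _)).measurable.ennreal_ofReal).aemeasurable
    · refine Eventually.of_forall fun x k k' hkk => ?_
      refine ENNReal.ofReal_le_ofReal (mul_le_mul_of_nonneg_left ?_ (hnn x))
      exact kut_mono x (Nat.cast_le.2 hkk)
    · refine Eventually.of_forall fun x => ?_
      refine tendsto_const_nhds.congr' ?_
      obtain ⟨k0, hk0⟩ := exists_nat_ge ‖x‖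
      filter_upwards [eventually_ge_atTop k0] with k hk
      rw [kut_one (hk0.trans (Nat.cast_le.2 hk)), mul_one]
  have hle : ∫⁻ x, ENNReal.ofReal (‖x‖ ^ q) ∂μ ≤ ENNReal.ofReal D := by
    refine le_of_tendsto' hlim fun k => ?_
    obtain ⟨hu, B, hB⟩ := cut_unif hc (k : ℝ)
    have hi : Integrable (fun x : Fin n → ℝ => ‖x‖ ^ q * kut (k : ℝ) x) μ :=
      Integrable.of_bound hu.continuous.aestronglyMeasurable B (Eventually.of_forall hB)
    rw [← ofReal_integral_eq_lintegral_ofReal hi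
      (Eventually.of_forall fun x => mul_nonneg (hnn x) (kut_nonneg _ x))]
    exact ENNReal.ofReal_le_ofReal (h k)
  have hi : Integrable (fun x : Fin n → ℝ => ‖x‖ ^ q) μ := by
    rw [← lintegral_ofReal_ne_top_iff_integrable hc.aestronglyMeasurable
      (Eventually.of_forall hnn)]
    exact (hle.trans_lt ENNReal.ofReal_lt_top).ne
  refine ⟨hi, ?_⟩
  rw [← ofReal_integral_eq_lintegral_ofReal hi (Eventually.of_forall hnn)] at hle
  exact (ENNReal.ofReal_le_ofReal_iff hD).1 hle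

theorem pow_le {p q : ℝ} (hp : 0 ≤ p) (hpq : p ≤ q) {y : ℝ} (hy : 0 ≤ y) : y ^ p ≤ 1 + y ^ q := by
  rcases le_total y 1 with h | h
  · have h1 := Real.rpow_le_one hy h hp
    have h2 := Real.rpow_nonneg hy q
    linarith
  · have h1 := Real.rpow_le_rpow_of_exponent_le h hpq
    linarith

end PLAW2

open PLAW2 in
theorem law2 : S_LAW2 := by
  intro n M c1 μ hc1 hc1' hμ hM hL hmom p hp hp6
  set q : ℝ := (p + 6) / 2 with hq
  have hpq : p < q := by rw [hq]; linarith
  have hq6 : q < 6 := by rw [hq]; linarith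
  have hq1 : 1 ≤ q := by linarith
  obtain ⟨cq, D, Xq, hcq, hcq', hD, hmq⟩ := hmom q hq1 hq6
  have hcpos : 0 < min c1 cq := lt_min hc1 hcq
  have hclt : min c1 cq < 1 := (min_le_left _ _).trans_lt hc1'
  set c := min c1 cq with hc
  have hcc : c ≤ c1 := min_le_left _ _
  have hcont : Continuous (fun x : Fin n → ℝ => ‖x‖ ^ q) :=
    continuous_norm.rpow_const fun _ => Or.inr (by linarith)
  have hnn : ∀ x : Fin n → ℝ, 0 ≤ ‖x‖ ^ q := fun x => Real.rpow_nonneg (norm_nonneg _) _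
  -- moments on windows
  have hwin : ∀ X H : ℝ, max 1 Xq ≤ X → X ^ (1 - c) ≤ H → H ≤ X →
      IntegrableOn (fun t => ‖M t‖ ^ q) (Icc X (X + H)) ∧ avg X H (fun t => ‖M t‖ ^ q) ≤ D := by
    intro X H hX hH1 hH2
    have hX1 : 1 ≤ X := (le_max_left _ _).trans hX
    have hH : 0 < H := win_pos hX1 hH1
    have hw : X ^ (1 - cq) ≤ H :=
      (Real.rpow_le_rpow_of_exponent_le hX1 (by
        have : c ≤ cq := min_le_right _ _
        linarith)).trans hH1
    have hb := hmq X H ((le_max_right _ _).trans hX) hw hH2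
    have hae : AEStronglyMeasurable (fun t => ‖M t‖ ^ q) (volume.restrict (Icc X (X + H))) :=
      (hcont.measurable.comp_aemeasurable (aem hM hX1)).aestronglyMeasurable
    have hi : IntegrableOn (fun t => ‖M t‖ ^ q) (Icc X (X + H)) := by
      unfold IntegrableOn
      rw [← lintegral_ofReal_ne_top_iff_integrable hae (Eventually.of_forall fun t => hnn _)]
      exact (hb.trans_lt ENNReal.ofReal_lt_top).ne
    refine ⟨hi, ?_⟩
    rw [← ofReal_integral_eq_lintegral_ofReal hi (Eventually.of_forall fun t => hnn _)] at hb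
    have h1 := (ENNReal.ofReal_le_ofReal_iff (by positivity)).1 hb
    unfold avg
    calc 1 / H * ∫ t in Icc X (X + H), ‖M t‖ ^ q ≤ 1 / H * (D * H) :=
          mul_le_mul_of_nonneg_left h1 (by positivity)
      _ = D := by field_simp
  -- moments of the limit law
  have hmu : ∀ r : ℝ, ∫ x, ‖x‖ ^ q * kut r x ∂μ ≤ D := by
    intro r
    obtain ⟨hu, B, hB⟩ := cut_unif hcont r
    have hcv := cv_unif (c := c) hcc hM hL hu hB
    refine le_of_forall_pos_le_add fun ε hε => ?_
    obtain ⟨X0, hX0⟩ := hcv ε hε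
    have hX1 : 1 ≤ max (max 1 Xq) X0 := (le_max_left _ _).trans (le_max_left _ _)
    have hXX : (max (max 1 Xq) X0) ^ (1 - c) ≤ max (max 1 Xq) X0 := by
      have := Real.rpow_le_rpow_of_exponent_le hX1 (show 1 - c ≤ 1 by linarith)
      rwa [Real.rpow_one] at this
    have h1 := hX0 (max (max 1 Xq) X0) (max (max 1 Xq) X0) (le_max_right _ _) hXX le_rfl
    obtain ⟨h2, h3⟩ := hwin (max (max 1 Xq) X0) (max (max 1 Xq) X0) (le_max_left _ _) hXX le_rfl
    have hH := win_pos hX1 hXX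
    have h4 : avg (max (max 1 Xq) X0) (max (max 1 Xq) X0)
        (fun t => ‖M t‖ ^ q * kut r (M t)) ≤ D := by
      refine le_trans (avg_mono hH (int_bdd hM hX1 hu.continuous hB) h2 fun t => ?_) h3
      exact mul_le_of_le_one_right (hnn _) (kut_le_one _ _)
    have h5 := (abs_le.1 h1).1
    linarith
  obtain ⟨hqi, hqD⟩ := moment hq1 hD.le hmu
  refine ⟨c, hcpos, hclt, fun f hf hfC => ?_⟩
  obtain ⟨C, hC⟩ := hfC
  have hC0 : 0 ≤ C := by
    have h1 := hC 0
    rw [norm_zero, Real.zero_rpow (by linarith), add_zero, mul_one] at h1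
    exact (abs_nonneg _).trans h1
  have hfb : ∀ x, |f x| ≤ C * (2 + ‖x‖ ^ q) := by
    intro x
    refine (hC x).trans (mul_le_mul_of_nonneg_left ?_ hC0)
    have := pow_le (by linarith : (0:ℝ) ≤ p) hpq.le (norm_nonneg x)
    linarith
  have hfi : Integrable f μ :=
    Integrable.mono' (((integrable_const (2 : ℝ)).add hqi).const_mul C)
      hf.aestronglyMeasurable (Eventually.of_forall fun x => hfb x)
  refine ⟨hfi, fun ε hε => ?_⟩
  -- the tail
  have htail : ∀ r : ℝ, 1 ≤ r → ∀ x, |f x - f x * kut r x| ≤ 2 * C * r ^ (p - q) * ‖x‖ ^ q := by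
    intro r hr x
    have hr0 : 0 < r := by linarith
    have hrp : 0 ≤ r ^ (p - q) := Real.rpow_nonneg hr0.le _
    rcases le_or_gt ‖x‖ r with h | h
    · rw [kut_one h, mul_one, sub_self, abs_zero]
      have := hnn x
      positivity
    · have hx0 : 0 < ‖x‖ := hr0.trans h
      have hx1 : 1 ≤ ‖x‖ := hr.trans h.le
      have e : f x - f x * kut r x = f x * (1 - kut r x) := by ring
      rw [e, abs_mul, abs_of_nonneg (by linarith [kut_le_one r x] : 0 ≤ 1 - kut r x)]
      have h1 : |f x| * (1 - kut r x) ≤ |f x| :=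
        mul_le_of_le_one_right (abs_nonneg _) (by linarith [kut_nonneg r x])
      have h2 : (1 : ℝ) ≤ ‖x‖ ^ p := Real.one_le_rpow hx1 (by linarith)
      have h3 : ‖x‖ ^ p ≤ r ^ (p - q) * ‖x‖ ^ q := by
        have h4 : ‖x‖ ^ p = ‖x‖ ^ (p - q) * ‖x‖ ^ q := by
          rw [← Real.rpow_add hx0]
          congr 1
          ring
        rw [h4]
        refine mul_le_mul_of_nonneg_right ?_ (hnn x)
        exact Real.rpow_le_rpow_of_nonpos hr0 h.le (by linarith)
      calc |f x| * (1 - kut r x) ≤ |f x| := h1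
        _ ≤ C * (1 + ‖x‖ ^ p) := hC x
        _ ≤ C * (2 * (r ^ (p - q) * ‖x‖ ^ q)) := mul_le_mul_of_nonneg_left (by linarith) hC0
        _ = 2 * C * r ^ (p - q) * ‖x‖ ^ q := by ring
  obtain ⟨r, hr1, hrε⟩ : ∃ r : ℝ, 1 ≤ r ∧ 2 * C * r ^ (p - q) * D ≤ ε / 4 := by
    have h1 : Tendsto (fun r : ℝ => 2 * C * r ^ (-(q - p)) * D) atTop (𝓝 (2 * C * 0 * D)) :=
      ((tendsto_rpow_neg_atTop (by linarith)).const_mul (2 * C)).mul_const D
    rw [mul_zero, zero_mul] at h1
    have h2 := h1.eventually (gt_mem_nhds (show (0:ℝ) < ε / 4 by positivity))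
    obtain ⟨r, hr, hr'⟩ := (h2.and (eventually_ge_atTop 1)).exists
    refine ⟨r, hr', ?_⟩
    rw [show p - q = -(q - p) by ring]
    exact hr.le
  have hη0 : 0 ≤ 2 * C * r ^ (p - q) := by
    have : 0 ≤ r ^ (p - q) := Real.rpow_nonneg (by linarith) _
    positivity
  obtain ⟨hu, B, hB⟩ := cut_unif hf r
  obtain ⟨X0, hX0⟩ := cv_unif (c := c) hcc hM hL hu hB (ε / 4) (by positivity)
  refine ⟨max (max 1 Xq) X0, fun X H hX hH1 hH2 => ?_⟩
  have hX1 : 1 ≤ X := ((le_max_left _ _).trans (le_max_left _ _)).trans hX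
  have hH := win_pos hX1 hH1
  obtain ⟨w1, w2⟩ := hwin X H ((le_max_left _ _).trans hX) hH1 hH2
  have a1 := hX0 X H ((le_max_right _ _).trans hX) hH1 hH2
  have hfM : IntegrableOn (fun t => f (M t)) (Icc X (X + H)) := by
    have hc2 : IntegrableOn (fun _ : ℝ => (2 : ℝ)) (Icc X (X + H)) := integrable_const _
    refine Integrable.mono' ((hc2.add w1).const_mul C)
      (hf.measurable.comp_aemeasurable (aem hM hX1)).aestronglyMeasurable
      (Eventually.of_forall fun t => hfb (M t))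
  have a2 : |avg X H (fun t => f (M t)) - avg X H (fun t => f (M t) * kut r (M t))| ≤ ε / 4 := by
    have h1 := avg_sub_le' hH hfM (int_bdd hM hX1 hu.continuous hB)
      (w1.const_mul (2 * C * r ^ (p - q))) (fun t => htail r hr1 (M t))
    rw [avg_const_mul] at h1
    exact h1.trans ((mul_le_mul_of_nonneg_left w2 hη0).trans hrε)
  have hri : Integrable (fun x => f x * kut r x) μ :=
    Integrable.of_bound hu.continuous.aestronglyMeasurable B (Eventually.of_forall hB)
  have a3 : |∫ x, f x ∂μ - ∫ x, f x * kut r x ∂μ| ≤ ε / 4 := by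
    rw [← integral_sub hfi hri]
    have h1 := norm_integral_le_of_norm_le (hqi.const_mul (2 * C * r ^ (p - q)))
      (Eventually.of_forall fun x => by
        rw [Real.norm_eq_abs]
        exact htail r hr1 x : ∀ᵐ x ∂μ, ‖f x - f x * kut r x‖ ≤ 2 * C * r ^ (p - q) * ‖x‖ ^ q)
    rw [integral_const_mul, Real.norm_eq_abs] at h1
    exact h1.trans ((mul_le_mul_of_nonneg_left hqD hη0).trans hrε)
  have e : avg X H (fun t => f (M t)) - ∫ x, f x ∂μ =
      (avg X H (fun t => f (M t)) - avg X H (fun t => f (M t) * kut r (M t))) +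
      (avg X H (fun t => f (M t) * kut r (M t)) - ∫ x, f x * kut r x ∂μ) +
      -(∫ x, f x ∂μ - ∫ x, f x * kut r x ∂μ) := by ring
  rw [e]
  refine (abs_add_three _ _ _).trans ?_
  rw [abs_neg]
  linarith

end Pool.Agent.H593.U
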