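import Mathlib
import Pool.Agent.H593.U7.Stm2

/-!
# Measure of the radii with a large discrepancy at some centre
-/

set_option autoImplicit false

open MeasureTheory Set Filter Topology
open scoped ENNReal

namespace Pool.Agent.H593.U.PMEAS

open Pool.Agent.H593.U

/-- upper envelope -/
noncomputable def up (R : ℝ) : ℝ := ⨆ a : ℝ × ℝ, Na a (max R 1)

/-- lower envelope -/
noncomputable def lo (R : ℝ) : ℝ := ⨅ a : ℝ × ℝ, Na a (max R 1)

lemma bddA (R : ℝ) : BddAbove (range fun a : ℝ × ℝ => Na a (max R 1)) := by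
  obtain ⟨C, hC, h⟩ := Pa_lin
  refine ⟨Real.pi * (max R 1) ^ 2 + C * max R 1, ?_⟩
  rintro _ ⟨a, rfl⟩
  have h1 := (abs_le.1 (h a (max R 1) (le_max_right _ _))).2
  simp only [Pa] at h1
  show Na a (max R 1) ≤ _
  linarith

lemma bddB (R : ℝ) : BddBelow (range fun a : ℝ × ℝ => Na a (max R 1)) := by
  refine ⟨0, ?_⟩
  rintro _ ⟨a, rfl⟩
  exact Na_nonneg _ _

lemma mono_up : Monotone up := by
  intro R R' h
  refine ciSup_mono (bddA R') fun a => ?_
  exact Na_mono a (le_trans zero_le_one (le_max_right _ _)) (max_le_max_right 1 h)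

lemma mono_lo : Monotone lo := by
  intro R R' h
  refine ciInf_mono (bddB R) fun a => ?_
  exact Na_mono a (le_trans zero_le_one (le_max_right _ _)) (max_le_max_right 1 h)

/-- the set, described by the envelopes -/
lemma set_eq {X H V : ℝ} (hX : 1 ≤ X) :
    {R : ℝ | X ≤ R ∧ R ≤ X + H ∧ ∃ a : ℝ × ℝ, V * √R < |Pa a R|} =
      Icc X (X + H) ∩ ({R | V * √R < up R - Real.pi * R ^ 2} ∪ {R | V * √R < Real.pi * R ^ 2 - lo R}) := by
  ext R
  simp only [mem_setOf_eq, mem_inter_iff, mem_Icc, mem_union]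
  constructor
  · rintro ⟨h1, h2, a, h3⟩
    refine ⟨⟨h1, h2⟩, ?_⟩
    have hR : max R 1 = R := max_eq_left (hX.trans h1)
    rcases lt_abs.1 h3 with h4 | h4
    · left
      have : Na a R ≤ up R := by
        have := le_ciSup (bddA R) a
        simp only [up]
        simpa only [hR] using this
      simp only [Pa] at h4
      linarith
    · right
      have : lo R ≤ Na a R := by
        have := ciInf_le (bddB R) a
        simp only [lo]
        simpa only [hR] using this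
      simp only [Pa] at h4
      linarith
  · rintro ⟨⟨h1, h2⟩, h3⟩
    refine ⟨h1, h2, ?_⟩
    have hR : max R 1 = R := max_eq_left (hX.trans h1)
    rcases h3 with h3 | h3
    · have h4 : V * √R + Real.pi * R ^ 2 < up R := by linarith
      obtain ⟨a, ha⟩ := exists_lt_of_lt_ciSup h4
      rw [hR] at ha
      refine ⟨a, lt_of_lt_of_le ?_ (le_abs_self _)⟩
      simp only [Pa]
      linarith
    · have h4 : lo R < Real.pi * R ^ 2 - V * √R := by linarith
      obtain ⟨a, ha⟩ := exists_lt_of_ciInf_lt h4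
      rw [hR] at ha
      refine ⟨a, lt_of_lt_of_le ?_ (neg_le_abs _)⟩
      simp only [Pa]
      linarith

lemma meas_set {X H V : ℝ} (hX : 1 ≤ X) :
    MeasurableSet {R : ℝ | X ≤ R ∧ R ≤ X + H ∧ ∃ a : ℝ × ℝ, V * √R < |Pa a R|} := by
  rw [set_eq hX]
  have h1 := mono_up.measurable
  have h2 := mono_lo.measurable
  refine measurableSet_Icc.inter ((measurableSet_lt ?_ ?_).union (measurableSet_lt ?_ ?_))
  · exact measurable_const.mul Real.continuous_sqrt.measurable
  · exact h1.sub (measurable_const.mul (measurable_id.pow_const 2))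
  · exact measurable_const.mul Real.continuous_sqrt.measurable
  · exact (measurable_const.mul (measurable_id.pow_const 2)).sub h2

end Pool.Agent.H593.U.PMEAS

namespace Pool.Agent.H593.U

open PMEAS in
theorem meas (h : S_AP) : S_MEAS := by
  intro p hp1 hp6
  obtain ⟨c, hc0, hc1, h⟩ := h p hp1 hp6
  obtain ⟨K, hK⟩ := h 1 one_pos
  obtain ⟨X0, hX⟩ := hK K le_rfl
  obtain ⟨D, hD⟩ : ∃ D : ℝ, D = ∑ k ∈ B0 K, |bw 0 k| := ⟨_, rfl⟩
  have hD0 : 0 ≤ D := by rw [hD]; exact Finset.sum_nonneg fun _ _ => abs_nonneg _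
  have hVa : ∀ (R : ℝ) (a : ℝ × ℝ), |Va R 0 K a| ≤ D := by
    intro R a
    rw [hD]
    exact (abs_Va_le R 0 K a).trans (norm_S_le _ _ _ _)
  have hDp : 0 < (2 * D + 2) ^ p := Real.rpow_pos_of_pos (by linarith) p
  have h2p : 0 < (2:ℝ) ^ p := Real.rpow_pos_of_pos (by norm_num) p
  refine ⟨c, (2 * D + 2) ^ p + 2 ^ p, max X0 1, hc0, hc1, by positivity, ?_⟩
  intro X H V hX0 hH1 hH2 hV
  have hX1 : 1 ≤ X := (le_max_right _ _).trans hX0
  have hH0 : 0 < H := lt_of_lt_of_le (Real.rpow_pos_of_pos (by linarith) _) hH1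
  have hVp : 0 < V ^ p := Real.rpow_pos_of_pos hV p
  have hVn : 0 < V ^ (-p) := Real.rpow_pos_of_pos hV (-p)
  have hVV : V ^ (-p) * V ^ p = 1 := by
    rw [← Real.rpow_add hV, neg_add_cancel, Real.rpow_zero]
  obtain ⟨E, hE⟩ : ∃ E : Set ℝ, E = {R : ℝ | X ≤ R ∧ R ≤ X + H ∧ ∃ a : ℝ × ℝ, V * √R < |Pa a R|} := ⟨_, rfl⟩
  rw [← hE]
  have hEm : MeasurableSet E := by rw [hE]; exact meas_set hX1
  have hEI : E ⊆ Icc X (X + H) := by
    rw [hE]; rintro R ⟨h1, h2, _⟩; exact ⟨h1, h2⟩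
  by_cases hV2 : V ≤ 2 * D + 2
  · refine (measure_mono hEI).trans ?_
    rw [Real.volume_Icc]
    apply ENNReal.ofReal_le_ofReal
    have h1 : V ^ p ≤ (2 * D + 2) ^ p := Real.rpow_le_rpow hV.le hV2 (by linarith)
    have h2 : 1 ≤ (2 * D + 2) ^ p * V ^ (-p) := by
      calc (1:ℝ) = V ^ p * V ^ (-p) := by rw [mul_comm]; exact hVV.symm
        _ ≤ _ := mul_le_mul_of_nonneg_right h1 hVn.le
    have h3 : 0 ≤ (2:ℝ) ^ p * (H * V ^ (-p)) := by positivity
    have h4 : H * 1 ≤ H * ((2 * D + 2) ^ p * V ^ (-p)) := mul_le_mul_of_nonneg_left h2 hH0.le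
    nlinarith
  · push Not at hV2
    have hI := hX X H ((le_max_left _ _).trans hX0) hH1 hH2
    have hlow : ∀ R ∈ E, ENNReal.ofReal ((V / 2) ^ p) ≤
        (⨆ a : ℝ × ℝ, ENNReal.ofReal |Pa a R / √R - Va R 0 K a|) ^ p := by
      intro R hR
      rw [hE] at hR
      obtain ⟨h1, h2, a, h3⟩ := hR
      have hR0 : 0 < √R := Real.sqrt_pos.2 (by linarith)
      have h4 : V < |Pa a R / √R| := by
        rw [abs_div, abs_of_pos hR0, lt_div_iff₀ hR0]; exact h3
      have h5 : |Pa a R / √R| ≤ |Pa a R / √R - Va R 0 K a| + |Va R 0 K a| := by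
        have := abs_add_le (Pa a R / √R - Va R 0 K a) (Va R 0 K a)
        simpa using this
      have h6 : V / 2 ≤ |Pa a R / √R - Va R 0 K a| := by
        have := hVa R a
        linarith
      rw [← ENNReal.ofReal_rpow_of_nonneg (by linarith) (by linarith)]
      refine ENNReal.rpow_le_rpow ?_ (by linarith)
      exact (ENNReal.ofReal_le_ofReal h6).trans (le_iSup (fun a : ℝ × ℝ => ENNReal.ofReal |Pa a R / √R - Va R 0 K a|) a)
    have h7 : ENNReal.ofReal ((V / 2) ^ p) * volume E ≤ ENNReal.ofReal (1 * H) := by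
      calc ENNReal.ofReal ((V / 2) ^ p) * volume E = ∫⁻ _ in E, ENNReal.ofReal ((V / 2) ^ p) := by
            rw [setLIntegral_const]
        _ ≤ ∫⁻ R in E, (⨆ a : ℝ × ℝ, ENNReal.ofReal |Pa a R / √R - Va R 0 K a|) ^ p := setLIntegral_mono' hEm hlow
        _ ≤ ∫⁻ R in Icc X (X + H), (⨆ a : ℝ × ℝ, ENNReal.ofReal |Pa a R / √R - Va R 0 K a|) ^ p := lintegral_mono_set hEI
        _ ≤ _ := hI
    have hq : 0 < (V / 2) ^ p := Real.rpow_pos_of_pos (by linarith) p
    have h8 : volume E ≤ ENNReal.ofReal (1 * H) / ENNReal.ofReal ((V / 2) ^ p) := by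
      rw [ENNReal.le_div_iff_mul_le (Or.inl (by simpa using hq)) (Or.inl ENNReal.ofReal_ne_top), mul_comm]
      exact h7
    refine h8.trans ?_
    rw [← ENNReal.ofReal_div_of_pos hq]
    apply ENNReal.ofReal_le_ofReal
    have h9 : 1 * H / (V / 2) ^ p = 2 ^ p * (H * V ^ (-p)) := by
      rw [Real.div_rpow hV.le (by norm_num), Real.rpow_neg hV.le]
      field_simp
    rw [h9]
    have h10 : 0 ≤ (2 * D + 2) ^ p * (H * V ^ (-p)) := by positivity
    nlinarith

end Pool.Agent.H593.U
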