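import Mathlib
import Pool.Agent.H593.U7.Stm

/-!
# Task NEAR: local energy in a small square (helper34)
-/

open MeasureTheory Set Filter Topology
open Pool.Agent.H383.Gauss

namespace Pool.Agent.H593.U.PNEAR

open Pool.Agent.H593.U

/-- the integers from `0` to `N - 1` -/
noncomputable def iv (N : ℕ) : Finset ℤ := Finset.Ico 0 (N:ℤ)

/-- the square of side `N` -/
noncomputable def sq (N : ℕ) : Finset (ℤ × ℤ) := iv N ×ˢ iv N

lemma card_iv (N : ℕ) : (iv N).card = N := by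
  unfold iv
  rw [Int.card_Ico]
  simp

/-- one-dimensional sum -/
noncomputable def D1 (N : ℕ) (y : ℝ) : ℂ := ∑ m ∈ iv N, ex (m * y)

/-- two-dimensional sum -/
noncomputable def Dm (N : ℕ) (x : ℝ × ℝ) : ℂ := ∑ m ∈ sq N, ex (dp m x)

lemma D_eq (N : ℕ) (x : ℝ × ℝ) : Dm N x = D1 N x.1 * D1 N x.2 := by
  unfold Dm D1 sq
  rw [Finset.sum_mul_sum, Finset.sum_product]
  refine Finset.sum_congr rfl fun m _ => Finset.sum_congr rfl fun m' _ => ?_
  rw [← ex_add]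
  rfl

lemma D1_lower {N : ℕ} (hN : 1 ≤ N) {y : ℝ} (hy : |y| ≤ 1 / (4 * N)) : (N:ℝ) / 2 ≤ ‖D1 N y‖ := by
  have hN' : (1:ℝ) ≤ N := by exact_mod_cast hN
  have h1 : (N:ℝ) / 2 ≤ ∑ m ∈ iv N, Real.cos (2 * Real.pi * (m * y + -((N - 1) / 2 * y))) := by
    have h2 : ∑ m ∈ iv N, (1/2 : ℝ) = (N:ℝ) / 2 := by
      rw [Finset.sum_const, card_iv, nsmul_eq_mul]; ring
    rw [← h2]
    refine Finset.sum_le_sum fun m hm => ?_
    unfold iv at hm
    rw [Finset.mem_Ico] at hm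
    have hm0 : (0:ℝ) ≤ m := by exact_mod_cast hm.1
    have hm1 : (m:ℝ) + 1 ≤ N := by exact_mod_cast hm.2
    have h3 : |(m:ℝ) - (N - 1) / 2| ≤ N / 2 := by
      rw [abs_le]; constructor <;> linarith
    have h4 : |(m:ℝ) * y + -((N - 1) / 2 * y)| ≤ 1 / 8 := by
      have e : (m:ℝ) * y + -((N - 1) / 2 * y) = ((m:ℝ) - (N - 1) / 2) * y := by ring
      rw [e, abs_mul]
      calc |(m:ℝ) - (N - 1) / 2| * |y| ≤ (N / 2) * (1 / (4 * N)) :=
            mul_le_mul h3 hy (abs_nonneg _) (by positivity)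
        _ = 1 / 8 := by field_simp; norm_num
    set z : ℝ := (m:ℝ) * y + -((N - 1) / 2 * y) with hz
    have h5 := Real.one_sub_sq_div_two_le_cos (x := 2 * Real.pi * z)
    have h6 : z ^ 2 ≤ (1 / 8) ^ 2 := by
      rw [← sq_abs z]
      exact pow_le_pow_left₀ (abs_nonneg z) h4 2
    have h7 := Real.pi_lt_d2
    have h8 := Real.pi_pos
    have h9 : Real.pi ^ 2 ≤ 10 := by nlinarith
    have h10 : (2 * Real.pi * z) ^ 2 ≤ 1 := by
      have e : (2 * Real.pi * z) ^ 2 = 4 * (Real.pi ^ 2 * z ^ 2) := by ring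
      rw [e]
      have : Real.pi ^ 2 * z ^ 2 ≤ 10 * (1 / 8) ^ 2 :=
        mul_le_mul h9 h6 (sq_nonneg _) (by norm_num)
      linarith
    linarith
  have h2 : ∑ m ∈ iv N, Real.cos (2 * Real.pi * (m * y + -((N - 1) / 2 * y))) =
      (D1 N y * ex (-((N - 1) / 2 * y))).re := by
    unfold D1
    rw [Finset.sum_mul, Complex.re_sum]
    refine Finset.sum_congr rfl fun m _ => ?_
    rw [← ex_add, ex_re]
  rw [h2] at h1
  calc (N:ℝ) / 2 ≤ (D1 N y * ex (-((N - 1) / 2 * y))).re := h1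
    _ ≤ ‖D1 N y * ex (-((N - 1) / 2 * y))‖ := Complex.re_le_norm _
    _ = ‖D1 N y‖ := by rw [norm_mul, norm_ex, mul_one]

lemma D_lower {N : ℕ} (hN : 1 ≤ N) {x : ℝ × ℝ} (hx : x ∈ Nr (1 / (4 * N))) : (N:ℝ) ^ 2 / 4 ≤ ‖Dm N x‖ := by
  unfold Nr at hx
  rw [Set.mem_prod, Set.mem_Icc, Set.mem_Icc, ← abs_le, ← abs_le] at hx
  rw [D_eq, norm_mul]
  have h1 := D1_lower hN hx.1
  have h2 := D1_lower hN hx.2
  calc (N:ℝ) ^ 2 / 4 = (N / 2) * (N / 2) := by ring
    _ ≤ ‖D1 N x.1‖ * ‖D1 N x.2‖ := mul_le_mul h1 h2 (by positivity) (norm_nonneg _)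

variable {ι : Type}

theorem int_G_sqD (I : Finset ι) (ξ : ι → ℤ × ℤ) (lam c : ι → ℝ) (t : ℝ) :
    ∫ a in Dq, ‖G I ξ lam c a t‖ ^ 2 = N2 I ξ lam c t := by
  have h : ((∫ a in Dq, ‖G I ξ lam c a t‖ ^ 2 : ℝ) : ℂ) =
      ∑ x ∈ PG I ξ, ((c x.1 * c x.2 : ℝ) : ℂ) * ex (t * (lam x.1 - lam x.2)) := by
    rw [← integral_complex_ofReal]
    have e : ∀ a : ℝ × ℝ, ((‖G I ξ lam c a t‖ ^ 2 : ℝ) : ℂ) =
        ∑ i ∈ I, ∑ j ∈ I, (((c i * c j : ℝ) : ℂ) * ex (t * (lam i - lam j))) * ex (dp (ξ i - ξ j) a) := by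
      intro a
      have : ((‖G I ξ lam c a t‖ ^ 2 : ℝ) : ℂ) = G I ξ lam c a t * (starRingEnd ℂ) (G I ξ lam c a t) := by
        rw [Complex.mul_conj, Complex.normSq_eq_norm_sq]
      rw [this]
      unfold G
      rw [map_sum, Finset.sum_mul_sum]
      apply Finset.sum_congr rfl
      intro i _
      apply Finset.sum_congr rfl
      intro j _
      have h1 : dp (ξ i - ξ j) a = dp (ξ i) a + (-dp (ξ j) a) := by
        simp only [dp, Prod.fst_sub, Prod.snd_sub]; push_cast; ring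
      have h2 : t * (lam i - lam j) = t * lam i + -(t * lam j) := by ring
      rw [h1, h2, ex_add (dp (ξ i) a) (t * lam i), ex_add (dp (ξ j) a) (t * lam j),
        ex_add (t * lam i) (-(t * lam j)), ex_add (dp (ξ i) a) (-dp (ξ j) a), ex_neg, ex_neg, map_mul, map_mul,
        Complex.conj_ofReal]
      push_cast
      ring
    simp_rw [e]
    rw [integral_finsetSum]
    swap
    · intro i _
      apply integrable_finsetSum
      intro j _
      exact (integrable_ex_D _).const_mul _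
    have h3 : ∀ i ∈ I, ∫ a in Dq, ∑ j ∈ I, (((c i * c j : ℝ) : ℂ) * ex (t * (lam i - lam j))) * ex (dp (ξ i - ξ j) a) =
        ∑ j ∈ I, if ξ i = ξ j then (((c i * c j : ℝ) : ℂ) * ex (t * (lam i - lam j))) else 0 := by
      intro i _
      rw [integral_finsetSum]
      · apply Finset.sum_congr rfl
        intro j _
        rw [integral_const_mul, int_ex_D]
        by_cases h4 : ξ i = ξ j
        · rw [if_pos h4, if_pos (sub_eq_zero.mpr h4), mul_one]
        · rw [if_neg h4, if_neg (fun h5 => h4 (sub_eq_zero.mp h5)), mul_zero]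
      · intro j _
        exact (integrable_ex_D _).const_mul _
    rw [Finset.sum_congr rfl h3, ← Finset.sum_product', PG, Finset.sum_filter]
  have h4 := congrArg Complex.re h
  rw [Complex.ofReal_re] at h4
  rw [h4, Complex.re_sum]
  unfold N2
  apply Finset.sum_congr rfl
  intro x _
  rw [Complex.re_ofReal_mul, ex_re]

/-- the product is a generic sum -/
lemma D_mul_S (N : ℕ) (B : Finset (ℤ × ℤ)) (c : ℤ × ℤ → ℝ) (a x : ℝ × ℝ) (t : ℝ) :
    Dm N x * S B c (a + x) t =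
      G (sq N ×ˢ B) (fun i => i.1 + i.2) (fun i => dp i.2 a + t * nz i.2) (fun i => c i.2) x 1 := by
  unfold Dm S G
  rw [Finset.sum_mul_sum, ← Finset.sum_product']
  refine Finset.sum_congr rfl fun i _ => ?_
  have e : dp (i.1 + i.2) x + 1 * (dp i.2 a + t * nz i.2) = dp i.1 x + (dp i.2 (a + x) + t * nz i.2) := by
    simp only [dp, Prod.fst_add, Prod.snd_add]; push_cast; ring
  rw [e, ex_add (dp i.1 x)]
  ring

/-- number of the pairs with a given difference, one-dimensional -/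
lemma count1 (N : ℕ) (l : ℤ) :
    ∑ m ∈ iv N, ∑ m' ∈ iv N, (if m + l = m' then (1:ℝ) else 0) = max 0 ((N:ℝ) - |(l:ℝ)|) := by
  have h1 : ∀ m ∈ iv N, ∑ m' ∈ iv N, (if m + l = m' then (1:ℝ) else 0) = if m + l ∈ iv N then 1 else 0 := by
    intro m _
    rw [Finset.sum_ite_eq]
  rw [Finset.sum_congr rfl h1, Finset.sum_boole]
  have h2 : (iv N).filter (fun m => m + l ∈ iv N) = Finset.Ico (max 0 (-l)) (min (N:ℤ) (N - l)) := by
    ext m
    unfold iv
    rw [Finset.mem_filter, Finset.mem_Ico, Finset.mem_Ico, Finset.mem_Ico]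
    omega
  rw [h2, Int.card_Ico]
  rcases le_total 0 l with h | h
  · have h3 : (0:ℝ) ≤ l := by exact_mod_cast h
    rw [abs_of_nonneg h3, max_eq_left (by omega : -l ≤ 0), min_eq_right (by omega : (N:ℤ) - l ≤ N), sub_zero]
    rcases le_total l N with h4 | h4
    · have h5 : (l:ℝ) ≤ N := by exact_mod_cast h4
      rw [max_eq_right (by linarith)]
      have h6 : (((N:ℤ) - l).toNat : ℤ) = N - l := Int.toNat_of_nonneg (by omega)
      have h7 : ((((N:ℤ) - l).toNat : ℤ) : ℝ) = ((N - l : ℤ) : ℝ) := by rw [h6]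
      push_cast at h7
      rw [← h7]
    · have h5 : (N:ℝ) ≤ l := by exact_mod_cast h4
      rw [max_eq_left (by linarith), Int.toNat_of_nonpos (by omega)]
      exact Nat.cast_zero
  · have h3 : (l:ℝ) ≤ 0 := by exact_mod_cast h
    rw [abs_of_nonpos h3, max_eq_right (by omega : 0 ≤ -l), min_eq_left (by omega : (N:ℤ) ≤ N - l)]
    rcases le_total (-l) N with h4 | h4
    · have h5 : -(l:ℝ) ≤ N := by exact_mod_cast h4
      rw [max_eq_right (by linarith)]
      have h6 : (((N:ℤ) - -l).toNat : ℤ) = N - -l := Int.toNat_of_nonneg (by omega)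
      have h7 : ((((N:ℤ) - -l).toNat : ℤ) : ℝ) = ((N - -l : ℤ) : ℝ) := by rw [h6]
      push_cast at h7
      rw [← h7]
    · have h5 : (N:ℝ) ≤ -l := by exact_mod_cast h4
      rw [max_eq_left (by linarith), Int.toNat_of_nonpos (by omega)]
      exact Nat.cast_zero

lemma count2 {N : ℕ} (hN : 1 ≤ N) (k k' : ℤ × ℤ) :
    ∑ m ∈ sq N, ∑ m' ∈ sq N, (if m + k = m' + k' then (1:ℝ) else 0) = (N:ℝ) ^ 2 * fw N (k - k') := by
  have hN' : (0:ℝ) < N := by exact_mod_cast hN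
  have h1 : ∀ m m' : ℤ × ℤ, (if m + k = m' + k' then (1:ℝ) else 0) =
      (if m.1 + (k - k').1 = m'.1 then (1:ℝ) else 0) * (if m.2 + (k - k').2 = m'.2 then (1:ℝ) else 0) := by
    intro m m'
    have h2 : m + k = m' + k' ↔ m.1 + (k - k').1 = m'.1 ∧ m.2 + (k - k').2 = m'.2 := by
      rw [Prod.ext_iff]
      simp only [Prod.fst_add, Prod.snd_add, Prod.fst_sub, Prod.snd_sub]
      constructor
      · rintro ⟨h3, h4⟩
        constructor <;> omega
      · rintro ⟨h3, h4⟩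
        constructor <;> omega
    by_cases h3 : m.1 + (k - k').1 = m'.1
    · by_cases h4 : m.2 + (k - k').2 = m'.2
      · rw [if_pos (h2.mpr ⟨h3, h4⟩), if_pos h3, if_pos h4, mul_one]
      · rw [if_neg (fun h => h4 (h2.mp h).2), if_neg h4, mul_zero]
    · rw [if_neg (fun h => h3 (h2.mp h).1), if_neg h3, zero_mul]
  simp_rw [h1]
  have h2 : ∑ m ∈ sq N, ∑ m' ∈ sq N,
      (if m.1 + (k - k').1 = m'.1 then (1:ℝ) else 0) * (if m.2 + (k - k').2 = m'.2 then (1:ℝ) else 0) =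
      (∑ m ∈ iv N, ∑ m' ∈ iv N, (if m + (k - k').1 = m' then (1:ℝ) else 0)) *
        (∑ m ∈ iv N, ∑ m' ∈ iv N, (if m + (k - k').2 = m' then (1:ℝ) else 0)) := by
    unfold sq
    rw [Finset.sum_mul_sum, Finset.sum_product]
    refine Finset.sum_congr rfl fun m1 _ => Finset.sum_congr rfl fun m2 _ => ?_
    rw [Finset.sum_mul_sum, Finset.sum_product]
  rw [h2, count1, count1]
  unfold fw
  have h3 : ∀ l : ℤ, max 0 ((N:ℝ) - |(l:ℝ)|) = N * max 0 (1 - |(l:ℝ)| / N) := by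
    intro l
    rw [mul_max_of_nonneg _ _ hN'.le, mul_zero, mul_sub, mul_one, mul_div_cancel₀ _ hN'.ne']
  rw [h3, h3]
  ring

lemma fw_zero {N : ℕ} (hN : 1 ≤ N) {l : ℤ × ℤ} (hl : l ∉ box N) : fw N l = 0 := by
  have hN' : (0:ℝ) < N := by exact_mod_cast hN
  rw [mem_box, not_and_or, not_le, not_le] at hl
  have h1 : ∀ z : ℤ, (N:ℤ) < |z| → max 0 (1 - |(z:ℝ)| / N) = 0 := by
    intro z hz
    have h2 : (N:ℝ) < |(z:ℝ)| := by exact_mod_cast hz
    rw [max_eq_left]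
    have : 1 ≤ |(z:ℝ)| / N := by rw [le_div_iff₀ hN']; linarith
    linarith
  unfold fw
  rcases hl with h | h
  · rw [h1 _ h, zero_mul]
  · rw [h1 _ h, mul_zero]

lemma fw_self {N : ℕ} : fw N 0 = 1 := by
  unfold fw
  simp

/-- the summand -/
noncomputable def F (c : ℤ × ℤ → ℝ) (a : ℝ × ℝ) (t : ℝ) (k k' : ℤ × ℤ) : ℝ :=
  (c k * c k') * Real.cos (2 * Real.pi * (dp (k - k') a + t * (nz k - nz k')))

lemma N2_eq {N : ℕ} (hN : 1 ≤ N) (B : Finset (ℤ × ℤ)) (c : ℤ × ℤ → ℝ) (a : ℝ × ℝ) (t : ℝ) :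
    N2 (sq N ×ˢ B) (fun i => i.1 + i.2) (fun i => dp i.2 a + t * nz i.2) (fun i => c i.2) 1 =
      (N:ℝ) ^ 2 * ∑ k ∈ B, ∑ k' ∈ B, fw N (k - k') * F c a t k k' := by
  unfold N2 PG
  rw [Finset.sum_filter, Finset.sum_product]
  have h1 : ∀ i j : (ℤ × ℤ) × (ℤ × ℤ), (if i.1 + i.2 = j.1 + j.2 then
      (c i.2 * c j.2) * Real.cos (2 * Real.pi * (1 * ((dp i.2 a + t * nz i.2) - (dp j.2 a + t * nz j.2)))) else 0) =
      (if i.1 + i.2 = j.1 + j.2 then (1:ℝ) else 0) * F c a t i.2 j.2 := by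
    intro i j
    have e : 1 * ((dp i.2 a + t * nz i.2) - (dp j.2 a + t * nz j.2)) =
        dp (i.2 - j.2) a + t * (nz i.2 - nz j.2) := by
      simp only [dp, Prod.fst_sub, Prod.snd_sub]; push_cast; ring
    rw [e]
    unfold F
    rw [ite_mul, one_mul, zero_mul]
  simp only [h1]
  rw [Finset.sum_product, Finset.sum_comm, Finset.mul_sum]
  refine Finset.sum_congr rfl fun k _ => ?_
  have h2 : ∀ m ∈ sq N, ∑ y ∈ sq N ×ˢ B, (if m + k = y.1 + y.2 then (1:ℝ) else 0) * F c a t k y.2 =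
      ∑ k' ∈ B, (∑ m' ∈ sq N, (if m + k = m' + k' then (1:ℝ) else 0)) * F c a t k k' := by
    intro m _
    rw [Finset.sum_product, Finset.sum_comm]
    refine Finset.sum_congr rfl fun k' _ => ?_
    rw [Finset.sum_mul]
  rw [Finset.sum_congr rfl h2, Finset.sum_comm, Finset.mul_sum]
  refine Finset.sum_congr rfl fun k' _ => ?_
  rw [← Finset.sum_mul, count2 hN]
  ring

lemma off_re (N : ℕ) (B : Finset (ℤ × ℤ)) (c : ℤ × ℤ → ℝ) (a : ℝ × ℝ) (t : ℝ) :
    (off N B c a t).re = ∑ x ∈ IL N B, fw N x.1 * F c a t (x.2 + x.1) x.2 := by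
  unfold off G
  rw [Complex.re_sum]
  refine Finset.sum_congr rfl fun x _ => ?_
  rw [Complex.re_ofReal_mul, ex_re]
  unfold F lv
  rw [add_sub_cancel_left]
  ring

lemma split_sum {N : ℕ} (hN : 1 ≤ N) (B : Finset (ℤ × ℤ)) (c : ℤ × ℤ → ℝ) (a : ℝ × ℝ) (t : ℝ) :
    ∑ k ∈ B, ∑ k' ∈ B, fw N (k - k') * F c a t k k' = ∑ k ∈ B, c k ^ 2 + (off N B c a t).re := by
  classical
  rw [off_re, ← Finset.sum_product', ← Finset.sum_filter_add_sum_filter_not (B ×ˢ B) (fun p => p.1 = p.2)]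
  congr 1
  · refine Finset.sum_nbij' (fun p => p.1) (fun k => (k, k)) ?_ ?_ ?_ ?_ ?_
    · intro p hp
      rw [Finset.mem_filter, Finset.mem_product] at hp
      exact hp.1.1
    · intro k hk
      rw [Finset.mem_filter, Finset.mem_product]
      exact ⟨⟨hk, hk⟩, rfl⟩
    · intro p hp
      rw [Finset.mem_filter] at hp
      exact Prod.ext rfl hp.2
    · intro k _
      rfl
    · intro p hp
      rw [Finset.mem_filter] at hp
      rw [← hp.2, sub_self, fw_self]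
      unfold F
      have : dp (p.1 - p.1) a + t * (nz p.1 - nz p.1) = 0 := by
        rw [sub_self, sub_self]; simp [dp]
      rw [this]
      simp
      ring
  · have h1 : ∑ p ∈ (B ×ˢ B).filter (fun p => ¬ p.1 = p.2), fw N (p.1 - p.2) * F c a t p.1 p.2 =
        ∑ p ∈ ((B ×ˢ B).filter (fun p => ¬ p.1 = p.2)).filter (fun p => p.1 - p.2 ∈ box N),
          fw N (p.1 - p.2) * F c a t p.1 p.2 := by
      refine (Finset.sum_filter_of_ne ?_).symm
      intro p _ hne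
      by_contra hcon
      exact hne (by rw [fw_zero hN hcon, zero_mul])
    rw [h1]
    refine Finset.sum_nbij' (fun p => (p.1 - p.2, p.2)) (fun x => (x.2 + x.1, x.2)) ?_ ?_ ?_ ?_ ?_
    · intro p hp
      rw [Finset.mem_filter, Finset.mem_filter, Finset.mem_product] at hp
      unfold IL
      rw [Finset.mem_filter, Finset.mem_product, Finset.mem_erase]
      refine ⟨⟨⟨sub_ne_zero.mpr hp.1.2, hp.2⟩, hp.1.1.2⟩, ?_⟩
      show p.2 + (p.1 - p.2) ∈ B
      rw [add_sub_cancel]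
      exact hp.1.1.1
    · intro x hx
      unfold IL at hx
      rw [Finset.mem_filter, Finset.mem_product, Finset.mem_erase] at hx
      rw [Finset.mem_filter, Finset.mem_filter, Finset.mem_product]
      refine ⟨⟨⟨hx.2, hx.1.2⟩, ?_⟩, ?_⟩
      · intro h
        exact hx.1.1.1 (by simpa using h)
      · show x.2 + x.1 - x.2 ∈ box N
        rw [add_sub_cancel_left]
        exact hx.1.1.2
    · intro p _
      exact Prod.ext (by simp) rfl
    · intro x _
      exact Prod.ext (by simp) rfl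
    · intro p _
      show _ = fw N (p.1 - p.2) * F c a t (p.2 + (p.1 - p.2)) p.2
      rw [add_sub_cancel]

end Pool.Agent.H593.U.PNEAR

namespace Pool.Agent.H593.U

open PNEAR

theorem near : S_NEAR := by
  refine ⟨16, by norm_num, ?_⟩
  intro N B c a t hN
  have hN' : (0:ℝ) < N := by exact_mod_cast hN
  have hcontD : Continuous (fun x : ℝ × ℝ => Dm N x) := by
    unfold Dm
    exact continuous_finsetSum _ fun m _ => continuous_ex.comp (continuous_dp m)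
  have hcontS : Continuous (fun x : ℝ × ℝ => S B c (a + x) t) := by
    unfold S
    refine continuous_finsetSum _ fun k _ => continuous_const.mul (continuous_ex.comp ?_)
    exact ((continuous_dp k).comp (continuous_const.add continuous_id)).add continuous_const
  have hcomp : Dq ⊆ Icc (-(1/2):ℝ) (1/2) ×ˢ Icc (-(1/2):ℝ) (1/2) :=
    Set.prod_mono Ico_subset_Icc_self Ico_subset_Icc_self
  have hK : IsCompact (Icc (-(1/2):ℝ) (1/2) ×ˢ Icc (-(1/2):ℝ) (1/2)) := isCompact_Icc.prod isCompact_Icc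
  have hint : ∀ f : ℝ × ℝ → ℝ, Continuous f → IntegrableOn f Dq := fun f hf =>
    (hf.continuousOn.integrableOn_compact hK).mono_set hcomp
  have hi1 : IntegrableOn (fun x => ‖S B c (a + x) t‖ ^ 2) (Dq ∩ Nr (1 / (4 * N))) :=
    (hint _ (hcontS.norm.pow 2)).mono_set inter_subset_left
  have hi2 : IntegrableOn (fun x => (16 / (N:ℝ) ^ 4) * ‖Dm N x * S B c (a + x) t‖ ^ 2) Dq :=
    hint _ (continuous_const.mul ((hcontD.mul hcontS).norm.pow 2))
  have h1 : ∫ x in Dq ∩ Nr (1 / (4 * N)), ‖S B c (a + x) t‖ ^ 2 ≤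
      ∫ x in Dq ∩ Nr (1 / (4 * N)), (16 / (N:ℝ) ^ 4) * ‖Dm N x * S B c (a + x) t‖ ^ 2 := by
    refine setIntegral_mono_on hi1 (hi2.mono_set inter_subset_left)
      (measurableSet_Dq.inter (measurableSet_Nr _)) ?_
    intro x hx
    have h2 := D_lower hN hx.2
    rw [norm_mul, mul_pow]
    have h3 : (N:ℝ) ^ 4 / 16 ≤ ‖Dm N x‖ ^ 2 := by
      calc (N:ℝ) ^ 4 / 16 = ((N:ℝ) ^ 2 / 4) ^ 2 := by ring
        _ ≤ ‖Dm N x‖ ^ 2 := pow_le_pow_left₀ (by positivity) h2 2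
    have h4 : 1 ≤ 16 / (N:ℝ) ^ 4 * ‖Dm N x‖ ^ 2 := by
      calc (1:ℝ) = 16 / (N:ℝ) ^ 4 * ((N:ℝ) ^ 4 / 16) := by field_simp
        _ ≤ 16 / (N:ℝ) ^ 4 * ‖Dm N x‖ ^ 2 := mul_le_mul_of_nonneg_left h3 (by positivity)
    have h5 : 0 ≤ ‖S B c (a + x) t‖ ^ 2 := by positivity
    nlinarith
  have h2 : ∫ x in Dq ∩ Nr (1 / (4 * N)), (16 / (N:ℝ) ^ 4) * ‖Dm N x * S B c (a + x) t‖ ^ 2 ≤
      ∫ x in Dq, (16 / (N:ℝ) ^ 4) * ‖Dm N x * S B c (a + x) t‖ ^ 2 := by
    refine setIntegral_mono_set hi2 ?_ ?_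
    · exact Eventually.of_forall fun x => by positivity
    · exact inter_subset_left.eventuallyLE
  have h3 : ∫ x in Dq, (16 / (N:ℝ) ^ 4) * ‖Dm N x * S B c (a + x) t‖ ^ 2 =
      (16 / (N:ℝ) ^ 4) * ((N:ℝ) ^ 2 * (∑ k ∈ B, c k ^ 2 + (off N B c a t).re)) := by
    rw [integral_const_mul]
    simp_rw [D_mul_S]
    rw [int_G_sqD, N2_eq hN, split_sum hN]
  calc ∫ x in Dq ∩ Nr (1 / (4 * N)), ‖S B c (a + x) t‖ ^ 2
      ≤ (16 / (N:ℝ) ^ 4) * ((N:ℝ) ^ 2 * (∑ k ∈ B, c k ^ 2 + (off N B c a t).re)) := by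
        rw [← h3]; exact h1.trans h2
    _ = 16 / (N:ℝ) ^ 2 * (∑ k ∈ B, c k ^ 2 + (off N B c a t).re) := by
        field_simp
    _ ≤ 16 / (N:ℝ) ^ 2 * (∑ k ∈ B, c k ^ 2 + ‖off N B c a t‖) := by
        have := Complex.re_le_norm (off N B c a t)
        gcongr

end Pool.Agent.H593.U
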