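import Mathlib
import Pool.Agent.H593.U7.Stm

/-!
# The mean of the maximal discrepancy is bounded below
-/

open MeasureTheory Set Filter Topology
open Pool.Agent.H383.Gauss
open scoped ENNReal

namespace Pool.Agent.H593.U

namespace PPOS

/-- right-continuity of the counting function -/
lemma Na_right (a : ℝ × ℝ) {R : ℝ} (hR : 0 ≤ R) : ∀ᶠ R' in 𝓝[>] R, Na a R' = Na a R := by
  have h1 : ∀ p ∈ ballA a (R + 1), ∀ᶠ R' in 𝓝[>] R, (da p a ≤ R' ↔ da p a ≤ R) := by
    intro p _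
    rcases le_or_gt (da p a) R with h | h
    · filter_upwards [self_mem_nhdsWithin] with R' hR'
      exact ⟨fun _ => h, fun _ => h.trans (le_of_lt hR')⟩
    · filter_upwards [Ioo_mem_nhdsGT h] with R' hR'
      exact ⟨fun h2 => absurd hR'.2 (not_lt.2 h2), fun h2 => absurd h (not_lt.2 h2)⟩
  have h2 : ∀ᶠ R' in 𝓝[>] R, ∀ p ∈ ballA a (R + 1), (da p a ≤ R' ↔ da p a ≤ R) :=
    (Filter.eventually_all_finset _).2 h1
  filter_upwards [h2, Ioo_mem_nhdsGT (show R < R + 1 by linarith)] with R' h3 h4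
  have h6 : ballA a R' = ballA a R := by
    ext p
    rw [mem_ballA (hR.trans h4.1.le), mem_ballA hR]
    constructor
    · intro h5
      exact (h3 p ((mem_ballA (by linarith) p).2 (h5.trans h4.2.le))).1 h5
    · intro h5
      exact h5.trans h4.1.le
  rw [Na_eq_card a (hR.trans h4.1.le), Na_eq_card a hR, h6]

/-- the maximal discrepancy -/
noncomputable def f (R : ℝ) : ℝ≥0∞ := ⨆ a : ℝ × ℝ, ENNReal.ofReal |Pa a R / √R|

lemma meas_f : Measurable (indicator (Ioi (0:ℝ)) f) := by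
  apply measurable_of_Ioi
  intro c
  apply MeasurableSet.of_mem_nhdsGT
  intro R hR
  rw [mem_preimage, mem_Ioi] at hR
  have hR0 : 0 < R := by
    by_contra h
    rw [indicator_of_notMem (by simpa using h)] at hR
    exact absurd hR (by simp)
  rw [indicator_of_mem (show R ∈ Ioi (0:ℝ) from hR0)] at hR
  unfold f at hR
  rw [lt_iSup_iff] at hR
  obtain ⟨a, ha⟩ := hR
  have h1 : Tendsto (fun R' => ENNReal.ofReal |(Na a R - Real.pi * R' ^ 2) / √R'|) (𝓝[>] R)
      (𝓝 (ENNReal.ofReal |(Na a R - Real.pi * R ^ 2) / √R|)) := by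
    have h2 : ContinuousAt (fun R' : ℝ => (Na a R - Real.pi * R' ^ 2) / √R') R := by
      apply ContinuousAt.div
      · fun_prop
      · fun_prop
      · exact (Real.sqrt_pos.2 hR0).ne'
    have h3 : ContinuousAt (fun R' : ℝ => |(Na a R - Real.pi * R' ^ 2) / √R'|) R := h2.abs
    have h4 := (ENNReal.continuous_ofReal.continuousAt
      (x := |(Na a R - Real.pi * R ^ 2) / √R|)).tendsto.comp
        (h3.tendsto.mono_left (nhdsWithin_le_nhds (s := Ioi R)))
    exact h4
  have ha' : c < ENNReal.ofReal |(Na a R - Real.pi * R ^ 2) / √R| := ha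
  have h2 := h1.eventually (lt_mem_nhds ha')
  filter_upwards [h2, Na_right a hR0.le, self_mem_nhdsWithin] with R' h3 h4 h5
  have hR' : (0:ℝ) < R' := hR0.trans h5
  rw [mem_preimage, mem_Ioi, indicator_of_mem (show R' ∈ Ioi (0:ℝ) from hR')]
  refine lt_of_lt_of_le h3 ?_
  rw [← h4]
  exact le_iSup (fun a : ℝ × ℝ => ENNReal.ofReal |Pa a R' / √R'|) a

lemma Va_eq_S (K : ℕ) (R : ℝ) (a : ℝ × ℝ) :
    S (B0 K) (fun p => bw 0 p * Real.sin (2 * Real.pi * (R * nz p) - Real.pi / 4)) a 0 =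
      ((Va R 0 K a : ℝ) : ℂ) := by
  rw [S_cos (fun p hp => neg_mem_B0 hp)]
  · unfold Va B0
    rw [Complex.ofReal_sum]
    apply Finset.sum_congr rfl
    intro p _
    rw [zero_mul, ex_zero, mul_one]
  · intro p
    unfold bw
    rw [nz_neg]

lemma int_Va (K : ℕ) (R : ℝ) : ∫ a in Q, Va R 0 K a ^ 2 =
    ∑ p ∈ B0 K, (bw 0 p * Real.sin (2 * Real.pi * (R * nz p) - Real.pi / 4)) ^ 2 := by
  have h := parseval (B0 K) (fun p =>
    ((bw 0 p * Real.sin (2 * Real.pi * (R * nz p) - Real.pi / 4) : ℝ) : ℂ))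
  have e : ∀ a : ℝ × ℝ, ‖∑ s ∈ B0 K,
      ((bw 0 s * Real.sin (2 * Real.pi * (R * nz s) - Real.pi / 4) : ℝ) : ℂ) * ex (dp s a)‖ ^ 2 =
      Va R 0 K a ^ 2 := by
    intro a
    have h1 := Va_eq_S K R a
    unfold S at h1
    simp only [zero_mul, add_zero] at h1
    rw [h1, Complex.norm_real, Real.norm_eq_abs, sq_abs]
  simp_rw [e] at h
  rw [h]
  apply Finset.sum_congr rfl
  intro p _
  rw [Complex.norm_real, Real.norm_eq_abs, sq_abs]

lemma bw_one : bw 0 ((1, 0) : ℤ × ℤ) = 1 / Real.pi := by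
  have h : nz ((1, 0) : ℤ × ℤ) = 1 := by unfold nz; simp
  unfold bw
  rw [h, Real.one_rpow, zero_mul, J_zero]
  field_simp

lemma lower_sq {K : ℕ} (hK : 1 ≤ K) (R : ℝ) :
    ((1 / Real.pi) * |Real.sin (2 * Real.pi * R - Real.pi / 4)|) ^ 2 ≤ ∫ a in Q, Va R 0 K a ^ 2 := by
  rw [int_Va]
  have h : nz ((1, 0) : ℤ × ℤ) = 1 := by unfold nz; simp
  have hm : ((1, 0) : ℤ × ℤ) ∈ B0 K := by
    rw [mem_B0, h]
    exact ⟨by simp, by exact_mod_cast hK⟩
  have h1 := Finset.single_le_sum (f := fun p : ℤ × ℤ =>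
    (bw 0 p * Real.sin (2 * Real.pi * (R * nz p) - Real.pi / 4)) ^ 2)
    (fun p _ => sq_nonneg _) hm
  simp only [bw_one, h, mul_one] at h1
  rw [mul_pow, sq_abs, ← mul_pow]
  exact h1

lemma lower {K : ℕ} (hK : 1 ≤ K) (R : ℝ) :
    ENNReal.ofReal ((1 / Real.pi) * |Real.sin (2 * Real.pi * R - Real.pi / 4)|) ≤
      ⨆ a : ℝ × ℝ, ENNReal.ofReal |Va R 0 K a| := by
  by_contra hcon
  rw [not_le] at hcon
  set c := (1 / Real.pi) * |Real.sin (2 * Real.pi * R - Real.pi / 4)| with hc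
  set v := ⨆ a : ℝ × ℝ, ENNReal.ofReal |Va R 0 K a| with hv
  have hvt : v ≠ ⊤ := (hcon.trans_le le_top).ne
  have h1 : ∀ a : ℝ × ℝ, |Va R 0 K a| ≤ v.toReal := by
    intro a
    have : ENNReal.ofReal |Va R 0 K a| ≤ v := le_iSup (fun a : ℝ × ℝ => ENNReal.ofReal |Va R 0 K a|) a
    exact (ENNReal.ofReal_le_iff_le_toReal hvt).1 this
  have h2 : v.toReal < c := by
    exact (ENNReal.lt_ofReal_iff_toReal_lt hvt).1 hcon
  have h3 : ∫ a in Q, Va R 0 K a ^ 2 ≤ v.toReal ^ 2 := by
    have : IsFiniteMeasure (volume.restrict Q) := ⟨by simp [volume_Q]⟩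
    have h4 : ∫ a in Q, Va R 0 K a ^ 2 ≤ ∫ a in Q, v.toReal ^ 2 := by
      apply integral_mono_of_nonneg
      · exact Eventually.of_forall fun a => sq_nonneg _
      · exact integrable_const _
      · exact Eventually.of_forall fun a => by
          have := h1 a
          show Va R 0 K a ^ 2 ≤ v.toReal ^ 2
          rw [← sq_abs (Va R 0 K a)]
          exact pow_le_pow_left₀ (abs_nonneg _) this 2
    refine h4.trans (le_of_eq ?_)
    rw [setIntegral_const, Measure.real, volume_Q]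
    simp
  have h5 := lower_sq hK R
  have h6 : v.toReal ^ 2 < c ^ 2 := pow_lt_pow_left₀ h2 ENNReal.toReal_nonneg (by norm_num)
  exact absurd (h5.trans h3) (not_le.2 h6)

lemma int_sin (X : ℝ) {H : ℝ} (hH : 1 ≤ H) :
    H / 8 ≤ ∫ R in Icc X (X + H), (1 / Real.pi) * Real.sin (2 * Real.pi * R - Real.pi / 4) ^ 2 := by
  have hpi := Real.pi_gt_three
  have hpi2 := Real.pi_lt_d2
  have hpi0 := Real.pi_pos
  rw [integral_Icc_eq_integral_Ioc, ← intervalIntegral.integral_of_le (by linarith),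
    intervalIntegral.integral_const_mul,
    intervalIntegral.integral_comp_mul_sub (fun x => Real.sin x ^ 2) (by positivity), integral_sin_sq]
  set u := 2 * Real.pi * X - Real.pi / 4 with hu
  set w := 2 * Real.pi * (X + H) - Real.pi / 4 with hw
  have h1 : |Real.sin u * Real.cos u| ≤ 1 / 2 := by
    rw [abs_le]
    constructor <;> nlinarith [Real.sin_sq_add_cos_sq u, sq_nonneg (Real.sin u + Real.cos u), sq_nonneg (Real.sin u - Real.cos u)]
  have h2 : |Real.sin w * Real.cos w| ≤ 1 / 2 := by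
    rw [abs_le]
    constructor <;> nlinarith [Real.sin_sq_add_cos_sq w, sq_nonneg (Real.sin w + Real.cos w), sq_nonneg (Real.sin w - Real.cos w)]
  rw [abs_le] at h1 h2
  have h3 : w - u = 2 * Real.pi * H := by rw [hw, hu]; ring
  rw [smul_eq_mul]
  have h4 : 2 * Real.pi * H - 1 ≤ Real.sin u * Real.cos u - Real.sin w * Real.cos w + w - u := by linarith
  calc H / 8 ≤ 1 / Real.pi * ((2 * Real.pi)⁻¹ * ((2 * Real.pi * H - 1) / 2)) := by
        have e : 1 / Real.pi * ((2 * Real.pi)⁻¹ * ((2 * Real.pi * H - 1) / 2)) =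
            (2 * Real.pi * H - 1) / (4 * Real.pi * Real.pi) := by
          field_simp
          ring
        rw [e, le_div_iff₀ (by positivity)]
        have h5 : Real.pi * Real.pi ≤ 3.15 * Real.pi := by nlinarith
        have h6 : 0 < H := by linarith
        have h7 : H / 8 * (4 * Real.pi * Real.pi) = (H / 2) * (Real.pi * Real.pi) := by ring
        rw [h7]
        have h8 : (H / 2) * (Real.pi * Real.pi) ≤ (H / 2) * (3.15 * Real.pi) := by gcongr
        have h9 : 3 * 1 ≤ Real.pi * H := by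
          apply mul_le_mul <;> linarith
        nlinarith
    _ ≤ _ := by gcongr

end PPOS

open PPOS in
theorem pos (h : S_AP) : S_POS := by
  obtain ⟨c, hc0, hc1, hc⟩ := h 1 le_rfl (by norm_num)
  obtain ⟨K0, hK0⟩ := hc (1 / 100) (by norm_num)
  obtain ⟨X0, hX0⟩ := hK0 (max K0 1) (le_max_left _ _)
  set K := max K0 1 with hK
  have hK1 : 1 ≤ K := le_max_right _ _
  refine ⟨1 / 20, max X0 1, c, by norm_num, hc0, hc1, ?_⟩
  intro X H hX hH1 hH2
  have hX1 : 1 ≤ X := (le_max_right _ _).trans hX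
  have hHone : 1 ≤ H := (Real.one_le_rpow hX1 (by linarith)).trans hH1
  have key := hX0 X H ((le_max_left _ _).trans hX) hH1 hH2
  simp only [ENNReal.rpow_one] at key
  set g : ℝ → ℝ≥0∞ := fun R => ⨆ a : ℝ × ℝ, ENNReal.ofReal |Pa a R / √R - Va R 0 K a| with hg
  set w : ℝ → ℝ := fun R => (1 / Real.pi) * Real.sin (2 * Real.pi * R - Real.pi / 4) ^ 2 with hw
  have hpi0 := Real.pi_pos
  have hwf : ∀ R, ENNReal.ofReal (w R) ≤ f R + g R := by
    intro R
    have h1 : w R ≤ (1 / Real.pi) * |Real.sin (2 * Real.pi * R - Real.pi / 4)| := by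
      rw [hw]
      have h2 := Real.abs_sin_le_one (2 * Real.pi * R - Real.pi / 4)
      have h3 := abs_nonneg (Real.sin (2 * Real.pi * R - Real.pi / 4))
      have h4 : Real.sin (2 * Real.pi * R - Real.pi / 4) ^ 2 ≤ |Real.sin (2 * Real.pi * R - Real.pi / 4)| := by
        rw [← sq_abs]; nlinarith
      have h5 : 0 ≤ 1 / Real.pi := by positivity
      exact mul_le_mul_of_nonneg_left h4 h5
    refine (ENNReal.ofReal_le_ofReal h1).trans ((lower hK1 R).trans ?_)
    apply iSup_le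
    intro a
    have h6 : |Va R 0 K a| ≤ |Pa a R / √R| + |Pa a R / √R - Va R 0 K a| := by
      have h7 := abs_sub_abs_le_abs_sub (Va R 0 K a) (Pa a R / √R)
      rw [abs_sub_comm] at h7
      linarith
    refine (ENNReal.ofReal_le_ofReal h6).trans ?_
    rw [ENNReal.ofReal_add (abs_nonneg _) (abs_nonneg _)]
    exact add_le_add (le_iSup (fun a : ℝ × ℝ => ENNReal.ofReal |Pa a R / √R|) a)
      (le_iSup (fun a : ℝ × ℝ => ENNReal.ofReal |Pa a R / √R - Va R 0 K a|) a)
  have hfm : AEMeasurable f (volume.restrict (Icc X (X + H))) := by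
    refine ⟨indicator (Ioi (0:ℝ)) f, meas_f, ?_⟩
    filter_upwards [self_mem_ae_restrict measurableSet_Icc] with R hR
    rw [indicator_of_mem]
    have : X ≤ R := hR.1
    exact lt_of_lt_of_le (by linarith : (0:ℝ) < X) this
  have h1 : ENNReal.ofReal (H / 8) ≤ ∫⁻ R in Icc X (X + H), ENNReal.ofReal (w R) := by
    have hwc : Continuous w := by rw [hw]; fun_prop
    rw [← ofReal_integral_eq_lintegral_ofReal]
    · exact ENNReal.ofReal_le_ofReal (int_sin X hHone)
    · exact hwc.integrableOn_Icc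
    · exact Eventually.of_forall fun R => by
        rw [hw]
        simp only [Pi.zero_apply]
        positivity
  have h2 : ∫⁻ R in Icc X (X + H), ENNReal.ofReal (w R) ≤
      (∫⁻ R in Icc X (X + H), f R) + ∫⁻ R in Icc X (X + H), g R := by
    rw [← lintegral_add_left' hfm]
    exact lintegral_mono hwf
  have h3 : ENNReal.ofReal (H / 8) ≤ (∫⁻ R in Icc X (X + H), f R) + ENNReal.ofReal (1 / 100 * H) :=
    (h1.trans h2).trans (add_le_add le_rfl key)
  have h4 : ENNReal.ofReal (H / 8) - ENNReal.ofReal (1 / 100 * H) ≤ ∫⁻ R in Icc X (X + H), f R :=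
    tsub_le_iff_right.2 h3
  rw [← ENNReal.ofReal_sub _ (by positivity)] at h4
  refine le_trans (ENNReal.ofReal_le_ofReal ?_) h4
  linarith

end Pool.Agent.H593.U
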