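import Mathlib
import Pool.Agent.H593.U7.Stm

/-!
# Sixth moment of the supremum over all centres
-/

open MeasureTheory Set Filter Topology
open Pool.Agent.H383.Gauss
open scoped ENNReal

namespace Pool.Agent.H593.U

namespace PSIX

variable {ι : Type}

/-- the coefficient of `e(s·a)` -/
noncomputable def gc (I : Finset ι) (ξ : ι → ℤ × ℤ) (lam c : ι → ℝ) (t : ℝ) (s : ℤ × ℤ) : ℂ :=
  ∑ i ∈ I.filter (fun i => ξ i = s), (c i : ℂ) * ex (t * lam i)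

lemma G_eq (I : Finset ι) (ξ : ι → ℤ × ℤ) (lam c : ι → ℝ) (a : ℝ × ℝ) (t : ℝ) :
    G I ξ lam c a t = ∑ s ∈ I.image ξ, gc I ξ lam c t s * ex (dp s a) := by
  unfold G
  rw [← Finset.sum_fiberwise_of_maps_to (g := ξ) (t := I.image ξ)
    (fun p hp => Finset.mem_image_of_mem _ hp)]
  apply Finset.sum_congr rfl
  intro s _
  rw [gc, Finset.sum_mul]
  apply Finset.sum_congr rfl
  intro p hp
  rw [Finset.mem_filter] at hp
  rw [hp.2, ex_add]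
  ring

lemma N2_eq (I : Finset ι) (ξ : ι → ℤ × ℤ) (lam c : ι → ℝ) (t : ℝ) :
    N2 I ξ lam c t = ∑ s ∈ I.image ξ, ‖gc I ξ lam c t s‖ ^ 2 := by
  have h1 : ((∑ s ∈ I.image ξ, ‖gc I ξ lam c t s‖ ^ 2 : ℝ) : ℂ) =
      ∑ x ∈ PG I ξ, ((c x.1 * c x.2 : ℝ) : ℂ) * ex (t * (lam x.1 - lam x.2)) := by
    have h0 : ((∑ s ∈ I.image ξ, ‖gc I ξ lam c t s‖ ^ 2 : ℝ) : ℂ) =
        ∑ s ∈ I.image ξ, gc I ξ lam c t s * (starRingEnd ℂ) (gc I ξ lam c t s) := by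
      push_cast
      apply Finset.sum_congr rfl
      intro s _
      rw [Complex.mul_conj, Complex.normSq_eq_norm_sq]
      push_cast; rfl
    rw [h0]
    have h2 : ∀ s ∈ I.image ξ, gc I ξ lam c t s * (starRingEnd ℂ) (gc I ξ lam c t s) =
        ∑ x ∈ (PG I ξ).filter (fun x => ξ x.1 = s),
          ((c x.1 * c x.2 : ℝ) : ℂ) * ex (t * (lam x.1 - lam x.2)) := by
      intro s _
      have e : (PG I ξ).filter (fun x => ξ x.1 = s) =
          (I.filter (fun i => ξ i = s)) ×ˢ (I.filter (fun i => ξ i = s)) := by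
        ext x
        rw [Finset.mem_filter, mem_PG, Finset.mem_product, Finset.mem_filter, Finset.mem_filter]
        constructor
        · rintro ⟨⟨⟨h1, h2⟩, h3⟩, h4⟩
          exact ⟨⟨h1, h4⟩, ⟨h2, h3 ▸ h4⟩⟩
        · rintro ⟨⟨h1, h4⟩, ⟨h2, h5⟩⟩
          exact ⟨⟨⟨h1, h2⟩, h4.trans h5.symm⟩, h4⟩
      rw [e, gc, map_sum, Finset.sum_mul_sum, ← Finset.sum_product']
      apply Finset.sum_congr rfl
      intro x _
      rw [map_mul, Complex.conj_ofReal, ← ex_neg, mul_sub, sub_eq_add_neg, ex_add]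
      push_cast; ring
    rw [Finset.sum_congr rfl h2]
    rw [Finset.sum_fiberwise_of_maps_to (g := fun x : ι × ι => ξ x.1)]
    intro x hx
    rw [mem_PG] at hx
    exact Finset.mem_image.mpr ⟨x.1, hx.1.1, rfl⟩
  have h4 := congrArg Complex.re h1
  rw [Complex.ofReal_re] at h4
  rw [h4, Complex.re_sum]
  unfold N2
  apply Finset.sum_congr rfl
  intro x _
  rw [Complex.re_ofReal_mul, ex_re]

/-- Cauchy's inequality -/
lemma G_sq_le (I : Finset ι) (ξ : ι → ℤ × ℤ) (lam c : ι → ℝ) (a : ℝ × ℝ) (t : ℝ) :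
    ‖G I ξ lam c a t‖ ^ 2 ≤ (I.image ξ).card * N2 I ξ lam c t := by
  rw [G_eq, N2_eq]
  have h2 : ‖∑ s ∈ I.image ξ, gc I ξ lam c t s * ex (dp s a)‖ ≤ ∑ s ∈ I.image ξ, ‖gc I ξ lam c t s‖ := by
    refine (norm_sum_le _ _).trans (le_of_eq ?_)
    apply Finset.sum_congr rfl
    intro s _
    rw [norm_mul, norm_ex, mul_one]
  calc ‖∑ s ∈ I.image ξ, gc I ξ lam c t s * ex (dp s a)‖ ^ 2 ≤ (∑ s ∈ I.image ξ, ‖gc I ξ lam c t s‖) ^ 2 := by
        gcongr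
    _ ≤ _ := sq_sum_le_card_mul_sum_sq

lemma card_image_le {K : ℕ} (hK : 1 ≤ K) {B : Finset (ℤ × ℤ)} (hB : B ⊆ box (2 * K)) :
    (((tup 3 B).image xm).card : ℝ) ≤ 169 * (K:ℝ) ^ 2 := by
  have h1 : (tup 3 B).image xm ⊆ box (6 * K) := by
    intro s hs
    rw [Finset.mem_image] at hs
    obtain ⟨x, hx, rfl⟩ := hs
    rw [mem_tup] at hx
    have h0 := (mem_box _ _).1 (hB (hx 0))
    have h1 := (mem_box _ _).1 (hB (hx 1))
    have h2 := (mem_box _ _).1 (hB (hx 2))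
    have e : xm x = x 0 + x 1 + x 2 := by
      unfold xm
      rw [Fin.sum_univ_three]
    rw [e, mem_box]
    push_cast at h0 h1 h2 ⊢
    simp only [Prod.fst_add, Prod.snd_add]
    simp only [abs_le] at h0 h1 h2 ⊢
    omega
  have h2 := Finset.card_le_card h1
  rw [card_box] at h2
  have h3 : (((tup 3 B).image xm).card : ℝ) ≤ ((2 * (6 * K) + 1) ^ 2 : ℕ) := by exact_mod_cast h2
  refine h3.trans ?_
  push_cast
  have hK' : (1:ℝ) ≤ K := by exact_mod_cast hK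
  nlinarith

lemma S_six_le {K : ℕ} (hK : 1 ≤ K) {B : Finset (ℤ × ℤ)} (hB : B ⊆ box (2 * K)) (b : ℤ × ℤ → ℝ)
    (a : ℝ × ℝ) (t : ℝ) : ‖S B b a t‖ ^ 6 ≤ 169 * (K:ℝ) ^ 2 * MP 3 B b t := by
  have h1 : ‖S B b a t‖ ^ 6 = ‖S B b a t ^ 3‖ ^ 2 := by rw [norm_pow]; ring
  rw [h1, S_pow]
  refine (G_sq_le _ _ _ _ _ _).trans ?_
  exact mul_le_mul_of_nonneg_right (card_image_le hK hB) (MP_nonneg _ _ _ _)

lemma sS_six_le {K : ℕ} (hK : 1 ≤ K) {B : Finset (ℤ × ℤ)} (hB : B ⊆ box (2 * K)) (b : ℤ × ℤ → ℝ)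
    (t : ℝ) : sS B b t ^ (6:ℝ) ≤ ENNReal.ofReal (169 * (K:ℝ) ^ 2) * ENNReal.ofReal (MP 3 B b t) := by
  rw [← ENNReal.ofReal_mul (by positivity)]
  have hD0 : 0 ≤ 169 * (K:ℝ) ^ 2 * MP 3 B b t := by
    have := MP_nonneg 3 B b t
    positivity
  set D := 169 * (K:ℝ) ^ 2 * MP 3 B b t with hD
  have h1 : sS B b t ≤ ENNReal.ofReal (D ^ (1 / 6 : ℝ)) := by
    apply iSup_le
    intro a
    apply ENNReal.ofReal_le_ofReal
    have h2 := S_six_le hK hB b a t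
    have h3 : ‖S B b a t‖ = (‖S B b a t‖ ^ 6) ^ (1 / 6 : ℝ) := by
      rw [← Real.rpow_natCast, ← Real.rpow_mul (norm_nonneg _)]
      norm_num
    rw [h3]
    exact Real.rpow_le_rpow (by positivity) h2 (by norm_num)
  calc sS B b t ^ (6:ℝ) ≤ ENNReal.ofReal (D ^ (1 / 6 : ℝ)) ^ (6:ℝ) := ENNReal.rpow_le_rpow h1 (by norm_num)
    _ = ENNReal.ofReal ((D ^ (1 / 6 : ℝ)) ^ (6:ℝ)) :=
        ENNReal.ofReal_rpow_of_nonneg (by positivity) (by norm_num)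
    _ = ENNReal.ofReal D := by
        rw [← Real.rpow_mul hD0]
        norm_num

end PSIX

/-- **SIX.** -/
theorem six : S_SIX := by
  intro ε θ hε hθ0 hθ
  obtain ⟨C, hC, h⟩ := HE_three hθ ε hε
  refine ⟨169 * (Real.exp Real.pi * (C * 2 ^ (9 + ε))), by positivity, ?_⟩
  intro K B b κ X H hK hB hκ hb hH
  have hK' : (1:ℝ) ≤ K := by exact_mod_cast hK
  have hK0 : (0:ℝ) < K := by linarith
  have g1 : ∫⁻ t in Icc X (X + H), sS B b t ^ (6:ℝ) ≤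
      ENNReal.ofReal (169 * (K:ℝ) ^ 2) * ∫⁻ t in Icc X (X + H), ENNReal.ofReal (MP 3 B b t) := by
    rw [← lintegral_const_mul' _ _ ENNReal.ofReal_ne_top]
    apply lintegral_mono
    intro t
    exact PSIX.sS_six_le hK hB b t
  have g2 := lint_MP_le hH X 3 B b (s := Icc X (X + H)) (by
    intro t ht
    rw [abs_le]
    constructor <;> linarith [ht.1, ht.2]) measurableSet_Icc
  have g3 := gauss_MP_le hH X 3 B b hb
  have g4 : H * EnM 3 B H ≤ C * (((2 * K : ℕ):ℝ) ^ (4 * ((3:ℕ):ℝ) - 3 + ε) * (1 + H * ((2 * K : ℕ):ℝ) ^ (-θ))) :=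
    (mul_le_mul_of_nonneg_left (EnM_mono 3 hB H) hH.le).trans (h (2 * K) H (by omega) hH)
  have g5 : ((2 * K : ℕ):ℝ) ^ (4 * ((3:ℕ):ℝ) - 3 + ε) = 2 ^ (9 + ε) * (K:ℝ) ^ (9 + ε) := by
    rw [Nat.cast_mul, Real.mul_rpow (by positivity) (by positivity)]
    norm_num
  have g6 : ((2 * K : ℕ):ℝ) ^ (-θ) ≤ (K:ℝ) ^ (-θ) := by
    apply Real.rpow_le_rpow_of_nonpos hK0 _ (by linarith)
    push_cast
    linarith
  have g7 : H * EnM 3 B H ≤ C * (2 ^ (9 + ε) * (K:ℝ) ^ (9 + ε) * (1 + H * (K:ℝ) ^ (-θ))) := by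
    refine g4.trans ?_
    rw [g5]
    gcongr
  have g8 : ∫ t, Real.exp (-(Real.pi * (t - X) ^ 2 / H ^ 2)) * MP 3 B b t ≤
      κ ^ 6 * (C * (2 ^ (9 + ε) * (K:ℝ) ^ (9 + ε) * (1 + H * (K:ℝ) ^ (-θ)))) := by
    refine g3.trans ?_
    calc H * κ ^ (2 * 3) * EnM 3 B H = κ ^ 6 * (H * EnM 3 B H) := by ring
      _ ≤ _ := mul_le_mul_of_nonneg_left g7 (by positivity)
  have e11 : (K:ℝ) ^ (11 + ε) = (K:ℝ) ^ 2 * (K:ℝ) ^ (9 + ε) := by
    rw [← Real.rpow_natCast, ← Real.rpow_add hK0]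
    norm_num
    ring_nf
  calc ∫⁻ t in Icc X (X + H), sS B b t ^ (6:ℝ)
      ≤ ENNReal.ofReal (169 * (K:ℝ) ^ 2) * ∫⁻ t in Icc X (X + H), ENNReal.ofReal (MP 3 B b t) := g1
    _ ≤ ENNReal.ofReal (169 * (K:ℝ) ^ 2) * ENNReal.ofReal (Real.exp Real.pi *
        ∫ t, Real.exp (-(Real.pi * (t - X) ^ 2 / H ^ 2)) * MP 3 B b t) := by gcongr
    _ ≤ ENNReal.ofReal (169 * (K:ℝ) ^ 2) * ENNReal.ofReal (Real.exp Real.pi *
        (κ ^ 6 * (C * (2 ^ (9 + ε) * (K:ℝ) ^ (9 + ε) * (1 + H * (K:ℝ) ^ (-θ)))))) := by gcongr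
    _ = _ := by
        rw [← ENNReal.ofReal_mul (by positivity), e11]
        congr 1
        ring

end Pool.Agent.H593.U
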