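import Mathlib
import Pool.Agent.H593.U7.Stm

/-!
# SUP: suprema over sets of centres
-/

set_option autoImplicit false

open MeasureTheory Set Filter Topology
open Pool.Agent.H383.Gauss
open scoped ENNReal

namespace Pool.Agent.H593.U.PSUP

/-- the supremum is a Lipschitz functional -/
lemma sup_lip {ι : Type*} [Nonempty ι] (F G : ι → ℝ) (D : ℝ) (h : ∀ a, |F a - G a| ≤ D) :
    |(⨆ a, F a) - ⨆ a, G a| ≤ D := by
  have hle : ∀ (F G : ι → ℝ), (∀ a, |F a - G a| ≤ D) → BddAbove (range G) →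
      BddAbove (range F) ∧ (⨆ a, F a) ≤ (⨆ a, G a) + D := by
    intro F G h hG
    have h1 : ∀ a, F a ≤ (⨆ a, G a) + D := fun a => by
      have h2 := (abs_le.1 (h a)).2
      have h3 := le_ciSup hG a
      linarith
    refine ⟨⟨(⨆ a, G a) + D, ?_⟩, ciSup_le h1⟩
    rintro x ⟨a, rfl⟩
    exact h1 a
  have h' : ∀ a, |G a - F a| ≤ D := fun a => by
    rw [abs_sub_comm]
    exact h a
  by_cases hG : BddAbove (range G)
  · obtain ⟨hF, h1⟩ := hle F G h hG
    obtain ⟨-, h2⟩ := hle G F h' hF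
    rw [abs_le]
    constructor <;> linarith
  · have hF : ¬ BddAbove (range F) := fun hF => hG (hle G F h' hF).1
    rw [Real.iSup_of_not_bddAbove hF, Real.iSup_of_not_bddAbove hG, sub_zero, abs_zero]
    obtain ⟨a⟩ := (inferInstance : Nonempty ι)
    exact (abs_nonneg _).trans (h a)

/-- the discrepancy is bounded uniformly in the centre -/
lemma Pa_bdd (R : ℝ) (hR : 0 ≤ R) : ∃ C : ℝ, ∀ a : ℝ × ℝ, |Pa a R| ≤ C := by
  obtain ⟨C0, -, h0⟩ := Pa_small
  obtain ⟨C1, -, h1⟩ := Pa_lin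
  rcases le_total R 64 with h | h
  · exact ⟨C0, fun a => h0 a R hR h⟩
  · exact ⟨C1 * R, fun a => h1 a R (by linarith)⟩

lemma Na_bdd (R : ℝ) (hR : 0 ≤ R) : ∃ C : ℝ, ∀ a : ℝ × ℝ, Na a R ≤ C := by
  obtain ⟨C, h⟩ := Pa_bdd R hR
  refine ⟨C + Real.pi * R ^ 2, fun a => ?_⟩
  have h1 := (abs_le.1 (h a)).2
  unfold Pa at h1
  linarith

/-- `s * Na a R` is bounded above -/
lemma sNa_bdd (A : Set (ℝ × ℝ)) (s : ℝ) (hs : s = 1 ∨ s = -1) (R : ℝ) (hR : 0 ≤ R) :
    BddAbove (range fun a : A => s * Na (a : ℝ × ℝ) R) := by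
  obtain ⟨C, h⟩ := Na_bdd R hR
  refine ⟨max C 0, ?_⟩
  rintro x ⟨a, rfl⟩
  rcases hs with rfl | rfl
  · show 1 * Na (a : ℝ × ℝ) R ≤ _
    rw [one_mul]
    exact (h a).trans (le_max_left _ _)
  · show -1 * Na (a : ℝ × ℝ) R ≤ _
    have h1 := Na_nonneg (a : ℝ × ℝ) R
    have h2 : (0 : ℝ) ≤ max C 0 := le_max_right _ _
    linarith

lemma sPa_bdd (A : Set (ℝ × ℝ)) (s : ℝ) (hs : s = 1 ∨ s = -1) (R : ℝ) (hR : 0 ≤ R) :
    BddAbove (range fun a : A => s * (Pa (a : ℝ × ℝ) R / √R)) := by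
  obtain ⟨C, h⟩ := Pa_bdd R hR
  refine ⟨C / √R, ?_⟩
  rintro x ⟨a, rfl⟩
  have h1 := abs_le.1 (h a)
  have h2 : 0 ≤ √R := Real.sqrt_nonneg R
  rcases hs with rfl | rfl
  · show 1 * (Pa (a : ℝ × ℝ) R / √R) ≤ _
    rw [one_mul]
    exact div_le_div_of_nonneg_right h1.2 h2
  · show -1 * (Pa (a : ℝ × ℝ) R / √R) ≤ _
    rw [← mul_div_assoc]
    exact div_le_div_of_nonneg_right (by linarith) h2

/-- the supremum of the signed counting function -/
noncomputable def hN (A : Set (ℝ × ℝ)) (s : ℝ) (R : ℝ) : ℝ := ⨆ a : A, s * Na (a : ℝ × ℝ) (max R 0)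

lemma hN_meas (A : Set (ℝ × ℝ)) (hA : A.Nonempty) (s : ℝ) (hs : s = 1 ∨ s = -1) :
    Measurable (hN A s) := by
  have : Nonempty A := hA.to_subtype
  have key : ∀ R R' : ℝ, R ≤ R' → ∀ a : ℝ × ℝ, Na a (max R 0) ≤ Na a (max R' 0) := by
    intro R R' h a
    exact Na_mono a (le_max_right _ _) (max_le_max_right 0 h)
  rcases hs with rfl | rfl
  · apply Monotone.measurable
    intro R R' h
    unfold hN
    refine ciSup_le fun a => ?_
    have h1 := le_ciSup (sNa_bdd A 1 (Or.inl rfl) (max R' 0) (le_max_right _ _)) a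
    have h2 := key R R' h a
    have h3 : 1 * Na (a : ℝ × ℝ) (max R' 0) ≤ ⨆ a : A, 1 * Na (a : ℝ × ℝ) (max R' 0) := h1
    linarith
  · apply Antitone.measurable
    intro R R' h
    unfold hN
    refine ciSup_le fun a => ?_
    have h1 := le_ciSup (sNa_bdd A (-1) (Or.inr rfl) (max R 0) (le_max_right _ _)) a
    have h2 := key R R' h a
    have h3 : -1 * Na (a : ℝ × ℝ) (max R 0) ≤ ⨆ a : A, -1 * Na (a : ℝ × ℝ) (max R 0) := h1
    linarith

lemma sup_eq (A : Set (ℝ × ℝ)) (hA : A.Nonempty) (s : ℝ) (hs : s = 1 ∨ s = -1) (R : ℝ) :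
    (⨆ a : A, s * (Pa (a : ℝ × ℝ) R / √R)) = (hN A s R - s * (Real.pi * R ^ 2)) / √R := by
  have : Nonempty A := hA.to_subtype
  rcases le_or_gt R 0 with hR | hR
  · have h0 : √R = 0 := Real.sqrt_eq_zero_of_nonpos hR
    simp only [h0, div_zero, mul_zero]
    exact ciSup_const
  · have hs0 : 0 < √R := Real.sqrt_pos.2 hR
    have hmax : max R 0 = R := max_eq_left hR.le
    unfold hN
    rw [hmax]
    have hb1 := sNa_bdd A s hs R hR.le
    have hb2 := sPa_bdd A s hs R hR.le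
    apply le_antisymm
    · refine ciSup_le fun a => ?_
      have h1 : s * Na (a : ℝ × ℝ) R ≤ ⨆ a : A, s * Na (a : ℝ × ℝ) R := le_ciSup hb1 a
      have h2 : s * (Pa (a : ℝ × ℝ) R / √R) =
          (s * Na (a : ℝ × ℝ) R - s * (Real.pi * R ^ 2)) / √R := by
        unfold Pa
        ring
      rw [h2]
      exact div_le_div_of_nonneg_right (by linarith) hs0.le
    · rw [div_le_iff₀ hs0, sub_le_iff_le_add]
      refine ciSup_le fun a => ?_
      have h1 : s * (Pa (a : ℝ × ℝ) R / √R) ≤ ⨆ a : A, s * (Pa (a : ℝ × ℝ) R / √R) :=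
        le_ciSup hb2 a
      have h2 : s * (Pa (a : ℝ × ℝ) R / √R) * √R =
          s * Na (a : ℝ × ℝ) R - s * (Real.pi * R ^ 2) := by
        unfold Pa
        field_simp
      have h3 := mul_le_mul_of_nonneg_right h1 hs0.le
      rw [h2] at h3
      linarith

end Pool.Agent.H593.U.PSUP

namespace Pool.Agent.H593.U

theorem sup : S_SUP := by
  intro A hA s hs
  have : Nonempty A := hA.to_subtype
  constructor
  · have h1 : (fun R : ℝ => ⨆ a : A, s * (Pa (a : ℝ × ℝ) R / √R)) =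
        fun R : ℝ => (PSUP.hN A s R - s * (Real.pi * R ^ 2)) / √R := by
      funext R
      exact PSUP.sup_eq A hA s hs R
    rw [h1]
    exact ((PSUP.hN_meas A hA s hs).sub (by fun_prop)).div (by fun_prop)
  · intro f g D h
    refine PSUP.sup_lip (fun a : A => s * f (a : ℝ × ℝ)) (fun a : A => s * g (a : ℝ × ℝ)) D
      (fun a => ?_)
    show |s * f (a : ℝ × ℝ) - s * g (a : ℝ × ℝ)| ≤ D
    rcases hs with rfl | rfl
    · rw [one_mul, one_mul]
      exact h a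
    · rw [show -1 * f (a : ℝ × ℝ) - -1 * g (a : ℝ × ℝ) = -(f (a : ℝ × ℝ) - g (a : ℝ × ℝ)) by ring,
        abs_neg]
      exact h a

end Pool.Agent.H593.U
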