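import Mathlib
import Pool.Agent.H593.U7.Stm

/-!
# The sum over the blocks
-/

open MeasureTheory Set Filter Topology
open Pool.Agent.H383.Gauss
open scoped ENNReal

namespace Pool.Agent.H593.U.PTAIL

/-- Minkowski for finite sums -/
theorem mink {α ι : Type*} [MeasurableSpace α] (μ : Measure α) {p : ℝ} (hp : 1 ≤ p) (s : Finset ι)
    (f : ι → α → ℝ≥0∞) (hf : ∀ i, Measurable (f i)) :
    (∫⁻ a, (∑ i ∈ s, f i a) ^ p ∂μ) ^ (1 / p) ≤ ∑ i ∈ s, (∫⁻ a, f i a ^ p ∂μ) ^ (1 / p) := by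
  classical
  have hp0 : 0 < p := by linarith
  induction s using Finset.induction_on with
  | empty =>
    simp only [Finset.sum_empty]
    rw [ENNReal.zero_rpow_of_pos hp0, lintegral_zero, ENNReal.zero_rpow_of_pos (by positivity)]
  | insert i s hi ih =>
    simp only [Finset.sum_insert hi]
    have h1 := ENNReal.lintegral_Lp_add_le (μ := μ) (p := p) (f := f i) (g := fun a => ∑ i ∈ s, f i a)
      (hf i).aemeasurable (Finset.measurable_fun_sum s fun i _ => hf i).aemeasurable hp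
    refine le_trans ?_ (h1.trans (add_le_add le_rfl ih))
    rfl

theorem geo {r : ℝ} (h0 : 0 < r) (h1 : r < 1) (J0 J : ℕ) :
    ∑ j ∈ Finset.Ico J0 J, r ^ j ≤ r ^ J0 / (1 - r) := by
  have h2 : 0 < 1 - r := by linarith
  rcases le_or_gt J0 J with h | h
  · rw [geom_sum_Ico (by linarith : r ≠ 1) h]
    have h3 : (r ^ J - r ^ J0) / (r - 1) = (r ^ J0 - r ^ J) / (1 - r) := by
      rw [← neg_div_neg_eq]; ring
    rw [h3]
    have h4 : 0 < r ^ J := by positivity
    exact div_le_div_of_nonneg_right (by linarith) h2.le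
  · rw [Finset.Ico_eq_empty (by omega), Finset.sum_empty]
    positivity

end Pool.Agent.H593.U.PTAIL

namespace Pool.Agent.H593.U

open PTAIL in
theorem tail (h : S_TONE) : S_TAIL := by
  intro p hp1 hp6
  obtain ⟨c, η, d, C, hc0, hc1, hη0, hη1, hd, hC, h⟩ := h p hp1 hp6
  have hp0 : 0 < p := by linarith
  set r : ℝ := (2:ℝ) ^ (-d) with hr
  have hr0 : 0 < r := by positivity
  have hr1 : r < 1 := Real.rpow_lt_one_of_one_lt_of_neg (by norm_num) (by linarith)
  have hr2 : 0 < 1 - r := by linarith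
  refine ⟨c, η, r, C / (1 - r) ^ p, hc0, hc1, hη0, hη1, hr0, hr1, by positivity, ?_⟩
  intro X H Y J0 J B hX hH1 hH2 hB
  have hH0 : 0 < H := lt_of_lt_of_le (Real.rpow_pos_of_pos (by linarith) _) hH1
  set μ := volume.restrict (Icc (X - 1) (X + H + 1)) with hμ
  set f : ℕ → ℝ → ℝ≥0∞ := fun j t => sS (B j) (bw (X ^ (-(1/2) - η))) t with hf
  have h1 := mink μ hp1 (Finset.Ico J0 J) f (fun j => measurable_sS _ _)
  have h2 : ∀ j ∈ Finset.Ico J0 J, (∫⁻ t, f j t ^ p ∂μ) ^ (1 / p) ≤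
      ENNReal.ofReal ((C * H) ^ (1 / p) * r ^ j) := by
    intro j _
    have h3 := h X H Y j (B j) hX hH1 hH2 (hB j)
    calc (∫⁻ t, f j t ^ p ∂μ) ^ (1 / p) ≤ (ENNReal.ofReal (C * (H * (r ^ j) ^ p))) ^ (1 / p) :=
          ENNReal.rpow_le_rpow h3 (by positivity)
      _ = ENNReal.ofReal ((C * H) ^ (1 / p) * r ^ j) := by
          rw [ENNReal.ofReal_rpow_of_nonneg (by positivity) (by positivity), ← mul_assoc,
            Real.mul_rpow (by positivity) (by positivity), ← Real.rpow_mul (by positivity),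
            mul_one_div_cancel hp0.ne', Real.rpow_one]
  have h3 : ∑ j ∈ Finset.Ico J0 J, (∫⁻ t, f j t ^ p ∂μ) ^ (1 / p) ≤
      ENNReal.ofReal ((C * H) ^ (1 / p) * (r ^ J0 / (1 - r))) := by
    calc _ ≤ ∑ j ∈ Finset.Ico J0 J, ENNReal.ofReal ((C * H) ^ (1 / p) * r ^ j) :=
          Finset.sum_le_sum h2
      _ = ENNReal.ofReal (∑ j ∈ Finset.Ico J0 J, (C * H) ^ (1 / p) * r ^ j) :=
          (ENNReal.ofReal_sum_of_nonneg fun j _ => by positivity).symm
      _ ≤ _ := by
          apply ENNReal.ofReal_le_ofReal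
          rw [← Finset.mul_sum]
          exact mul_le_mul_of_nonneg_left (geo hr0 hr1 J0 J) (by positivity)
  have h4 := ENNReal.rpow_le_rpow (h1.trans h3) hp0.le
  rw [← ENNReal.rpow_mul, one_div_mul_cancel hp0.ne', ENNReal.rpow_one,
    ENNReal.ofReal_rpow_of_nonneg (by positivity) hp0.le] at h4
  refine h4.trans (ENNReal.ofReal_le_ofReal ?_)
  rw [Real.mul_rpow (by positivity) (by positivity), ← Real.rpow_mul (by positivity),
    one_div_mul_cancel hp0.ne', Real.rpow_one, Real.div_rpow (by positivity) hr2.le]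
  have h5 : (r ^ J0) ^ p ≤ r ^ J0 := by
    calc (r ^ J0) ^ p ≤ (r ^ J0) ^ (1:ℝ) :=
          Real.rpow_le_rpow_of_exponent_ge (by positivity) (pow_le_one₀ hr0.le hr1.le) hp1
      _ = r ^ J0 := Real.rpow_one _
  have h6 : 0 < (1 - r) ^ p := by positivity
  calc C * H * ((r ^ J0) ^ p / (1 - r) ^ p) ≤ C * H * (r ^ J0 / (1 - r) ^ p) := by gcongr
    _ = C / (1 - r) ^ p * (H * r ^ J0) := by field_simp

end Pool.Agent.H593.U
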