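import Mathlib
import Pool.Agent.H593.U7.Stm

/-!
# One block with the smoothed weights
-/

open MeasureTheory Set Filter Topology
open Pool.Agent.H383.Gauss
open scoped ENNReal

namespace Pool.Agent.H593.U

namespace PTONE

lemma sh_sub_An {Y j : ℕ} : sh Y j ⊆ An (2 ^ j) := by
  intro p hp
  unfold sh at hp
  rw [Finset.mem_filter, mem_B0] at hp
  obtain ⟨⟨hp0, -⟩, hlg⟩ := hp
  rw [mem_An]
  have h1 := lg_le hp0
  have h2 := lt_lg p
  rw [hlg] at h1 h2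
  push_cast
  refine ⟨h1, ?_⟩
  rw [pow_succ] at h2
  linarith

lemma An_sub_box {K : ℕ} : An K ⊆ box (2 * K) := by
  intro p hp
  unfold An at hp
  exact (Finset.mem_filter.mp hp).1

/-- interpolation between `L^0` and `L^6` -/
lemma pw {p l : ℝ} (hp : 0 ≤ p) (hp6 : p ≤ 6) (hl : 0 < l) (x : ℝ≥0∞) :
    x ^ p ≤ ENNReal.ofReal (l ^ p) + ENNReal.ofReal (l ^ (p - 6)) * x ^ (6:ℝ) := by
  rcases le_or_gt x (ENNReal.ofReal l) with h | h
  · refine le_trans ?_ le_self_add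
    rw [← ENNReal.ofReal_rpow_of_pos hl]
    exact ENNReal.rpow_le_rpow h hp
  · refine le_trans ?_ le_add_self
    rcases eq_or_ne x ⊤ with hx | hx
    · rw [hx, ENNReal.top_rpow_of_pos (by norm_num : (0:ℝ) < 6), ENNReal.mul_top]
      · exact le_top
      · rw [Ne, ENNReal.ofReal_eq_zero, not_le]
        positivity
    · lift x to NNReal using hx
      have hx0 : l < (x:ℝ) := by
        have := (ENNReal.ofReal_lt_iff_lt_toReal hl.le ENNReal.coe_ne_top).mp h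
        simpa using this
      have hx00 : 0 < (x:ℝ) := hl.trans hx0
      have e1 : ((x : NNReal) : ℝ≥0∞) = ENNReal.ofReal (x:ℝ) := by
        rw [ENNReal.ofReal_coe_nnreal]
      rw [e1, ENNReal.ofReal_rpow_of_pos hx00, ENNReal.ofReal_rpow_of_pos hx00,
        ← ENNReal.ofReal_mul (by positivity)]
      apply ENNReal.ofReal_le_ofReal
      have h2 : (x:ℝ) ^ (p - 6) ≤ l ^ (p - 6) :=
        Real.rpow_le_rpow_of_nonpos hl hx0.le (by linarith)
      calc (x:ℝ) ^ p = (x:ℝ) ^ (p - 6) * (x:ℝ) ^ (6:ℝ) := by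
            rw [← Real.rpow_add hx00]; congr 1; ring
        _ ≤ l ^ (p - 6) * (x:ℝ) ^ (6:ℝ) := by gcongr

/-- the integrated form -/
lemma lint_pw {p l A H X : ℝ} (hp : 0 ≤ p) (hp6 : p ≤ 6) (hl : 0 < l) (hA : 0 ≤ A) (hH : 0 ≤ H)
    (f : ℝ → ℝ≥0∞) (h6 : ∫⁻ t in Icc X (X + H), f t ^ (6:ℝ) ≤ ENNReal.ofReal (A * l ^ (6:ℝ))) :
    ∫⁻ t in Icc X (X + H), f t ^ p ≤ ENNReal.ofReal ((H + A) * l ^ p) := by
  have h1 : ∫⁻ t in Icc X (X + H), f t ^ p ≤
      ∫⁻ t in Icc X (X + H), (ENNReal.ofReal (l ^ p) + ENNReal.ofReal (l ^ (p - 6)) * f t ^ (6:ℝ)) :=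
    lintegral_mono fun t => pw hp hp6 hl (f t)
  refine h1.trans ?_
  rw [lintegral_add_left measurable_const, setLIntegral_const, Real.volume_Icc,
    lintegral_const_mul' _ _ ENNReal.ofReal_ne_top, add_sub_cancel_left]
  have h2 : ENNReal.ofReal (l ^ (p - 6)) * ∫⁻ t in Icc X (X + H), f t ^ (6:ℝ) ≤
      ENNReal.ofReal (l ^ (p - 6)) * ENNReal.ofReal (A * l ^ (6:ℝ)) := by gcongr
  refine (add_le_add le_rfl h2).trans ?_
  rw [← ENNReal.ofReal_mul (by positivity), ← ENNReal.ofReal_mul (by positivity),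
    ← ENNReal.ofReal_add (by positivity) (by positivity)]
  apply ENNReal.ofReal_le_ofReal
  have e : l ^ (p - 6) * (A * l ^ (6:ℝ)) = A * l ^ p := by
    have : l ^ p = l ^ (p - 6) * l ^ (6:ℝ) := by
      rw [← Real.rpow_add hl]; congr 1; ring
    rw [this]; ring
  rw [e]
  linarith [mul_comm (l ^ p) H]

lemma case1 {X k e : ℝ} (hX : 1 ≤ X) (he : 0 < e) (he1 : e ≤ 1 / 1000) (hk0 : 0 < k)
    (hk : k ≤ X ^ (1 / 2 + 2 * (e / 20))) : k ^ (2 - e) ≤ X ^ (1 - e / 20) := by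
  have hX0 : 0 < X := by linarith
  calc k ^ (2 - e) ≤ (X ^ (1 / 2 + 2 * (e / 20))) ^ (2 - e) :=
        Real.rpow_le_rpow hk0.le hk (by linarith)
    _ = X ^ ((1 / 2 + 2 * (e / 20)) * (2 - e)) := by rw [← Real.rpow_mul hX0.le]
    _ ≤ X ^ (1 - e / 20) := Real.rpow_le_rpow_of_exponent_le hX (by nlinarith)

lemma case2a {X m n : ℝ} (hX : 1 ≤ X) (hm : 1 ≤ m) (hn : 0 < n) (hn1 : n ≤ 1 / 100) :
    (X ^ n * m) ^ (-9:ℝ) * (X ^ (1 / 2 + 2 * n) * m) ^ (2 * n) ≤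
      (X ^ (1 / 2 + 2 * n) * m) ^ (-n) := by
  have hX0 : 0 < X := by linarith
  have hm0 : 0 < m := by linarith
  rw [Real.mul_rpow (by positivity) hm0.le, Real.mul_rpow (by positivity) hm0.le,
    Real.mul_rpow (by positivity) hm0.le, ← Real.rpow_mul hX0.le, ← Real.rpow_mul hX0.le,
    ← Real.rpow_mul hX0.le]
  have e1 : X ^ (n * -9) * m ^ (-9:ℝ) * (X ^ ((1 / 2 + 2 * n) * (2 * n)) * m ^ (2 * n)) =
      X ^ (n * -9 + (1 / 2 + 2 * n) * (2 * n)) * m ^ (-9 + 2 * n) := by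
    rw [Real.rpow_add hX0, Real.rpow_add hm0]; ring
  rw [e1]
  gcongr ?_ * ?_
  · exact Real.rpow_le_rpow_of_exponent_le hX (by nlinarith)
  · exact Real.rpow_le_rpow_of_exponent_le hm (by linarith)

lemma case2b {X m n : ℝ} (hX : 1 ≤ X) (hm : 1 ≤ m) (hn : 0 < n) (hn1 : n ≤ 1 / 100) :
    (X ^ n * m) ^ (-9:ℝ) * (X ^ (1 / 2 + 2 * n) * m) ^ (2 + n) ≤
      X ^ (1 - n) * (X ^ (1 / 2 + 2 * n) * m) ^ (-n) := by
  have hX0 : 0 < X := by linarith
  have hm0 : 0 < m := by linarith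
  rw [Real.mul_rpow (by positivity) hm0.le, Real.mul_rpow (by positivity) hm0.le,
    Real.mul_rpow (by positivity) hm0.le, ← Real.rpow_mul hX0.le, ← Real.rpow_mul hX0.le,
    ← Real.rpow_mul hX0.le]
  have e1 : X ^ (n * -9) * m ^ (-9:ℝ) * (X ^ ((1 / 2 + 2 * n) * (2 + n)) * m ^ (2 + n)) =
      X ^ (n * -9 + (1 / 2 + 2 * n) * (2 + n)) * m ^ (-9 + (2 + n)) := by
    rw [Real.rpow_add hX0 (n * -9), Real.rpow_add hm0 (-9) (2 + n)]
    generalize m ^ (2 + n) = u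
    ring
  have e2 : X ^ (1 - n) * (X ^ ((1 / 2 + 2 * n) * -n) * m ^ (-n)) =
      X ^ (1 - n + (1 / 2 + 2 * n) * -n) * m ^ (-n) := by
    rw [Real.rpow_add hX0]; ring
  rw [e1, e2]
  gcongr ?_ * ?_
  · exact Real.rpow_le_rpow_of_exponent_le hX (by nlinarith)
  · exact Real.rpow_le_rpow_of_exponent_le hm (by linarith)

/-- the sixth moment in the second case -/
lemma sixth {X k n H H' : ℝ} (hX : 1 ≤ X) (hn : 0 < n) (hn1 : n ≤ 1 / 100)
    (hk : X ^ (1 / 2 + 2 * n) ≤ k) (hH : X ^ (1 - n) ≤ H) (hH' : H' ≤ 3 * H) :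
    (k ^ (-(3/2):ℝ) * (X ^ (-(1/2) - n) * k) ^ (-(3/2):ℝ)) ^ 6 *
      (k ^ (11 + n) * (1 + H' * k ^ (-(2 - n)))) ≤ 4 * H * k ^ (-n) := by
  have hX0 : 0 < X := by linarith
  have hA0 : 0 < X ^ (1 / 2 + 2 * n) := by positivity
  have hk0 : 0 < k := hA0.trans_le hk
  obtain ⟨m, hm, rfl⟩ : ∃ m, 1 ≤ m ∧ k = X ^ (1 / 2 + 2 * n) * m :=
    ⟨k / X ^ (1 / 2 + 2 * n), by rwa [one_le_div hA0], by field_simp⟩
  have hm0 : 0 < m := by linarith
  set k := X ^ (1 / 2 + 2 * n) * m with hkdef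
  have hd : X ^ (-(1/2) - n) * k = X ^ n * m := by
    rw [hkdef, ← mul_assoc, ← Real.rpow_add hX0]
    congr 2
    ring
  have e0 : ∀ y : ℝ, 0 < y → (y ^ (-(3/2):ℝ)) ^ 6 = y ^ (-9:ℝ) := by
    intro y hy
    rw [← Real.rpow_natCast (y ^ (-(3/2):ℝ)) 6, ← Real.rpow_mul hy.le]
    congr 1
    norm_num
  rw [hd, mul_pow, e0 k hk0, e0 (X ^ n * m) (by positivity)]
  have h1 := case2a hX hm hn hn1
  have h2 := case2b hX hm hn hn1
  rw [← hkdef] at h1 h2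
  have e3 : k ^ (-9:ℝ) * k ^ (11 + n) = k ^ (2 + n) := by
    rw [← Real.rpow_add hk0]; congr 1; ring
  have e4 : k ^ (2 + n) * k ^ (-(2 - n)) = k ^ (2 * n) := by
    rw [← Real.rpow_add hk0]; congr 1; ring
  have hkn : 0 < k ^ (-n) := by positivity
  have hD : 0 < (X ^ n * m) ^ (-9:ℝ) := by positivity
  have hH0 : 0 < H := lt_of_lt_of_le (by positivity) hH
  calc k ^ (-9:ℝ) * (X ^ n * m) ^ (-9:ℝ) * (k ^ (11 + n) * (1 + H' * k ^ (-(2 - n))))
      = (X ^ n * m) ^ (-9:ℝ) * (k ^ (-9:ℝ) * k ^ (11 + n)) +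
        H' * ((X ^ n * m) ^ (-9:ℝ) * ((k ^ (-9:ℝ) * k ^ (11 + n)) * k ^ (-(2 - n)))) := by ring
    _ = (X ^ n * m) ^ (-9:ℝ) * k ^ (2 + n) + H' * ((X ^ n * m) ^ (-9:ℝ) * k ^ (2 * n)) := by
        rw [e3, e4]
    _ ≤ X ^ (1 - n) * k ^ (-n) + (3 * H) * k ^ (-n) := by
        have h3 : H' * ((X ^ n * m) ^ (-9:ℝ) * k ^ (2 * n)) ≤
            (3 * H) * ((X ^ n * m) ^ (-9:ℝ) * k ^ (2 * n)) := by gcongr
        have h4 : (3 * H) * ((X ^ n * m) ^ (-9:ℝ) * k ^ (2 * n)) ≤ (3 * H) * k ^ (-n) := by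
          gcongr
        linarith
    _ ≤ H * k ^ (-n) + (3 * H) * k ^ (-n) := by gcongr
    _ = 4 * H * k ^ (-n) := by ring

end PTONE

open PTONE in
/-- **TONE.** -/
theorem tone (h1 : S_BLK) (h2 : S_SIX) : S_TONE := by
  intro p hp1 hp6
  obtain ⟨e, d, C, he0, he1, hd0, hd1, hC0, hblk⟩ := h1 p hp1 hp6
  set n : ℝ := e / 20 with hn
  have hn0 : 0 < n := by positivity
  have hn1 : n ≤ 1 / 100 := by rw [hn]; linarith
  obtain ⟨C6, hC6, hsix⟩ := h2 n (2 - n) hn0 (by linarith) (by linarith)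
  refine ⟨n, n, min d (n / 6), 3 * C + (3 + 4 * C6), hn0, by linarith, hn0, by linarith,
    lt_min hd0 (by positivity), by positivity, ?_⟩
  intro X H Y j B hX hXH hHX hB
  have hX0 : 0 < X := by linarith
  have hH1 : 1 ≤ H := (Real.one_le_rpow hX (by linarith)).trans hXH
  set k : ℝ := (2:ℝ) ^ j with hk
  have hk1 : 1 ≤ k := one_le_pow₀ (by norm_num)
  have hk0 : 0 < k := by linarith
  have hkc : (((2 ^ j : ℕ)) : ℝ) = k := by rw [hk]; push_cast; rfl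
  have hK1 : 1 ≤ 2 ^ j := Nat.one_le_two_pow
  set δ : ℝ := X ^ (-(1/2) - n) with hδ
  have hδ0 : 0 < δ := by positivity
  have hBA : B ⊆ An (2 ^ j) := hB.trans sh_sub_An
  have hbw : ∀ q ∈ B, |bw δ q| ≤ k ^ (-(3/2):ℝ) * min 1 ((δ * k) ^ (-(3/2):ℝ)) :=
    fun q hq => bw_shell hδ0 (hB hq)
  -- the comparison of the geometric factors
  have hr : ((2:ℝ) ^ (-(min d (n / 6)))) ^ j = k ^ (-(min d (n / 6))) := by
    rw [hk, ← Real.rpow_natCast, ← Real.rpow_mul (by norm_num : (0:ℝ) ≤ 2),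
      ← Real.rpow_natCast, ← Real.rpow_mul (by norm_num : (0:ℝ) ≤ 2), mul_comm]
  have hrd : k ^ (-d) ≤ k ^ (-(min d (n / 6))) :=
    Real.rpow_le_rpow_of_exponent_le hk1 (by linarith [min_le_left d (n / 6)])
  have hrn : k ^ (-(n / 6)) ≤ k ^ (-(min d (n / 6))) :=
    Real.rpow_le_rpow_of_exponent_le hk1 (by linarith [min_le_right d (n / 6)])
  rw [hr]
  set r : ℝ := k ^ (-(min d (n / 6))) with hrdef
  have hr0 : 0 < r := by positivity
  have hwin : X + H + 1 = (X - 1) + (H + 2) := by ring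
  rw [hwin]
  have hH3 : H + 2 ≤ 3 * H := by linarith
  rcases le_or_gt k (X ^ (1 / 2 + 2 * n)) with hcase | hcase
  · have hlow : ((2 ^ j : ℕ) : ℝ) ^ (2 - e) ≤ H + 2 := by
      rw [hkc]
      have := case1 hX he0 he1 hk0 hcase
      linarith
    have h3 := hblk (2 ^ j) B (bw δ) (k ^ (-(3/2):ℝ)) (X - 1) (H + 2) hK1 hBA (by positivity)
      (fun q hq => (hbw q hq).trans (mul_le_of_le_one_right (by positivity) (min_le_left _ _))) hlow
    refine h3.trans (ENNReal.ofReal_le_ofReal ?_)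
    rw [hkc]
    have e1 : k ^ (-(3/2):ℝ) * k ^ (3/2 - d) = k ^ (-d) := by
      rw [← Real.rpow_add hk0]; congr 1; ring
    rw [e1]
    have h4 : (k ^ (-d)) ^ p ≤ r ^ p :=
      Real.rpow_le_rpow (by positivity) hrd (by linarith)
    calc C * ((H + 2) * (k ^ (-d)) ^ p) ≤ C * ((3 * H) * r ^ p) := by gcongr
      _ = 3 * C * (H * r ^ p) := by ring
      _ ≤ (3 * C + (3 + 4 * C6)) * (H * r ^ p) := by
          gcongr
          linarith
  · have h3 := hsix (2 ^ j) B (bw δ) (k ^ (-(3/2):ℝ) * (δ * k) ^ (-(3/2):ℝ)) (X - 1) (H + 2) hK1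
      (hBA.trans An_sub_box) (by positivity)
      (fun q hq => (hbw q hq).trans (by gcongr; exact min_le_right _ _)) (by linarith)
    rw [hkc] at h3
    have h4 := sixth hX hn0 hn1 hcase.le hXH hH3
    rw [← hδ] at h4
    set l : ℝ := k ^ (-(n / 6)) with hl
    have hl0 : 0 < l := by positivity
    have hl6 : l ^ (6:ℝ) = k ^ (-n) := by
      rw [hl, ← Real.rpow_mul hk0.le]; congr 1; ring
    have h5 : ∫⁻ t in Icc (X - 1) (X - 1 + (H + 2)), sS B (bw δ) t ^ (6:ℝ) ≤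
        ENNReal.ofReal ((4 * C6 * H) * l ^ (6:ℝ)) := by
      refine h3.trans (ENNReal.ofReal_le_ofReal ?_)
      rw [hl6]
      calc _ ≤ C6 * (4 * H * k ^ (-n)) := by gcongr
        _ = _ := by ring
    have h6 := lint_pw (p := p) (by linarith) hp6.le hl0 (by positivity) (by linarith) _ h5
    refine h6.trans (ENNReal.ofReal_le_ofReal ?_)
    have h7 : l ^ p ≤ r ^ p := Real.rpow_le_rpow hl0.le hrn (by linarith)
    calc (H + 2 + 4 * C6 * H) * l ^ p ≤ (3 * H + 4 * C6 * H) * r ^ p := by gcongr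
      _ = (3 + 4 * C6) * (H * r ^ p) := by ring
      _ ≤ (3 * C + (3 + 4 * C6)) * (H * r ^ p) :=
          mul_le_mul_of_nonneg_right (by linarith) (by positivity)

end Pool.Agent.H593.U
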