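import Mathlib
import Pool.Agent.H593.U7.Stm

open MeasureTheory Set Filter Topology
open scoped ENNReal

namespace Pool.Agent.H593.U

namespace PTOR

/-- complex window mean -/
noncomputable def cav (X H : ℝ) (g : ℝ → ℂ) : ℂ :=
  ((1 / H : ℝ) : ℂ) * ∫ t in Icc X (X + H), g t

/-- the window means form a Cauchy family -/
def Good (g : ℝ → ℂ) : Prop := ∀ ε : ℝ, 0 < ε → ∃ H0 : ℝ, 0 < H0 ∧
  ∀ X H X' H' : ℝ, H0 ≤ H → H0 ≤ H' → ‖cav X H g - cav X' H' g‖ ≤ ε

lemma cav_add (X H : ℝ) (g h : ℝ → ℂ) (hg : Continuous g) (hh : Continuous h) :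
    cav X H (fun t => g t + h t) = cav X H g + cav X H h := by
  unfold cav
  rw [integral_add hg.continuousOn.integrableOn_Icc hh.continuousOn.integrableOn_Icc, mul_add]

lemma cav_mul (X H : ℝ) (c : ℂ) (g : ℝ → ℂ) : cav X H (fun t => c * g t) = c * cav X H g := by
  unfold cav
  rw [integral_const_mul]
  ring

lemma cav_bound (X H : ℝ) (hH : 0 < H) (g : ℝ → ℂ) (ε : ℝ) (hε : ∀ t, ‖g t‖ ≤ ε) :
    ‖cav X H g‖ ≤ ε := by
  unfold cav
  have h1 : ‖∫ t in Icc X (X + H), g t‖ ≤ ε * volume.real (Icc X (X + H)) :=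
    norm_setIntegral_le_of_norm_le_const (by simp) (fun t _ => hε t)
  have h2 : volume.real (Icc X (X + H)) = H := by
    rw [Real.volume_real_Icc]
    rw [max_eq_left (by linarith)]
    ring
  rw [h2] at h1
  rw [norm_mul, Complex.norm_real, Real.norm_eq_abs, abs_of_pos (by positivity)]
  calc 1 / H * ‖∫ t in Icc X (X + H), g t‖ ≤ 1 / H * (ε * H) := by gcongr
    _ = ε := by field_simp

lemma good_add (g h : ℝ → ℂ) (hg : Continuous g) (hh : Continuous h) (Gg : Good g) (Gh : Good h) :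
    Good (fun t => g t + h t) := by
  intro ε hε
  obtain ⟨H1, hH1, h1⟩ := Gg (ε / 2) (by positivity)
  obtain ⟨H2, hH2, h2⟩ := Gh (ε / 2) (by positivity)
  refine ⟨max H1 H2, lt_max_of_lt_left hH1, fun X H X' H' hH hH' => ?_⟩
  rw [cav_add X H g h hg hh, cav_add X' H' g h hg hh]
  have e1 := h1 X H X' H' ((le_max_left _ _).trans hH) ((le_max_left _ _).trans hH')
  have e2 := h2 X H X' H' ((le_max_right _ _).trans hH) ((le_max_right _ _).trans hH')
  calc ‖cav X H g + cav X H h - (cav X' H' g + cav X' H' h)‖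
      = ‖(cav X H g - cav X' H' g) + (cav X H h - cav X' H' h)‖ := by congr 1; ring
    _ ≤ ‖cav X H g - cav X' H' g‖ + ‖cav X H h - cav X' H' h‖ := norm_add_le _ _
    _ ≤ ε := by linarith

lemma good_mul (c : ℂ) (g : ℝ → ℂ) (Gg : Good g) : Good (fun t => c * g t) := by
  intro ε hε
  obtain ⟨H1, hH1, h1⟩ := Gg (ε / (‖c‖ + 1)) (by positivity)
  refine ⟨H1, hH1, fun X H X' H' hH hH' => ?_⟩
  rw [cav_mul, cav_mul, ← mul_sub, norm_mul]
  have e1 := h1 X H X' H' hH hH'
  calc ‖c‖ * ‖cav X H g - cav X' H' g‖ ≤ (‖c‖ + 1) * (ε / (‖c‖ + 1)) := by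
        gcongr
        linarith
    _ = ε := by field_simp

lemma good_lim (g : ℝ → ℂ) (hg : Continuous g)
    (h : ∀ ε : ℝ, 0 < ε → ∃ f : ℝ → ℂ, Continuous f ∧ Good f ∧ ∀ t, ‖g t - f t‖ ≤ ε) : Good g := by
  intro ε hε
  obtain ⟨f, hf, Gf, hfg⟩ := h (ε / 3) (by positivity)
  obtain ⟨H1, hH1, h1⟩ := Gf (ε / 3) (by positivity)
  refine ⟨H1, hH1, fun X H X' H' hH hH' => ?_⟩
  have key : ∀ Y K : ℝ, H1 ≤ K → ‖cav Y K g - cav Y K f‖ ≤ ε / 3 := by
    intro Y K hK
    have h2 : cav Y K g - cav Y K f = cav Y K (fun t => g t - f t) := by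
      have h3 := cav_add Y K (fun t => g t - f t) f (hg.sub hf) hf
      have h4 : (fun t => g t - f t + f t) = g := by funext t; ring
      rw [h4] at h3
      rw [h3]; ring
    rw [h2]
    exact cav_bound Y K (by linarith) _ _ hfg
  have e1 := key X H hH
  have e2 := key X' H' hH'
  have e3 := h1 X H X' H' hH hH'
  rw [norm_sub_rev] at e2
  calc ‖cav X H g - cav X' H' g‖
      = ‖(cav X H g - cav X H f) + (cav X H f - cav X' H' f) + (cav X' H' f - cav X' H' g)‖ := by
        congr 1; ring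
    _ ≤ ‖(cav X H g - cav X H f) + (cav X H f - cav X' H' f)‖ + ‖cav X' H' f - cav X' H' g‖ :=
        norm_add_le _ _
    _ ≤ ‖cav X H g - cav X H f‖ + ‖cav X H f - cav X' H' f‖ + ‖cav X' H' f - cav X' H' g‖ := by
        gcongr
        exact norm_add_le _ _
    _ ≤ ε := by linarith

lemma good_one : Good (fun _ => (1 : ℂ)) := by
  intro ε hε
  refine ⟨1, one_pos, fun X H X' H' hH hH' => ?_⟩
  have key : ∀ Y K : ℝ, 1 ≤ K → cav Y K (fun _ => (1 : ℂ)) = 1 := by
    intro Y K hK
    unfold cav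
    rw [setIntegral_const, Real.volume_real_Icc, max_eq_left (by linarith)]
    have hK0 : (K : ℂ) ≠ 0 := by
      exact_mod_cast (by linarith : K ≠ 0)
    rw [Complex.real_smul]
    push_cast
    field_simp
    ring
  rw [key X H hH, key X' H' hH', sub_self, norm_zero]
  exact hε.le

lemma good_exp (c : ℂ) (hc0 : c ≠ 0) (hc : c.re = 0) : Good (fun t : ℝ => Complex.exp (c * t)) := by
  intro ε hε
  have hcn : 0 < ‖c‖ := norm_pos_iff.2 hc0
  refine ⟨4 / (‖c‖ * ε), by positivity, fun X H X' H' hH hH' => ?_⟩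
  have key : ∀ Y K : ℝ, 4 / (‖c‖ * ε) ≤ K →
      ‖cav Y K (fun t : ℝ => Complex.exp (c * t))‖ ≤ ε / 2 := by
    intro Y K hK
    have hK0 : 0 < K := lt_of_lt_of_le (by positivity) hK
    unfold cav
    rw [integral_Icc_eq_integral_Ioc, ← intervalIntegral.integral_of_le (by linarith),
      integral_exp_mul_complex hc0, norm_mul, norm_div, Complex.norm_real, Real.norm_eq_abs,
      abs_of_pos (by positivity)]
    have hn : ∀ t : ℝ, ‖Complex.exp (c * t)‖ = 1 := by
      intro t
      rw [Complex.norm_exp]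
      simp [hc]
    have h1 : ‖Complex.exp (c * ((Y + K : ℝ) : ℂ)) - Complex.exp (c * (Y : ℂ))‖ ≤ 2 := by
      refine (norm_sub_le _ _).trans ?_
      rw [hn, hn]; norm_num
    calc 1 / K * (‖Complex.exp (c * ((Y + K : ℝ) : ℂ)) - Complex.exp (c * (Y : ℂ))‖ / ‖c‖)
        ≤ 1 / K * (2 / ‖c‖) := by gcongr
      _ ≤ ε / 2 := by
        rw [div_mul_div_comm, one_mul, div_le_div_iff₀ (by positivity) (by norm_num)]
        rw [div_le_iff₀ (by positivity)] at hK
        nlinarith
  refine (norm_sub_le _ _).trans ?_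
  have := key X H hH
  have := key X' H' hH'
  linarith

/-- the linear flow -/
noncomputable def lin {ι : Type} (lam : ι → ℝ) (t : ℝ) : UnitAddTorus ι :=
  fun i => ((t * lam i : ℝ) : UnitAddCircle)

lemma continuous_lin {ι : Type} (lam : ι → ℝ) : Continuous (lin lam) := by
  refine continuous_pi fun i => ?_
  exact (AddCircle.continuous_mk' 1).comp (continuous_id.mul continuous_const)

lemma good_mF {ι : Type} [Fintype ι] (lam : ι → ℝ) (n : ι → ℤ) :
    Good (fun t => UnitAddTorus.mFourier n (lin lam t)) := by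
  set c : ℂ := 2 * Real.pi * Complex.I * ((∑ i, n i * lam i : ℝ) : ℂ) with hc
  have h1 : (fun t => UnitAddTorus.mFourier n (lin lam t)) =
      fun t : ℝ => Complex.exp (c * t) := by
    funext t
    show ∏ i, fourier (n i) (((t * lam i : ℝ)) : UnitAddCircle) = _
    have h2 : ∀ i, fourier (n i) (((t * lam i : ℝ)) : UnitAddCircle)
        = Complex.exp (2 * Real.pi * Complex.I * ((n i * lam i : ℝ) : ℂ) * t) := by
      intro i
      rw [fourier_coe_apply]
      congr 1
      push_cast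
      ring
    rw [Finset.prod_congr rfl (fun i _ => h2 i), ← Complex.exp_sum]
    congr 1
    rw [hc, ← Finset.sum_mul, ← Finset.mul_sum]
    push_cast
    ring
  rw [h1]
  by_cases hc0 : c = 0
  · rw [hc0]
    simp only [zero_mul, Complex.exp_zero]
    exact good_one
  · exact good_exp c hc0 (by rw [hc]; simp)

lemma good_all {ι : Type} [Fintype ι] (lam : ι → ℝ) (g : C(UnitAddTorus ι, ℂ)) :
    Good (fun t => g (lin lam t)) := by
  have hspan : ∀ h ∈ Submodule.span ℂ (range <| UnitAddTorus.mFourier (d := ι)),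
      Good (fun t => h (lin lam t)) := by
    intro h hh
    induction hh using Submodule.span_induction with
    | mem x hx =>
      obtain ⟨n, rfl⟩ := hx
      exact good_mF lam n
    | zero =>
      intro ε hε
      refine ⟨1, one_pos, fun X H X' H' _ _ => ?_⟩
      unfold cav
      simp
      exact hε.le
    | add x y _ _ hx hy =>
      exact good_add _ _ (x.continuous.comp (continuous_lin lam))
        (y.continuous.comp (continuous_lin lam)) hx hy
    | smul c x _ hx => exact good_mul c _ hx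
  refine good_lim _ (g.continuous.comp (continuous_lin lam)) fun ε hε => ?_
  have hg : g ∈ (Submodule.span ℂ (range <| UnitAddTorus.mFourier (d := ι))).topologicalClosure := by
    rw [UnitAddTorus.span_mFourier_closure_eq_top]
    trivial
  obtain ⟨h, hh, hd⟩ := Metric.mem_closure_iff.1
    (show g ∈ closure ((Submodule.span ℂ (range <| UnitAddTorus.mFourier (d := ι)) :
      Set C(UnitAddTorus ι, ℂ))) from hg) ε hε
  refine ⟨fun t => h (lin lam t), h.continuous.comp (continuous_lin lam), hspan h hh, fun t => ?_⟩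
  have h1 := ContinuousMap.dist_apply_le_dist (f := g) (g := h) (lin lam t)
  rw [dist_eq_norm] at h1
  exact h1.trans hd.le

lemma coe_eq (x y : ℝ) (h : (x : UnitAddCircle) = y) : ∃ k : ℤ, x = y + k := by
  have h' : (x : AddCircle (1 : ℝ)) = y := h
  rw [QuotientAddGroup.eq, AddSubgroup.mem_zmultiples_iff] at h'
  obtain ⟨k, hk⟩ := h'
  refine ⟨-k, ?_⟩
  simp at hk
  push_cast
  linarith

end PTOR

open PTOR in
theorem tor : S_TOR := by
  intro ι _ lam Φ hΦ hper
  classical
  -- descend to the torus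
  have hsurj : Function.Surjective (fun x : ℝ => (x : UnitAddCircle)) :=
    QuotientAddGroup.mk_surjective (s := AddSubgroup.zmultiples (1 : ℝ))
  choose rep hrep using hsurj
  let q : (ι → ℝ) → UnitAddTorus ι := Pi.map (fun _ (x : ℝ) => (x : UnitAddCircle))
  have hq : IsOpenQuotientMap q :=
    IsOpenQuotientMap.piMap (fun _ => QuotientAddGroup.isOpenQuotientMap_mk)
  let g : UnitAddTorus ι → ℂ := fun y => ((Φ (fun i => rep (y i)) : ℝ) : ℂ)
  have hgq : ∀ x, g (q x) = ((Φ x : ℝ) : ℂ) := by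
    intro x
    have h1 : ∀ i, ∃ k : ℤ, rep ((x i : ℝ) : UnitAddCircle) = x i + k := fun i => coe_eq _ _ (hrep _)
    choose k hk using h1
    show ((Φ (fun i => rep ((x i : ℝ) : UnitAddCircle)) : ℝ) : ℂ) = _
    rw [show (fun i => rep ((x i : ℝ) : UnitAddCircle)) = fun i => x i + k i from funext hk, hper]
  have hgc : Continuous g := by
    rw [hq.isQuotientMap.continuous_iff]
    have : g ∘ q = fun x => ((Φ x : ℝ) : ℂ) := funext hgq
    rw [this]
    exact Complex.continuous_ofReal.comp hΦ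
  have hG := good_all lam ⟨g, hgc⟩
  have hG2 : Good (fun t => ((Φ (fun i => t * lam i) : ℝ) : ℂ)) := by
    have : (fun t => ((Φ (fun i => t * lam i) : ℝ) : ℂ)) =
        fun t => (⟨g, hgc⟩ : C(UnitAddTorus ι, ℂ)) (lin lam t) := by
      funext t
      exact (hgq _).symm
    rw [this]
    exact hG
  set F : ℝ → ℝ := fun t => Φ (fun i => t * lam i) with hF
  have hcav : ∀ X H : ℝ, cav X H (fun t => ((F t : ℝ) : ℂ)) = ((avg X H F : ℝ) : ℂ) := by
    intro X H
    unfold cav avg
    have h1 : ∫ t in Icc X (X + H), ((F t : ℝ) : ℂ) = ((∫ t in Icc X (X + H), F t : ℝ) : ℂ) :=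
      integral_ofReal
    rw [Complex.ofReal_mul]
    exact congrArg _ h1
  have hreal : ∀ ε : ℝ, 0 < ε → ∃ H0 : ℝ, 0 < H0 ∧
      ∀ X H X' H' : ℝ, H0 ≤ H → H0 ≤ H' → |avg X H F - avg X' H' F| ≤ ε := by
    intro ε hε
    obtain ⟨H0, h0, h⟩ := hG2 ε hε
    refine ⟨H0, h0, fun X H X' H' hH hH' => ?_⟩
    have h1 := h X H X' H' hH hH'
    rw [hcav, hcav, ← Complex.ofReal_sub, Complex.norm_real] at h1
    exact h1
  have hcauchy : CauchySeq (fun n : ℕ => avg 0 n F) := by
    rw [Metric.cauchySeq_iff]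
    intro ε hε
    obtain ⟨H0, h0, h⟩ := hreal (ε / 2) (by positivity)
    obtain ⟨N, hN⟩ := exists_nat_ge H0
    refine ⟨N, fun m hm n hn => ?_⟩
    have h1 := h 0 m 0 n (hN.trans (by exact_mod_cast hm)) (hN.trans (by exact_mod_cast hn))
    rw [Real.dist_eq]
    linarith
  obtain ⟨L, hL⟩ := cauchySeq_tendsto_of_complete hcauchy
  refine ⟨L, fun ε hε => ?_⟩
  obtain ⟨H0, h0, h⟩ := hreal ε hε
  refine ⟨H0, h0, fun X H hH => ?_⟩
  have h1 : Tendsto (fun n : ℕ => |avg X H F - avg 0 n F|) atTop (𝓝 |avg X H F - L|) :=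
    (tendsto_const_nhds.sub hL).abs
  refine le_of_tendsto h1 ?_
  obtain ⟨N, hN⟩ := exists_nat_ge H0
  filter_upwards [eventually_ge_atTop N] with n hn
  exact h X H 0 n hH (hN.trans (by exact_mod_cast hn))

end Pool.Agent.H593.U
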