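import Mathlib
import Pool.Agent.H593.U7.Stm2

/-!
# Almost all unit intervals
-/

set_option autoImplicit false

open MeasureTheory Set Filter Topology
open Pool.Agent.H383.Gauss
open scoped ENNReal

namespace Pool.Agent.H593.U

namespace PUNIT

/-- the volume over the whole window `[X - 1, 2 X + 2]` -/
lemma vol {p C c X0 : ℝ} (hc : 0 < c) (hC : 0 < C)
    (h : ∀ X H V : ℝ, X0 ≤ X → X ^ (1 - c) ≤ H → H ≤ X → 0 < V →
      volume {R : ℝ | X ≤ R ∧ R ≤ X + H ∧ ∃ a : ℝ × ℝ, V * √R < |Pa a R|} ≤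
        ENNReal.ofReal (C * (H * V ^ (-p))))
    {X V : ℝ} (hX : 3 ≤ X) (hX0 : X0 ≤ X - 1) (hV : 0 < V) :
    volume {R : ℝ | X - 1 ≤ R ∧ R ≤ 2 * X + 2 ∧ ∃ a : ℝ × ℝ, V * √R < |Pa a R|} ≤
      ENNReal.ofReal (3 * (C * (X * V ^ (-p)))) := by
  have h1 := h (X - 1) (X - 1) V hX0 (by
    calc (X - 1) ^ (1 - c) ≤ (X - 1) ^ (1:ℝ) :=
          Real.rpow_le_rpow_of_exponent_le (by linarith) (by linarith)
      _ = X - 1 := Real.rpow_one _) le_rfl hV
  have h2 := h (2 * (X - 1)) (2 * (X - 1)) V (by linarith) (by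
    calc (2 * (X - 1)) ^ (1 - c) ≤ (2 * (X - 1)) ^ (1:ℝ) :=
          Real.rpow_le_rpow_of_exponent_le (by linarith) (by linarith)
      _ = 2 * (X - 1) := Real.rpow_one _) le_rfl hV
  have hVp : 0 < V ^ (-p) := Real.rpow_pos_of_pos hV _
  have hsub : {R : ℝ | X - 1 ≤ R ∧ R ≤ 2 * X + 2 ∧ ∃ a : ℝ × ℝ, V * √R < |Pa a R|} ⊆
      {R : ℝ | X - 1 ≤ R ∧ R ≤ X - 1 + (X - 1) ∧ ∃ a : ℝ × ℝ, V * √R < |Pa a R|} ∪
      {R : ℝ | 2 * (X - 1) ≤ R ∧ R ≤ 2 * (X - 1) + 2 * (X - 1) ∧ ∃ a : ℝ × ℝ, V * √R < |Pa a R|} := by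
    rintro R ⟨k1, k2, a, ha⟩
    rcases le_total R (2 * (X - 1)) with k | k
    · left
      exact ⟨k1, by linarith, a, ha⟩
    · right
      exact ⟨k, by linarith, a, ha⟩
  refine (measure_mono hsub).trans ((measure_union_le _ _).trans ((add_le_add h1 h2).trans ?_))
  have hX1 : 0 ≤ X - 1 := by linarith
  rw [← ENNReal.ofReal_add (by positivity) (by positivity)]
  apply ENNReal.ofReal_le_ofReal
  have k1 : (X - 1) * V ^ (-p) ≤ X * V ^ (-p) := by gcongr; linarith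
  nlinarith

/-- well-spaced radii -/
lemma count {p C c X0 : ℝ} (hc : 0 < c) (hC : 0 < C)
    (h : ∀ X H V : ℝ, X0 ≤ X → X ^ (1 - c) ≤ H → H ≤ X → 0 < V →
      volume {R : ℝ | X ≤ R ∧ R ≤ X + H ∧ ∃ a : ℝ × ℝ, V * √R < |Pa a R|} ≤
        ENNReal.ofReal (C * (H * V ^ (-p))))
    {X V η : ℝ} (hX : 16 ≤ X) (hX0 : X0 ≤ X - 1) (hV : 0 < V) (hη0 : 0 < η) (hη : η ≤ 1 / 100)
    (hη2 : η * √X ≤ V / 100)
    (T : Finset ℝ) (hT : ∀ r ∈ T, X ≤ r ∧ r ≤ 2 * X + 1 ∧ ∃ a : ℝ × ℝ, V * √r < |Pa a r|)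
    (hsep : ∀ r ∈ T, ∀ s ∈ T, r ≠ s → 1 ≤ |r - s|) :
    (T.card : ℝ) * η ≤ 3 * (C * (X * (V / 4) ^ (-p))) := by
  have hex : ∀ r : ℝ, r ∈ T → ∃ c : ℝ, r - η ≤ c ∧ c ≤ r ∧
      ∃ a : ℝ × ℝ, ∀ R' : ℝ, c ≤ R' → R' ≤ c + η → V / 4 * √R' < |Pa a R'| := by
    intro r hr
    obtain ⟨k1, k2, a, ha⟩ := hT r hr
    obtain ⟨c, hc1, hc2, hc3⟩ := persist hX k1 (by linarith) hV hη0 (by linarith) hη2 ha
    exact ⟨c, hc1, hc2, a, hc3⟩
  choose! c' hc' using hex
  have hp := pack T (η := η) c'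
    {R : ℝ | X - 1 ≤ R ∧ R ≤ 2 * X + 2 ∧ ∃ a : ℝ × ℝ, V / 4 * √R < |Pa a R|}
    (fun r hr => ⟨(hc' r hr).1, (hc' r hr).2.1⟩)
    (by
      intro r hr R' hR'
      obtain ⟨k1, k2, a, ha⟩ := hc' r hr
      obtain ⟨k3, k4, -⟩ := hT r hr
      exact ⟨by linarith [hR'.1], by linarith [hR'.2], a, ha R' hR'.1 hR'.2⟩)
    (by
      intro r hr s hs hrs
      have := hsep r hr s hs hrs
      linarith)
  have hv := vol hc hC h (X := X) (V := V / 4) (by linarith) hX0 (by positivity)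
  have hVp : 0 < (V / 4) ^ (-p) := Real.rpow_pos_of_pos (by positivity) _
  have hle := hp.trans hv
  rw [← ENNReal.ofReal_natCast, ← ENNReal.ofReal_mul (by positivity),
    ENNReal.ofReal_le_ofReal_iff (by positivity)] at hle
  exact hle

/-- the arithmetic of the exponents -/
lemma expo {p C e X : ℝ} (hC : 0 < C) (he : 0 < e) (he1 : e ≤ 1 / 14) (hp : p = 6 - e) (hX : 1 ≤ X)
    {N : ℝ} (h : N * (X ^ (1 / 14 + e) / (100 * √X)) ≤
      3 * (C * (X * (X ^ (1 / 14 + e) / 4) ^ (-p)))) :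
    N ≤ 300 * C * 4 ^ p * X ^ (1 - 5 * e) := by
  have hX0 : 0 < X := by linarith
  set V := X ^ (1 / 14 + e) with hV
  have hV0 : 0 < V := by positivity
  have hsX : 0 < √X := Real.sqrt_pos.mpr hX0
  have h1 : N ≤ 3 * (C * (X * (V / 4) ^ (-p))) / (V / (100 * √X)) := by
    rw [le_div_iff₀ (by positivity)]
    exact h
  refine h1.trans ?_
  have h2 : (V / 4) ^ (-p) = V ^ (-p) * 4 ^ p := by
    rw [Real.div_rpow hV0.le (by norm_num), Real.rpow_neg (by norm_num : (0:ℝ) ≤ 4), div_inv_eq_mul]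
  have h3 : 3 * (C * (X * (V / 4) ^ (-p))) / (V / (100 * √X)) =
      300 * C * 4 ^ p * (X * √X * (V ^ (-p) / V)) := by
    rw [h2]
    field_simp
    ring
  rw [h3]
  have h4 : X * √X * (V ^ (-p) / V) = X ^ (1 + 1 / 2 - (1 / 14 + e) * (p + 1)) := by
    have a1 : V ^ (-p) / V = V ^ (-p - 1) := by
      rw [Real.rpow_sub hV0, Real.rpow_one]
    have a2 : V ^ (-p - 1) = X ^ ((1 / 14 + e) * (-p - 1)) := by
      rw [hV, ← Real.rpow_mul hX0.le]
    rw [a1, a2, Real.sqrt_eq_rpow, show X * X ^ (1 / 2 : ℝ) = X ^ (1 + 1 / 2 : ℝ) by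
      rw [Real.rpow_add hX0, Real.rpow_one], ← Real.rpow_add hX0]
    congr 1
    ring
  rw [h4]
  have h5 : X ^ (1 + 1 / 2 - (1 / 14 + e) * (p + 1)) ≤ X ^ (1 - 5 * e) := by
    apply Real.rpow_le_rpow_of_exponent_le hX
    rw [hp]
    nlinarith
  have : 0 < 300 * C * (4:ℝ) ^ p := by positivity
  exact mul_le_mul_of_nonneg_left h5 this.le

/-- the integers of one parity class -/
lemma parity {p C c X0 e X : ℝ} (hc : 0 < c) (hC : 0 < C)
    (h : ∀ X H V : ℝ, X0 ≤ X → X ^ (1 - c) ≤ H → H ≤ X → 0 < V →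
      volume {R : ℝ | X ≤ R ∧ R ≤ X + H ∧ ∃ a : ℝ × ℝ, V * √R < |Pa a R|} ≤
        ENNReal.ofReal (C * (H * V ^ (-p))))
    (he : 0 < e) (he1 : e ≤ 1 / 14) (hp : p = 6 - e) (hX : 16 ≤ X) (hX0 : X0 ≤ X - 1)
    (A : Finset ℕ) (q : ℕ) (hq : ∀ n ∈ A, n % 2 = q)
    (hA : ∀ n ∈ A, X ≤ n ∧ (n:ℝ) ≤ 2 * X ∧ ∃ R : ℝ, n ≤ R ∧ R ≤ n + 1 ∧
      ∃ a : ℝ × ℝ, R ^ (4/7 + e) < |Pa a R|) :
    (A.card : ℝ) ≤ 300 * C * 4 ^ p * X ^ (1 - 5 * e) := by
  have hXp : 0 < X := by linarith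
  have hX1 : 1 ≤ X := by linarith
  have hsX : 0 < √X := Real.sqrt_pos.mpr hXp
  have hex : ∀ n : ℕ, n ∈ A → ∃ R : ℝ, n ≤ R ∧ R ≤ n + 1 ∧
      ∃ a : ℝ × ℝ, R ^ (4/7 + e) < |Pa a R| := fun n hn => (hA n hn).2.2
  choose! r hr using hex
  have hgap : ∀ n ∈ A, ∀ m ∈ A, n ≠ m → 1 ≤ |r n - r m| := by
    have key : ∀ n ∈ A, ∀ m ∈ A, n < m → 1 ≤ r m - r n := by
      intro n hn m hm hnm
      have h1 := hq n hn
      have h2 := hq m hm
      have h3 : n + 2 ≤ m := by omega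
      have h4 : (n:ℝ) + 2 ≤ m := by exact_mod_cast h3
      have h5 := (hr n hn).2.1
      have h6 := (hr m hm).1
      linarith
    intro n hn m hm hnm
    rcases lt_or_gt_of_ne hnm with k | k
    · have := key n hn m hm k
      rw [abs_sub_comm]
      exact this.trans (le_abs_self _)
    · have := key m hm n hn k
      exact this.trans (le_abs_self _)
  have hinj : Set.InjOn r (A : Set ℕ) := by
    intro n hn m hm hnm
    by_contra hne
    have := hgap n hn m hm hne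
    rw [hnm, sub_self, abs_zero] at this
    linarith
  set V := X ^ (1 / 14 + e) with hV
  have hV0 : 0 < V := by positivity
  have hVX : V ≤ √X := by
    rw [hV, Real.sqrt_eq_rpow]
    apply Real.rpow_le_rpow_of_exponent_le hX1
    linarith
  have hη : V / (100 * √X) ≤ 1 / 100 := by
    rw [div_le_div_iff₀ (by positivity) (by norm_num)]
    linarith
  have hη2 : V / (100 * √X) * √X ≤ V / 100 := by
    apply le_of_eq
    field_simp
  have hcount := count hc hC h hX hX0 hV0 (show 0 < V / (100 * √X) by positivity) hη hη2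
    (A.image r) (by
      intro s hs
      obtain ⟨n, hn, rfl⟩ := Finset.mem_image.mp hs
      obtain ⟨k1, k2, -⟩ := hA n hn
      obtain ⟨k3, k4, a, ha⟩ := hr n hn
      refine ⟨by linarith, by linarith, a, ?_⟩
      have hr0 : 0 < r n := by linarith
      refine lt_of_le_of_lt ?_ ha
      have e1 : (r n) ^ (4 / 7 + e) = (r n) ^ (1 / 14 + e) * √(r n) := by
        rw [Real.sqrt_eq_rpow, ← Real.rpow_add hr0]
        congr 1
        ring
      rw [e1, hV]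
      have : X ^ (1 / 14 + e) ≤ (r n) ^ (1 / 14 + e) :=
        Real.rpow_le_rpow hXp.le (by linarith) (by linarith)
      gcongr)
    (by
      intro s hs t ht hst
      obtain ⟨n, hn, rfl⟩ := Finset.mem_image.mp hs
      obtain ⟨m, hm, rfl⟩ := Finset.mem_image.mp ht
      exact hgap n hn m hm (fun h => hst (by rw [h])))
  rw [Finset.card_image_of_injOn hinj] at hcount
  exact expo hC he he1 hp hX1 hcount

end PUNIT

theorem unit_int (h : S_MEAS) : S_UNIT := by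
  intro ε hε
  set e := min ε (1 / 14) with he
  have he0 : 0 < e := by positivity
  have he1 : e ≤ 1 / 14 := min_le_right _ _
  have heε : e ≤ ε := min_le_left _ _
  obtain ⟨c, C, X0, hc, hc1, hC, hM⟩ := h (6 - e) (by linarith) (by linarith)
  set X1 := max 16 (X0 + 1) with hX1
  have hX16 : 16 ≤ X1 := le_max_left _ _
  have hX01 : X0 + 1 ≤ X1 := le_max_right _ _
  have h4p : 0 < (4:ℝ) ^ (6 - e) := by positivity
  refine ⟨5 * e, 3 * X1 + 600 * C * 4 ^ (6 - e), by positivity, by positivity, ?_⟩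
  intro X A hX hA
  have hXp : 0 < X := by linarith
  have hXe : 1 ≤ X ^ (1 - 5 * e) := Real.one_le_rpow hX (by linarith)
  rcases lt_or_ge X X1 with hlt | hge
  · have hsub : A ⊆ Finset.range (⌊2 * X⌋₊ + 1) := by
      intro n hn
      obtain ⟨-, k2, -⟩ := hA n hn
      rw [Finset.mem_range, Nat.lt_succ_iff]
      exact Nat.le_floor k2
    have hcard : (A.card : ℝ) ≤ 2 * X + 1 := by
      have h1 := Finset.card_le_card hsub
      rw [Finset.card_range] at h1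
      have h2 : (A.card : ℝ) ≤ (⌊2 * X⌋₊ : ℝ) + 1 := by exact_mod_cast h1
      have h3 := Nat.floor_le (show 0 ≤ 2 * X by linarith)
      linarith
    have h600 : 0 < 600 * C * (4:ℝ) ^ (6 - e) := by positivity
    calc (A.card : ℝ) ≤ (3 * X1 + 600 * C * 4 ^ (6 - e)) * 1 := by linarith
      _ ≤ _ := by gcongr
  · have hA' : ∀ n ∈ A, X ≤ n ∧ (n:ℝ) ≤ 2 * X ∧ ∃ R : ℝ, n ≤ R ∧ R ≤ n + 1 ∧
        ∃ a : ℝ × ℝ, R ^ (4/7 + e) < |Pa a R| := by
      intro n hn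
      obtain ⟨k1, k2, R, k3, k4, a, ha⟩ := hA n hn
      refine ⟨k1, k2, R, k3, k4, a, lt_of_le_of_lt ?_ ha⟩
      exact Real.rpow_le_rpow_of_exponent_le (by linarith) (by linarith)
    have k0 := PUNIT.parity hc hC hM he0 he1 rfl (hX16.trans hge) (by linarith)
      (A.filter (fun n => n % 2 = 0)) 0 (fun n hn => (Finset.mem_filter.mp hn).2)
      (fun n hn => hA' n (Finset.mem_filter.mp hn).1)
    have k1 := PUNIT.parity hc hC hM he0 he1 rfl (hX16.trans hge) (by linarith)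
      (A.filter (fun n => ¬ n % 2 = 0)) 1
      (fun n hn => by have := (Finset.mem_filter.mp hn).2; omega)
      (fun n hn => hA' n (Finset.mem_filter.mp hn).1)
    have hsum := Finset.card_filter_add_card_filter_not (s := A) (fun n => n % 2 = 0)
    have hsum' : (A.card : ℝ) = ((A.filter (fun n => n % 2 = 0)).card : ℝ) +
        ((A.filter (fun n => ¬ n % 2 = 0)).card : ℝ) := by exact_mod_cast hsum.symm
    rw [hsum']
    have hX1' : 0 < 3 * X1 * X ^ (1 - 5 * e) := by positivity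
    nlinarith

end Pool.Agent.H593.U
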